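import Pool.Agent.Lib.E2F.Statements

set_option autoImplicit false

noncomputable section

namespace Pool.Agent.E2F

section sat

variable {R : Type*} [CommRing R] [IsDomain R] {M : Type*} [AddCommGroup M] [Module R M]

/-- the elements that are torsion modulo `Y` -/
def sat (Y : Submodule R M) : Submodule R M where
  carrier := {w | ∃ s : R, s ≠ 0 ∧ s • w ∈ Y}
  zero_mem' := ⟨1, one_ne_zero, by simp⟩
  add_mem' := by
    rintro a b ⟨s, hs, ha⟩ ⟨t, ht, hb⟩
    refine ⟨s * t, mul_ne_zero hs ht, ?_⟩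
    rw [smul_add]
    refine Y.add_mem ?_ ?_
    · rw [mul_comm, mul_smul]; exact Y.smul_mem _ ha
    · rw [mul_smul]; exact Y.smul_mem _ hb
  smul_mem' := by
    rintro c a ⟨s, hs, ha⟩
    refine ⟨s, hs, ?_⟩
    rw [smul_comm]; exact Y.smul_mem _ ha

theorem mem_sat {Y : Submodule R M} {w : M} : w ∈ sat Y ↔ ∃ s : R, s ≠ 0 ∧ s • w ∈ Y := Iff.rfl

theorem le_sat (Y : Submodule R M) : Y ≤ sat Y := fun w hw => ⟨1, one_ne_zero, by simpa using hw⟩

theorem sat_sat (Y : Submodule R M) : sat (sat Y) = sat Y := by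
  apply le_antisymm _ (le_sat _)
  rintro w ⟨s, hs, t, ht, h⟩
  exact ⟨t * s, mul_ne_zero ht hs, by rw [mul_smul]; exact h⟩

theorem sat_mono {Y Z : Submodule R M} (h : Y ≤ Z) : sat Y ≤ sat Z := by
  rintro w ⟨s, hs, hw⟩
  exact ⟨s, hs, h hw⟩

theorem sat_le_of_le {Y Z : Submodule R M} (h : Y ≤ sat Z) : sat Y ≤ sat Z := by
  rw [← sat_sat Z]; exact sat_mono h

theorem mem_sat_of_smul {Y : Submodule R M} {w : M} {s : R} (hs : s ≠ 0) (h : s • w ∈ sat Y) :
    w ∈ sat Y := by
  rw [← sat_sat Y]; exact ⟨s, hs, h⟩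

/-- A family `β^i w` which is dependent lies in the saturation of a finitely generated
submodule. -/
theorem exists_fg_of_dep (β : (Module.End R M)ˣ) (w : M)
    (h : ∃ f : ℤ →₀ R, f ≠ 0 ∧ (f.sum fun i r => r • ((β ^ i : (Module.End R M)ˣ) : Module.End R M) w) = 0) :
    ∃ I : Finset ℤ, ∀ i : ℤ, ((β ^ i : (Module.End R M)ˣ) : Module.End R M) w ∈
      sat (Submodule.span R ((fun i : ℤ => ((β ^ i : (Module.End R M)ˣ) : Module.End R M) w) '' I)) := by
  obtain ⟨f, hf, hsum⟩ := h
  have hne : f.support.Nonempty := Finsupp.support_nonempty_iff.mpr hf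
  set a := f.support.min' hne with ha
  set b := f.support.max' hne with hb
  have hab : a ≤ b := Finset.min'_le_max' _ _
  have hfa : f a ≠ 0 := Finsupp.mem_support_iff.mp (Finset.min'_mem _ _)
  have hfb : f b ≠ 0 := Finsupp.mem_support_iff.mp (Finset.max'_mem _ _)
  set g : ℤ → M := fun i : ℤ => ((β ^ i : (Module.End R M)ˣ) : Module.End R M) w with hg
  set I := Finset.Ico a b with hI
  set Y := Submodule.span R (g '' I) with hY
  have hshift : ∀ k i : ℤ, ((β ^ k : (Module.End R M)ˣ) : Module.End R M) (g i) = g (i + k) := by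
    intro k i
    show ((β ^ k : (Module.End R M)ˣ) : Module.End R M) (((β ^ i : (Module.End R M)ˣ) : Module.End R M) w) = _
    rw [← Module.End.mul_apply, ← Units.val_mul, ← zpow_add, add_comm]
  have hrel : ∀ k : ℤ, ∑ i ∈ f.support, f i • g (i + k) = 0 := by
    intro k
    have := congrArg (fun x => ((β ^ k : (Module.End R M)ˣ) : Module.End R M) x) hsum
    simp only [map_zero] at this
    rw [Finsupp.sum, map_sum] at this
    rw [← this]
    refine Finset.sum_congr rfl fun i _ => ?_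
    rw [map_smul, ← hshift]
  have hmem0 : ∀ i : ℤ, a ≤ i → i < b → g i ∈ sat Y := by
    intro i h1 h2
    exact le_sat _ (Submodule.subset_span ⟨i, by simp [hI, h1, h2], rfl⟩)
  have hup : ∀ n : ℕ, ∀ i : ℤ, a ≤ i → i < b + n → g i ∈ sat Y := by
    intro n
    induction n with
    | zero => intro i h1 h2; exact hmem0 i h1 (by simpa using h2)
    | succ n ih =>
      intro i h1 h2
      by_cases h3 : i < b + n
      · exact ih i h1 h3
      · have hi : i = b + n := by push_cast at h2; omega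
        have h4 := hrel n
        rw [← Finset.add_sum_erase _ _ (Finset.max'_mem _ hne), ← hb] at h4
        apply mem_sat_of_smul hfb
        rw [hi, eq_neg_of_add_eq_zero_left h4]
        refine (sat Y).neg_mem (Submodule.sum_mem _ fun k hk => (sat Y).smul_mem _ ?_)
        have hk' := Finset.mem_erase.mp hk
        have h5 : k ≤ b := Finset.le_max' _ _ hk'.2
        have h6 : a ≤ k := Finset.min'_le _ _ hk'.2
        have h7 : k ≠ b := hk'.1
        exact ih _ (by omega) (by omega)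
  have hdown : ∀ n : ℕ, ∀ i : ℤ, a - n ≤ i → i < b → g i ∈ sat Y := by
    intro n
    induction n with
    | zero => intro i h1 h2; exact hmem0 i (by simpa using h1) h2
    | succ n ih =>
      intro i h1 h2
      by_cases h3 : a - n ≤ i
      · exact ih i h3 h2
      · have hi : i = a + (-(n : ℤ) - 1) := by push_cast at h1; omega
        have h4 := hrel (-(n : ℤ) - 1)
        rw [← Finset.add_sum_erase _ _ (Finset.min'_mem _ hne), ← ha] at h4
        apply mem_sat_of_smul hfa
        rw [hi, eq_neg_of_add_eq_zero_left h4]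
        refine (sat Y).neg_mem (Submodule.sum_mem _ fun k hk => (sat Y).smul_mem _ ?_)
        have hk' := Finset.mem_erase.mp hk
        have h5 : k ≤ b := Finset.le_max' _ _ hk'.2
        have h6 : a ≤ k := Finset.min'_le _ _ hk'.2
        have h7 : k ≠ a := hk'.1
        exact ih _ (by omega) (by omega)
  refine ⟨I, fun i => ?_⟩
  rcases lt_or_ge i b with h1 | h1
  · exact hdown (a - i).toNat i (by omega) h1
  · exact hup (i - b + 1).toNat i (by omega) (by omega)

theorem exists_fg_of_dep_two (β1 β2 : (Module.End R M)ˣ) (u : M)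
    (h : ∀ (i j : ℤ) (β : (Module.End R M)ˣ), (β = β1 ∨ β = β2) →
      ∃ f : ℤ →₀ R, f ≠ 0 ∧ (f.sum fun k r => r • ((β ^ k : (Module.End R M)ˣ) : Module.End R M)
        (((β1 ^ i * β2 ^ j : (Module.End R M)ˣ) : Module.End R M) u)) = 0) :
    ∃ I : Finset (ℤ × ℤ), ∀ i j : ℤ, ((β1 ^ i * β2 ^ j : (Module.End R M)ˣ) : Module.End R M) u ∈
      sat (Submodule.span R ((fun p : ℤ × ℤ =>
        ((β1 ^ p.1 * β2 ^ p.2 : (Module.End R M)ˣ) : Module.End R M) u) '' I)) := by
  classical
  obtain ⟨I2, hI2⟩ := exists_fg_of_dep β2 u (by simpa using h 0 0 β2 (Or.inr rfl))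
  have hl : ∀ l : ℤ, ∃ I : Finset ℤ, ∀ i : ℤ, ((β1 ^ i : (Module.End R M)ˣ) : Module.End R M)
      (((β2 ^ l : (Module.End R M)ˣ) : Module.End R M) u) ∈
      sat (Submodule.span R ((fun i : ℤ => ((β1 ^ i : (Module.End R M)ˣ) : Module.End R M)
        (((β2 ^ l : (Module.End R M)ˣ) : Module.End R M) u)) '' I)) := by
    intro l
    exact exists_fg_of_dep β1 _ (by simpa using h 0 l β1 (Or.inl rfl))
  choose I1 hI1 using hl
  set J : Finset (ℤ × ℤ) := I2.biUnion fun l => (I1 l).image fun i => (i, l) with hJ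
  refine ⟨J, ?_⟩
  set Y := Submodule.span R ((fun p : ℤ × ℤ =>
        ((β1 ^ p.1 * β2 ^ p.2 : (Module.End R M)ˣ) : Module.End R M) u) '' J) with hY
  have h1 : ∀ l ∈ I2, ∀ i : ℤ, ((β1 ^ i : (Module.End R M)ˣ) : Module.End R M)
      (((β2 ^ l : (Module.End R M)ˣ) : Module.End R M) u) ∈ sat Y := by
    intro l hl i
    refine sat_mono (Submodule.span_mono ?_) (hI1 l i)
    rintro _ ⟨k, hk, rfl⟩
    refine ⟨(k, l), ?_, ?_⟩
    · simp only [hJ, Finset.coe_biUnion, Set.mem_iUnion]
      exact ⟨l, hl, by simpa using hk⟩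
    · simp [Units.val_mul]
  intro i j
  obtain ⟨s, hs, hs'⟩ := hI2 j
  apply mem_sat_of_smul hs
  rw [Units.val_mul, Module.End.mul_apply, ← map_smul]
  have h2 : ∀ x ∈ Submodule.span R ((fun i : ℤ => ((β2 ^ i : (Module.End R M)ˣ) : Module.End R M) u) '' I2),
      ((β1 ^ i : (Module.End R M)ˣ) : Module.End R M) x ∈ sat Y := by
    intro x hx
    induction hx using Submodule.span_induction with
    | mem x hx =>
      obtain ⟨l, hl, rfl⟩ := hx
      exact h1 l hl i
    | zero => simp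
    | add x y _ _ hx hy => rw [map_add]; exact (sat Y).add_mem hx hy
    | smul c x _ hx => rw [map_smul]; exact (sat Y).smul_mem _ hx
  exact h2 _ hs'

theorem A_eq (v : A) : v = e1 ^ v.toAdd.1 * e2 ^ v.toAdd.2 := by
  apply Multiplicative.toAdd.injective
  ext <;> simp [e1, e2]

theorem exists_fg_sat (α : A →* (Module.End R M)ˣ) (JL : AddSubgroup M) (U : Finset M)
    (hU : ∀ u ∈ U, u ∈ JL)
    (hgen : JL ≤ AddSubgroup.closure {w | ∃ (v : A), ∃ u ∈ U, w = (α v : Module.End R M) u})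
    (hst : ∀ (v : A), ∀ w ∈ JL, (α v : Module.End R M) w ∈ JL)
    (hdep : ∀ w ∈ JL, ∀ v : A, ∃ f : ℤ →₀ R, f ≠ 0 ∧
      (f.sum fun k r => r • ((α v ^ k : (Module.End R M)ˣ) : Module.End R M) w) = 0) :
    ∃ Y : Submodule R M, Y.FG ∧ Y ≤ Submodule.span R JL ∧ Submodule.span R (JL : Set M) ≤ sat Y := by
  classical
  have h1 : ∀ u ∈ U, ∃ I : Finset (ℤ × ℤ), ∀ v : A, (α v : Module.End R M) u ∈
      sat (Submodule.span R ((fun p : ℤ × ℤ =>
        ((α e1 ^ p.1 * α e2 ^ p.2 : (Module.End R M)ˣ) : Module.End R M) u) '' I)) := by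
    intro u hu
    obtain ⟨I, hI⟩ := exists_fg_of_dep_two (α e1) (α e2) u (by
      intro i j β hβ
      have : ((α e1 ^ i * α e2 ^ j : (Module.End R M)ˣ) : Module.End R M) u ∈ JL := by
        rw [← map_zpow, ← map_zpow, ← map_mul]
        exact hst _ _ (hU u hu)
      rcases hβ with rfl | rfl
      · exact hdep _ this e1
      · exact hdep _ this e2)
    refine ⟨I, fun v => ?_⟩
    have h2 := hI v.toAdd.1 v.toAdd.2
    rwa [← map_zpow, ← map_zpow, ← map_mul, ← A_eq v] at h2
  choose! I hI using h1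
  set Yf : M → Submodule R M := fun u => Submodule.span R ((fun p : ℤ × ℤ =>
        ((α e1 ^ p.1 * α e2 ^ p.2 : (Module.End R M)ˣ) : Module.End R M) u) '' (I u)) with hYf
  refine ⟨⨆ u ∈ U, Yf u, ?_, ?_, ?_⟩
  · refine Submodule.fg_biSup _ _ fun u _ => ?_
    exact Submodule.fg_span ((I u).finite_toSet.image _)
  · refine iSup₂_le fun u hu => Submodule.span_le.mpr ?_
    rintro _ ⟨p, -, rfl⟩
    apply Submodule.subset_span
    show ((α e1 ^ p.1 * α e2 ^ p.2 : (Module.End R M)ˣ) : Module.End R M) u ∈ JL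
    rw [← map_zpow, ← map_zpow, ← map_mul]
    exact hst _ _ (hU u hu)
  · refine Submodule.span_le.mpr ?_
    intro w hw
    have h2 : AddSubgroup.closure {w | ∃ (v : A), ∃ u ∈ U, w = (α v : Module.End R M) u} ≤
        (sat (⨆ u ∈ U, Yf u)).toAddSubgroup := by
      rw [AddSubgroup.closure_le]
      rintro _ ⟨v, u, hu, rfl⟩
      exact sat_mono (le_iSup₂_of_le u hu le_rfl) (hI u hu v)
    exact h2 (hgen hw)

theorem rank_quot_eq_zero {Y M0 : Submodule R M} (hYM : M0 ≤ sat Y) :
    Module.rank R (M0 ⧸ Y.comap M0.subtype) = 0 := by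
  rw [rank_eq_zero_iff]
  intro x
  obtain ⟨w, rfl⟩ := Submodule.Quotient.mk_surjective _ x
  obtain ⟨s, hs, hw⟩ := hYM w.2
  refine ⟨s, hs, ?_⟩
  rw [← Submodule.Quotient.mk_smul, Submodule.Quotient.mk_eq_zero]
  exact hw

theorem sat_of_rank_eq {M0 M1 : Submodule R M} (hle : M0 ≤ M1)
    (hfin : Module.rank R M0 < Cardinal.aleph0) (heq : Module.rank R M0 = Module.rank R M1) :
    M1 ≤ sat M0 := by
  have h1 := rank_quotient_add_rank_of_isDomain (M0.comap M1.subtype)
  have h2 : Module.rank R (M0.comap M1.subtype) = Module.rank R M0 :=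
    (Submodule.comapSubtypeEquivOfLe hle).rank_eq
  rw [h2, ← heq] at h1
  have h3 : Module.rank R (M1 ⧸ M0.comap M1.subtype) = 0 := by
    apply Cardinal.eq_of_add_eq_add_right (b := Module.rank R M0) _ hfin
    rw [h1, zero_add]
  rw [rank_eq_zero_iff] at h3
  intro w hw
  obtain ⟨s, hs, h4⟩ := h3 (Submodule.Quotient.mk ⟨w, hw⟩)
  rw [← Submodule.Quotient.mk_smul, Submodule.Quotient.mk_eq_zero] at h4
  exact ⟨s, hs, h4⟩

theorem rank_lt_of_sat {Y M0 : Submodule R M} (hY : Y.FG) (hYM : M0 ≤ sat Y) (hYM' : Y ≤ M0) :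
    Module.rank R M0 < Cardinal.aleph0 := by
  have h1 := rank_quotient_add_rank_of_isDomain (Y.comap M0.subtype)
  have h2 : Module.rank R (Y.comap M0.subtype) = Module.rank R Y :=
    (Submodule.comapSubtypeEquivOfLe hYM').rank_eq
  rw [rank_quot_eq_zero hYM, zero_add, h2] at h1
  rw [← h1]
  haveI : Module.Finite R Y := Module.Finite.iff_fg.mpr hY
  exact Module.rank_lt_aleph0 R Y

/-- If `M0 ≤ M1 = ξ M0` has finite rank then `M1 / M0` is torsion. -/
theorem torsion_of_semilinear (i : R ≃+* R) (ξ : M ≃+ M) (hξ : ∀ (r : R) (w : M), ξ (r • w) = i r • ξ w)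
    (Y M0 : Submodule R M) (hY : Y.FG) (hYM : M0 ≤ sat Y) (hYM' : Y ≤ M0)
    (hM : ∀ w ∈ M0, ξ.symm w ∈ M0) :
    ∀ w ∈ M0, ξ w ∈ sat M0 := by
  -- M1 = ξ M0
  have hξs : ∀ (r : R) (w : M), ξ.symm (r • w) = i.symm r • ξ.symm w := by
    intro r w
    apply ξ.injective
    rw [hξ, AddEquiv.apply_symm_apply, RingEquiv.apply_symm_apply, AddEquiv.apply_symm_apply]
  let M1 : Submodule R M :=
    { carrier := {w | ξ.symm w ∈ M0}
      zero_mem' := by simp
      add_mem' := by
        intro a b ha hb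
        show ξ.symm (a + b) ∈ M0
        rw [map_add]; exact M0.add_mem ha hb
      smul_mem' := by
        intro c a ha
        show ξ.symm (c • a) ∈ M0
        rw [hξs]; exact M0.smul_mem _ ha }
  have hle : M0 ≤ M1 := hM
  have hrank : Module.rank R M0 = Module.rank R M1 := by
    refine rank_eq_of_equiv_equiv (i : R → R)
      ({ toFun := fun w => ⟨ξ w, by show ξ.symm (ξ (w : M)) ∈ M0; simp⟩
         invFun := fun w => ⟨ξ.symm w, w.2⟩
         left_inv := fun w => by ext; simp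
         right_inv := fun w => by ext; simp
         map_add' := fun a b => by ext; simp } : M0 ≃+ M1) i.bijective ?_
    intro r w
    ext
    exact hξ r w
  intro w hw
  exact sat_of_rank_eq hle (rank_lt_of_sat hY hYM hYM') hrank
    (show ξ.symm (ξ w) ∈ M0 by simpa using hw)

/-- Iterating: if `ξ⁻¹ M0 ≤ M0` and `M0` has finite rank, then `ξ^n M0` is torsion modulo `M0`. -/
theorem torsion_pow (i : R ≃+* R) (ξ : M ≃+ M) (hξ : ∀ (r : R) (w : M), ξ (r • w) = i r • ξ w)
    (Y M0 : Submodule R M) (hY : Y.FG) (hYM : M0 ≤ sat Y) (hYM' : Y ≤ M0)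
    (hM : ∀ w ∈ M0, ξ.symm w ∈ M0) (n : ℕ) :
    ∀ w ∈ M0, ξ^[n] w ∈ sat M0 := by
  have key : ∀ w ∈ sat M0, ξ w ∈ sat M0 := by
    rintro w ⟨s, hs, hw⟩
    apply mem_sat_of_smul (s := i s) (by simpa using hs)
    rw [← hξ]
    exact torsion_of_semilinear i ξ hξ Y M0 hY hYM hYM' hM _ hw
  induction n with
  | zero => intro w hw; exact le_sat _ hw
  | succ n ih =>
    intro w hw
    rw [Function.iterate_succ_apply']
    exact key _ (ih w hw)

end sat

end Pool.Agent.E2F

end
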