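import Mathlib

set_option autoImplicit false

noncomputable section

namespace Pool.Agent.E2F

/-- specialising all the coordinates of a Noether normalisation gives a finite ring -/
theorem finite_quot_norm {k : Type*} [Field k] [Finite k] {S : Type*} [CommRing S] [Algebra k S]
    [Algebra.FiniteType k S] (s : ℕ) (g : MvPolynomial (Fin s) k →ₐ[k] S) (hg : g.IsIntegral)
    (h : Fin s → Polynomial k) (hh : ∀ i, h i ≠ 0) :
    Finite (S ⧸ Ideal.span (Set.range fun i => g (Polynomial.aeval (MvPolynomial.X i) (h i)))) := by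
  set J := Ideal.span (Set.range fun i => g (Polynomial.aeval (MvPolynomial.X i) (h i))) with hJ
  let g' : MvPolynomial (Fin s) k →ₐ[k] (S ⧸ J) := (Ideal.Quotient.mkₐ k J).comp g
  have hg' : (g' : MvPolynomial (Fin s) k →+* (S ⧸ J)).IsIntegral := by
    have h1 : (g : MvPolynomial (Fin s) k →+* S).IsIntegral := hg
    exact RingHom.IsIntegral.trans _ _ h1
      (RingHom.isIntegral_of_surjective _ (Ideal.Quotient.mk_surjective (I := J)))
  have hX : ∀ i, IsIntegral k (g' (MvPolynomial.X i)) := by
    intro i
    rw [← isAlgebraic_iff_isIntegral]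
    refine ⟨h i, hh i, ?_⟩
    rw [Polynomial.aeval_algHom_apply]
    show Ideal.Quotient.mk J (g _) = 0
    rw [Ideal.Quotient.eq_zero_iff_mem]
    exact Ideal.subset_span ⟨i, rfl⟩
  have hrange : ∀ p, g' p ∈ integralClosure k (S ⧸ J) := by
    intro p
    induction p using MvPolynomial.induction_on with
    | C a => 
      rw [MvPolynomial.C_eq_algebraMap, AlgHom.commutes]
      exact (integralClosure k (S ⧸ J)).algebraMap_mem a
    | add p q hp hq => rw [map_add]; exact Subalgebra.add_mem _ hp hq
    | mul_X p n hp => rw [map_mul]; exact Subalgebra.mul_mem _ hp (hX n)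
  have hint : Algebra.IsIntegral k (S ⧸ J) := by
    refine ⟨fun x => ?_⟩
    obtain ⟨P, hP, hP0⟩ := hg' x
    let g'' : MvPolynomial (Fin s) k →+* integralClosure k (S ⧸ J) :=
      (g' : MvPolynomial (Fin s) k →+* (S ⧸ J)).codRestrict (integralClosure k (S ⧸ J)) hrange
    refine isIntegral_trans (R := k) (A := integralClosure k (S ⧸ J)) x ⟨P.map g'', hP.map g'', ?_⟩
    rw [Polynomial.eval₂_map]
    exact hP0
  have hfin : Module.Finite k (S ⧸ J) := Algebra.IsIntegral.finite
  exact Module.finite_of_finite k

end Pool.Agent.E2F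

end
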