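import Pool.Agent.Lib.E2F.DatDef

set_option autoImplicit false

noncomputable section

namespace Pool.Agent.E2F

section prim

variable {N : Type*} [AddCommGroup N] {R : Type*} [CommRing R] (θ : R →+* AddMonoid.End N)

/-- annihilator of an element -/
def annI (w : N) : Ideal R where
  carrier := {r | θ r w = 0}
  add_mem' := by
    intro a b ha hb
    show θ (a + b) w = 0
    rw [map_add]
    show θ a w + θ b w = 0
    rw [ha, hb, add_zero]
  zero_mem' := by
    show θ 0 w = 0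
    rw [map_zero]; rfl
  smul_mem' := by
    intro c r hr
    show θ (c * r) w = 0
    rw [map_mul]
    show θ c (θ r w) = 0
    rw [hr, map_zero]

theorem mem_annI (w : N) (r : R) : r ∈ annI θ w ↔ θ r w = 0 := Iff.rfl

/-- elements killed by an ideal -/
def killed (p : Ideal R) : AddSubgroup N where
  carrier := {w | ∀ r ∈ p, θ r w = 0}
  add_mem' := by
    intro a b ha hb r hr
    rw [map_add, ha r hr, hb r hr, add_zero]
  zero_mem' := by
    intro r _
    exact map_zero _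
  neg_mem' := by
    intro a ha r hr
    rw [map_neg, ha r hr, neg_zero]

theorem mem_killed (p : Ideal R) (w : N) : w ∈ killed θ p ↔ ∀ r ∈ p, θ r w = 0 := Iff.rfl

theorem killed_anti {p p' : Ideal R} (h : p ≤ p') : killed θ p' ≤ killed θ p :=
  fun _ hw r hr => hw r (h hr)

theorem mem_killed_iff (p : Ideal R) (w : N) : w ∈ killed θ p ↔ p ≤ annI θ w := Iff.rfl

/-- `p` is maximal among the annihilators of nonzero elements. -/
structure MaxAnn (p : Ideal R) : Prop where
  ex : ∃ w, w ≠ 0 ∧ annI θ w = p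
  max : ∀ w, w ≠ 0 → p ≤ annI θ w → annI θ w = p

theorem exists_maxAnn [IsNoetherianRing R] (hN : ∃ w : N, w ≠ 0) : ∃ p, MaxAnn θ p := by
  obtain ⟨w0, hw0⟩ := hN
  obtain ⟨p, ⟨w, hw, hp⟩, hmax⟩ := set_has_maximal_iff_noetherian.mpr (inferInstance : IsNoetherian R R)
    {p | ∃ w, w ≠ 0 ∧ annI θ w = p} ⟨_, w0, hw0, rfl⟩
  refine ⟨p, ⟨w, hw, hp⟩, fun w' hw' hle => ?_⟩
  by_contra hne
  exact hmax _ ⟨w', hw', rfl⟩ (lt_of_le_of_ne hle (Ne.symm hne))

theorem MaxAnn.prime {p : Ideal R} (h : MaxAnn θ p) : p.IsPrime := by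
  obtain ⟨w, hw, hp⟩ := h.ex
  refine ⟨?_, ?_⟩
  · intro htop
    have : (1 : R) ∈ annI θ w := by rw [hp, htop]; trivial
    rw [mem_annI, map_one] at this
    exact hw this
  · intro a b hab
    by_cases hb : b ∈ p
    · exact Or.inr hb
    · left
      have h1 : θ b w ≠ 0 := by
        intro h0
        exact hb (by rw [← hp]; exact h0)
      have h2 : p ≤ annI θ (θ b w) := by
        intro r hr
        rw [mem_annI]
        show (θ r * θ b) w = 0
        rw [← map_mul, mul_comm, map_mul]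
        show θ b (θ r w) = 0
        have : θ r w = 0 := by
          rw [← hp] at hr; exact hr
        rw [this, map_zero]
      rw [← h.max _ h1 h2, mem_annI]
      show (θ a * θ b) w = 0
      rw [← map_mul]
      have : a * b ∈ annI θ w := by rw [hp]; exact hab
      exact this

theorem MaxAnn.not_injective {p : ℕ → Ideal R} (hp : ∀ n, MaxAnn θ (p n))
    (hinj : Function.Injective p) (O : Set (AddMonoid.End N))
    (hO : ∀ ψ ∈ O, ∀ r, θ r * ψ = ψ * θ r) (hN : Noe O ⊥ ⊤) : False := by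
  set f : ℕ → AddSubgroup N := fun n => ⨆ k ∈ Finset.range n, killed θ (p k) with hf
  have hmono : Monotone f := by
    intro m n hmn
    refine iSup₂_le fun k hk => ?_
    exact le_iSup₂_of_le k (Finset.mem_range.mpr (lt_of_lt_of_le (Finset.mem_range.mp hk) hmn)) le_rfl
  have hst : ∀ n, St O (f n) := by
    intro n ψ hψ w hw
    have h1 : f n ≤ (f n).comap ψ := by
      refine iSup₂_le fun k hk => ?_
      intro x hx
      show ψ x ∈ f n
      refine (le_iSup₂_of_le (f := fun k (_ : k ∈ Finset.range n) => killed θ (p k)) k hk le_rfl) ?_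
      intro r hr
      show (θ r * ψ) x = 0
      rw [hO ψ hψ]
      show ψ (θ r x) = 0
      rw [hx r hr, map_zero]
    exact h1 hw
  have hprod : ∀ n, f n ≤ killed θ (∏ k ∈ Finset.range n, p k) := by
    intro n
    refine iSup₂_le fun k hk => ?_
    apply killed_anti
    exact le_trans Ideal.prod_le_inf (Finset.inf_le hk)
  obtain ⟨n, hn⟩ := hN f hmono hst (fun _ => bot_le) (fun _ => le_top)
  obtain ⟨w, hw, hwp⟩ := (hp n).ex
  have h1 : w ∈ f (n + 1) := by
    refine (le_iSup₂_of_le (f := fun k (_ : k ∈ Finset.range (n + 1)) => killed θ (p k)) n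
      (Finset.mem_range.mpr (Nat.lt_succ_self n)) le_rfl) ?_
    intro r hr
    rw [← hwp] at hr
    exact hr
  rw [hn (n + 1) (Nat.le_succ n)] at h1
  have h2 : ∏ k ∈ Finset.range n, p k ≤ p n := by
    rw [← hwp]
    exact hprod n h1
  obtain ⟨k, hk, hkn⟩ := ((hp n).prime.prod_le).mp h2
  have h3 := (hp k).max w hw (by rw [hwp]; exact hkn)
  have h4 : p n = p k := by rw [← hwp, h3]
  have := hinj h4
  rw [← this] at hk
  exact absurd (Finset.mem_range.mp hk) (lt_irrefl n)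

/-- transport by a semilinear automorphism -/
theorem MaxAnn.comap {p : Ideal R} (h : MaxAnn θ p) (ξ : Au N) (Φ : R ≃+* R)
    (hΦ : ∀ r w, ξ • (θ r w) = θ (Φ r) (ξ • w)) : MaxAnn θ (p.comap (Φ.symm : R →+* R)) := by
  have key : ∀ w, annI θ (ξ • w) = (annI θ w).comap (Φ.symm : R →+* R) := by
    intro w
    ext r
    rw [mem_annI, Ideal.mem_comap, mem_annI]
    have h1 := hΦ (Φ.symm r) w
    rw [RingEquiv.apply_symm_apply] at h1
    rw [← h1]
    exact smul_eq_zero_iff_eq ξ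
  obtain ⟨w, hw, hp⟩ := h.ex
  refine ⟨⟨ξ • w, ?_, ?_⟩, ?_⟩
  · rwa [Ne, smul_eq_zero_iff_eq]
  · rw [key, hp]
  · intro w' hw' hle
    obtain ⟨w'', rfl⟩ : ∃ w'', ξ • w'' = w' := ⟨ξ⁻¹ • w', smul_inv_smul _ _⟩
    rw [key] at hle ⊢
    rw [h.max w'']
    · intro h0; exact hw' (by rw [h0, smul_zero])
    · intro r hr
      have := hle (x := Φ r) (by
        rw [Ideal.mem_comap]
        show Φ.symm (Φ r) ∈ p
        rwa [RingEquiv.symm_apply_apply])
      rw [Ideal.mem_comap] at this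
      have h2 : (Φ.symm : R →+* R) (Φ r) = r := RingEquiv.symm_apply_apply Φ r
      rwa [h2] at this

/-- some power of a semilinear automorphism preserves a maximal annihilator -/
theorem MaxAnn.exists_pow {p : Ideal R} (h : MaxAnn θ p) (ξ : Au N) (Φ : R ≃+* R)
    (hΦ : ∀ r w, ξ • (θ r w) = θ (Φ r) (ξ • w)) (O : Set (AddMonoid.End N))
    (hO : ∀ ψ ∈ O, ∀ r, θ r * ψ = ψ * θ r) (hN : Noe O ⊥ ⊤) :
    ∃ m : ℕ, 1 ≤ m ∧ ∀ r, r ∈ p ↔ (Φ ^ m) r ∈ p := by
  let q : ℕ → Ideal R := fun n => p.comap ((Φ ^ n).symm : R →+* R)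
  have hq : ∀ n, MaxAnn θ (q n) := by
    intro n
    refine h.comap θ (ξ ^ n) (Φ ^ n) ?_
    induction n with
    | zero => intro r w; simp
    | succ n ih =>
      intro r w
      rw [pow_succ', mul_smul, ih, hΦ, pow_succ', mul_smul]
      rfl
  have hninj : ¬ Function.Injective q := fun hinj => MaxAnn.not_injective θ hq hinj O hO hN
  have hlt : ∃ k l, k < l ∧ q k = q l := by
    rw [Function.Injective] at hninj
    push Not at hninj
    obtain ⟨a, b, hab, hne⟩ := hninj
    rcases lt_or_gt_of_ne hne with h1 | h1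
    · exact ⟨a, b, h1, hab⟩
    · exact ⟨b, a, h1, hab.symm⟩
  obtain ⟨k, l, hkl, hq'⟩ := hlt
  obtain ⟨m, rfl⟩ := Nat.exists_eq_add_of_lt hkl
  refine ⟨m + 1, Nat.succ_pos m, fun r => ?_⟩
  have h1 : (Φ ^ (k + m + 1)) r ∈ q k ↔ (Φ ^ (k + m + 1)) r ∈ q (k + m + 1) := by rw [hq']
  have h2 : (Φ ^ (k + m + 1)) r ∈ q (k + m + 1) ↔ r ∈ p := by
    show (Φ ^ (k + m + 1)).symm ((Φ ^ (k + m + 1)) r) ∈ p ↔ _
    rw [RingEquiv.symm_apply_apply]
  have h3 : (Φ ^ (k + m + 1)) r ∈ q k ↔ (Φ ^ (m + 1)) r ∈ p := by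
    show (Φ ^ k).symm ((Φ ^ (k + m + 1)) r) ∈ p ↔ _
    have : (Φ ^ (k + m + 1)) r = (Φ ^ k) ((Φ ^ (m + 1)) r) := by
      rw [add_assoc, pow_add]; rfl
    rw [this, RingEquiv.symm_apply_apply]
  rw [← h2, ← h1, h3]

end prim

end Pool.Agent.E2F

end
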