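import Pool.Agent.Lib.E2F.DatOps
import Pool.Agent.Lib.E2F.Prim
import Pool.Agent.Lib.E2F.NoetherNorm

set_option autoImplicit false

noncomputable section

namespace Pool.Agent.E2F

section TT

variable {Tg : Type} [CommGroup Tg]

/-- The elements of `Tg` fixed by `A` modulo `C`. -/
def TT (aT : A →* MulAut Tg) (C : Subgroup Tg) : Subgroup Tg where
  carrier := {t | ∀ v : A, aT v t * t⁻¹ ∈ C}
  one_mem' := by
    intro v
    rw [map_one, inv_one, one_mul]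
    exact C.one_mem
  mul_mem' := by
    intro a b ha hb v
    rw [map_mul, mul_inv]
    have : aT v a * aT v b * (a⁻¹ * b⁻¹) = (aT v a * a⁻¹) * (aT v b * b⁻¹) := mul_mul_mul_comm _ _ _ _
    rw [this]
    exact C.mul_mem (ha v) (hb v)
  inv_mem' := by
    intro a ha v
    rw [map_inv, inv_inv]
    have : (aT v a)⁻¹ * a = (aT v a * a⁻¹)⁻¹ := by rw [mul_inv, inv_inv]
    rw [this]
    exact C.inv_mem (ha v)

theorem mem_TT {aT : A →* MulAut Tg} {C : Subgroup Tg} {t : Tg} :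
    t ∈ TT aT C ↔ ∀ v : A, aT v t * t⁻¹ ∈ C := Iff.rfl

theorem TT_stable (aT : A →* MulAut Tg) (C : Subgroup Tg) (φ : MulAut Tg) (τ : MulAut A)
    (hφ : ∀ v : A, φ * aT v * φ⁻¹ = aT (τ v)) (hC : ∀ t ∈ C, φ t ∈ C) (hC' : ∀ t ∈ C, φ⁻¹ t ∈ C) :
    (∀ t ∈ TT aT C, φ t ∈ TT aT C) ∧ (∀ t ∈ TT aT C, φ⁻¹ t ∈ TT aT C) := by
  constructor
  · intro t ht v
    have h1 := hφ (τ⁻¹ v)
    rw [MulAut.apply_inv_self] at h1
    rw [← h1]
    show φ (aT (τ⁻¹ v) (φ⁻¹ (φ t))) * (φ t)⁻¹ ∈ C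
    rw [MulAut.inv_apply_self, ← map_inv, ← map_mul]
    exact hC _ (ht _)
  · intro t ht v
    have h1 : aT v (φ⁻¹ t) = φ⁻¹ (aT (τ v) t) := by
      rw [← hφ]
      show _ = φ⁻¹ (φ (aT v (φ⁻¹ t)))
      rw [MulAut.inv_apply_self]
    rw [h1, ← map_inv, ← map_mul]
    exact hC' _ (ht _)

end TT

section mid

variable {Tg : Type} [CommGroup Tg] {aT : A →* MulAut Tg} {N : Type} [AddCommGroup N]
    {ρ : Tg →* Au N} {α : A →* Au N} {φ : MulAut Tg} {ξ : Au N}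
    {Bt : Type} [AddCommGroup Bt] [Module RA Bt] {τ : MulAut A} {X : Au Bt} {L : Submodule RA Bt}
    {j : Bt →+ N}

theorem rho_aT (C : Subgroup Tg) (hC : C ≤ ρ.ker) (v : A) (t : Tg) (ht : t ∈ TT aT C) :
    ρ (aT v t) = ρ t := by
  have := hC (ht v)
  rw [MonoidHom.mem_ker, map_mul, map_inv, mul_inv_eq_one] at this
  exact this

theorem Dat.alpha_rho (d : Dat aT ρ α φ ξ τ X L j) (C : Subgroup Tg) (hC : C ≤ ρ.ker) (v : A)
    (t : Tg) (ht : t ∈ TT aT C) : α v * ρ t = ρ t * α v := by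
  refine Units.ext (AddMonoidHom.ext fun w => ?_)
  have h := d.hα v t w
  rw [rho_aT C hC v t ht] at h
  exact h

theorem rho_comm (t s : Tg) : ρ t * ρ s = ρ s * ρ t := by
  rw [← map_mul, mul_comm, map_mul]

/-- The group `(T0^n - 1) N`. -/
def Npow (ρ : Tg →* Au N) (T0 : Subgroup Tg) (n : ℕ) : AddSubgroup N :=
  AddSubgroup.closure {w | ∃ t ∈ T0, ∃ w' : N, w = ρ (t ^ n) • w' - w'}

theorem Npow_le (T0 : Subgroup Tg) (n : ℕ) (Y : AddSubgroup N)
    (h : ∀ t ∈ T0, ∀ w, ρ (t ^ n) • w - w ∈ Y) : Npow ρ T0 n ≤ Y := by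
  refine (AddSubgroup.closure_le _).mpr ?_
  rintro _ ⟨t, ht, w, rfl⟩
  exact h t ht w

theorem mem_Npow (T0 : Subgroup Tg) (n : ℕ) (t : Tg) (ht : t ∈ T0) (w : N) :
    ρ (t ^ n) • w - w ∈ Npow ρ T0 n := AddSubgroup.subset_closure ⟨t, ht, w, rfl⟩

theorem Dat.caseII_concl (d : Dat aT ρ α φ ξ τ X L j) (C : Subgroup Tg) (hC : C ≤ ρ.ker)
    (hT : ∀ t ∈ TT aT C, φ t ∈ TT aT C) (hT' : ∀ t ∈ TT aT C, φ⁻¹ t ∈ TT aT C) (n : ℕ)
    (hj : ∀ b, j b ∈ Npow ρ (TT aT C) n → b = 0)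
    (t0 : Tg) (ht0 : t0 ∈ TT aT C) (ht0' : t0 ^ n ∉ C)
    (IH : ∀ C' : Subgroup Tg, C < C' → ∀ (N' : Type) (_ : AddCommGroup N') (ρ' : Tg →* Au N')
      (α' : A →* Au N') (φ' : MulAut Tg) (ξ' : Au N') (Bt' : Type) (_ : AddCommGroup Bt')
      (_ : Module RA Bt') (τ' : MulAut A) (X' : Au Bt') (L' : Submodule RA Bt') (j' : Bt' →+ N'),
      Dat aT ρ' α' φ' ξ' τ' X' L' j' → C' = ρ'.ker → False) : False := by
  set N' := Npow ρ (TT aT C) n with hN'
  have h1 : ∀ t, ∀ w ∈ N', ρ t • w ∈ N' := by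
    intro t
    refine Npow_le (Y := N'.comap (ρ t : AddMonoid.End N)) _ _ ?_
    intro s hs w
    show ρ t • (ρ (s ^ n) • w - w) ∈ N'
    rw [smul_sub, ← mul_smul, rho_comm, mul_smul]
    exact mem_Npow _ _ _ hs _
  have h2 : ∀ v, ∀ w ∈ N', α v • w ∈ N' := by
    intro v
    refine Npow_le (Y := N'.comap (α v : AddMonoid.End N)) _ _ ?_
    intro s hs w
    show α v • (ρ (s ^ n) • w - w) ∈ N'
    rw [smul_sub, ← mul_smul, d.alpha_rho C hC v _ (Subgroup.pow_mem _ hs n), mul_smul]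
    exact mem_Npow _ _ _ hs _
  have h3 : ξ ∈ stabAu N' := by
    constructor
    · refine Npow_le (Y := N'.comap (ξ : AddMonoid.End N)) _ _ ?_
      intro s hs w
      show ξ • (ρ (s ^ n) • w - w) ∈ N'
      rw [smul_sub, d.hξ, map_pow φ]
      exact mem_Npow _ _ _ (hT s hs) _
    · refine Npow_le (Y := N'.comap ((ξ⁻¹ : Au N) : AddMonoid.End N)) _ _ ?_
      intro s hs w
      show ξ⁻¹ • (ρ (s ^ n) • w - w) ∈ N'
      have h4 : ξ⁻¹ • (ρ (s ^ n) • w) = ρ ((φ⁻¹ s) ^ n) • (ξ⁻¹ • w) := by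
        rw [inv_smul_eq_iff, d.hξ, map_pow φ, MulAut.apply_inv_self, smul_inv_smul]
      rw [smul_sub, h4]
      exact mem_Npow _ _ _ (hT' s hs) _
  have d' := d.quot N' h1 h2 h3 hj
  refine IH _ ?_ _ _ _ _ _ _ _ _ _ _ _ _ _ d' rfl
  refine lt_of_le_of_ne ?_ ?_
  · intro t ht
    rw [MonoidHom.mem_ker]
    refine Units.ext (AddMonoidHom.ext fun w => ?_)
    obtain ⟨w, rfl⟩ := QuotientAddGroup.mk_surjective w
    show ((ρ t • w : N) : N ⧸ N') = (w : N ⧸ N')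
    rw [MonoidHom.mem_ker.mp (hC ht), one_smul]
  · intro h
    apply ht0'
    rw [h, MonoidHom.mem_ker]
    refine Units.ext (AddMonoidHom.ext fun w => ?_)
    obtain ⟨w, rfl⟩ := QuotientAddGroup.mk_surjective w
    show ((ρ (t0 ^ n) • w : N) : N ⧸ N') = (w : N ⧸ N')
    rw [eq_comm, ← sub_eq_zero, ← neg_eq_zero, neg_sub]
    show ((ρ (t0 ^ n) • w - w : N) : N ⧸ N') = 0
    rw [QuotientAddGroup.eq_zero_iff]
    exact mem_Npow _ _ _ ht0 _

theorem mem_range_span {S : Type*} [CommRing S] (θ : S →+* AddMonoid.End N) {ι : Type*} (G : ι → S)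
    (c : S) (hc : c ∈ Ideal.span (Set.range G)) :
    ∀ w, θ c w ∈ (⨆ i, (θ (G i)).range : AddSubgroup N) := by
  induction hc using Submodule.span_induction with
  | mem c hc =>
    obtain ⟨i, rfl⟩ := hc
    intro w
    exact (le_iSup (fun i => ((θ (G i)).range : AddSubgroup N)) i) ⟨w, rfl⟩
  | zero => intro w; rw [map_zero]; exact AddSubgroup.zero_mem _
  | add a b _ _ ha hb =>
    intro w
    rw [map_add]
    exact AddSubgroup.add_mem _ (ha w) (hb w)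
  | smul a c _ hc =>
    intro w
    have : θ (a • c) w = θ c (θ a w) := by
      rw [smul_eq_mul, mul_comm, map_mul]; rfl
    rw [this]
    exact hc _

theorem Dat.caseII (d : Dat aT ρ α φ ξ τ X L j) (C : Subgroup Tg) (hC : C ≤ ρ.ker)
    [Group.FG Tg]
    (hT : ∀ t ∈ TT aT C, φ t ∈ TT aT C) (hT' : ∀ t ∈ TT aT C, φ⁻¹ t ∈ TT aT C)
    (S : Type) [CommRing S] [Nontrivial S] [Algebra (ZMod 2) S] [Algebra.FiniteType (ZMod 2) S]
    (q : TT aT C →* S) (θ : S →+* AddMonoid.End N)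
    (hθ : ∀ t : TT aT C, θ (q t) = (ρ t : AddMonoid.End N))
    (hθρ : ∀ (r : S) (t : Tg), θ r * (ρ t : AddMonoid.End N) = (ρ t : AddMonoid.End N) * θ r)
    (hθα : ∀ (r : S) (v : A), θ r * (α v : AddMonoid.End N) = (α v : AddMonoid.End N) * θ r)
    (u : Bt) (v : A)
    (hu : ∀ f : ℤ →₀ S, (f.sum fun i s => θ s ((α v ^ i) • j u)) = 0 → f = 0)
    (huni : ∃ n : ℕ, ∀ t : Tg, (fun s => aT v s * s⁻¹)^[n] t = 1) :
    ∃ n, 1 ≤ n ∧ ∀ b, j b ∈ Npow ρ (TT aT C) n → b = 0 := by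
  obtain ⟨s, g, hginj, hg⟩ := exists_integral_inj_algHom_of_fg (ZMod 2) S
  obtain ⟨h, hh, hspec⟩ := spec d.two ρ d.noe (aT v) (α v) (fun t w => d.hα v t w)
    (by
      obtain ⟨n, hn⟩ := huni
      exact ⟨n, fun t => by rw [hn t, map_one]⟩) s (θ.comp (g : MvPolynomial (Fin s) (ZMod 2) →+* S))
    (fun r t => hθρ _ t) (fun r => hθα _ v) (j u) (by
      intro f hf
      have h1 := hu (f.mapRange g (map_zero g)) (by
        rw [Finsupp.sum_mapRange_index]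
        · exact hf
        · intro i; rw [map_zero]; rfl)
      ext1 i
      apply hginj
      have := DFunLike.congr_fun h1 i
      simpa using this)
  have hfin := finite_quot_norm s g hg h hh
  set G : Fin s → S := fun i => g (Polynomial.aeval (MvPolynomial.X i) (h i)) with hG
  set J := Ideal.span (Set.range G) with hJ
  have hfu : Finite (S ⧸ J)ˣ := inferInstance
  set n := Nat.card (S ⧸ J)ˣ with hn
  have hn1 : 1 ≤ n := Nat.card_pos
  let qu : TT aT C →* (S ⧸ J)ˣ := ((Ideal.Quotient.mk J : S →* S ⧸ J).comp q).toHomUnits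
  have hqu : ∀ t, q t ^ n - 1 ∈ J := by
    intro t
    have h1 : qu t ^ n = 1 := pow_card_eq_one'
    have h2 : Ideal.Quotient.mk J (q t) ^ n = 1 := congrArg Units.val h1
    rw [← Ideal.Quotient.eq_zero_iff_mem, map_sub, map_pow, h2, map_one, sub_self]
  have hle : Npow ρ (TT aT C) n ≤ (⨆ i, (θ (G i)).range : AddSubgroup N) := by
    refine Npow_le _ _ _ fun t ht w => ?_
    have h1 := mem_range_span θ G _ (hqu ⟨t, ht⟩) w
    have h2 : θ (q ⟨t, ht⟩ ^ n - 1) w = ρ (t ^ n) • w - w := by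
      rw [map_sub, map_pow, hθ, map_one, map_pow]
      rfl
    rwa [h2] at h1
  refine ⟨n, hn1, ?_⟩
  -- stability
  set N' := Npow ρ (TT aT C) n with hN'
  have h2 : ∀ v, ∀ w ∈ N', α v • w ∈ N' := by
    intro v
    refine Npow_le (Y := N'.comap (α v : AddMonoid.End N)) _ _ ?_
    intro s hs w
    show α v • (ρ (s ^ n) • w - w) ∈ N'
    rw [smul_sub, ← mul_smul, d.alpha_rho C hC v _ (Subgroup.pow_mem _ hs n), mul_smul]
    exact mem_Npow _ _ _ hs _
  have h3 : ξ ∈ stabAu N' := by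
    constructor
    · refine Npow_le (Y := N'.comap (ξ : AddMonoid.End N)) _ _ ?_
      intro s hs w
      show ξ • (ρ (s ^ n) • w - w) ∈ N'
      rw [smul_sub, d.hξ, map_pow φ]
      exact mem_Npow _ _ _ (hT s hs) _
    · refine Npow_le (Y := N'.comap ((ξ⁻¹ : Au N) : AddMonoid.End N)) _ _ ?_
      intro s hs w
      show ξ⁻¹ • (ρ (s ^ n) • w - w) ∈ N'
      have h4 : ξ⁻¹ • (ρ (s ^ n) • w) = ρ ((φ⁻¹ s) ^ n) • (ξ⁻¹ • w) := by
        rw [inv_smul_eq_iff, d.hξ, map_pow φ, MulAut.apply_inv_self, smul_inv_smul]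
      rw [smul_sub, h4]
      exact mem_Npow _ _ _ (hT' s hs) _
  by_contra hcon
  push Not at hcon
  obtain ⟨b, hb, hb0⟩ := hcon
  have hDne : d.pre N' h2 ≠ ⊥ := by
    intro h0
    have : b ∈ d.pre N' h2 := hb
    rw [h0] at this
    exact hb0 this
  have hfinq : Finite (Bt ⧸ d.pre N' h2) := by
    refine d.pack.fq 1 le_rfl _ hDne ?_ ?_
    · intro b hb
      rw [pow_one, d.mem_pre, d.jξ]
      exact h3.1 _ hb
    · intro b hb
      rw [pow_one, d.mem_pre, d.jinv]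
      exact h3.2 _ hb
  have hinj : Function.Injective (fun i : ℤ => (Submodule.Quotient.mk (mono (v ^ i) • u) : Bt ⧸ d.pre N' h2)) := by
    intro i k hik
    by_contra hne
    have h5 : mono (v ^ i) • u - mono (v ^ k) • u ∈ d.pre N' h2 := (Submodule.Quotient.eq _).mp hik
    rw [d.mem_pre, map_sub, d.jα, d.jα, map_zpow, map_zpow] at h5
    have h6 : ({i, k} : Finset ℤ) = ∅ := by
      apply hspec
      apply hle
      rw [Finset.sum_pair hne]
      have h7 : (α v ^ i) • j u - (α v ^ k) • j u = (α v ^ i) • j u + (α v ^ k) • j u := by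
        rw [sub_eq_iff_eq_add, add_assoc, d.two, add_zero]
      rwa [h7] at h5
    simp at h6
  have := Finite.of_injective _ hinj
  exact not_finite ℤ

end mid

end Pool.Agent.E2F

end
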