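import Pool.Agent.Lib.E2F.CaseII
import Pool.Agent.Lib.E2F.CaseI

set_option autoImplicit false

noncomputable section

namespace Pool.Agent.E2F

section gen

variable {N : Type*} [AddCommGroup N]

theorem noe_of_map {R : Type*} [Ring R] {M : Type*} [AddCommGroup M] [Module R M]
    (Y : Submodule R M) [IsNoetherian R Y] (j : M →+ N) (O : Set (AddMonoid.End N))
    (hO : ∀ Z : AddSubgroup N, St O Z → ∀ (r : R) (m : M), j m ∈ Z → j (r • m) ∈ Z) :
    Noe O ⊥ (Y.toAddSubgroup.map j) := by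
  intro f hf hst _ hle
  let F : ℕ →o Submodule R Y :=
    { toFun := fun n =>
        { carrier := {y | j y ∈ f n}
          add_mem' := by
            intro a b ha hb
            show j ((a : M) + b) ∈ f n
            rw [map_add]; exact (f n).add_mem ha hb
          zero_mem' := by
            show j ((0 : Y) : M) ∈ f n
            rw [Submodule.coe_zero, map_zero]; exact (f n).zero_mem
          smul_mem' := by
            intro r m hm
            exact hO (f n) (hst n) r m hm }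
      monotone' := fun a b hab x hx => hf hab hx }
  obtain ⟨n, hn⟩ := monotone_stabilizes_iff_noetherian.mpr ‹IsNoetherian R Y› F
  refine ⟨n, fun m hm => le_antisymm ?_ (hf hm)⟩
  intro w hw
  obtain ⟨y, hy, rfl⟩ := hle m hw
  have h1 : (⟨y, hy⟩ : Y) ∈ F m := hw
  rw [← hn m hm] at h1
  exact h1

theorem noe_comap_inj {O : Set (AddMonoid.End N)} {X : AddSubgroup N} (c : AddMonoid.End N)
    (hc : Function.Injective c) (hcO : ∀ φ ∈ O, c * φ = φ * c) (h : Noe O ⊥ X) :
    Noe O ⊥ (X.comap c) := by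
  intro f hf hst _ hle
  obtain ⟨n, hn⟩ := h (fun n => (f n).map c) (fun i k hik => AddSubgroup.map_mono (hf hik))
    (by
      rintro n φ hφ _ ⟨w, hw, rfl⟩
      exact ⟨φ w, hst n φ hφ w hw, DFunLike.congr_fun (hcO φ hφ) w⟩)
    (fun _ => bot_le) (by
      rintro n _ ⟨w, hw, rfl⟩
      exact hle n hw)
  exact ⟨n, fun m hm => AddSubgroup.map_injective hc (hn m hm)⟩

end gen

instance fg_subgroup {Tg : Type*} [CommGroup Tg] [Group.FG Tg] (T : Subgroup Tg) : Group.FG T := by
  have h1 : AddGroup.FG (Additive Tg) := inferInstance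
  have h2 : Module.Finite ℤ (Additive Tg) := Module.Finite.iff_addGroup_fg.mpr h1
  have h3 : IsNoetherian ℤ (Additive Tg) := inferInstance
  let f : Additive T →+ Additive Tg := MonoidHom.toAdditive T.subtype
  have hf : Function.Injective f.toIntLinearMap := by
    intro a b hab
    exact Subtype.ext hab
  have h4 : IsNoetherian ℤ (Additive T) := isNoetherian_of_injective f.toIntLinearMap hf
  have h5 : Module.Finite ℤ (Additive T) := inferInstance
  have h6 : AddGroup.FG (Additive T) := Module.Finite.iff_addGroup_fg.mp h5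
  exact GroupFG.iff_add_fg.mpr h6

section mid

variable {Tg : Type} [CommGroup Tg] {aT : A →* MulAut Tg} {N : Type} [AddCommGroup N]
    {ρ : Tg →* Au N} {α : A →* Au N} {φ : MulAut Tg} {ξ : Au N}
    {Bt : Type} [AddCommGroup Bt] [Module RA Bt] {τ : MulAut A} {X : Au Bt} {L : Submodule RA Bt}
    {j : Bt →+ N}

theorem Dat.jlift (d : Dat aT ρ α φ ξ τ X L j) (r : RA) (b : Bt) :
    j (r • b) = liftEnd d.two α r (j b) := by
  induction r using MA_ind with
  | h0 => rw [zero_smul, map_zero, map_zero]; rfl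
  | hof v => rw [liftEnd_of]; exact d.jα v b
  | hadd a c ha hc => rw [add_smul, map_add, ha, hc, map_add]; rfl

theorem Dat.caseI (d : Dat aT ρ α φ ξ τ X L j) (C : Subgroup Tg) (hC : C ≤ ρ.ker)
    [Group.FG Tg]
    (S : Type) [CommRing S] [IsDomain S] [IsNoetherianRing S]
    (q : MonoidAlgebra (ZMod 2) (TT aT C) →+* S) (hq : Function.Surjective q)
    (θ : S →+* AddMonoid.End N)
    (hθ : ∀ t : TT aT C, θ (q (MonoidAlgebra.of (ZMod 2) _ t)) = (ρ t : AddMonoid.End N))
    (hθρ : ∀ (r : S) (t : Tg), θ r * (ρ t : AddMonoid.End N) = (ρ t : AddMonoid.End N) * θ r)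
    (hθα : ∀ (r : S) (v : A), θ r * (α v : AddMonoid.End N) = (α v : AddMonoid.End N) * θ r)
    (Φ : S ≃+* S) (hΦ : ∀ s w, ξ • (θ s w) = θ (Φ s) (ξ • w))
    (htf : ∀ s, s ≠ 0 → ∀ w, θ s w = 0 → w = 0)
    (hdep : ∀ u ∈ L, ∀ v : A, ∃ f : ℤ →₀ S, f ≠ 0 ∧
      (f.sum fun i s => θ s ((α v ^ i) • j u)) = 0) : False := by
  classical
  let _ : Module S N :=
    { smul := fun s w => θ s w
      one_smul := fun w => by show θ 1 w = w; rw [map_one]; rfl
      mul_smul := fun a b w => by show θ (a * b) w = θ a (θ b w); rw [map_mul]; rfl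
      smul_zero := fun a => map_zero _
      smul_add := fun a x y => map_add _ _ _
      add_smul := fun a b w => by show θ (a + b) w = θ a w + θ b w; rw [map_add]; rfl
      zero_smul := fun w => by show θ 0 w = 0; rw [map_zero]; rfl }
  have hsmul : ∀ (s : S) (w : N), s • w = θ s w := fun _ _ => rfl
  let α0 : A →* Module.End S N :=
    { toFun := fun v =>
        { toFun := fun w => α v • w
          map_add' := fun a b => smul_add _ _ _
          map_smul' := fun s w => (DFunLike.congr_fun (hθα s v) w).symm }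
      map_one' := by
        refine LinearMap.ext fun w => ?_
        show α 1 • w = w
        rw [map_one, one_smul]
      map_mul' := fun v v' => by
        refine LinearMap.ext fun w => ?_
        show α (v * v') • w = α v • α v' • w
        rw [map_mul, mul_smul] }
  let α' : A →* (Module.End S N)ˣ := α0.toHomUnits
  have hα' : ∀ v w, (α' v : Module.End S N) w = α v • w := fun _ _ => rfl
  set JL : AddSubgroup N := L.toAddSubgroup.map j with hJL
  obtain ⟨s, hs⟩ := d.pack.fg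
  have hmemJL : ∀ b, b ∈ L → j b ∈ JL := fun b hb => ⟨b, hb, rfl⟩
  have hJLα : ∀ (v : A), ∀ w ∈ JL, α v • w ∈ JL := by
    rintro v _ ⟨b, hb, rfl⟩
    rw [← d.jα]
    exact hmemJL _ (L.smul_mem _ hb)
  have hgen : JL ≤ AddSubgroup.closure {w | ∃ (v : A), ∃ u ∈ s.image j, w = (α' v : Module.End S N) u} := by
    rintro _ ⟨b, hb, rfl⟩
    set W := AddSubgroup.closure {w | ∃ (v : A), ∃ u ∈ s.image j, w = (α' v : Module.End S N) u} with hW
    have hWα : ∀ v, ∀ w ∈ W, α v • w ∈ W := by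
      intro v
      have : W ≤ W.comap (α v : AddMonoid.End N) := by
        refine (AddSubgroup.closure_le _).mpr ?_
        rintro _ ⟨v', u, hu, rfl⟩
        show α v • (α v' • u) ∈ W
        rw [← mul_smul, ← map_mul]
        exact AddSubgroup.subset_closure ⟨_, u, hu, rfl⟩
      exact this
    have hb' : b ∈ Submodule.span RA (s : Set Bt) := by rw [hs]; exact hb
    clear hb
    induction hb' using Submodule.span_induction with
    | mem b hb =>
      refine AddSubgroup.subset_closure ⟨1, j b, Finset.mem_image_of_mem _ hb, ?_⟩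
      rw [hα', map_one, one_smul]
    | zero => exact (map_zero j).symm ▸ W.zero_mem
    | add a b _ _ ha hb =>
      show j (a + b) ∈ W
      rw [map_add]; exact W.add_mem ha hb
    | smul r b _ hb =>
      show j (r • b) ∈ W
      rw [d.jlift]
      exact liftEnd_mem d.two α W hWα r _ hb
  obtain ⟨Y0, hY0, hY0le, hY0sat⟩ := exists_fg_sat α' JL (s.image j)
    (by
      intro u hu
      obtain ⟨b, hb, rfl⟩ := Finset.mem_image.mp hu
      exact hmemJL _ (by rw [← hs]; exact Submodule.subset_span hb))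
    hgen (fun v w hw => hJLα v w hw)
    (by
      rintro _ ⟨b, hb, rfl⟩ v
      obtain ⟨f, hf, hf0⟩ := hdep b hb v
      refine ⟨f, hf, ?_⟩
      rw [← hf0]
      refine Finsupp.sum_congr fun i _ => ?_
      rw [← map_zpow, ← map_zpow]
      rfl)
  set M0 : Submodule S N := Submodule.span S (JL : Set N) with hM0
  let ξe : N ≃+ N :=
    { toFun := fun w => ξ • w
      invFun := fun w => ξ⁻¹ • w
      left_inv := fun w => inv_smul_smul ξ w
      right_inv := fun w => smul_inv_smul ξ w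
      map_add' := fun a b => smul_add _ _ _ }
  have hξe : ∀ w, ξe w = ξ • w := fun _ => rfl
  have hξes : ∀ w, ξe.symm w = ξ⁻¹ • w := fun _ => rfl
  have hM0ξ : ∀ w ∈ M0, ξe.symm w ∈ M0 := by
    intro w hw
    induction hw using Submodule.span_induction with
    | mem w hw =>
      obtain ⟨b, hb, rfl⟩ := hw
      show ξ⁻¹ • j b ∈ M0
      rw [← d.jinv]
      exact Submodule.subset_span (hmemJL _ (d.pack.nest _ hb))
    | zero => rw [map_zero]; exact M0.zero_mem
    | add a b _ _ ha hb => rw [map_add]; exact M0.add_mem ha hb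
    | smul r b _ hb =>
      have : ξe.symm (r • b) = Φ.symm r • ξe.symm b := by
        rw [AddEquiv.symm_apply_eq, hξe, hsmul (Φ.symm r), hΦ, RingEquiv.apply_symm_apply, ← hξe,
          AddEquiv.apply_symm_apply, hsmul]
      rw [this]
      exact M0.smul_mem _ hb
  have hsatj : ∀ b, j b ∈ sat Y0 := by
    intro b
    obtain ⟨n, hn⟩ := d.pack.exh b
    have h1 := torsion_pow Φ ξe (fun r w => hΦ r w) Y0 M0 hY0 hY0sat hY0le hM0ξ n
      (j ((X ^ n)⁻¹ • b)) (Submodule.subset_span (hmemJL _ hn))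
    have h2 : ∀ (n : ℕ) (w : N), ξe^[n] w = ξ ^ n • w := by
      intro n
      induction n with
      | zero => intro w; simp
      | succ n ih => intro w; rw [Function.iterate_succ_apply, ih, hξe, pow_succ, mul_smul]
    rw [h2, ← d.jpow, smul_inv_smul] at h1
    exact sat_le_of_le hY0sat h1
  -- chain 1
  have hθcomm : ∀ a b : S, θ a * θ b = θ b * θ a := fun a b => by
    rw [← map_mul, mul_comm, map_mul]
  have c1 := chain ρ C ⊤ le_top (Set.range θ) (Submonoid.map (θ : S →* AddMonoid.End N) (nonZeroDivisors S))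
    ⊥ Y0.toAddSubgroup
    (by rintro _ ⟨a, _, rfl⟩ _ ⟨b, _, rfl⟩; exact hθcomm a b)
    (by rintro _ ⟨a, _, rfl⟩ _ ⟨b, rfl⟩; exact hθcomm a b)
    (by rintro _ ⟨a, _, rfl⟩ t; exact hθρ a t)
    (by
      intro t w hw
      rw [AddSubgroup.mem_bot] at hw ⊢
      rw [hw, smul_zero])
    (by
      intro c hc w
      rw [AddSubgroup.mem_bot, MonoidHom.mem_ker.mp (hC hc), one_smul, sub_self])
    (by
      intro U _ _ hU
      have : ∃ t, t ∉ U := by
        by_contra hcon
        push Not at hcon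
        exact hU (eq_top_iff.mpr fun t _ => hcon t)
      obtain ⟨t, ht⟩ := this
      refine ⟨t, trivial, ht, fun Y _ hY _ => ⟨?_, ?_⟩⟩
      · rintro _ ⟨a, rfl⟩ _ ⟨y, hy, rfl⟩
        exact ⟨θ a y, hY _ ⟨a, rfl⟩ y hy, (DFunLike.congr_fun (hθρ a t) y).symm⟩
      · rintro _ ⟨a, rfl⟩ _ ⟨y, hy, rfl⟩
        exact ⟨θ a y, hY _ ⟨a, rfl⟩ y hy, (DFunLike.congr_fun (hθρ a t⁻¹) y).symm⟩)
    bot_le
    (by rintro _ ⟨a, rfl⟩ y hy; exact Y0.smul_mem a hy)
    (by rintro _ ⟨a, _, rfl⟩ y hy; exact Y0.smul_mem a hy)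
    (by
      have : IsNoetherian S Y0 := isNoetherian_of_fg_of_noetherian _ hY0
      have h1 := noe_of_map Y0 (AddMonoidHom.id N) (Set.range θ) (by
        intro Z hZ r m hm
        exact hZ _ ⟨r, rfl⟩ m hm)
      rwa [AddSubgroup.map_id] at h1)
  obtain ⟨c1a, c1b, c1c, c1d⟩ := c1
  set X1 := ⨆ t ∈ (⊤ : Subgroup Tg), Y0.toAddSubgroup.map (ρ t : AddMonoid.End N) with hX1
  have hY0X1 : Y0.toAddSubgroup ≤ X1 := by
    intro y hy
    refine (le_iSup₂_of_le (f := fun t (_ : t ∈ (⊤ : Subgroup Tg)) =>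
      Y0.toAddSubgroup.map (ρ t : AddMonoid.End N)) 1 trivial le_rfl) ⟨y, hy, ?_⟩
    rw [map_one]; rfl
  have t1 : Tame (Submonoid.map (θ : S →* AddMonoid.End N) (nonZeroDivisors S)) X1 ⊤ := by
    refine tame_of_noe (O := opSet ρ ⊤) (L := ⊥)
      (by rintro _ ⟨a, _, rfl⟩ _ ⟨b, _, rfl⟩; exact hθcomm a b)
      (by rintro _ ⟨a, _, rfl⟩ _ ⟨t, _, rfl⟩; exact hθρ a t)
      (c1a.mono Set.subset_union_right) (fun _ _ _ _ => trivial) c1d bot_le le_top d.noe
  have t2 : Tame (Submonoid.map (θ : S →* AddMonoid.End N) (nonZeroDivisors S)) Y0.toAddSubgroup ⊤ := by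
    refine tame_trans (by rintro _ ⟨a, _, rfl⟩ _ ⟨b, _, rfl⟩; exact hθcomm a b)
      (by rintro _ ⟨a, _, rfl⟩ y hy; exact Y0.smul_mem a hy) hY0X1 c1c t1
  obtain ⟨_, ⟨c0, hc0, rfl⟩, hc0t⟩ := t2
  have hc0' : c0 ≠ 0 := nonZeroDivisors.ne_zero hc0
  have hcj : ∀ b, ∃ i : ℕ, ((θ c0) ^ i) (j b) ∈ M0 := by
    intro b
    obtain ⟨s', hs', hs''⟩ := hsatj b
    obtain ⟨i, hi⟩ := hc0t (j b) trivial ⟨θ s', ⟨s', mem_nonZeroDivisors_of_ne_zero hs', rfl⟩, hs''⟩
    exact ⟨i, hY0le hi⟩
  -- chain 2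
  set T0 := TT aT C with hT0
  have hlcomm : ∀ a b : RA, liftEnd d.two α a * liftEnd d.two α b =
      liftEnd d.two α b * liftEnd d.two α a := fun a b => by
    rw [← map_mul, mul_comm, map_mul]
  have hlα : ∀ (a : RA) (v : A), liftEnd d.two α a * (α v : AddMonoid.End N) =
      (α v : AddMonoid.End N) * liftEnd d.two α a := fun a v => by
    rw [← liftEnd_of d.two α v]; exact hlcomm _ _
  have hlρ : ∀ (a : RA) (t : T0), liftEnd d.two α a * (ρ t : AddMonoid.End N) =
      (ρ t : AddMonoid.End N) * liftEnd d.two α a := by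
    intro a t
    induction a using MA_ind with
    | h0 => rw [map_zero, zero_mul, mul_zero]
    | hof v =>
      rw [liftEnd_of, ← Units.val_mul, d.alpha_rho C hC v t t.2, Units.val_mul]
    | hadd a b ha hb => rw [map_add, add_mul, mul_add, ha, hb]
  have hlθ : ∀ (a : RA) (r : S), liftEnd d.two α a * θ r = θ r * liftEnd d.two α a := by
    intro a r
    induction a using MA_ind with
    | h0 => rw [map_zero, zero_mul, mul_zero]
    | hof v => rw [liftEnd_of, hθα]
    | hadd a b ha hb => rw [map_add, add_mul, mul_add, ha, hb]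
  have hJLl : ∀ (a : RA), ∀ w ∈ JL, liftEnd d.two α a w ∈ JL :=
    fun a => liftEnd_mem d.two α JL hJLα a
  have c2 := chain (ρ.comp T0.subtype) ⊥ ⊤ bot_le (opSet α ⊤)
    (Submonoid.map (liftEnd d.two α : RA →* AddMonoid.End N) (nonZeroDivisors RA))
    ⊥ JL
    (by rintro _ ⟨a, _, rfl⟩ _ ⟨b, _, rfl⟩; exact hlcomm a b)
    (by rintro _ ⟨a, _, rfl⟩ _ ⟨v, _, rfl⟩; exact hlα a v)
    (by rintro _ ⟨a, _, rfl⟩ t; exact hlρ a t)
    (by
      intro t w hw
      rw [AddSubgroup.mem_bot] at hw ⊢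
      rw [hw, smul_zero])
    (by
      intro c hc w
      rw [Subgroup.mem_bot] at hc
      rw [AddSubgroup.mem_bot, hc, map_one, one_smul, sub_self])
    (by
      intro U _ _ hU
      have : ∃ t, t ∉ U := by
        by_contra hcon
        push Not at hcon
        exact hU (eq_top_iff.mpr fun t _ => hcon t)
      obtain ⟨t, ht⟩ := this
      refine ⟨t, trivial, ht, fun Y _ hY _ => ⟨?_, ?_⟩⟩
      · rintro _ ⟨v, _, rfl⟩ _ ⟨y, hy, rfl⟩
        refine ⟨α v • y, hY _ ⟨v, trivial, rfl⟩ y hy, ?_⟩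
        have := congrArg (fun g : Au N => g • y) (d.alpha_rho C hC v t t.2)
        exact this.symm
      · rintro _ ⟨v, _, rfl⟩ _ ⟨y, hy, rfl⟩
        refine ⟨α v • y, hY _ ⟨v, trivial, rfl⟩ y hy, ?_⟩
        have := congrArg (fun g : Au N => g • y) (d.alpha_rho C hC v (t⁻¹ : T0) (t⁻¹ : T0).2)
        exact this.symm)
    bot_le
    (by rintro _ ⟨v, _, rfl⟩ y hy; exact hJLα v y hy)
    (by rintro _ ⟨a, _, rfl⟩ y hy; exact hJLl a y hy)
    (by
      have : IsNoetherian RA L := isNoetherian_of_fg_of_noetherian _ d.pack.fg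
      refine noe_of_map L j (opSet α ⊤) ?_
      intro Z hZ r m hm
      rw [d.jlift]
      exact liftEnd_mem d.two α Z (fun v w hw => hZ _ ⟨v, trivial, rfl⟩ w hw) r _ hm)
  obtain ⟨c2a, c2b, c2c, c2d⟩ := c2
  set X2 := ⨆ t ∈ (⊤ : Subgroup T0), JL.map (((ρ.comp T0.subtype) t : Au N) : AddMonoid.End N) with hX2
  have hJLX2 : JL ≤ X2 := by
    intro y hy
    refine (le_iSup₂_of_le (f := fun t (_ : t ∈ (⊤ : Subgroup T0)) =>
      JL.map (((ρ.comp T0.subtype) t : Au N) : AddMonoid.End N)) 1 trivial le_rfl) ⟨y, hy, ?_⟩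
    rw [map_one]; rfl
  have hX2S : ∀ (r : S), ∀ w ∈ X2, θ r w ∈ X2 := by
    intro r w hw
    obtain ⟨r, rfl⟩ := hq r
    induction r using MA_ind with
    | h0 => rw [map_zero, map_zero]; exact X2.zero_mem
    | hof t =>
      rw [hθ]
      exact c2a _ (Or.inr ⟨t, trivial, rfl⟩) w hw
    | hadd a b ha hb => rw [map_add, map_add]; exact X2.add_mem ha hb
  have hM0X2 : ∀ w ∈ M0, w ∈ X2 := by
    intro w hw
    induction hw using Submodule.span_induction with
    | mem w hw => exact hJLX2 hw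
    | zero => exact X2.zero_mem
    | add a b _ _ ha hb => exact X2.add_mem ha hb
    | smul r b _ hb => exact hX2S r b hb
  have hcinj : Function.Injective (θ c0) := by
    rw [injective_iff_map_eq_zero]
    exact htf c0 hc0'
  have hcO : ∀ ψ ∈ opSet α ⊤ ∪ opSet (ρ.comp T0.subtype) ⊤, θ c0 * ψ = ψ * θ c0 := by
    rintro _ (⟨v, _, rfl⟩ | ⟨t, _, rfl⟩)
    · exact hθα c0 v
    · exact hθρ c0 t
  have t3 : Tame (Submonoid.map (liftEnd d.two α : RA →* AddMonoid.End N) (nonZeroDivisors RA))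
      X2 (X2.comap (θ c0)) := by
    refine tame_of_noe (O := opSet α ⊤ ∪ opSet (ρ.comp T0.subtype) ⊤) (L := ⊥)
      (by rintro _ ⟨a, _, rfl⟩ _ ⟨b, _, rfl⟩; exact hlcomm a b)
      (by
        rintro _ ⟨a, _, rfl⟩ _ (⟨v, _, rfl⟩ | ⟨t, _, rfl⟩)
        · exact hlα a v
        · exact hlρ a t)
      c2a
      (by
        intro ψ hψ w hw
        show (θ c0 * ψ) w ∈ X2
        rw [hcO ψ hψ]
        exact c2a ψ hψ _ hw)
      c2d bot_le (fun w hw => hX2S c0 w hw) (noe_comap_inj (θ c0) hcinj hcO c2b)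
  have t4 : Tame (Submonoid.map (liftEnd d.two α : RA →* AddMonoid.End N) (nonZeroDivisors RA))
      X2 j.range := by
    refine tame_div (by rintro _ ⟨a, _, rfl⟩ _ ⟨b, _, rfl⟩; exact hlcomm a b) c2d (θ c0) hcinj
      (by rintro _ ⟨a, _, rfl⟩; exact hlθ a c0) (fun w hw => hX2S c0 w hw) ?_ t3
    rintro _ ⟨b, rfl⟩
    obtain ⟨i, hi⟩ := hcj b
    exact ⟨i, hM0X2 _ hi⟩
  have t5 : Tame (Submonoid.map (liftEnd d.two α : RA →* AddMonoid.End N) (nonZeroDivisors RA))
      JL j.range :=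
    tame_trans (by rintro _ ⟨a, _, rfl⟩ _ ⟨b, _, rfl⟩; exact hlcomm a b)
      (by rintro _ ⟨a, _, rfl⟩ y hy; exact hJLl a y hy) hJLX2 c2c t4
  obtain ⟨_, ⟨l0, hl0, rfl⟩, hl0t⟩ := t5
  have hinf := d.pack.inf
  refine d.pack.pr 1 le_rfl ⊤ ?_ (fun _ _ => trivial) (fun _ _ => trivial)
    ⟨l0, nonZeroDivisors.ne_zero hl0, ?_⟩
  · intro h0
    have : Subsingleton Bt := by
      rw [← Submodule.subsingleton_iff RA]
      exact subsingleton_of_bot_eq_top h0.symm
    exact not_finite Bt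
  · intro b _
    obtain ⟨h, hh, hb⟩ := d.pack.mul b
    obtain ⟨i, hi⟩ := hl0t (j b) ⟨b, rfl⟩ ⟨_, ⟨h, mem_nonZeroDivisors_of_ne_zero hh, rfl⟩, by
      show liftEnd d.two α h (j b) ∈ JL
      rw [← d.jlift]; exact hmemJL _ hb⟩
    refine ⟨i, ?_⟩
    have h1 : ((liftEnd d.two α l0) ^ i) (j b) = j (l0 ^ i • b) := by
      rw [← map_pow, ← d.jlift]
    have h2 : j (l0 ^ i • b) ∈ JL := by rw [← h1]; exact hi
    obtain ⟨b', hb', hbb⟩ := h2
    rw [← d.inj hbb]
    exact hb'

end mid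

end Pool.Agent.E2F

end
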