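import Pool.Agent.Lib.E2F.Defs

set_option autoImplicit false

noncomputable section

namespace Pool.Agent.E2F

variable {N : Type*} [AddCommGroup N]

/-- `ZMod 2` acts on a group of exponent 2. -/
def zEnd (hN2 : ∀ w : N, w + w = 0) : ZMod 2 →+* AddMonoid.End N :=
  letI : Module (ZMod 2) N := AddCommGroup.zmodModule (n := 2) (by intro x; rw [two_nsmul]; exact hN2 x)
  Module.toAddMonoidEnd (ZMod 2) N

theorem zEnd_comm (hN2 : ∀ w : N, w + w = 0) (c : ZMod 2) (φ : AddMonoid.End N) :
    Commute (zEnd hN2 c) φ := by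
  have h : c = 0 ∨ c = 1 := by
    revert c; decide
  rcases h with rfl | rfl
  · rw [map_zero]; exact Commute.zero_left _
  · rw [map_one]; exact Commute.one_left _

/-- The action of the group algebra on a group of exponent two. -/
def liftEnd (hN2 : ∀ w : N, w + w = 0) {G : Type*} [Group G] (g : G →* Au N) :
    MonoidAlgebra (ZMod 2) G →+* AddMonoid.End N :=
  MonoidAlgebra.liftNCRingHom (zEnd hN2) ((Units.coeHom (AddMonoid.End N)).comp g)
    (fun _ _ => zEnd_comm hN2 _ _)

theorem liftEnd_of (hN2 : ∀ w : N, w + w = 0) {G : Type*} [Group G] (g : G →* Au N) (v : G) :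
    liftEnd hN2 g (MonoidAlgebra.of (ZMod 2) G v) = (g v : AddMonoid.End N) := by
  simp [liftEnd]

/-- Induction principle for `F_2[G]`. -/
theorem MA_ind {G : Type*} [Group G] {p : MonoidAlgebra (ZMod 2) G → Prop}
    (h0 : p 0) (hof : ∀ v, p (MonoidAlgebra.of (ZMod 2) G v)) (hadd : ∀ a b, p a → p b → p (a + b))
    (r : MonoidAlgebra (ZMod 2) G) : p r := by
  induction r using MonoidAlgebra.induction_on with
  | of v => exact hof v
  | add a b ha hb => exact hadd a b ha hb
  | smul c a ha =>
    have h : c = 0 ∨ c = 1 := by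
      revert c; decide
    rcases h with rfl | rfl
    · rw [zero_smul]; exact h0
    · rw [one_smul]; exact ha

theorem liftEnd_mem (hN2 : ∀ w : N, w + w = 0) {G : Type*} [Group G] (g : G →* Au N)
    (X : AddSubgroup N) (hX : ∀ (v : G), ∀ w ∈ X, g v • w ∈ X) (r : MonoidAlgebra (ZMod 2) G) :
    ∀ w ∈ X, liftEnd hN2 g r w ∈ X := by
  induction r using MA_ind with
  | h0 => intro w _; rw [map_zero]; exact X.zero_mem
  | hof v => intro w hw; rw [liftEnd_of]; exact hX v w hw
  | hadd a b ha hb =>
    intro w hw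
    rw [map_add]
    exact X.add_mem (ha w hw) (hb w hw)

end Pool.Agent.E2F

end
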