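import Pool.Agent.Lib.E2F.Statements
import Pool.Agent.Lib.E2F.Lift

set_option autoImplicit false

noncomputable section

namespace Pool.Agent.E2F

section stab

variable {N : Type*} [AddCommGroup N]

/-- The automorphisms stabilising a subgroup. -/
def stabAu (X : AddSubgroup N) : Subgroup (Au N) where
  carrier := {g | (∀ w ∈ X, g • w ∈ X) ∧ (∀ w ∈ X, g⁻¹ • w ∈ X)}
  one_mem' := ⟨fun w hw => by simpa using hw, fun w hw => by simpa using hw⟩
  mul_mem' := by
    rintro a b ⟨ha, ha'⟩ ⟨hb, hb'⟩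
    refine ⟨fun w hw => ?_, fun w hw => ?_⟩
    · rw [mul_smul]; exact ha _ (hb _ hw)
    · rw [mul_inv_rev, mul_smul]; exact hb' _ (ha' _ hw)
  inv_mem' := by
    rintro a ⟨ha, ha'⟩
    exact ⟨ha', by rwa [inv_inv]⟩

/-- Induced automorphisms of the quotient. -/
def quotA (X : AddSubgroup N) : stabAu X →* Au (N ⧸ X) where
  toFun g :=
    { val := QuotientAddGroup.map X X (g.1 : AddMonoid.End N) (fun w hw => g.2.1 w hw)
      inv := QuotientAddGroup.map X X ((g.1⁻¹ : Au N) : AddMonoid.End N) (fun w hw => g.2.2 w hw)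
      val_inv := by
        refine AddMonoidHom.ext fun w => ?_
        obtain ⟨w, rfl⟩ := QuotientAddGroup.mk_surjective w
        show (((g.1 • (g.1⁻¹ • w) : N)) : N ⧸ X) = (w : N ⧸ X)
        rw [smul_inv_smul]
      inv_val := by
        refine AddMonoidHom.ext fun w => ?_
        obtain ⟨w, rfl⟩ := QuotientAddGroup.mk_surjective w
        show (((g.1⁻¹ • (g.1 • w) : N)) : N ⧸ X) = (w : N ⧸ X)
        rw [inv_smul_smul] }
  map_one' := by
    refine Units.ext (AddMonoidHom.ext fun w => ?_)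
    obtain ⟨w, rfl⟩ := QuotientAddGroup.mk_surjective w
    rfl
  map_mul' g h := by
    refine Units.ext (AddMonoidHom.ext fun w => ?_)
    obtain ⟨w, rfl⟩ := QuotientAddGroup.mk_surjective w
    rfl

theorem quotA_smul (X : AddSubgroup N) (g : stabAu X) (w : N) :
    quotA X g • (w : N ⧸ X) = ((g.1 • w : N) : N ⧸ X) := rfl

/-- Induced automorphisms of the subgroup. -/
def subA (X : AddSubgroup N) : stabAu X →* Au X where
  toFun g :=
    { val := AddMonoidHom.mk' (fun w : X => (⟨g.1 • (w : N), g.2.1 _ w.2⟩ : X))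
        (fun a b => Subtype.ext (smul_add g.1 (a : N) b))
      inv := AddMonoidHom.mk' (fun w : X => (⟨g.1⁻¹ • (w : N), g.2.2 _ w.2⟩ : X))
        (fun a b => Subtype.ext (smul_add g.1⁻¹ (a : N) b))
      val_inv := AddMonoidHom.ext fun w => Subtype.ext (smul_inv_smul g.1 (w : N))
      inv_val := AddMonoidHom.ext fun w => Subtype.ext (inv_smul_smul g.1 (w : N)) }
  map_one' := Units.ext (AddMonoidHom.ext fun w => Subtype.ext (one_smul _ (w : N)))
  map_mul' g h := Units.ext (AddMonoidHom.ext fun w => Subtype.ext (mul_smul g.1 h.1 (w : N)))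

theorem subA_smul (X : AddSubgroup N) (g : stabAu X) (w : X) :
    ((subA X g • w : X) : N) = g.1 • (w : N) := rfl

end stab

section noe

variable {N : Type*} [AddCommGroup N]

theorem St.mono {O O' : Set (AddMonoid.End N)} (h : O ⊆ O') {X : AddSubgroup N} (hX : St O' X) :
    St O X := fun φ hφ w hw => hX φ (h hφ) w hw

/-- the maximum principle -/
theorem Noe.exists_max {O : Set (AddMonoid.End N)} {L U : AddSubgroup N} (h : Noe O L U)
    (p : AddSubgroup N → Prop) (hp : ∀ Y, p Y → St O Y ∧ L ≤ Y ∧ Y ≤ U) (Y0 : AddSubgroup N)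
    (h0 : p Y0) : ∃ Y, p Y ∧ ∀ Y', p Y' → Y ≤ Y' → Y' = Y := by
  let Q := {Y : AddSubgroup N // St O Y ∧ L ≤ Y ∧ Y ≤ U}
  have hwf : WellFoundedGT Q := by
    rw [wellFoundedGT_iff_monotone_chain_condition]
    intro a
    obtain ⟨n, hn⟩ := h (fun n => (a n).1) (fun i k hik => a.monotone hik) (fun n => (a n).2.1)
      (fun n => (a n).2.2.1) (fun n => (a n).2.2.2)
    exact ⟨n, fun m hm => Subtype.ext (hn m hm).symm⟩
  obtain ⟨m, hm, hmax⟩ := hwf.wf.has_min {q : Q | p q.1} ⟨⟨Y0, hp _ h0⟩, h0⟩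
  refine ⟨m.1, hm, fun Y' hY' hle => ?_⟩
  have h1 := hmax ⟨Y', hp _ hY'⟩ hY'
  by_contra hne
  exact h1 (lt_of_le_of_ne hle (fun h => hne (congrArg Subtype.val h).symm))

theorem noe_of_surj {Tg : Type*} [Group Tg] {N' : Type*} [AddCommGroup N'] {ρ : Tg →* Au N}
    {ρ' : Tg →* Au N'} (π : N →+ N') (hπ : Function.Surjective π)
    (heq : ∀ t w, π (ρ t • w) = ρ' t • π w) (U : Subgroup Tg) (h : Noe (opSet ρ U) ⊥ ⊤) :
    Noe (opSet ρ' U) ⊥ ⊤ := by
  intro f hf hst _ _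
  obtain ⟨n, hn⟩ := h (fun n => (f n).comap π) (fun i k hik => AddSubgroup.comap_mono (hf hik))
    (by
      rintro n _ ⟨t, ht, rfl⟩ w hw
      show π (ρ t • w) ∈ f n
      rw [heq]
      exact hst n _ ⟨t, ht, rfl⟩ _ hw)
    (fun _ => bot_le) (fun _ => le_top)
  exact ⟨n, fun m hm => AddSubgroup.comap_injective hπ (hn m hm)⟩

theorem noe_of_inj {Tg : Type*} [Group Tg] {N' : Type*} [AddCommGroup N'] {ρ : Tg →* Au N}
    {ρ' : Tg →* Au N'} (ι : N' →+ N) (hι : Function.Injective ι)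
    (heq : ∀ t w, ι (ρ' t • w) = ρ t • ι w) (U : Subgroup Tg) (h : Noe (opSet ρ U) ⊥ ⊤) :
    Noe (opSet ρ' U) ⊥ ⊤ := by
  intro f hf hst _ _
  obtain ⟨n, hn⟩ := h (fun n => (f n).map ι) (fun i k hik => AddSubgroup.map_mono (hf hik))
    (by
      rintro n _ ⟨t, ht, rfl⟩ _ ⟨w, hw, rfl⟩
      exact ⟨ρ' t • w, hst n _ ⟨t, ht, rfl⟩ _ hw, heq t w⟩)
    (fun _ => bot_le) (fun _ => le_top)
  exact ⟨n, fun m hm => AddSubgroup.map_injective hι (hn m hm)⟩

end noe

/-- All the data of the main argument. -/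
structure Dat {Tg : Type} [CommGroup Tg] (aT : A →* MulAut Tg) {N : Type} [AddCommGroup N]
    (ρ : Tg →* Au N) (α : A →* Au N) (φ : MulAut Tg) (ξ : Au N)
    {Bt : Type} [AddCommGroup Bt] [Module RA Bt] (τ : MulAut A) (X : Au Bt) (L : Submodule RA Bt)
    (j : Bt →+ N) : Prop where
  two : ∀ w : N, w + w = 0
  noe : Noe (opSet ρ ⊤) ⊥ ⊤
  hα : ∀ (v : A) (t : Tg) (w : N), α v • (ρ t • w) = ρ (aT v t) • (α v • w)
  hξ : ∀ (t : Tg) (w : N), ξ • (ρ t • w) = ρ (φ t) • (ξ • w)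
  pack : BPack Bt τ X L
  hξα : ∀ (v : A), ξ * α v = α (τ v) * ξ
  hφ : ∀ v : A, φ * aT v * φ⁻¹ = aT (τ v)
  inj : Function.Injective j
  jα : ∀ (v : A) (b : Bt), j (mono v • b) = α v • j b
  jξ : ∀ b : Bt, j (X • b) = ξ • j b

end Pool.Agent.E2F

end
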