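import Pool.Agent.Lib.E2F.DatDef

set_option autoImplicit false

noncomputable section

namespace Pool.Agent.E2F

section pow

theorem BPack.nest_pow {Bt : Type} [AddCommGroup Bt] [Module RA Bt] {τ : MulAut A}
    {X : Au Bt} {L : Submodule RA Bt} (h : BPack Bt τ X L) (n : ℕ) :
    ∀ b ∈ L, (X ^ n)⁻¹ • b ∈ L := by
  induction n with
  | zero => intro b hb; simpa using hb
  | succ n ih =>
    intro b hb
    rw [pow_succ, mul_inv_rev, mul_smul]
    exact h.nest _ (ih _ hb)

theorem semi_pow {Bt : Type} [AddCommGroup Bt] [Module RA Bt] {τ : MulAut A}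
    {X : Au Bt} (h : ∀ (v : A) (b : Bt), X • (mono v • b) = mono (τ v) • (X • b)) (n : ℕ) :
    ∀ (v : A) (b : Bt), X ^ n • (mono v • b) = mono ((τ ^ n) v) • (X ^ n • b) := by
  induction n with
  | zero => intro v b; simp
  | succ n ih =>
    intro v b
    rw [pow_succ, mul_smul, h, ih, mul_smul, pow_succ]
    rfl

theorem BPack.pow {Bt : Type} [AddCommGroup Bt] [Module RA Bt] {τ : MulAut A}
    {X : Au Bt} {L : Submodule RA Bt} (h : BPack Bt τ X L) (n : ℕ) (hn : 1 ≤ n) :
    BPack Bt (τ ^ n) (X ^ n) L where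
  inf := h.inf
  semi := semi_pow h.semi n
  fg := h.fg
  nest := h.nest_pow n
  exh b := by
    obtain ⟨k, hk⟩ := h.exh b
    refine ⟨k, ?_⟩
    obtain ⟨l, rfl⟩ := Nat.exists_eq_add_of_le hn
    rw [← pow_mul, add_mul, one_mul, add_comm, pow_add, mul_inv_rev, mul_smul, ← mul_smul]
    have h1 := h.nest_pow (l * k) _ hk
    rw [← mul_smul, ← mul_inv_rev, ← pow_add] at h1
    rw [← mul_inv_rev, ← pow_add, add_comm (l * k) k]
    exact h1
  mul := h.mul
  fq m hm D hD h1 h2 := by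
    simp only [← pow_mul] at h1 h2
    exact h.fq (n * m) (Nat.mul_pos hn hm) D hD h1 h2
  pr m hm D hD h1 h2 := by
    simp only [← pow_mul] at h1 h2
    exact h.pr (n * m) (Nat.mul_pos hn hm) D hD h1 h2

variable {Tg : Type} [CommGroup Tg] {aT : A →* MulAut Tg} {N : Type} [AddCommGroup N]
    {ρ : Tg →* Au N} {α : A →* Au N} {φ : MulAut Tg} {ξ : Au N}
    {Bt : Type} [AddCommGroup Bt] [Module RA Bt] {τ : MulAut A} {X : Au Bt} {L : Submodule RA Bt}
    {j : Bt →+ N}

theorem Dat.jpow (d : Dat aT ρ α φ ξ τ X L j) (n : ℕ) (b : Bt) :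
    j (X ^ n • b) = ξ ^ n • j b := by
  induction n generalizing b with
  | zero => simp
  | succ n ih =>
    rw [pow_succ, mul_smul, ih, d.jξ, pow_succ, mul_smul]

theorem Dat.jinvpow (d : Dat aT ρ α φ ξ τ X L j) (n : ℕ) (b : Bt) :
    j ((X ^ n)⁻¹ • b) = (ξ ^ n)⁻¹ • j b := by
  rw [eq_inv_smul_iff, ← d.jpow, smul_inv_smul]

theorem Dat.jinv (d : Dat aT ρ α φ ξ τ X L j) (b : Bt) :
    j (X⁻¹ • b) = ξ⁻¹ • j b := by
  rw [eq_inv_smul_iff, ← d.jξ, smul_inv_smul]

theorem Dat.pow (d : Dat aT ρ α φ ξ τ X L j) (n : ℕ) (hn : 1 ≤ n) :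
    Dat aT ρ α (φ ^ n) (ξ ^ n) (τ ^ n) (X ^ n) L j where
  two := d.two
  noe := d.noe
  hα := d.hα
  hξ := by
    intro t w
    induction n with
    | zero => simp
    | succ n ih =>
      rcases Nat.eq_zero_or_pos n with rfl | hpos
      · simpa using d.hξ t w
      · rw [pow_succ', mul_smul, ih hpos, d.hξ, pow_succ' φ, mul_smul]
        rfl
  pack := d.pack.pow n hn
  hξα := by
    intro v
    clear hn
    induction n with
    | zero => simp
    | succ n ih =>
      rw [pow_succ', mul_assoc, ih, ← mul_assoc, d.hξα, mul_assoc, pow_succ' τ]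
      rfl
  hφ := by
    intro v
    clear hn
    induction n with
    | zero => simp
    | succ n ih =>
      have h1 : φ ^ (n + 1) * aT v * (φ ^ (n + 1))⁻¹ = φ * (φ ^ n * aT v * (φ ^ n)⁻¹) * φ⁻¹ := by
        rw [pow_succ']; group
      rw [h1, ih, d.hφ, pow_succ' τ]
      rfl
  inj := d.inj
  jα := d.jα
  jξ := d.jpow n

end pow

section sub

variable {Bt : Type} [AddCommGroup Bt] [Module RA Bt]

/-- Restriction of an automorphism to a stable submodule. -/
def subX (D : Submodule RA Bt) (X : Au Bt) (h : ∀ b ∈ D, X • b ∈ D) (h' : ∀ b ∈ D, X⁻¹ • b ∈ D) :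
    Au D where
  val := AddMonoidHom.mk' (fun w : D => (⟨X • (w : Bt), h _ w.2⟩ : D))
        (fun a b => Subtype.ext (smul_add X (a : Bt) b))
  inv := AddMonoidHom.mk' (fun w : D => (⟨X⁻¹ • (w : Bt), h' _ w.2⟩ : D))
        (fun a b => Subtype.ext (smul_add X⁻¹ (a : Bt) b))
  val_inv := AddMonoidHom.ext fun w => Subtype.ext (smul_inv_smul X (w : Bt))
  inv_val := AddMonoidHom.ext fun w => Subtype.ext (inv_smul_smul X (w : Bt))

theorem subX_smul (D : Submodule RA Bt) (X : Au Bt) (h : ∀ b ∈ D, X • b ∈ D)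
    (h' : ∀ b ∈ D, X⁻¹ • b ∈ D) (w : D) : ((subX D X h h' • w : D) : Bt) = X • (w : Bt) := rfl

theorem subX_pow_smul (D : Submodule RA Bt) (X : Au Bt) (h : ∀ b ∈ D, X • b ∈ D)
    (h' : ∀ b ∈ D, X⁻¹ • b ∈ D) (n : ℕ) (w : D) :
    (((subX D X h h') ^ n • w : D) : Bt) = X ^ n • (w : Bt) := by
  induction n generalizing w with
  | zero => simp
  | succ n ih => rw [pow_succ, mul_smul, ih, pow_succ, mul_smul, subX_smul]

theorem subX_invpow_smul (D : Submodule RA Bt) (X : Au Bt) (h : ∀ b ∈ D, X • b ∈ D)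
    (h' : ∀ b ∈ D, X⁻¹ • b ∈ D) (n : ℕ) (w : D) :
    ((((subX D X h h') ^ n)⁻¹ • w : D) : Bt) = (X ^ n)⁻¹ • (w : Bt) := by
  rw [eq_inv_smul_iff, ← subX_pow_smul D X h h', smul_inv_smul]

instance : IsNoetherianRing RA := by
  have : Group.FG A := inferInstance
  have : Algebra.FiniteType (ZMod 2) RA := inferInstance
  exact Algebra.FiniteType.isNoetherianRing (ZMod 2) RA

theorem BPack.sub {τ : MulAut A} {X : Au Bt} {L : Submodule RA Bt} (h : BPack Bt τ X L)
    (D : Submodule RA Bt) (hD : D ≠ ⊥) (h1 : ∀ b ∈ D, X • b ∈ D) (h2 : ∀ b ∈ D, X⁻¹ • b ∈ D) :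
    BPack D τ (subX D X h1 h2) (L.comap D.subtype) where
  inf := by
    have := h.inf
    have := h.fq 1 le_rfl D hD (by simpa using h1) (by simpa using h2)
    by_contra hfin
    rw [not_infinite_iff_finite] at hfin
    have : Finite Bt := by
      have : Finite (D.toAddSubgroup) := hfin
      have : Finite (Bt ⧸ D.toAddSubgroup) := ‹Finite (Bt ⧸ D)›
      exact Finite.of_equiv _ (AddSubgroup.addGroupEquivQuotientProdAddSubgroup (s := D.toAddSubgroup)).symm
    exact not_finite Bt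
  semi v b := Subtype.ext (h.semi v b)
  fg := by
    have : IsNoetherian RA L := isNoetherian_of_fg_of_noetherian _ h.fg
    apply Submodule.fg_of_fg_map_injective D.subtype D.injective_subtype
    have : (L.comap D.subtype).map D.subtype ≤ L := Submodule.map_comap_le _ _
    exact Submodule.FG.of_le h.fg this
  nest b hb := h.nest _ hb
  exh b := by
    obtain ⟨n, hn⟩ := h.exh b
    refine ⟨n, ?_⟩
    show ((((subX D X h1 h2) ^ n)⁻¹ • b : D) : Bt) ∈ L
    rw [subX_invpow_smul]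
    exact hn
  mul b := h.mul b
  fq m hm D1 hD1 h3 h4 := by
    have hfin := h.fq m hm (D1.map D.subtype) (fun h0 => hD1
      (Submodule.map_injective_of_injective D.injective_subtype (by rw [h0, Submodule.map_bot]))) (by
      rintro _ ⟨w, hw, rfl⟩
      exact ⟨_, h3 w hw, subX_pow_smul D X h1 h2 m w⟩) (by
      rintro _ ⟨w, hw, rfl⟩
      exact ⟨_, h4 w hw, subX_invpow_smul D X h1 h2 m w⟩)
    refine Finite.of_injective (Submodule.mapQ D1 (D1.map D.subtype) D.subtype
      (Submodule.le_comap_map _ _)) ?_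
    rw [← LinearMap.ker_eq_bot, Submodule.ker_mapQ, Submodule.comap_map_eq_of_injective D.injective_subtype]
    simp
  pr m hm D1 hD1 h3 h4 := by
    rintro ⟨c, hc, hcD⟩
    refine h.pr m hm (D1.map D.subtype) (fun h0 => hD1
      (Submodule.map_injective_of_injective D.injective_subtype (by rw [h0, Submodule.map_bot]))) (by
      rintro _ ⟨w, hw, rfl⟩
      exact ⟨_, h3 w hw, subX_pow_smul D X h1 h2 m w⟩) (by
      rintro _ ⟨w, hw, rfl⟩
      exact ⟨_, h4 w hw, subX_invpow_smul D X h1 h2 m w⟩) ⟨c, hc, ?_⟩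
    rintro _ ⟨w, hw, rfl⟩
    exact hcD w hw

end sub

section datops

variable {Tg : Type} [CommGroup Tg] {aT : A →* MulAut Tg} {N : Type} [AddCommGroup N]
    {ρ : Tg →* Au N} {α : A →* Au N} {φ : MulAut Tg} {ξ : Au N}
    {Bt : Type} [AddCommGroup Bt] [Module RA Bt] {τ : MulAut A} {X : Au Bt} {L : Submodule RA Bt}
    {j : Bt →+ N}

theorem mem_stab_of {G : Type*} [Group G] (ρ : G →* Au N) (N' : AddSubgroup N)
    (h : ∀ t, ∀ w ∈ N', ρ t • w ∈ N') (t : G) : ρ t ∈ stabAu N' :=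
  ⟨h t, fun w hw => by rw [← map_inv]; exact h _ w hw⟩

theorem Dat.quot (d : Dat aT ρ α φ ξ τ X L j) (N' : AddSubgroup N)
    (h1 : ∀ t, ∀ w ∈ N', ρ t • w ∈ N') (h2 : ∀ v, ∀ w ∈ N', α v • w ∈ N')
    (h3 : ξ ∈ stabAu N') (h4 : ∀ b, j b ∈ N' → b = 0) :
    Dat aT ((quotA N').comp (ρ.codRestrict (stabAu N') (mem_stab_of ρ N' h1)))
      ((quotA N').comp (α.codRestrict (stabAu N') (mem_stab_of α N' h2))) φ (quotA N' ⟨ξ, h3⟩) τ X L
      ((QuotientAddGroup.mk' N').comp j) where
  two w := by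
    obtain ⟨w, rfl⟩ := QuotientAddGroup.mk_surjective w
    show ((w + w : N) : N ⧸ N') = 0
    rw [d.two]; rfl
  noe := noe_of_surj (QuotientAddGroup.mk' N') (QuotientAddGroup.mk'_surjective N')
    (fun t w => rfl) ⊤ d.noe
  hα v t w := by
    obtain ⟨w, rfl⟩ := QuotientAddGroup.mk_surjective w
    exact congrArg (QuotientAddGroup.mk (s := N')) (d.hα v t w)
  hξ t w := by
    obtain ⟨w, rfl⟩ := QuotientAddGroup.mk_surjective w
    exact congrArg (QuotientAddGroup.mk (s := N')) (d.hξ t w)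
  pack := d.pack
  hξα v := by
    refine Units.ext (AddMonoidHom.ext fun w => ?_)
    obtain ⟨w, rfl⟩ := QuotientAddGroup.mk_surjective w
    have h := congrArg (fun f : Au N => f • w) (d.hξα v)
    exact congrArg (QuotientAddGroup.mk (s := N')) h
  hφ := d.hφ
  inj := by
    rw [injective_iff_map_eq_zero]
    intro b hb
    apply h4
    exact (QuotientAddGroup.eq_zero_iff (j b)).mp hb
  jα v b := congrArg (QuotientAddGroup.mk (s := N')) (d.jα v b)
  jξ b := congrArg (QuotientAddGroup.mk (s := N')) (d.jξ b)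

/-- `RA`-submodules from stable subgroups. -/
def toSub (D : AddSubgroup Bt) (h : ∀ v : A, ∀ b ∈ D, mono v • b ∈ D) : Submodule RA Bt where
  toAddSubmonoid := D.toAddSubmonoid
  smul_mem' := by
    intro r b hb
    show r • b ∈ D
    induction r using MA_ind with
    | h0 => rw [zero_smul]; exact D.zero_mem
    | hof v => exact h v b hb
    | hadd r s hr hs => rw [add_smul]; exact D.add_mem hr hs

theorem mem_toSub (D : AddSubgroup Bt) (h : ∀ v : A, ∀ b ∈ D, mono v • b ∈ D) (b : Bt) :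
    b ∈ toSub D h ↔ b ∈ D := Iff.rfl

/-- the preimage of a stable subgroup is a submodule -/
def Dat.pre (d : Dat aT ρ α φ ξ τ X L j) (N' : AddSubgroup N)
    (h2 : ∀ v, ∀ w ∈ N', α v • w ∈ N') : Submodule RA Bt :=
  toSub (N'.comap j) (fun v b hb => by
    show j (mono v • b) ∈ N'
    rw [d.jα]; exact h2 v _ hb)

theorem Dat.mem_pre (d : Dat aT ρ α φ ξ τ X L j) (N' : AddSubgroup N)
    (h2 : ∀ v, ∀ w ∈ N', α v • w ∈ N') (b : Bt) : b ∈ d.pre N' h2 ↔ j b ∈ N' := Iff.rfl

theorem Dat.sub (d : Dat aT ρ α φ ξ τ X L j) (N' : AddSubgroup N)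
    (h1 : ∀ t, ∀ w ∈ N', ρ t • w ∈ N') (h2 : ∀ v, ∀ w ∈ N', α v • w ∈ N')
    (h3 : ξ ∈ stabAu N') (h4 : d.pre N' h2 ≠ ⊥) :
    ∃ (X' : Au (d.pre N' h2)) (L' : Submodule RA (d.pre N' h2)),
    Dat aT ((subA N').comp (ρ.codRestrict (stabAu N') (mem_stab_of ρ N' h1)))
      ((subA N').comp (α.codRestrict (stabAu N') (mem_stab_of α N' h2))) φ (subA N' ⟨ξ, h3⟩) τ X' L'
      (AddMonoidHom.mk' (fun b : d.pre N' h2 => (⟨j b, b.2⟩ : N'))
        (fun a b => Subtype.ext (map_add j (a : Bt) b))) := by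
  have hX : ∀ b ∈ d.pre N' h2, X • b ∈ d.pre N' h2 := by
    intro b hb
    rw [d.mem_pre] at hb ⊢
    rw [d.jξ]; exact h3.1 _ hb
  have hX' : ∀ b ∈ d.pre N' h2, X⁻¹ • b ∈ d.pre N' h2 := by
    intro b hb
    rw [d.mem_pre] at hb ⊢
    rw [d.jinv]; exact h3.2 _ hb
  refine ⟨_, _, ⟨?_, ?_, ?_, ?_, d.pack.sub _ h4 hX hX', ?_, d.hφ, ?_, ?_, ?_⟩⟩
  · exact fun w => Subtype.ext (d.two w)
  · exact noe_of_inj N'.subtype N'.subtype_injective (fun t w => rfl) ⊤ d.noe
  · exact fun v t w => Subtype.ext (d.hα v t w)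
  · exact fun t w => Subtype.ext (d.hξ t w)
  · intro v
    refine Units.ext (AddMonoidHom.ext fun w => Subtype.ext ?_)
    exact congrArg (fun f : Au N => f • (w : N)) (d.hξα v)
  · intro a b hab
    exact Subtype.ext (d.inj (congrArg Subtype.val hab))
  · exact fun v b => Subtype.ext (d.jα v b)
  · exact fun b => Subtype.ext (d.jξ b)

/-- the kernel of `ρ` is stable -/
theorem Dat.ker_stable (d : Dat aT ρ α φ ξ τ X L j) (v : A) (t : Tg) (ht : t ∈ ρ.ker) :
    aT v t ∈ ρ.ker := by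
  rw [MonoidHom.mem_ker] at ht ⊢
  refine Units.ext (AddMonoidHom.ext fun w => ?_)
  have h := d.hα v t ((α v)⁻¹ • w)
  rw [ht, one_smul, smul_inv_smul] at h
  exact h.symm

theorem Dat.ker_stable_φ (d : Dat aT ρ α φ ξ τ X L j) (t : Tg) (ht : t ∈ ρ.ker) :
    φ t ∈ ρ.ker := by
  rw [MonoidHom.mem_ker] at ht ⊢
  refine Units.ext (AddMonoidHom.ext fun w => ?_)
  have h := d.hξ t (ξ⁻¹ • w)
  rw [ht, one_smul, smul_inv_smul] at h
  exact h.symm

theorem Dat.ker_stable_φ' (d : Dat aT ρ α φ ξ τ X L j) (t : Tg) (ht : t ∈ ρ.ker) :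
    φ⁻¹ t ∈ ρ.ker := by
  rw [MonoidHom.mem_ker] at ht ⊢
  refine Units.ext (AddMonoidHom.ext fun w => ?_)
  have h := d.hξ (φ⁻¹ t) w
  rw [MulAut.apply_inv_self, ht, one_smul] at h
  exact (smul_left_cancel ξ h)

/-- step 0 -/
theorem Dat.step0 (d : Dat aT ρ α φ ξ τ X L j) : Infinite (Tg ⧸ ρ.ker) := by
  by_contra hfin
  rw [not_infinite_iff_finite] at hfin
  have hfr : Finite (Set.range ρ) := by
    have : Finite ρ.range := Finite.of_equiv _ (QuotientGroup.quotientKerEquivRange ρ).toEquiv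
    exact this
  -- a maximal finite stable subgroup
  obtain ⟨F, ⟨hF, hFfin⟩, hmax⟩ := d.noe.exists_max
    (fun Y => St (opSet ρ ⊤) Y ∧ (Y : Set N).Finite) (fun Y hY => ⟨hY.1, bot_le, le_top⟩) ⊥
    ⟨by rintro _ ⟨t, _, rfl⟩ w hw
        rw [AddSubgroup.mem_bot] at hw ⊢
        subst hw
        exact map_zero _, by simp⟩
  have htop : ∀ w : N, w ∈ F := by
    intro w
    set W := AddSubgroup.closure (Set.range fun g : Set.range ρ => (g : Au N) • w) with hW
    have hWfin : (W : Set N).Finite := by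
      letI : Module (ZMod 2) N :=
        AddCommGroup.zmodModule (n := 2) (by intro x; rw [two_nsmul]; exact d.two x)
      have h1 : W = (Submodule.span (ZMod 2) (Set.range fun g : Set.range ρ => (g : Au N) • w)).toAddSubgroup := by
        apply le_antisymm
        · rw [hW, AddSubgroup.closure_le]
          exact Submodule.subset_span
        · intro x hx
          have hx' : x ∈ Submodule.span (ZMod 2) (Set.range fun g : Set.range ρ => (g : Au N) • w) := hx
          clear hx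
          induction hx' using Submodule.span_induction with
          | mem x hx => exact AddSubgroup.subset_closure hx
          | zero => exact W.zero_mem
          | add x y hx hy ihx ihy => exact W.add_mem ihx ihy
          | smul c x hx ihx =>
            have h : ∀ c : ZMod 2, c = 0 ∨ c = 1 := by decide
            rcases h c with rfl | rfl
            · rw [zero_smul]; exact W.zero_mem
            · rw [one_smul]; exact ihx
      have h2 : Module.Finite (ZMod 2) (Submodule.span (ZMod 2) (Set.range fun g : Set.range ρ => (g : Au N) • w)) :=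
        Module.Finite.span_of_finite _ (Set.finite_range _)
      have h3 : Finite (Submodule.span (ZMod 2) (Set.range fun g : Set.range ρ => (g : Au N) • w)) :=
        Module.finite_of_finite (ZMod 2)
      rw [h1]
      exact h3
    have hWst : St (opSet ρ ⊤) W := by
      rintro _ ⟨t, _, rfl⟩ x hx
      show ρ t • x ∈ W
      have : W ≤ W.comap (ρ t : AddMonoid.End N) := by
        refine (AddSubgroup.closure_le _).mpr ?_
        rintro _ ⟨⟨_, s, rfl⟩, rfl⟩
        show ρ t • (ρ s • w) ∈ W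
        rw [← mul_smul, ← map_mul]
        exact AddSubgroup.subset_closure ⟨⟨_, t * s, rfl⟩, rfl⟩
      exact this hx
    have hFW : F ⊔ W = F := by
      refine hmax (F ⊔ W) ⟨?_, ?_⟩ le_sup_left
      · rintro ψ hψ x hx
        rw [AddSubgroup.mem_sup] at hx ⊢
        obtain ⟨y, hy, z, hz, rfl⟩ := hx
        exact ⟨ψ y, hF ψ hψ y hy, ψ z, hWst ψ hψ z hz, (map_add _ _ _).symm⟩
      · refine Set.Finite.subset (hFfin.add hWfin) ?_
        intro x hx
        obtain ⟨y, hy, z, hz, rfl⟩ := AddSubgroup.mem_sup.mp hx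
        exact ⟨y, hy, z, hz, rfl⟩
    rw [← hFW]
    apply AddSubgroup.mem_sup_right
    exact AddSubgroup.subset_closure ⟨⟨_, 1, rfl⟩, by
      show ρ 1 • w = w
      rw [map_one, one_smul]⟩
  have hNfin : Finite N := by
    rw [← Set.finite_univ_iff]
    exact hFfin.subset (fun w _ => htop w)
  have := d.pack.inf
  have := Finite.of_injective j d.inj
  exact not_finite Bt

end datops

end Pool.Agent.E2F

end
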