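import Mathlib

/-!
# Shared definitions for the negative solution of `MP_e2f787_al` (frozen statement `S02248`)

`A = ℤ²` (written multiplicatively), `RA = F_2[A]`, `K` its fraction field, `sg` the hyperbolic
automorphism `(m,n) ↦ (2m+n, m+n)` of `A`, `aa = y^{(1,0)} + 1`, `xK : K → K`, `q ↦ sgK q / aa`,
`Bsub = {q : K | s_n q ∈ RA for some n}`, `s_n = ∏_{j<n} sg^j(aa)`.
The counterexample is `G = Bsub ⋊ (ℤ² ⋊ ℤ)`.
-/

set_option autoImplicit false

noncomputable section

namespace Pool.Agent.E2F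

/-- Additive automorphisms, as a multiplicative group. `g • w` is the application. -/
abbrev Au (N : Type*) [AddCommGroup N] := (AddMonoid.End N)ˣ

section ops

variable {N : Type*} [AddCommGroup N]

/-- `X` is stable under all the operators in `O`. -/
def St (O : Set (AddMonoid.End N)) (X : AddSubgroup N) : Prop :=
  ∀ φ ∈ O, ∀ w ∈ X, φ w ∈ X

/-- Ascending chain condition for the `O`-stable subgroups lying between `L` and `U`. -/
def Noe (O : Set (AddMonoid.End N)) (L U : AddSubgroup N) : Prop :=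
  ∀ f : ℕ → AddSubgroup N, Monotone f → (∀ n, St O (f n)) → (∀ n, L ≤ f n) → (∀ n, f n ≤ U) →
    ∃ n, ∀ m, n ≤ m → f m = f n

/-- Elements of `Y` that are `S`-torsion modulo `X` are killed modulo `X` by powers of one single
element of `S`. -/
def Tame (S : Submonoid (AddMonoid.End N)) (X Y : AddSubgroup N) : Prop :=
  ∃ c ∈ S, ∀ w ∈ Y, (∃ h ∈ S, h w ∈ X) → ∃ i : ℕ, (c ^ i) w ∈ X

/-- The set of operators of a group of automorphisms. -/
def opSet {Tg : Type*} [Group Tg] (ρ : Tg →* Au N) (U : Subgroup Tg) :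
    Set (AddMonoid.End N) := (fun s => (ρ s : AddMonoid.End N)) '' (U : Set Tg)

end ops

/-! ### The ring `F_2[ℤ²]` and its fraction field -/

/-- The group `ℤ²`, written multiplicatively. -/
abbrev A := Multiplicative (ℤ × ℤ)

/-- The group ring `F_2[ℤ²]`. -/
abbrev RA := MonoidAlgebra (ZMod 2) A

/-- The monomial `y^v`. -/
abbrev mono : A →* RA := MonoidAlgebra.of (ZMod 2) A

/-- The hyperbolic automorphism `(m,n) ↦ (2m+n, m+n)` of `ℤ²`. -/
def sg : MulAut A where
  toFun v := Multiplicative.ofAdd (2 * v.toAdd.1 + v.toAdd.2, v.toAdd.1 + v.toAdd.2)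
  invFun v := Multiplicative.ofAdd (v.toAdd.1 - v.toAdd.2, - v.toAdd.1 + 2 * v.toAdd.2)
  left_inv v := by
    apply Multiplicative.toAdd.injective
    ext <;> simp <;> ring
  right_inv v := by
    apply Multiplicative.toAdd.injective
    ext <;> simp <;> ring
  map_mul' v w := by
    apply Multiplicative.toAdd.injective
    ext <;> simp <;> ring

/-- The ring automorphism of `F_2[ℤ²]` induced by an automorphism of `ℤ²`. -/
def autR (τ : MulAut A) : RA ≃+* RA :=
  (MonoidAlgebra.domCongr (ZMod 2) (ZMod 2) τ).toRingEquiv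

theorem autR_mono (τ : MulAut A) (v : A) : autR τ (mono v) = mono (τ v) := by
  simp [autR]

theorem autR_mul_apply (τ τ' : MulAut A) (r : RA) : autR (τ * τ') r = autR τ (autR τ' r) := by
  have h : ((autR (τ * τ') : RA ≃+* RA) : RA →+* RA) =
      ((autR τ : RA ≃+* RA) : RA →+* RA).comp ((autR τ' : RA ≃+* RA) : RA →+* RA) := by
    apply MonoidAlgebra.ringHom_ext
    · intro r
      simp [autR]
    · intro v
      simp [autR]
  exact congrArg (fun f : RA →+* RA => f r) h

theorem autR_one_apply (r : RA) : autR 1 r = r := by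
  have h : ((autR 1 : RA ≃+* RA) : RA →+* RA) = RingHom.id RA := by
    apply MonoidAlgebra.ringHom_ext
    · intro r
      simp [autR]
    · intro v
      simp [autR]
  exact congrArg (fun f : RA →+* RA => f r) h

/-- The generator `(1,0)`. -/
def e1 : A := Multiplicative.ofAdd (1, 0)

/-- The generator `(0,1)`. -/
def e2 : A := Multiplicative.ofAdd (0, 1)

/-- The element `y^{(1,0)} + 1`. -/
def aa : RA := mono e1 + 1

/-- The field of fractions of `F_2[ℤ²]`. -/
abbrev K := FractionRing RA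

/-- The inclusion `RA → K`. -/
abbrev iK : RA →+* K := algebraMap RA K

/-- The field automorphism of `K` induced by `sg`. -/
def sgK : K ≃+* K := IsFractionRing.ringEquivOfRingEquiv (autR sg)

theorem sgK_iK (r : RA) : sgK (iK r) = iK (autR sg r) := by
  simp [sgK]

theorem aa_ne_zero : aa ≠ 0 := by
  intro h
  have := congrArg (fun f : RA => f.coeff e1) h
  simp [aa, e1, MonoidAlgebra.one_def] at this

theorem iK_aa_ne_zero : iK aa ≠ 0 := by
  simpa using aa_ne_zero

/-- The additive automorphism `q ↦ sgK q / aa` of `K`. -/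
def xK : Au K where
  val := (AddMonoidHom.mulRight (iK aa)⁻¹).comp (sgK : K →+* K).toAddMonoidHom
  inv := (sgK.symm : K →+* K).toAddMonoidHom.comp (AddMonoidHom.mulRight (iK aa))
  val_inv := by
    ext q
    show sgK (sgK.symm (q * iK aa)) * (iK aa)⁻¹ = q
    rw [RingEquiv.apply_symm_apply, mul_inv_cancel_right₀ iK_aa_ne_zero]
  inv_val := by
    ext q
    show sgK.symm (sgK q * (iK aa)⁻¹ * iK aa) = q
    rw [inv_mul_cancel_right₀ iK_aa_ne_zero, RingEquiv.symm_apply_apply]

theorem xK_smul (q : K) : xK • q = sgK q * (iK aa)⁻¹ := rfl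

theorem xK_inv_smul (q : K) : xK⁻¹ • q = sgK.symm (q * iK aa) := rfl

/-- Multiplication by the monomials. -/
def yK : A →* Au K where
  toFun v :=
    { val := AddMonoidHom.mulLeft (iK (mono v))
      inv := AddMonoidHom.mulLeft (iK (mono v⁻¹))
      val_inv := by
        ext q
        show iK (mono v) * (iK (mono v⁻¹) * q) = q
        rw [← mul_assoc, ← map_mul, ← map_mul, mul_inv_cancel, map_one, map_one, one_mul]
      inv_val := by
        ext q
        show iK (mono v⁻¹) * (iK (mono v) * q) = q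
        rw [← mul_assoc, ← map_mul, ← map_mul, inv_mul_cancel, map_one, map_one, one_mul] }
  map_one' := by
    ext q
    show iK (mono 1) * q = q
    rw [map_one, map_one, one_mul]
  map_mul' v w := by
    ext q
    show iK (mono (v * w)) * q = iK (mono v) * (iK (mono w) * q)
    rw [map_mul, map_mul, mul_assoc]

theorem yK_smul (v : A) (q : K) : yK v • q = iK (mono v) * q := rfl

theorem xK_yK (v : A) : xK * yK v = yK (sg v) * xK := by
  ext q
  show sgK (iK (mono v) * q) * (iK aa)⁻¹ = iK (mono (sg v)) * (sgK q * (iK aa)⁻¹)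
  rw [map_mul, sgK_iK, autR_mono, mul_assoc]

/-- `s_n = ∏_{j<n} sg^j(aa)`. -/
def ss (n : ℕ) : RA := ∏ j ∈ Finset.range n, (autR (sg ^ j)) aa

/-- The abelian normal subgroup of the counterexample. -/
def Bsub : AddSubgroup K where
  carrier := {q | ∃ n : ℕ, ∃ f : RA, iK (ss n) * q = iK f}
  zero_mem' := ⟨0, 0, by simp⟩
  add_mem' := by
    rintro p q ⟨n, f, hf⟩ ⟨m, g, hg⟩
    have key : ∀ n m : ℕ, ∃ c : RA, ss (n + m) = c * ss n := by
      intro n m
      refine ⟨∏ j ∈ Finset.range m, (autR (sg ^ (n + j))) aa, ?_⟩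
      rw [ss, ss, Finset.prod_range_add, mul_comm]
    obtain ⟨c, hc⟩ := key n m
    obtain ⟨d, hd⟩ := key m n
    refine ⟨n + m, c * f + d * g, ?_⟩
    have e1 : iK (ss (n + m)) * p = iK (c * f) := by
      rw [hc, map_mul, mul_assoc, hf, map_mul]
    have e2 : iK (ss (n + m)) * q = iK (d * g) := by
      rw [add_comm n m, hd, map_mul, mul_assoc, hg, map_mul]
    rw [mul_add, e1, e2, map_add]
  neg_mem' := by
    rintro q ⟨n, f, hf⟩
    exact ⟨n, -f, by rw [mul_neg, hf, map_neg]⟩

/-! ### The modules over `F_2[eℤ²]` -/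

/-- The `e`-th power map `y^v ↦ y^{e v}` of `F_2[ℤ²]`. -/
def psi (e : ℕ) : RA →+* RA :=
  MonoidAlgebra.mapDomainRingHom (ZMod 2) (powMonoidHom (α := A) e)

theorem psi_mono (e : ℕ) (v : A) : psi e (mono v) = mono (v ^ e) := by
  simp [psi]

/-- The field `K`, seen as an `RA`-module through `psi e`. -/
@[nolint unusedArguments]
def KE (_e : ℕ) : Type := K

instance (e : ℕ) : AddCommGroup (KE e) := inferInstanceAs (AddCommGroup K)

instance (e : ℕ) : Module RA (KE e) :=
  Module.compHom K (iK.comp (psi e))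

theorem KE_smul (e : ℕ) (r : RA) (q : KE e) : r • q = (show KE e from iK (psi e r) * (show K from q)) :=
  rfl

/-- The identity map `KE e → K`. -/
def toK (e : ℕ) : KE e ≃+ K := AddEquiv.refl K

theorem toK_smul (e : ℕ) (r : RA) (q : KE e) : toK e (r • q) = iK (psi e r) * toK e q := rfl

/-- The abstract properties of (subgroups of) `Bsub` used in the main argument. `X` plays the role
of (a power of) `xK`, and `L` the role of the elements that lie in `RA`. -/
structure BPack (Bt : Type) [AddCommGroup Bt] [Module RA Bt] (τ : MulAut A)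
    (X : Au Bt) (L : Submodule RA Bt) : Prop where
  inf : Infinite Bt
  semi : ∀ (v : A) (b : Bt), X • (mono v • b) = mono (τ v) • (X • b)
  fg : L.FG
  nest : ∀ b ∈ L, X⁻¹ • b ∈ L
  exh : ∀ b : Bt, ∃ n : ℕ, (X ^ n)⁻¹ • b ∈ L
  mul : ∀ b : Bt, ∃ h : RA, h ≠ 0 ∧ h • b ∈ L
  fq : ∀ m : ℕ, 1 ≤ m → ∀ D : Submodule RA Bt, D ≠ ⊥ → (∀ b ∈ D, (X ^ m) • b ∈ D) →
    (∀ b ∈ D, (X ^ m)⁻¹ • b ∈ D) → Finite (Bt ⧸ D)
  pr : ∀ m : ℕ, 1 ≤ m → ∀ D : Submodule RA Bt, D ≠ ⊥ → (∀ b ∈ D, (X ^ m) • b ∈ D) →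
    (∀ b ∈ D, (X ^ m)⁻¹ • b ∈ D) →
    ¬ ∃ c : RA, c ≠ 0 ∧ ∀ b ∈ D, ∃ q : ℕ, c ^ q • b ∈ L

end Pool.Agent.E2F

end
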