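import Pool.Agent.Lib.E2F.NSide

set_option autoImplicit false

noncomputable section

namespace Pool.Agent.E2F

open SemidirectProduct

section grp

theorem fg_of_ext {G Q : Type*} [Group G] [Group Q] (π : G →* Q) (H : Subgroup G)
    (h1 : (H.map π).FG) (h2 : (H ⊓ π.ker).FG) : H.FG := by
  classical
  obtain ⟨S1, hS1⟩ := h1
  obtain ⟨S2, hS2⟩ := h2
  have hlift : ∀ q ∈ H.map π, ∃ g, g ∈ H ∧ π g = q := by
    rintro q ⟨g, hg, rfl⟩
    exact ⟨g, hg, rfl⟩
  choose! g hg hgq using hlift
  have hS1H : ∀ q ∈ S1, q ∈ H.map π := by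
    intro q hq
    rw [← hS1]
    exact Subgroup.subset_closure hq
  refine ⟨S1.image g ∪ S2, le_antisymm ?_ ?_⟩
  · rw [Subgroup.closure_le]
    intro x hx
    rcases Finset.mem_union.mp hx with hx | hx
    · obtain ⟨q, hq, rfl⟩ := Finset.mem_image.mp hx
      exact hg q (hS1H q hq)
    · have : x ∈ H ⊓ π.ker := by
        rw [← hS2]; exact Subgroup.subset_closure hx
      exact this.1
  · intro h hh
    set W := Subgroup.closure ((S1.image g ∪ S2 : Finset G) : Set G) with hW
    have h3 : H.map π ≤ W.map π := by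
      rw [← hS1, Subgroup.closure_le]
      intro q hq
      refine ⟨g q, Subgroup.subset_closure ?_, hgq q (hS1H q hq)⟩
      exact Finset.mem_union_left _ (Finset.mem_image_of_mem g hq)
    obtain ⟨w, hw, hwh⟩ := h3 ⟨h, hh, rfl⟩
    have hWH : W ≤ H := by
      rw [hW, Subgroup.closure_le]
      intro x hx
      rcases Finset.mem_union.mp hx with hx | hx
      · obtain ⟨q, hq, rfl⟩ := Finset.mem_image.mp hx
        exact hg q (hS1H q hq)
      · have : x ∈ H ⊓ π.ker := by
          rw [← hS2]; exact Subgroup.subset_closure hx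
        exact this.1
    have h4 : w⁻¹ * h ∈ H ⊓ π.ker := by
      refine ⟨H.mul_mem (H.inv_mem (hWH hw)) hh, ?_⟩
      show π (w⁻¹ * h) = 1
      rw [map_mul, map_inv, hwh, inv_mul_cancel]
    have h5 : H ⊓ π.ker ≤ W := by
      rw [← hS2, Subgroup.closure_le]
      intro x hx
      exact Subgroup.subset_closure (Finset.mem_union_right _ hx)
    have : h = w * (w⁻¹ * h) := by group
    rw [this]
    exact W.mul_mem hw (h5 h4)

theorem fg_map' {G Q : Type*} [Group G] [Group Q] (π : G →* Q) {H : Subgroup G} (h : H.FG) :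
    (H.map π).FG := by
  classical
  obtain ⟨S, hS⟩ := h
  exact ⟨S.image π, by rw [Finset.coe_image, ← MonoidHom.map_closure, hS]⟩

theorem fg_sub_comm {G : Type*} [CommGroup G] [Group.FG G] (H : Subgroup G) : H.FG := by
  have := fg_subgroup H
  exact Group.fg_iff_subgroup_fg H |>.mp this

end grp

/-- The polycyclic group `ℤ² ⋊ ℤ`. -/
abbrev P := A ⋊[zpowersHom (MulAut A) sg] (Multiplicative ℤ)

theorem P_sub_fg (H : Subgroup P) : H.FG := by
  refine fg_of_ext rightHom H (fg_sub_comm _) ?_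
  have h1 : H ⊓ (rightHom : P →* Multiplicative ℤ).ker = (H.comap inl).map inl := by
    rw [← range_inl_eq_ker_rightHom]
    ext x
    constructor
    · rintro ⟨hx, ⟨v, rfl⟩⟩
      exact ⟨v, hx, rfl⟩
    · rintro ⟨v, hv, rfl⟩
      exact ⟨hv, ⟨v, rfl⟩⟩
  rw [h1]
  exact fg_map' _ (fg_sub_comm _)

instance P_solvable : Group.IsSolvable P := by
  refine Group.isSolvable_of_ker_le_range (inl : A →* P) (rightHom : P →* Multiplicative ℤ) ?_
  rw [range_inl_eq_ker_rightHom]

theorem xK_zpow_yK (n : ℤ) (v : A) : xK ^ n * yK v = yK ((sg ^ n) v) * xK ^ n := by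
  have h : ∀ v : A, xK * yK v * xK⁻¹ = yK (sg v) := by
    intro v
    rw [xK_yK, mul_inv_cancel_right]
  have h' : ∀ v : A, xK⁻¹ * yK v * xK = yK (sg⁻¹ v) := by
    intro v
    have := h (sg⁻¹ v)
    rw [MulAut.apply_inv_self] at this
    rw [← this]
    group
  induction n using Int.induction_on generalizing v with
  | zero => simp
  | succ n ih =>
    rw [zpow_add_one, zpow_add_one, mul_assoc, xK_yK, ← mul_assoc, ih, mul_assoc]
    rfl
  | pred n ih =>
    rw [zpow_sub_one, zpow_sub_one]
    have h1 : xK⁻¹ * yK v = yK (sg⁻¹ v) * xK⁻¹ := by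
      rw [← h' v]; group
    rw [mul_assoc, h1, ← mul_assoc, ih, mul_assoc]
    rfl

/-- The action of `P` on `K`. -/
def actK : P →* Au K :=
  SemidirectProduct.lift yK (zpowersHom (Au K) xK) (by
    intro g
    refine MonoidHom.ext fun v => ?_
    show yK ((zpowersHom (MulAut A) sg g) v) = zpowersHom (Au K) xK g * yK v * (zpowersHom (Au K) xK g)⁻¹
    rw [zpowersHom_apply, zpowersHom_apply, xK_zpow_yK, mul_inv_cancel_right])

theorem actK_inl (v : A) : actK (inl v) = yK v := SemidirectProduct.lift_inl _ _ _ _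

theorem actK_inr (n : Multiplicative ℤ) : actK (inr n) = xK ^ n.toAdd := by
  rw [actK, SemidirectProduct.lift_inr, zpowersHom_apply]

theorem one_add_one_K : (1 : K) + 1 = 0 := by
  have h : (1 : RA) + 1 = 0 := by
    have h2 : (1 : ZMod 2) + 1 = 0 := by decide
    rw [← map_one (algebraMap (ZMod 2) RA), ← map_add, h2, map_zero]
  rw [← map_one iK, ← map_add, h, map_zero]

theorem K_two (q : K) : q + q = 0 := by
  have : q + q = (1 + 1) * q := by ring
  rw [this, one_add_one_K, zero_mul]

theorem mem_Bsub {q : K} : q ∈ Bsub ↔ ∃ n : ℕ, ∃ f : RA, iK (ss n) * q = iK f := Iff.rfl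

theorem yK_mem (v : A) (q : K) (hq : q ∈ Bsub) : yK v • q ∈ Bsub := by
  obtain ⟨n, f, hf⟩ := hq
  refine ⟨n, mono v * f, ?_⟩
  rw [yK_smul, mul_left_comm, hf, map_mul]

theorem xK_mem (q : K) (hq : q ∈ Bsub) : xK • q ∈ Bsub := by
  obtain ⟨n, f, hf⟩ := hq
  refine ⟨n + 1, autR sg f, ?_⟩
  rw [j7_ss_succ, map_mul, xK_smul, mul_mul_mul_comm, mul_inv_cancel₀ iK_aa_ne_zero, mul_one,
    ← sgK_iK, ← map_mul, hf, sgK_iK]

theorem xK_inv_mem (q : K) (hq : q ∈ Bsub) : xK⁻¹ • q ∈ Bsub := by
  obtain ⟨n, f, hf⟩ := hq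
  have key : ∃ c : RA, ss (n + 1) = c * ss n := ⟨autR (sg ^ n) aa, by
    rw [ss, Finset.prod_range_succ, mul_comm]; rfl⟩
  obtain ⟨c, hc⟩ := key
  refine ⟨n, autR sg⁻¹ (c * f), ?_⟩
  rw [xK_inv_smul]
  apply sgK.injective
  rw [map_mul, RingEquiv.apply_symm_apply, sgK_iK, sgK_iK, j7_autR_inv, map_mul, ← hf]
  have h1 : iK c * iK (ss n) = iK (autR sg (ss n)) * iK aa := by
    rw [← map_mul, ← hc, j7_ss_succ, map_mul]
  rw [← mul_assoc (iK c), h1]
  ring

theorem actK_mem (g : P) : actK g ∈ stabAu Bsub := by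
  have h1 : ∀ v, yK v ∈ stabAu Bsub := mem_stab_of yK Bsub yK_mem
  have h2 : xK ∈ stabAu Bsub := ⟨xK_mem, xK_inv_mem⟩
  have h3 : actK g = yK g.left * xK ^ g.right.toAdd := by
    rw [← actK_inl, ← actK_inr, ← map_mul, inl_left_mul_inr_right]
  rw [h3]
  exact mul_mem (h1 _) (zpow_mem h2 _)

/-- The action of `P` on `Bsub`. -/
def act : P →* Au Bsub := (subA Bsub).comp (actK.codRestrict (stabAu Bsub) actK_mem)

theorem act_coe (g : P) (b : Bsub) : ((act g • b : Bsub) : K) = actK g • (b : K) := rfl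

/-- additive automorphisms as multiplicative automorphisms -/
def toMulAut (B : Type*) [AddCommGroup B] : Au B →* MulAut (Multiplicative B) where
  toFun g :=
    { toFun := fun b => Multiplicative.ofAdd (g • b.toAdd)
      invFun := fun b => Multiplicative.ofAdd (g⁻¹ • b.toAdd)
      left_inv := fun b => by
        show Multiplicative.ofAdd (g⁻¹ • (g • b.toAdd)) = b
        rw [inv_smul_smul]; rfl
      right_inv := fun b => by
        show Multiplicative.ofAdd (g • (g⁻¹ • b.toAdd)) = b
        rw [smul_inv_smul]; rfl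
      map_mul' := fun a b => by
        show Multiplicative.ofAdd (g • (a.toAdd + b.toAdd)) = _
        rw [smul_add]; rfl }
  map_one' := by
    refine MulEquiv.ext fun b => ?_
    show Multiplicative.ofAdd ((1 : Au B) • b.toAdd) = b
    rw [one_smul]; rfl
  map_mul' g h := by
    refine MulEquiv.ext fun b => ?_
    show Multiplicative.ofAdd ((g * h) • b.toAdd) = Multiplicative.ofAdd (g • (h • b.toAdd))
    rw [mul_smul]

/-- The counterexample. -/
abbrev GG := Multiplicative Bsub ⋊[(toMulAut Bsub).comp act] P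

theorem GG_conj (g : P) (b : Bsub) :
    (inr g : GG) * inl (Multiplicative.ofAdd b) * (inr g)⁻¹ = inl (Multiplicative.ofAdd (act g • b)) := by
  rw [← map_inv, ← inl_aut]
  rfl

/-- The elements of `RA` in `Bsub`. -/
def bR (r : RA) : Bsub := ⟨iK r, 0, r, by simp [ss]⟩

theorem GG_fg : Group.FG GG := by
  classical
  let S : Set GG := {inl (Multiplicative.ofAdd (bR 1)), inr (inl e1), inr (inl e2),
    inr (inr (Multiplicative.ofAdd 1))}
  have hS : S.Finite := by
    simp only [S]
    exact Set.toFinite _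
  set W := Subgroup.closure S with hW
  have hP : ∀ p : P, (inr p : GG) ∈ W := by
    intro p
    have h1 : (inr (inl e1) : GG) ∈ W := Subgroup.subset_closure (by simp [S])
    have h2 : (inr (inl e2) : GG) ∈ W := Subgroup.subset_closure (by simp [S])
    have h3 : (inr (inr (Multiplicative.ofAdd 1)) : GG) ∈ W := Subgroup.subset_closure (by simp [S])
    have h4 : p = inl p.left * inr p.right := (inl_left_mul_inr_right p).symm
    have h5 : p.right = (Multiplicative.ofAdd (1 : ℤ)) ^ p.right.toAdd := by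
      rw [← ofAdd_zsmul, smul_eq_mul, mul_one]
      rfl
    rw [h4, map_mul, A_eq p.left, h5]
    simp only [map_mul, map_zpow]
    exact W.mul_mem (W.mul_mem (W.zpow_mem h1 _) (W.zpow_mem h2 _)) (W.zpow_mem h3 _)
  let Y : AddSubgroup Bsub :=
    { carrier := {b | (inl (Multiplicative.ofAdd b) : GG) ∈ W}
      zero_mem' := by
        show (inl (Multiplicative.ofAdd 0) : GG) ∈ W
        rw [ofAdd_zero, map_one]; exact W.one_mem
      add_mem' := by
        intro a b ha hb
        show (inl (Multiplicative.ofAdd (a + b)) : GG) ∈ W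
        rw [ofAdd_add, map_mul]; exact W.mul_mem ha hb
      neg_mem' := by
        intro a ha
        show (inl (Multiplicative.ofAdd (-a)) : GG) ∈ W
        rw [ofAdd_neg, map_inv]; exact W.inv_mem ha }
  have hYact : ∀ (g : P), ∀ b ∈ Y, act g • b ∈ Y := by
    intro g b hb
    show (inl (Multiplicative.ofAdd (act g • b)) : GG) ∈ W
    rw [← GG_conj]
    exact W.mul_mem (W.mul_mem (hP g) hb) (W.inv_mem (hP g))
  have hY1 : bR 1 ∈ Y := Subgroup.subset_closure (by simp [S])
  have hYR : ∀ r : RA, bR r ∈ Y := by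
    intro r
    induction r using MA_ind with
    | h0 =>
      have : bR 0 = 0 := Subtype.ext (map_zero iK)
      rw [this]; exact Y.zero_mem
    | hof v =>
      have : bR (MonoidAlgebra.of (ZMod 2) A v) = act (inl v) • bR 1 := by
        refine Subtype.ext ?_
        rw [act_coe, actK_inl, yK_smul]
        show iK (mono v) = iK (mono v) * iK 1
        rw [map_one, mul_one]
      rw [this]; exact hYact _ _ hY1
    | hadd a b ha hb =>
      have : bR (a + b) = bR a + bR b := Subtype.ext (map_add iK a b)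
      rw [this]; exact Y.add_mem ha hb
  have hYtop : ∀ b : Bsub, b ∈ Y := by
    rintro ⟨q, n, f, hf⟩
    have h1 : act (inr (Multiplicative.ofAdd 1) ^ n) • bR (autR (sg ^ n)⁻¹ f) ∈ Y := hYact _ _ (hYR _)
    have h2 : act (inr (Multiplicative.ofAdd 1) ^ n) • bR (autR (sg ^ n)⁻¹ f) = ⟨q, n, f, hf⟩ := by
      refine Subtype.ext ?_
      rw [act_coe, map_pow, actK_inr]
      show (xK ^ (1 : ℤ)) ^ n • iK (autR (sg ^ n)⁻¹ f) = q
      rw [zpow_one, j7_xK_pow_iK, j7_autR_inv, ← hf, mul_comm (iK (ss n)), mul_assoc,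
        mul_inv_cancel₀ (j7_iK_ss_ne_zero n), mul_one]
    rwa [h2] at h1
  refine ⟨⟨hS.toFinset, ?_⟩⟩
  rw [Set.Finite.coe_toFinset, eq_top_iff]
  intro x _
  rw [← inl_left_mul_inr_right x]
  exact W.mul_mem (hYtop (x.left.toAdd)) (hP _)

theorem bR_inj : Function.Injective bR := by
  intro a b h
  exact IsFractionRing.injective RA K (congrArg Subtype.val h)

instance Bsub_infinite : Infinite Bsub := by
  have h1 : Infinite RA := by
    refine Infinite.of_injective (fun v : A => mono v) ?_
    exact MonoidAlgebra.of_injective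
  exact Infinite.of_injective bR bR_inj

theorem no_embedding (M : Type) [Group M] (hfg : Group.FG M) (hM : derivedSeries M 2 = ⊥)
    (f : GG →* MulAut M) (hf : Function.Injective f) : False := by
  obtain ⟨Tg, iT1, iT2, N, iN, ρ, pT, pN, B', hst, j, hN2, hNoe, hrel, hB', hj, hjeq⟩ :=
    group_reduction hM (Bg := Bsub) (fun b => Subtype.ext (K_two b)) act
      (f.comp inl) (hf.comp inl_injective) (f.comp inr) (by
        intro g b
        show f (inr g) * f (inl (Multiplicative.ofAdd b)) * (f (inr g))⁻¹ =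
          f (inl (Multiplicative.ofAdd (act g • b)))
        rw [← map_mul, ← map_inv, ← map_mul, GG_conj])
  -- the generator of the acting group
  set x : P := inr (Multiplicative.ofAdd 1) with hx
  have hxconj : ∀ v : A, x * inl v * x⁻¹ = inl (sg v) := by
    intro v
    rw [hx, ← map_inv, ← inl_aut, zpowersHom_apply]
    simp
  have hxconjm : ∀ (m : ℕ) (v : A), x ^ m * inl v = inl ((sg ^ m) v) * x ^ m := by
    intro m
    induction m with
    | zero => intro v; simp
    | succ m ih =>
      intro v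
      have h1 : x * inl v = inl (sg v) * x := by rw [← hxconj, inv_mul_cancel_right]
      rw [pow_succ, mul_assoc, h1, ← mul_assoc, ih, pow_succ, mul_assoc]
      rfl
  obtain ⟨e, he, hu⟩ := unip (pT.comp inl) (pT x) (by
    intro v
    show pT x * pT (inl v) * (pT x)⁻¹ = pT (inl (sg v))
    rw [← map_mul, ← map_inv, ← map_mul, hxconj])
  -- the subgroup of K
  set B'' : AddSubgroup K := B'.map Bsub.subtype with hB''
  have hB''mem : ∀ q ∈ B'', ∃ h : q ∈ Bsub, (⟨q, h⟩ : Bsub) ∈ B' := by
    rintro _ ⟨b, hb, rfl⟩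
    exact ⟨b.2, hb⟩
  have hB''act : ∀ (g : P), ∀ q ∈ B'', actK g • q ∈ B'' := by
    rintro g _ ⟨b, hb, rfl⟩
    exact ⟨act g • b, hst g b hb, rfl⟩
  obtain ⟨m, hm, D, hD, X, hX, L, hpack⟩ := exists_BPack e he B'' (by
      rintro _ ⟨b, _, rfl⟩; exact b.2) (by
      intro h0
      apply hB'
      rw [eq_bot_iff]
      intro b hb
      have : (b : K) ∈ B'' := ⟨b, hb, rfl⟩
      rw [h0] at this
      exact Subtype.ext this)
    (by
      intro v q hq
      rw [← actK_inl]; exact hB''act _ _ hq)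
    (by
      intro q hq
      have := hB''act x q hq
      rw [hx, actK_inr] at this
      simpa using this)
    (by
      intro q hq
      have := hB''act x⁻¹ q hq
      rw [hx, map_inv, actK_inr] at this
      simpa using this)
  have hDB : ∀ d : D, ∃ h : toK e (d : KE e) ∈ Bsub, (⟨toK e d, h⟩ : Bsub) ∈ B' := fun d =>
    hB''mem _ (hD d d.2)
  let j' : D →+ N := AddMonoidHom.mk' (fun d => j ⟨⟨toK e (d : KE e), (hDB d).1⟩, (hDB d).2⟩) (by
    intro a b
    rw [← map_add]
    congr 1)
  have hact : ∀ (g : P) (d d' : D), toK e (d' : KE e) = actK g • toK e (d : KE e) →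
      j' d' = pN g • j' d := by
    intro g d d' h
    show j _ = pN g • j _
    rw [← hjeq]
    congr 1
    exact Subtype.ext (Subtype.ext h)
  refine nside ((pT.comp inl).comp (powMonoidHom e)) (fun v => hu v) hN2 ρ hNoe
    ((pN.comp inl).comp (powMonoidHom e)) (fun v t w => hrel _ t w) (pT (x ^ m)) (pN (x ^ m))
    (fun t w => hrel _ t w) (sg ^ m) X L hpack ?_ ?_ j' ?_ ?_ ?_
  · intro v
    show pN (x ^ m) * pN (inl (v ^ e)) = pN (inl (((sg ^ m) v) ^ e)) * pN (x ^ m)
    rw [← map_mul, ← map_mul, hxconjm, map_pow (sg ^ m)]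
  · intro v
    show pT (x ^ m) * pT (inl (v ^ e)) * (pT (x ^ m))⁻¹ = pT (inl (((sg ^ m) v) ^ e))
    rw [← map_mul, hxconjm, map_mul, mul_inv_cancel_right, map_pow (sg ^ m)]
  · intro a b hab
    have h1 := hj hab
    have h2 : toK e (a : KE e) = toK e (b : KE e) := by
      have := congrArg (fun z : B' => ((z : Bsub) : K)) h1
      exact this
    exact Subtype.ext ((toK e).injective h2)
  · intro v b
    refine hact (inl (v ^ e)) b (mono v • b) ?_
    rw [actK_inl, yK_smul]
    show toK e (mono v • (b : KE e)) = _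
    rw [toK_smul, psi_mono]
  · intro b
    refine hact (x ^ m) b (X • b) ?_
    rw [hX, map_pow, hx, actK_inr]
    simp

/-- The normal abelian subgroup. -/
def AG : Subgroup GG := (rightHom : GG →* P).ker

instance : AG.Normal := inferInstanceAs ((rightHom : GG →* P).ker).Normal

theorem AG_comm : ∀ x ∈ AG, ∀ y ∈ AG, x * y = y * x := by
  intro x hx y hy
  have hx' : x ∈ (inl : Multiplicative Bsub →* GG).range := by
    rw [range_inl_eq_ker_rightHom]; exact hx
  have hy' : y ∈ (inl : Multiplicative Bsub →* GG).range := by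
    rw [range_inl_eq_ker_rightHom]; exact hy
  obtain ⟨a, rfl⟩ := hx'
  obtain ⟨b, rfl⟩ := hy'
  rw [← map_mul, mul_comm, map_mul]

/-- The quotient is `P`. -/
def quotEquiv : GG ⧸ AG ≃* P :=
  QuotientGroup.quotientKerEquivOfSurjective (rightHom : GG →* P) rightHom_surjective

theorem quot_fg (H : Subgroup (GG ⧸ AG)) : H.FG := by
  have h1 := fg_map' (quotEquiv.symm : P →* GG ⧸ AG) (P_sub_fg (H.map (quotEquiv : GG ⧸ AG →* P)))
  rw [Subgroup.map_map] at h1
  have h2 : ((quotEquiv.symm : P →* GG ⧸ AG).comp (quotEquiv : GG ⧸ AG →* P)) = MonoidHom.id _ := by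
    refine MonoidHom.ext fun x => ?_
    exact quotEquiv.symm_apply_apply x
  rwa [h2, Subgroup.map_id] at h1

theorem quot_solvable : ∃ K : Subgroup (GG ⧸ AG), K.index ≠ 0 ∧ Group.IsSolvable K := by
  have h1 : Group.IsSolvable (GG ⧸ AG) :=
    Group.isSolvable_of_surjective (f := (quotEquiv.symm : P →* GG ⧸ AG)) quotEquiv.symm.surjective
  exact ⟨⊤, by simp, inferInstance⟩

theorem main_counterexample :
    ¬ (∀ (G : Type) [Group G] [Group.FG G] (A : Subgroup G) [A.Normal],
      (∀ x ∈ A, ∀ y ∈ A, x * y = y * x) →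
      (∀ H : Subgroup (G ⧸ A), H.FG) →
      (∃ K : Subgroup (G ⧸ A), K.index ≠ 0 ∧ IsSolvable K) →
      ∃ (M : Type) (_ : Group M), Group.FG M ∧ derivedSeries M 2 = ⊥ ∧
        ∃ f : G →* MulAut M, Function.Injective f) := by
  intro h
  have := GG_fg
  obtain ⟨M, _, hfg, hM, f, hf⟩ := h GG AG AG_comm quot_fg quot_solvable
  exact no_embedding M hfg hM f hf

end Pool.Agent.E2F

end
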