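import Pool.Agent.Lib.E2F.Defs

set_option autoImplicit false

noncomputable section

namespace Pool.Agent.E2F


section engine
variable {N : Type*} [AddCommGroup N]

lemma comm_ap {a b : AddMonoid.End N} (h : a * b = b * a) (w : N) : a (b w) = b (a w) := by
  have := DFunLike.congr_fun h w
  simpa using this

lemma pow_comm_ap {a b : AddMonoid.End N} (h : a * b = b * a) (i : ℕ) (w : N) :
    (a ^ i) (b w) = b ((a ^ i) w) := by
  apply comm_ap
  exact ((show Commute a b from h).pow_left i).eq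

lemma St.pow {S : Submonoid (AddMonoid.End N)} {X : AddSubgroup N}
    (hXS : St (S : Set (AddMonoid.End N)) X) {c : AddMonoid.End N} (hc : c ∈ S) (i : ℕ) {w : N}
    (hw : w ∈ X) : (c ^ i) w ∈ X := hXS _ (S.pow_mem hc i) _ hw

theorem tame_of_noe {O : Set (AddMonoid.End N)} {S : Submonoid (AddMonoid.End N)}
    {L X Y : AddSubgroup N}
    (hS : ∀ a ∈ S, ∀ b ∈ S, a * b = b * a)
    (hSO : ∀ a ∈ S, ∀ φ ∈ O, a * φ = φ * a)
    (hXO : St O X) (hYO : St O Y) (hXS : St (S : Set (AddMonoid.End N)) X)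
    (hLX : L ≤ X) (hXY : X ≤ Y) (hN : Noe O L Y) : Tame S X Y := by
  by_contra hcon
  unfold Tame at hcon
  push Not at hcon
  -- D(c)
  let D : AddMonoid.End N → AddSubgroup N := fun c => Y ⊓ X.comap c
  have hD : ∀ c w, w ∈ D c ↔ w ∈ Y ∧ c w ∈ X := fun c w => Iff.rfl
  -- recursion
  have key : ∀ c : S, ∃ c' : S, D (c : AddMonoid.End N) ≤ D (c' : AddMonoid.End N) ∧
      ∃ w, w ∈ D (c' : AddMonoid.End N) ∧ w ∉ D (c : AddMonoid.End N) := by
    rintro ⟨c, hc⟩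
    obtain ⟨w, hwY, ⟨h, hh, hw⟩, hno⟩ := hcon c hc
    refine ⟨⟨c * h, S.mul_mem hc hh⟩, ?_, w, ?_, ?_⟩
    · intro v hv
      rw [hD] at hv ⊢
      refine ⟨hv.1, ?_⟩
      simp only
      rw [hS c hc h hh]
      exact hXS h hh _ hv.2
    · rw [hD]
      exact ⟨hwY, hXS c hc _ hw⟩
    · rw [hD]
      rintro ⟨-, h2⟩
      have := hno 1
      rw [pow_one] at this
      exact this h2
  choose nx hnx using key
  let f : ℕ → S := fun n => nx^[n] 1
  have hf : ∀ n, f (n + 1) = nx (f n) := by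
    intro n
    simp only [f]
    rw [Function.iterate_succ_apply']
  have hmono : Monotone (fun n => D (f n : AddMonoid.End N)) := by
    apply monotone_nat_of_le_succ
    intro n
    show D (f n : AddMonoid.End N) ≤ D (f (n + 1) : AddMonoid.End N)
    rw [hf]
    exact (hnx (f n)).1
  have g1 : ∀ n, St O (D (f n : AddMonoid.End N)) := by
    intro n φ hφ w hw
    rw [hD] at hw ⊢
    refine ⟨hYO φ hφ w hw.1, ?_⟩
    rw [comm_ap (hSO _ (f n).2 φ hφ)]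
    exact hXO φ hφ _ hw.2
  have g2 : ∀ n, L ≤ D (f n : AddMonoid.End N) := by
    intro n w hw
    rw [hD]
    exact ⟨hXY (hLX hw), hXS _ (f n).2 _ (hLX hw)⟩
  have g3 : ∀ n, D (f n : AddMonoid.End N) ≤ Y := by
    intro n w hw
    rw [hD] at hw
    exact hw.1
  obtain ⟨n, hn⟩ := hN (fun n => D (f n : AddMonoid.End N)) hmono g1 g2 g3
  obtain ⟨w, hw1, hw2⟩ := (hnx (f n)).2
  apply hw2
  have : D (f (n + 1) : AddMonoid.End N) = D (f n : AddMonoid.End N) := hn (n + 1) (Nat.le_succ n)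
  rw [← this, hf]
  exact hw1

theorem tame_trans {S : Submonoid (AddMonoid.End N)} {X Y Z : AddSubgroup N}
    (hS : ∀ a ∈ S, ∀ b ∈ S, a * b = b * a)
    (hXS : St (S : Set (AddMonoid.End N)) X) (hXY : X ≤ Y)
    (h1 : Tame S X Y) (h2 : Tame S Y Z) : Tame S X Z := by
  obtain ⟨c1, hc1, h1⟩ := h1
  obtain ⟨c2, hc2, h2⟩ := h2
  refine ⟨c1 * c2, S.mul_mem hc1 hc2, ?_⟩
  rintro w hw ⟨h, hh, hhw⟩
  obtain ⟨i, hi⟩ := h2 w hw ⟨h, hh, hXY hhw⟩
  obtain ⟨j, hj⟩ := h1 _ hi ⟨h, hh, by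
    rw [← pow_comm_ap (hS c2 hc2 h hh)]
    exact hXS.pow hc2 i hhw⟩
  refine ⟨i + j, ?_⟩
  have hcomm : Commute c1 c2 := hS c1 hc1 c2 hc2
  have e : (c1 * c2) ^ (i + j) = (c1 ^ i * c2 ^ j) * (c1 ^ j * c2 ^ i) := by
    rw [hcomm.mul_pow, pow_add, pow_add]
    have h3 : c2 ^ i * c2 ^ j = c2 ^ j * c2 ^ i := by rw [← pow_add, ← pow_add, add_comm]
    have h4 : c1 ^ j * c2 ^ j = c2 ^ j * c1 ^ j := (hcomm.pow_pow j j).eq
    rw [h3]
    calc c1 ^ i * c1 ^ j * (c2 ^ j * c2 ^ i) = c1 ^ i * (c1 ^ j * c2 ^ j) * c2 ^ i := by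
          simp only [mul_assoc]
      _ = _ := by rw [h4]; simp only [mul_assoc]
  rw [e]
  exact hXS _ (S.mul_mem (S.pow_mem hc1 i) (S.pow_mem hc2 j)) _ hj

section stepSec

variable {b b' : AddMonoid.End N} {O : Set (AddMonoid.End N)} {S : Submonoid (AddMonoid.End N)}
  {L X : AddSubgroup N}

/-- finite sums -/
def Ms (b : AddMonoid.End N) (L X : AddSubgroup N) : ℕ → AddSubgroup N
  | 0 => L
  | n + 1 => Ms b L X n ⊔ X.map (b ^ n)

lemma map_one_eq (Y : AddSubgroup N) : Y.map (1 : AddMonoid.End N) = Y := by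
  ext w
  constructor
  · rintro ⟨v, hv, rfl⟩
    exact hv
  · intro hw
    exact ⟨w, hw, rfl⟩

lemma Ms_one (hLX : L ≤ X) : Ms b L X 1 = X := by
  simp only [Ms, pow_zero]
  have : X.map (1 : AddMonoid.End N) = X := map_one_eq X
  rw [this]
  exact sup_eq_right.2 hLX

lemma Ms_mono : Monotone (Ms b L X) :=
  monotone_nat_of_le_succ (fun n => le_sup_left)

lemma Ms_ge (n : ℕ) : L ≤ Ms b L X n := Ms_mono (Nat.zero_le n)

lemma Ms_succ (hLX : L ≤ X) (hL : L.map b = L) (n : ℕ) :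
    Ms b L X (n + 1) = X ⊔ (Ms b L X n).map b := by
  induction n with
  | zero =>
    rw [Ms_one hLX]
    simp only [Ms]
    rw [hL]
    exact (sup_eq_left.2 hLX).symm
  | succ n ih =>
    have e : X.map (b ^ (n + 1)) = (X.map (b ^ n)).map b := by
      rw [AddSubgroup.map_map, pow_succ']
      rfl
    show Ms b L X (n + 1) ⊔ X.map (b ^ (n + 1)) = X ⊔ (Ms b L X n ⊔ X.map (b ^ n)).map b
    rw [ih, e, AddSubgroup.map_sup, sup_assoc]

lemma map_Ms_le (hLX : L ≤ X) (hL : L.map b = L) (n : ℕ) :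
    (Ms b L X n).map b ≤ Ms b L X (n + 1) := by
  rw [Ms_succ hLX hL]; exact le_sup_right

/-- a good subgroup -/
def Gd (O : Set (AddMonoid.End N)) (L Y : AddSubgroup N) : Prop := L ≤ Y ∧ St O Y

lemma Gd.inf {Y Z : AddSubgroup N} (h1 : Gd O L Y) (h2 : Gd O L Z) : Gd O L (Y ⊓ Z) :=
  ⟨le_inf h1.1 h2.1, fun φ hφ w hw => ⟨h1.2 φ hφ w hw.1, h2.2 φ hφ w hw.2⟩⟩

lemma St_sup {O : Set (AddMonoid.End N)} {Y Z : AddSubgroup N} (h1 : St O Y) (h2 : St O Z) :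
    St O (Y ⊔ Z) := by
  intro φ hφ w hw
  obtain ⟨y, hy, z, hz, rfl⟩ := AddSubgroup.mem_sup.1 hw
  rw [map_add]
  exact AddSubgroup.mem_sup.2 ⟨_, h1 φ hφ y hy, _, h2 φ hφ z hz, rfl⟩

lemma Gd.sup {Y Z : AddSubgroup N} (h1 : Gd O L Y) (h2 : Gd O L Z) : Gd O L (Y ⊔ Z) :=
  ⟨h1.1.trans le_sup_left, St_sup h1.2 h2.2⟩

/-- hypotheses of the step -/
structure Hyp (b b' : AddMonoid.End N) (O : Set (AddMonoid.End N))
    (S : Submonoid (AddMonoid.End N)) (L X : AddSubgroup N) : Prop where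
  bb' : ∀ w, b (b' w) = w
  b'b : ∀ w, b' (b w) = w
  hS : ∀ a ∈ S, ∀ b ∈ S, a * b = b * a
  hSO : ∀ a ∈ S, ∀ φ ∈ O, a * φ = φ * a
  hSb : ∀ a ∈ S, a * b = b * a
  hL : L.map b = L
  hOm : ∀ Y, Gd O L Y → St O (Y.map b)
  hOc : ∀ Y, Gd O L Y → St O (Y.map b')
  hLX : L ≤ X
  hXO : St O X
  hXS : St (S : Set (AddMonoid.End N)) X
  hX : Noe O L X

namespace Hyp

variable (H : Hyp b b' O S L X)
include H

lemma bL {w : N} (hw : w ∈ L) : b w ∈ L := by
  rw [← H.hL]; exact ⟨w, hw, rfl⟩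

lemma b'L {w : N} (hw : w ∈ L) : b' w ∈ L := by
  rw [← H.hL] at hw
  obtain ⟨v, hv, rfl⟩ := hw
  show b' (b v) ∈ L
  rw [H.b'b]; exact hv

lemma bpowL (n : ℕ) {w : N} (hw : w ∈ L) : (b ^ n) w ∈ L := by
  induction n with
  | zero => simpa using hw
  | succ n ih => rw [pow_succ']; exact H.bL ih

lemma gmap {Y : AddSubgroup N} (h : Gd O L Y) : Gd O L (Y.map b) := by
  refine ⟨?_, H.hOm Y h⟩
  rw [← H.hL]
  exact AddSubgroup.map_mono h.1

lemma comap_eq (Y : AddSubgroup N) : Y.comap b = Y.map b' := by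
  ext w
  constructor
  · intro h
    exact ⟨b w, h, H.b'b w⟩
  · rintro ⟨v, hv, rfl⟩
    show b (b' v) ∈ Y
    rw [H.bb']; exact hv

lemma gcomap {Y : AddSubgroup N} (h : Gd O L Y) : Gd O L (Y.comap b) := by
  refine ⟨fun w hw => h.1 (H.bL hw), ?_⟩
  rw [H.comap_eq]
  exact H.hOc Y h

lemma gmap_pow {Y : AddSubgroup N} (h : Gd O L Y) (n : ℕ) : Gd O L (Y.map (b ^ n)) := by
  induction n with
  | zero =>
    have : Y.map ((b ^ 0 : AddMonoid.End N)) = Y := by rw [pow_zero]; exact map_one_eq Y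
    rw [this]; exact h
  | succ n ih =>
    have e : Y.map (b ^ (n + 1)) = (Y.map (b ^ n)).map b := by
      rw [AddSubgroup.map_map, pow_succ']; rfl
    rw [e]
    exact H.gmap ih

lemma gcomap_pow {Y : AddSubgroup N} (h : Gd O L Y) (n : ℕ) : Gd O L (Y.comap (b ^ n)) := by
  induction n with
  | zero =>
    have : Y.comap ((b ^ 0 : AddMonoid.End N)) = Y := rfl
    rw [this]; exact h
  | succ n ih =>
    have e : Y.comap (b ^ (n + 1)) = (Y.comap (b ^ n)).comap b := by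
      rw [AddSubgroup.comap_comap, pow_succ]; rfl
    rw [e]
    exact H.gcomap ih

lemma gMs (n : ℕ) : Gd O L (Ms b L X (n + 1)) := by
  induction n with
  | zero => rw [Ms_one H.hLX]; exact ⟨H.hLX, H.hXO⟩
  | succ n ih => exact ih.sup (H.gmap_pow ⟨H.hLX, H.hXO⟩ _)

lemma LS {w : N} (hw : w ∈ L) {a : AddMonoid.End N} (ha : a ∈ S) : a w ∈ X :=
  H.hXS a ha w (H.hLX hw)

lemma MsS (n : ℕ) : St (S : Set (AddMonoid.End N)) (Ms b L X (n + 1)) := by
  induction n with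
  | zero => rw [Ms_one H.hLX]; exact H.hXS
  | succ n ih =>
    refine St_sup ih ?_
    rintro a ha w ⟨v, hv, rfl⟩
    refine ⟨a v, H.hXS a ha v hv, ?_⟩
    show (b ^ (n + 1)) (a v) = a ((b ^ (n + 1)) v)
    exact pow_comm_ap (H.hSb a ha).symm _ _

/-- multiplying the killing element by further elements of S -/
lemma tame_fin (f : ℕ → AddSubgroup N) (hf : ∀ n, 1 ≤ n → Gd O L (f n))
    (hfS : ∀ n, 1 ≤ n → St (S : Set (AddMonoid.End N)) (f n)) (hfX : ∀ n, f n ≤ X) (k : ℕ) :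
    ∃ c ∈ S, ∀ n, 1 ≤ n → n ≤ k → ∀ w ∈ X, (∃ h ∈ S, h w ∈ f n) → ∃ i : ℕ, (c ^ i) w ∈ f n := by
  induction k with
  | zero => exact ⟨1, S.one_mem, fun n h1 h2 => by omega⟩
  | succ k ih =>
    obtain ⟨c, hc, h1⟩ := ih
    obtain ⟨c', hc', h2⟩ := tame_of_noe H.hS H.hSO (hf (k + 1) (by omega)).2 H.hXO
      (hfS (k + 1) (by omega)) (hf (k + 1) (by omega)).1 (hfX (k + 1)) H.hX
    have hcomm : Commute c c' := H.hS c hc c' hc'
    refine ⟨c * c', S.mul_mem hc hc', ?_⟩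
    intro n hn1 hn2 w hw hh
    rcases Nat.lt_or_ge n (k + 1) with hlt | hge
    · obtain ⟨i, hi⟩ := h1 n hn1 (by omega) w hw hh
      refine ⟨i, ?_⟩
      rw [hcomm.mul_pow, (hcomm.pow_pow i i).eq]
      exact hfS n hn1 _ (S.pow_mem hc' i) _ hi
    · have : n = k + 1 := by omega
      subst this
      obtain ⟨i, hi⟩ := h2 w hw hh
      refine ⟨i, ?_⟩
      rw [hcomm.mul_pow]
      exact hfS _ hn1 _ (S.pow_mem hc i) _ hi

lemma tame_a : ∃ c ∈ S, ∀ n, ∀ w ∈ Ms b L X (n + 1), (∃ h ∈ S, h w ∈ X) →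
    ∃ i : ℕ, (c ^ i) w ∈ X := by
  let f : ℕ → AddSubgroup N := fun n => X ⊓ (Ms b L X n).comap (b ^ n)
  have hfmem : ∀ n w, w ∈ f n ↔ w ∈ X ∧ (b ^ n) w ∈ Ms b L X n := fun n w => Iff.rfl
  have hfg : ∀ n, 1 ≤ n → Gd O L (f n) := by
    intro n hn
    obtain ⟨m, rfl⟩ : ∃ m, n = m + 1 := ⟨n - 1, by omega⟩
    exact Gd.inf ⟨H.hLX, H.hXO⟩ (H.gcomap_pow (H.gMs m) _)
  have hfS : ∀ n, 1 ≤ n → St (S : Set (AddMonoid.End N)) (f n) := by
    intro n hn a ha w hw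
    obtain ⟨m, rfl⟩ : ∃ m, n = m + 1 := ⟨n - 1, by omega⟩
    rw [hfmem] at hw ⊢
    refine ⟨H.hXS a ha w hw.1, ?_⟩
    rw [pow_comm_ap (H.hSb a ha).symm]
    exact H.MsS m a ha _ hw.2
  have hfsucc : ∀ n, f n ≤ f (n + 1) := by
    intro n w hw
    rw [hfmem] at hw ⊢
    refine ⟨hw.1, ?_⟩
    rw [pow_succ']
    exact map_Ms_le H.hLX H.hL n ⟨_, hw.2, rfl⟩
  have hfm : Monotone f := monotone_nat_of_le_succ hfsucc
  obtain ⟨n0, hn0⟩ := H.hX (fun n => f (n + 1)) (fun a b h => hfm (by omega))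
    (fun n => (hfg (n + 1) (by omega)).2) (fun n => (hfg (n + 1) (by omega)).1)
    (fun n w hw => hw.1)
  obtain ⟨c, hc, h1⟩ := H.tame_fin f hfg hfS (fun n w hw => hw.1) (n0 + 1)
  have h2 : ∀ n, 1 ≤ n → ∀ w ∈ X, (∃ h ∈ S, h w ∈ f n) → ∃ i : ℕ, (c ^ i) w ∈ f n := by
    intro n hn w hw hh
    rcases Nat.le_total n (n0 + 1) with hle | hge
    · exact h1 n hn hle w hw hh
    · obtain ⟨m, rfl⟩ : ∃ m, n = m + 1 := ⟨n - 1, by omega⟩
      have e : f (m + 1) = f (n0 + 1) := hn0 m (by omega)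
      rw [e] at hh ⊢
      exact h1 (n0 + 1) (by omega) le_rfl w hw hh
  refine ⟨c, hc, ?_⟩
  intro n
  induction n with
  | zero =>
    intro w hw _
    rw [Ms_one H.hLX] at hw
    exact ⟨0, by simpa using hw⟩
  | succ n ih =>
    rintro w hw ⟨h, hh, hhw⟩
    obtain ⟨m', hm', y, hy, hsum⟩ := AddSubgroup.mem_sup.1 (show w ∈ Ms b L X (n + 1) ⊔
      X.map (b ^ (n + 1)) from hw)
    obtain ⟨w0, hw0, hy0⟩ := hy
    have hy0 : (b ^ (n + 1)) w0 = y := hy0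
    have e1 : (b ^ (n + 1)) (h w0) = h w - h m' := by
      rw [pow_comm_ap (H.hSb h hh).symm, hy0, ← hsum, map_add]
      abel
    have hXM : X ≤ Ms b L X (n + 1) := by
      have := Ms_mono (b := b) (L := L) (X := X) (show 1 ≤ n + 1 by omega)
      rwa [Ms_one H.hLX] at this
    have h3 : h w0 ∈ f (n + 1) := by
      rw [hfmem]
      refine ⟨H.hXS h hh w0 hw0, ?_⟩
      rw [e1]
      exact sub_mem (hXM hhw) (H.MsS n h hh m' hm')
    obtain ⟨i, hi⟩ := h2 (n + 1) (by omega) w0 hw0 ⟨h, hh, h3⟩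
    rw [hfmem] at hi
    have h4 : (c ^ i) w ∈ Ms b L X (n + 1) := by
      rw [← hsum, map_add, ← hy0]
      refine add_mem (H.MsS n _ (S.pow_mem hc i) _ hm') ?_
      have : (c ^ i) ((b ^ (n + 1)) w0) = (b ^ (n + 1)) ((c ^ i) w0) := by
        refine comm_ap ?_ w0
        exact ((show Commute c b from H.hSb c hc).pow_pow i (n + 1)).eq
      rw [this]
      exact hi.2
    obtain ⟨j, hj⟩ := ih _ h4 ⟨h, hh, by
      rw [← pow_comm_ap (H.hS c hc h hh)]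
      exact H.hXS.pow hc i hhw⟩
    refine ⟨j + i, ?_⟩
    rw [pow_add]
    exact hj

/-- membership in the increasing union -/
def _root_.Pool.Agent.E2F.inP (b : AddMonoid.End N) (L X : AddSubgroup N) (w : N) : Prop :=
  ∃ n, w ∈ Ms b L X (n + 1)

/-- the increasing union -/
def _root_.Pool.Agent.E2F.Mp (b : AddMonoid.End N) (L X : AddSubgroup N) : AddSubgroup N where
  carrier := {w | ∃ n, w ∈ Ms b L X (n + 1)}
  zero_mem' := ⟨0, zero_mem _⟩
  add_mem' := by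
    rintro x y ⟨n, hn⟩ ⟨m, hm⟩
    exact ⟨max n m, add_mem (Ms_mono (by omega) hn) (Ms_mono (by omega) hm)⟩
  neg_mem' := by
    rintro x ⟨n, hn⟩
    exact ⟨n, neg_mem hn⟩

lemma X_le_Mp : X ≤ Mp b L X := by
  intro w hw
  refine ⟨0, ?_⟩
  rw [Ms_one H.hLX]; exact hw

lemma bMp {w : N} (hw : w ∈ Mp b L X) : b w ∈ Mp b L X := by
  obtain ⟨n, hn⟩ := hw
  exact ⟨n + 1, map_Ms_le H.hLX H.hL _ ⟨w, hn, rfl⟩⟩

lemma MpS : St (S : Set (AddMonoid.End N)) (Mp b L X) := by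
  rintro a ha w ⟨n, hn⟩
  exact ⟨n, H.MsS n a ha w hn⟩

lemma gMp : Gd O L (Mp b L X) := by
  refine ⟨H.hLX.trans H.X_le_Mp, ?_⟩
  rintro φ hφ w ⟨n, hn⟩
  exact ⟨n, (H.gMs n).2 φ hφ w hn⟩

lemma Mp_split {w : N} (hw : w ∈ Mp b L X) : ∃ x ∈ X, ∃ m ∈ Mp b L X, w = x + b m := by
  obtain ⟨n, hn⟩ := hw
  have h1 := Ms_mono (show n + 1 ≤ n + 2 by omega) hn
  rw [Ms_succ H.hLX H.hL (n + 1)] at h1
  obtain ⟨x, hx, y, hy, hsum⟩ := AddSubgroup.mem_sup.1 h1
  obtain ⟨m, hm, rfl⟩ := hy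
  exact ⟨x, hx, m, ⟨n, hm⟩, hsum.symm⟩

/-- the whole module -/
def _root_.Pool.Agent.E2F.Nn (b : AddMonoid.End N) (L X : AddSubgroup N)
    (hb : ∀ w ∈ Mp b L X, b w ∈ Mp b L X) : AddSubgroup N where
  carrier := {w | ∃ m : ℕ, (b ^ m) w ∈ Mp b L X}
  zero_mem' := ⟨0, by simp [zero_mem]⟩
  add_mem' := by
    have key : ∀ (k m : ℕ) (w : N), (b ^ m) w ∈ Mp b L X → (b ^ (k + m)) w ∈ Mp b L X := by
      intro k m w hw
      induction k with
      | zero => simpa using hw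
      | succ k ih =>
        rw [show k + 1 + m = (k + m) + 1 by omega, pow_succ']
        exact hb _ ih
    rintro x y ⟨n, hn⟩ ⟨m, hm⟩
    refine ⟨n + m, ?_⟩
    rw [map_add]
    refine add_mem ?_ (key n m y hm)
    rw [add_comm]; exact key m n x hn
  neg_mem' := by
    rintro x ⟨n, hn⟩
    refine ⟨n, ?_⟩
    rw [map_neg]
    exact neg_mem hn

lemma mem_Nn {w : N} : w ∈ Nn b L X (fun _ h => H.bMp h) ↔ ∃ m : ℕ, (b ^ m) w ∈ Mp b L X :=
  Iff.rfl

lemma b_inj : Function.Injective b := by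
  intro x y h
  rw [← H.b'b x, ← H.b'b y, h]

lemma tame_b : Tame S (Mp b L X) (Nn b L X (fun _ h => H.bMp h)) := by
  let B : AddSubgroup N := X ⊓ (Mp b L X).map b
  have hB : Gd O L B := Gd.inf ⟨H.hLX, H.hXO⟩ (H.gmap H.gMp)
  have hBS : St (S : Set (AddMonoid.End N)) B := by
    rintro a ha w ⟨hw1, hw2⟩
    refine ⟨H.hXS a ha w hw1, ?_⟩
    obtain ⟨v, hv, rfl⟩ := hw2
    exact ⟨a v, H.MpS a ha v hv, (comm_ap (H.hSb a ha) v).symm⟩
  obtain ⟨c, hc, h1⟩ := tame_of_noe H.hS H.hSO hB.2 H.hXO hBS hB.1 inf_le_left H.hX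
  have claim : ∀ w, b w ∈ Mp b L X → (∃ h ∈ S, h w ∈ Mp b L X) → ∃ i : ℕ, (c ^ i) w ∈ Mp b L X := by
    rintro w hbw ⟨h, hh, hhw⟩
    obtain ⟨x, hx, m, hm, e⟩ := H.Mp_split hbw
    have e2 : b (w - m) = x := by rw [map_sub, e]; abel
    have e3 : h x = b (h w - h m) := by
      rw [← e2, comm_ap (H.hSb h hh), map_sub h]
    have h4 : h x ∈ B := by
      refine ⟨H.hXS h hh x hx, ?_⟩
      rw [e3]
      exact ⟨_, sub_mem hhw (H.MpS h hh m hm), rfl⟩
    obtain ⟨i, hi⟩ := h1 x hx ⟨h, hh, h4⟩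
    obtain ⟨v, hv, hv2⟩ := hi.2
    have hv2 : b v = (c ^ i) x := hv2
    refine ⟨i, ?_⟩
    have e5 : (c ^ i) (w - m) = v := by
      apply H.b_inj
      rw [hv2, ← e2, ← pow_comm_ap (H.hSb c hc)]
    have e6 : (c ^ i) w = v + (c ^ i) m := by
      rw [← e5, map_sub]; abel
    rw [e6]
    exact add_mem hv (H.MpS.pow hc i hm)
  refine ⟨c, hc, ?_⟩
  intro w hw hh
  obtain ⟨m, hm⟩ := hw
  induction m generalizing w with
  | zero => exact ⟨0, hm⟩
  | succ m ih =>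
    rw [pow_succ] at hm
    obtain ⟨h, hhS, hhw⟩ := hh
    obtain ⟨i, hi⟩ := ih (b w) ⟨h, hhS, by
      rw [comm_ap (H.hSb h hhS)]
      exact H.bMp hhw⟩ hm
    rw [pow_comm_ap (H.hSb c hc)] at hi
    obtain ⟨j, hj⟩ := claim _ hi ⟨h, hhS, by
      rw [← pow_comm_ap (H.hS c hc h hhS)]
      exact H.MpS.pow hc i hhw⟩
    refine ⟨j + i, ?_⟩
    rw [pow_add]
    exact hj

lemma tame_ab : Tame S X (Nn b L X (fun _ h => H.bMp h)) := by
  refine tame_trans H.hS H.hXS H.X_le_Mp ?_ H.tame_b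
  obtain ⟨c, hc, h⟩ := H.tame_a
  refine ⟨c, hc, ?_⟩
  rintro w ⟨n, hn⟩ hh
  exact h n w hn hh

lemma Nn_b {w : N} (hw : w ∈ Nn b L X (fun _ h => H.bMp h)) :
    b w ∈ Nn b L X (fun _ h => H.bMp h) := by
  obtain ⟨m, hm⟩ := hw
  refine ⟨m, ?_⟩
  rw [pow_comm_ap rfl]
  exact H.bMp hm

lemma Nn_b' {w : N} (hw : w ∈ Nn b L X (fun _ h => H.bMp h)) :
    b' w ∈ Nn b L X (fun _ h => H.bMp h) := by
  obtain ⟨m, hm⟩ := hw
  refine ⟨m + 1, ?_⟩
  rw [pow_succ]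
  show (b ^ m) (b (b' w)) ∈ _
  rw [H.bb']
  exact hm

lemma Nn_O : St O (Nn b L X (fun _ h => H.bMp h)) := by
  rintro φ hφ w ⟨m, hm⟩
  exact ⟨m, (H.gcomap_pow H.gMp m).2 φ hφ w hm⟩

lemma Nn_S : St (S : Set (AddMonoid.End N)) (Nn b L X (fun _ h => H.bMp h)) := by
  rintro a ha w ⟨m, hm⟩
  refine ⟨m, ?_⟩
  rw [pow_comm_ap (H.hSb a ha).symm]
  exact H.MpS a ha _ hm

/-- leading coefficients -/
def _root_.Pool.Agent.E2F.lead (b : AddMonoid.End N) (L X : AddSubgroup N) (n : ℕ)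
    (Z : AddSubgroup N) : AddSubgroup N :=
  X ⊓ (Z ⊔ Ms b L X n).comap (b ^ n)

lemma mem_lead {n : ℕ} {Z : AddSubgroup N} {w : N} :
    w ∈ lead b L X n Z ↔ w ∈ X ∧ (b ^ n) w ∈ Z ⊔ Ms b L X n := Iff.rfl

lemma lead_succ {Z : AddSubgroup N} (hZ : ∀ w ∈ Z, b w ∈ Z) (n : ℕ) :
    lead b L X n Z ≤ lead b L X (n + 1) Z := by
  intro w hw
  rw [H.mem_lead] at hw ⊢
  refine ⟨hw.1, ?_⟩
  obtain ⟨z, hz, m, hm, e⟩ := AddSubgroup.mem_sup.1 hw.2
  rw [pow_succ']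
  show b ((b ^ n) w) ∈ _
  rw [← e, map_add]
  exact AddSubgroup.mem_sup.2 ⟨_, hZ z hz, _, map_Ms_le H.hLX H.hL n ⟨m, hm, rfl⟩, rfl⟩

lemma lead_mono_n {Z : AddSubgroup N} (hZ : ∀ w ∈ Z, b w ∈ Z) :
    Monotone (fun n => lead b L X n Z) := monotone_nat_of_le_succ (H.lead_succ hZ)

omit H in
lemma lead_mono {Z Z' : AddSubgroup N} (h : Z ≤ Z') (n : ℕ) :
    lead b L X n Z ≤ lead b L X n Z' :=
  inf_le_inf le_rfl (AddSubgroup.comap_mono (sup_le_sup h le_rfl))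

lemma lead_gd {Z : AddSubgroup N} (hZ : Gd O L Z) (n : ℕ) : Gd O L (lead b L X n Z) := by
  refine Gd.inf ⟨H.hLX, H.hXO⟩ (H.gcomap_pow ?_ n)
  cases n with
  | zero =>
    have : Z ⊔ Ms b L X 0 = Z := sup_eq_left.2 hZ.1
    rw [this]; exact hZ
  | succ n => exact hZ.sup (H.gMs n)

lemma lead_key {Z Z' : AddSubgroup N} (hLZ : L ≤ Z) (hZZ : Z ≤ Z')
    (hl : ∀ n, lead b L X n Z' ≤ lead b L X n Z) (n : ℕ) :
    ∀ z ∈ Z', z ∈ Ms b L X n → z ∈ Z := by
  induction n with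
  | zero => intro z _ hz; exact hLZ hz
  | succ n ih =>
    intro z hz hz2
    obtain ⟨m, hm, y, hy, e⟩ := AddSubgroup.mem_sup.1 (show z ∈ Ms b L X n ⊔ X.map (b ^ n) from hz2)
    obtain ⟨w0, hw0, hy⟩ := hy
    have hy : (b ^ n) w0 = y := hy
    have h1 : w0 ∈ lead b L X n Z' := by
      rw [H.mem_lead]
      refine ⟨hw0, ?_⟩
      rw [hy]
      exact AddSubgroup.mem_sup.2 ⟨z, hz, -m, neg_mem hm, by rw [← e]; abel⟩
    have h2 := hl n h1
    rw [H.mem_lead] at h2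
    obtain ⟨z1, hz1, m1, hm1, e1⟩ := AddSubgroup.mem_sup.1 h2.2
    have h3 : z - z1 ∈ Z := by
      apply ih
      · exact sub_mem hz (hZZ hz1)
      · have : z - z1 = m + m1 := by rw [← e, ← hy, ← e1]; abel
        rw [this]
        exact add_mem hm hm1
    have : z = (z - z1) + z1 := by abel
    rw [this]
    exact add_mem h3 hz1

lemma noe : ∀ f : ℕ → AddSubgroup N, Monotone f → (∀ n, Gd O L (f n)) →
    (∀ n, ∀ w ∈ f n, b w ∈ f n) → (∀ n, ∀ w ∈ f n, b' w ∈ f n) →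
    (∀ n, f n ≤ Nn b L X (fun _ h => H.bMp h)) → ∃ n, ∀ m, n ≤ m → f m = f n := by
  intro f hf hg hfb hfb' hfN
  obtain ⟨k0, hk0⟩ := H.hX (fun k => lead b L X k (f k))
    (fun i j hij => (H.lead_mono_n (hfb i) hij).trans (lead_mono (hf hij) j))
    (fun k => (H.lead_gd (hg k) k).2) (fun k => (H.lead_gd (hg k) k).1) (fun k w hw => hw.1)
  have hfin : ∀ k : ℕ, ∃ K, ∀ n, n < k → ∀ m, lead b L X n (f m) ≤ lead b L X n (f K) := by
    intro k
    induction k with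
    | zero => exact ⟨0, fun n hn => by omega⟩
    | succ k ih =>
      obtain ⟨K, hK⟩ := ih
      obtain ⟨K', hK'⟩ := H.hX (fun m => lead b L X k (f m)) (fun i j hij => lead_mono (hf hij) k)
        (fun m => (H.lead_gd (hg m) k).2) (fun m => (H.lead_gd (hg m) k).1) (fun m w hw => hw.1)
      refine ⟨max K K', ?_⟩
      intro n hn m
      rcases Nat.lt_or_ge n k with hlt | hge
      · exact (hK n hlt m).trans (lead_mono (hf (le_max_left _ _)) n)
      · have : n = k := by omega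
        subst this
        rcases Nat.le_total K' m with h | h
        · rw [show lead b L X n (f m) = lead b L X n (f K') from hK' m h]
          exact lead_mono (hf (le_max_right _ _)) n
        · exact lead_mono (hf (h.trans (le_max_right _ _))) n
  obtain ⟨K, hK⟩ := hfin k0
  refine ⟨max K k0, ?_⟩
  intro m hm
  refine le_antisymm ?_ (hf hm)
  have hl : ∀ n, lead b L X n (f m) ≤ lead b L X n (f (max K k0)) := by
    intro n
    rcases Nat.lt_or_ge n k0 with hlt | hge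
    · exact (hK n hlt m).trans (lead_mono (hf (le_max_left _ _)) n)
    · have h1 : lead b L X n (f m) ≤ lead b L X (max n m) (f (max n m)) :=
        (lead_mono (hf (le_max_right _ _)) n).trans (H.lead_mono_n (hfb _) (le_max_left _ _))
      have h2 : lead b L X (max n m) (f (max n m)) = lead b L X k0 (f k0) :=
        hk0 (max n m) (hge.trans (le_max_left _ _))
      rw [h2] at h1
      exact h1.trans ((lead_mono (hf (le_max_right _ _)) k0).trans (H.lead_mono_n (hfb _) hge))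
  intro z hz
  obtain ⟨i, hi⟩ := hfN m hz
  obtain ⟨n, hn⟩ := hi
  have hz2 : (b ^ i) z ∈ f m := by
    clear hn
    induction i with
    | zero => simpa using hz
    | succ i ih => rw [pow_succ']; exact hfb m _ ih
  have h3 := H.lead_key (hg _).1 (hf hm) hl (n + 1) _ hz2 hn
  clear hn hz2
  induction i with
  | zero => simpa using h3
  | succ i ih =>
    apply ih
    rw [pow_succ'] at h3
    have := hfb' _ _ h3
    rw [show b' ((b * b ^ i) z) = (b ^ i) z from H.b'b _] at this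
    exact this

end Hyp

end stepSec

lemma zpow_map_iSup (β : Au N) (S : Submonoid (AddMonoid.End N)) (O : Set (AddMonoid.End N))
    (L X : AddSubgroup N)
    (H : Hyp (β : AddMonoid.End N) ((β⁻¹ : Au N) : AddMonoid.End N) O S L X) :
    (⨆ j : ℤ, X.map ((β ^ j : Au N) : AddMonoid.End N)) =
      Nn (β : AddMonoid.End N) L X (fun _ h => H.bMp h) := by
  have happ : ∀ (g h : Au N) (w : N), ((g * h : Au N) : AddMonoid.End N) w =
      (g : AddMonoid.End N) ((h : AddMonoid.End N) w) := by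
    intro g h w; rfl
  apply le_antisymm
  · apply iSup_le
    intro j
    rintro _ ⟨w, hw, rfl⟩
    show ((β ^ j : Au N) : AddMonoid.End N) w ∈ _
    have hX0 : w ∈ Nn (β : AddMonoid.End N) L X (fun _ h => H.bMp h) :=
      ⟨0, by simpa using H.X_le_Mp hw⟩
    clear hw
    induction j using Int.induction_on with
    | zero => simpa using hX0
    | succ n ih =>
      rw [add_comm, zpow_add, zpow_one, happ]
      exact H.Nn_b ih
    | pred n ih =>
      rw [sub_eq_add_neg, add_comm, zpow_add, zpow_neg_one, happ]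
      exact H.Nn_b' ih
  · set T := (⨆ j : ℤ, X.map ((β ^ j : Au N) : AddMonoid.End N)) with hT
    have hj : ∀ j : ℤ, X.map ((β ^ j : Au N) : AddMonoid.End N) ≤ T := fun j =>
      le_iSup (fun j : ℤ => X.map ((β ^ j : Au N) : AddMonoid.End N)) j
    have hMs : ∀ n, Ms (β : AddMonoid.End N) L X n ≤ T := by
      intro n
      induction n with
      | zero =>
        intro w hw
        exact hj 0 ⟨w, H.hLX hw, rfl⟩
      | succ n ih =>
        refine sup_le ih ?_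
        rintro _ ⟨w, hw, rfl⟩
        refine hj n ⟨w, hw, ?_⟩
        rw [zpow_natCast, Units.val_pow_eq_pow_val]
    have hTb' : ∀ w ∈ T, ((β⁻¹ : Au N) : AddMonoid.End N) w ∈ T := by
      have : T ≤ T.comap ((β⁻¹ : Au N) : AddMonoid.End N) := by
        refine iSup_le (fun j => ?_)
        rintro _ ⟨w, hw, rfl⟩
        refine hj (-1 + j) ⟨w, hw, ?_⟩
        rw [zpow_add, zpow_neg_one]
        rfl
      exact fun w hw => this hw
    intro w hw
    obtain ⟨m, n, hn⟩ := hw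
    have h1 : ((β : AddMonoid.End N) ^ m) w ∈ T := hMs _ hn
    clear hn
    induction m with
    | zero => simpa using h1
    | succ m ih =>
      apply ih
      rw [pow_succ'] at h1
      have h2 := hTb' _ h1
      rw [show ((β⁻¹ : Au N) : AddMonoid.End N) (((β : AddMonoid.End N) *
        (β : AddMonoid.End N) ^ m) w) = ((β : AddMonoid.End N) ^ m) w from H.b'b _] at h2
      exact h2

/-- one step: adding one automorphism. -/
theorem step (β : Au N)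
    (O : Set (AddMonoid.End N)) (S : Submonoid (AddMonoid.End N)) (L X : AddSubgroup N)
    (hS : ∀ a ∈ S, ∀ b ∈ S, a * b = b * a)
    (hSO : ∀ a ∈ S, ∀ φ ∈ O, a * φ = φ * a)
    (hSβ : ∀ a ∈ S, a * (β : AddMonoid.End N) = (β : AddMonoid.End N) * a)
    (hL : L.map (β : AddMonoid.End N) = L)
    (hO : ∀ Y : AddSubgroup N, L ≤ Y → St O Y →
        St O (Y.map (β : AddMonoid.End N)) ∧ St O (Y.map ((β⁻¹ : Au N) : AddMonoid.End N)))
    (hLX : L ≤ X) (hXO : St O X) (hXS : St (S : Set (AddMonoid.End N)) X) (hX : Noe O L X) :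
    St (O ∪ {(β : AddMonoid.End N), ((β⁻¹ : Au N) : AddMonoid.End N)})
      (⨆ j : ℤ, X.map ((β ^ j : Au N) : AddMonoid.End N)) ∧
    Noe (O ∪ {(β : AddMonoid.End N), ((β⁻¹ : Au N) : AddMonoid.End N)}) L
      (⨆ j : ℤ, X.map ((β ^ j : Au N) : AddMonoid.End N)) ∧
    Tame S X (⨆ j : ℤ, X.map ((β ^ j : Au N) : AddMonoid.End N)) ∧
    St (S : Set (AddMonoid.End N)) (⨆ j : ℤ, X.map ((β ^ j : Au N) : AddMonoid.End N)) := by
  have H : Hyp (β : AddMonoid.End N) ((β⁻¹ : Au N) : AddMonoid.End N) O S L X := by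
    refine ⟨?_, ?_, hS, hSO, hSβ, hL, ?_, ?_, hLX, hXO, hXS, hX⟩
    · intro w
      have := DFunLike.congr_fun (β.mul_inv) w
      exact this
    · intro w
      have := DFunLike.congr_fun (β.inv_mul) w
      exact this
    · intro Y hY
      exact (hO Y hY.1 hY.2).1
    · intro Y hY
      exact (hO Y hY.1 hY.2).2
  rw [zpow_map_iSup β S O L X H]
  refine ⟨?_, ?_, H.tame_ab, H.Nn_S⟩
  · intro φ hφ w hw
    rcases hφ with hφ | hφ | hφ
    · exact H.Nn_O φ hφ w hw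
    · rw [hφ]; exact H.Nn_b hw
    · rw [Set.mem_singleton_iff.1 hφ]; exact H.Nn_b' hw
  · intro f hf h1 h2 h3
    refine H.noe f hf ?_ ?_ ?_ h3
    · intro n
      exact ⟨h2 n, fun φ hφ w hw => h1 n φ (Or.inl hφ) w hw⟩
    · intro n w hw
      exact h1 n _ (Or.inr (Or.inl rfl)) w hw
    · intro n w hw
      exact h1 n _ (Or.inr (Or.inr rfl)) w hw

lemma wf_subgroup (Tg : Type*) [CommGroup Tg] [Group.FG Tg] :
    WellFoundedGT (Subgroup Tg) := by
  have h1 : AddGroup.FG (Additive Tg) := inferInstance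
  have h2 : Module.Finite ℤ (Additive Tg) := Module.Finite.iff_addGroup_fg.2 h1
  have h3 : IsNoetherian ℤ (Additive Tg) := inferInstance
  have h4 : WellFoundedGT (Submodule ℤ (Additive Tg)) := inferInstance
  let e : Subgroup Tg ≃o Submodule ℤ (Additive Tg) :=
    Subgroup.toAddSubgroup.trans AddSubgroup.toIntSubmodule
  exact ⟨(e.toOrderEmbedding.dual.ltEmbedding).wellFounded h4.wf⟩

theorem chain {Tg : Type*} [CommGroup Tg] [Group.FG Tg] (ρ : Tg →* Au N)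
    (C V : Subgroup Tg) (hCV : C ≤ V)
    (O : Set (AddMonoid.End N)) (S : Submonoid (AddMonoid.End N)) (L X : AddSubgroup N)
    (hS : ∀ a ∈ S, ∀ b ∈ S, a * b = b * a)
    (hSO : ∀ a ∈ S, ∀ φ ∈ O, a * φ = φ * a)
    (hSρ : ∀ a ∈ S, ∀ t : Tg, a * (ρ t : AddMonoid.End N) = (ρ t : AddMonoid.End N) * a)
    (hL : ∀ (t : Tg), ∀ w ∈ L, ρ t • w ∈ L)
    (hC : ∀ c ∈ C, ∀ w : N, ρ c • w - w ∈ L)
    (hV : ∀ U : Subgroup Tg, C ≤ U → U ≤ V → U ≠ V → ∃ t ∈ V, t ∉ U ∧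
      ∀ Y : AddSubgroup N, L ≤ Y → St O Y → St (opSet ρ U) Y →
        St O (Y.map (ρ t : AddMonoid.End N)) ∧ St O (Y.map (ρ t⁻¹ : AddMonoid.End N)))
    (hLX : L ≤ X) (hXO : St O X) (hXS : St (S : Set (AddMonoid.End N)) X) (hX : Noe O L X) :
    St (O ∪ opSet ρ V) (⨆ t ∈ V, X.map (ρ t : AddMonoid.End N)) ∧
    Noe (O ∪ opSet ρ V) L (⨆ t ∈ V, X.map (ρ t : AddMonoid.End N)) ∧
    Tame S X (⨆ t ∈ V, X.map (ρ t : AddMonoid.End N)) ∧
    St (S : Set (AddMonoid.End N)) (⨆ t ∈ V, X.map (ρ t : AddMonoid.End N)) := by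
  let XU : Subgroup Tg → AddSubgroup N := fun U => ⨆ t ∈ U, X.map (ρ t : AddMonoid.End N)
  let P : Subgroup Tg → Prop := fun U => C ≤ U ∧ U ≤ V ∧
    St (O ∪ opSet ρ U) (XU U) ∧ Noe (O ∪ opSet ρ U) L (XU U) ∧ Tame S X (XU U) ∧
    St (S : Set (AddMonoid.End N)) (XU U)
  have happ : ∀ (s t : Tg) (w : N), (ρ (s * t) : AddMonoid.End N) w =
      (ρ s : AddMonoid.End N) ((ρ t : AddMonoid.End N) w) := by
    intro s t w; rw [map_mul]; rfl
  have happ1 : ∀ w : N, (ρ 1 : AddMonoid.End N) w = w := by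
    intro w; rw [map_one]; rfl
  have hle : ∀ (U : Subgroup Tg) (t : Tg), t ∈ U → X.map (ρ t : AddMonoid.End N) ≤ XU U := by
    intro U t ht
    exact le_iSup₂ (f := fun (t : Tg) (_ : t ∈ U) => X.map (ρ t : AddMonoid.End N)) t ht
  have hXle : ∀ U, X ≤ XU U := by
    intro U w hw
    exact hle U 1 (one_mem U) ⟨w, hw, happ1 w⟩
  have hXUC : XU C = X := by
    apply le_antisymm _ (hXle C)
    refine iSup₂_le (fun t ht => ?_)
    rintro _ ⟨w, hw, rfl⟩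
    have h1 : (ρ t : AddMonoid.End N) w - w ∈ L := hC t ht w
    have : (ρ t : AddMonoid.End N) w = ((ρ t : AddMonoid.End N) w - w) + w := by abel
    show (ρ t : AddMonoid.End N) w ∈ X
    rw [this]
    exact add_mem (hLX h1) hw
  have hPC : P C := by
    refine ⟨le_rfl, hCV, ?_, ?_, ?_, ?_⟩
    · rw [hXUC]
      rintro φ (hφ | ⟨t, ht, rfl⟩) w hw
      · exact hXO φ hφ w hw
      · have h1 : (ρ t : AddMonoid.End N) w - w ∈ L := hC t ht w
        have : (ρ t : AddMonoid.End N) w = ((ρ t : AddMonoid.End N) w - w) + w := by abel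
        simp only
        rw [this]
        exact add_mem (hLX h1) hw
    · rw [hXUC]
      intro f hf h1 h2 h3
      exact hX f hf (fun n φ hφ w hw => h1 n φ (Or.inl hφ) w hw) h2 h3
    · rw [hXUC]
      exact ⟨1, S.one_mem, fun w hw _ => ⟨0, by simpa using hw⟩⟩
    · rw [hXUC]; exact hXS
  have hwf := wf_subgroup Tg
  obtain ⟨U, hPU, hmax⟩ := hwf.wf.has_min {U | P U} ⟨C, hPC⟩
  have hmax' : ∀ U', P U' → ¬ (U < U') := fun U' h => hmax U' h
  obtain ⟨hCU, hUV, hs1, hs2, hs3, hs4⟩ := hPU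
  by_cases hUe : U = V
  · subst hUe
    exact ⟨hs1, hs2, hs3, hs4⟩
  exfalso
  obtain ⟨t, htV, htU, htY⟩ := hV U hCU hUV hUe
  have hopU : St (opSet ρ U) (XU U) := fun φ hφ w hw => hs1 φ (Or.inr hφ) w hw
  have hst := step (ρ t) (O ∪ opSet ρ U) S L (XU U) hS ?_ (fun a ha => hSρ a ha t) ?_ ?_
    (hLX.trans (hXle U)) hs1 hs4 hs2
  rotate_left
  · rintro a ha φ (hφ | ⟨s, hs, rfl⟩)
    · exact hSO a ha φ hφ
    · exact hSρ a ha s
  · apply le_antisymm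
    · rintro _ ⟨w, hw, rfl⟩
      exact hL t w hw
    · intro w hw
      refine ⟨(ρ t⁻¹ : AddMonoid.End N) w, hL t⁻¹ w hw, ?_⟩
      show (ρ t : AddMonoid.End N) ((ρ t⁻¹ : AddMonoid.End N) w) = w
      rw [← happ, mul_inv_cancel, happ1]
  · intro Y hLY hY
    have h1 := htY Y hLY (fun φ hφ w hw => hY φ (Or.inl hφ) w hw)
      (fun φ hφ w hw => hY φ (Or.inr hφ) w hw)
    have hcomm : ∀ t' : Tg, St (opSet ρ U) (Y.map (ρ t' : AddMonoid.End N)) := by
      rintro t' _ ⟨s, hs, rfl⟩ _ ⟨w, hw, rfl⟩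
      refine ⟨(ρ s : AddMonoid.End N) w, hY _ (Or.inr ⟨s, hs, rfl⟩) w hw, ?_⟩
      show (ρ t' : AddMonoid.End N) ((ρ s : AddMonoid.End N) w) =
        (ρ s : AddMonoid.End N) ((ρ t' : AddMonoid.End N) w)
      rw [← happ, ← happ, mul_comm]
    constructor
    · rintro φ (hφ | hφ) w hw
      · exact h1.1 φ hφ w hw
      · exact hcomm t φ hφ w hw
    · have e : ((ρ t)⁻¹ : Au N) = ρ t⁻¹ := (map_inv ρ t).symm
      rw [e]
      rintro φ (hφ | hφ) w hw
      · exact h1.2 φ hφ w hw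
      · exact hcomm t⁻¹ φ hφ w hw
  -- the bigger subgroup
  have hmem : ∀ s, s ∈ U ⊔ Subgroup.zpowers t ↔ ∃ u ∈ U, ∃ j : ℤ, s = t ^ j * u := by
    intro s
    rw [Subgroup.mem_sup]
    constructor
    · rintro ⟨u, hu, z, hz, rfl⟩
      obtain ⟨j, rfl⟩ := Subgroup.mem_zpowers_iff.1 hz
      exact ⟨u, hu, j, mul_comm _ _⟩
    · rintro ⟨u, hu, j, rfl⟩
      exact ⟨u, hu, t ^ j, Subgroup.mem_zpowers_iff.2 ⟨j, rfl⟩, mul_comm _ _⟩
  have hzp : ∀ (j : ℤ), ((ρ t ^ j : Au N)) = ρ (t ^ j) := fun j => (map_zpow ρ t j).symm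
  have hXe : (⨆ j : ℤ, (XU U).map ((ρ t ^ j : Au N) : AddMonoid.End N)) =
      XU (U ⊔ Subgroup.zpowers t) := by
    apply le_antisymm
    · refine iSup_le (fun j => ?_)
      rw [AddSubgroup.map_le_iff_le_comap]
      refine iSup₂_le (fun u hu => ?_)
      rintro _ ⟨w, hw, rfl⟩
      refine hle _ (t ^ j * u) ((hmem _).2 ⟨u, hu, j, rfl⟩) ⟨w, hw, ?_⟩
      rw [hzp]
      exact happ _ _ w
    · refine iSup₂_le (fun s hs => ?_)
      obtain ⟨u, hu, j, rfl⟩ := (hmem s).1 hs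
      rintro _ ⟨w, hw, rfl⟩
      refine (le_iSup (fun j : ℤ => (XU U).map ((ρ t ^ j : Au N) : AddMonoid.End N)) j) ?_
      refine ⟨(ρ u : AddMonoid.End N) w, hle U u hu ⟨w, hw, rfl⟩, ?_⟩
      rw [hzp]
      exact (happ _ _ w).symm
  rw [hXe] at hst
  obtain ⟨h1, h2, h3, h4⟩ := hst
  have hpow : ∀ (Y : AddSubgroup N), (∀ w ∈ Y, (ρ t : AddMonoid.End N) w ∈ Y) →
      (∀ w ∈ Y, ((ρ t)⁻¹ : Au N).val w ∈ Y) → ∀ (j : ℤ), ∀ w ∈ Y,
      (ρ (t ^ j) : AddMonoid.End N) w ∈ Y := by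
    intro Y hY1 hY2 j
    induction j using Int.induction_on with
    | zero => intro w hw; simpa using hw
    | succ n ih =>
      intro w hw
      rw [zpow_add, zpow_one, happ]
      exact ih _ (hY1 w hw)
    | pred n ih =>
      intro w hw
      rw [sub_eq_add_neg, zpow_add, zpow_neg_one, happ]
      refine ih _ ?_
      have := hY2 w hw
      rwa [← map_inv] at this
  have hstable : ∀ Y : AddSubgroup N, St ((O ∪ opSet ρ U) ∪ {(ρ t : AddMonoid.End N),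
      ((ρ t)⁻¹ : Au N).val}) Y ↔ St (O ∪ opSet ρ (U ⊔ Subgroup.zpowers t)) Y := by
    intro Y
    constructor
    · rintro hY φ (hφ | ⟨s, hs, rfl⟩) w hw
      · exact hY φ (Or.inl (Or.inl hφ)) w hw
      · obtain ⟨u, hu, j, rfl⟩ := (hmem s).1 hs
        simp only
        rw [happ]
        refine hpow Y (fun w hw => hY _ (Or.inr (Or.inl rfl)) w hw)
          (fun w hw => hY _ (Or.inr (Or.inr rfl)) w hw) j _ ?_
        exact hY _ (Or.inl (Or.inr ⟨u, hu, rfl⟩)) w hw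
    · rintro hY φ ((hφ | ⟨s, hs, rfl⟩) | hφ | hφ) w hw
      · exact hY φ (Or.inl hφ) w hw
      · exact hY _ (Or.inr ⟨s, (le_sup_left : U ≤ U ⊔ Subgroup.zpowers t) hs, rfl⟩) w hw
      · rw [hφ]
        exact hY _ (Or.inr ⟨t, (hmem t).2 ⟨1, one_mem U, 1, by simp⟩, rfl⟩) w hw
      · rw [Set.mem_singleton_iff.1 hφ]
        refine hY _ (Or.inr ⟨t⁻¹, (hmem _).2 ⟨1, one_mem U, -1, by simp⟩, ?_⟩) w hw
        simp only
        rw [map_inv]
  refine hmax' (U ⊔ Subgroup.zpowers t) ⟨hCU.trans le_sup_left, ?_, ?_, ?_, ?_, h4⟩ ?_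
  · refine sup_le hUV ?_
    rw [Subgroup.zpowers_le]; exact htV
  · exact (hstable _).1 h1
  · intro f hf g1 g2 g3
    exact h2 f hf (fun n => (hstable _).2 (g1 n)) g2 g3
  · exact tame_trans hS hXS (hXle U) hs3 h3
  · refine lt_of_le_of_ne le_sup_left ?_
    intro he
    apply htU
    rw [he]
    exact (hmem t).2 ⟨1, one_mem U, 1, by simp⟩

theorem tame_div {S : Submonoid (AddMonoid.End N)} {X D : AddSubgroup N}
    (hS : ∀ a ∈ S, ∀ b ∈ S, a * b = b * a)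
    (hXS : St (S : Set (AddMonoid.End N)) X)
    (c : AddMonoid.End N) (hc : Function.Injective c) (hSc : ∀ a ∈ S, a * c = c * a)
    (hcX : ∀ w ∈ X, c w ∈ X)
    (hD : ∀ w ∈ D, ∃ i : ℕ, (c ^ i) w ∈ X)
    (h1 : Tame S X (X.comap c)) : Tame S X D := by
  obtain ⟨c0, hc0, h1⟩ := h1
  refine ⟨c0, hc0, ?_⟩
  have key : ∀ i : ℕ, ∀ w, (c ^ i) w ∈ X → (∃ h ∈ S, h w ∈ X) → ∃ j : ℕ, (c0 ^ j) w ∈ X := by
    intro i
    induction i with
    | zero => intro w hw _; exact ⟨0, hw⟩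
    | succ i ih =>
      rintro w hw ⟨h, hh, hhw⟩
      rw [pow_succ] at hw
      obtain ⟨j, hj⟩ := ih (c w) hw ⟨h, hh, by
        rw [comm_ap (hSc h hh)]; exact hcX _ hhw⟩
      rw [pow_comm_ap (hSc c0 hc0)] at hj
      obtain ⟨j', hj'⟩ := h1 _ hj ⟨h, hh, by
        rw [← pow_comm_ap (hS c0 hc0 h hh)]
        exact hXS.pow hc0 j hhw⟩
      refine ⟨j' + j, ?_⟩
      rw [pow_add]
      exact hj'
  intro w hw hh
  obtain ⟨i, hi⟩ := hD w hw
  exact key i w hi hh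

end engine


end Pool.Agent.E2F

end
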