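import Pool.Agent.Lib.E2F.J1

set_option autoImplicit false

noncomputable section

namespace Pool.Agent.E2F






/-! ### helper lemmas for J2 -/
section specAux

variable {N : Type*} [AddCommGroup N]

lemma zpow_comm {φ : AddMonoid.End N} {β : Au N}
    (h : φ * (β : AddMonoid.End N) = (β : AddMonoid.End N) * φ) (j : ℤ) :
    φ * ((β ^ j : Au N) : AddMonoid.End N) = ((β ^ j : Au N) : AddMonoid.End N) * φ :=
  (Commute.units_zpow_right (show Commute φ (β : AddMonoid.End N) from h) j)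

lemma inv_comm {φ : AddMonoid.End N} {β : Au N}
    (h : φ * (β : AddMonoid.End N) = (β : AddMonoid.End N) * φ) :
    φ * ((β⁻¹ : Au N) : AddMonoid.End N) = ((β⁻¹ : Au N) : AddMonoid.End N) * φ := by
  have := zpow_comm h (-1)
  rwa [zpow_neg_one] at this

/-- the sum map -/
def Tm {R : Type*} [CommRing R] (Z : R →+* AddMonoid.End N) (β : Au N) (u : N) :
    (ℤ →₀ R) →+ N :=
  Finsupp.liftAddHom fun j =>
    ((AddMonoidHom.eval ((β ^ j) • u) : (N →+ N) →+ N)).comp (Z : R →+ AddMonoid.End N)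

lemma Tm_apply {R : Type*} [CommRing R] (Z : R →+* AddMonoid.End N) (β : Au N) (u : N)
    (f : ℤ →₀ R) : Tm Z β u f = f.sum fun j r => Z r ((β ^ j) • u) := rfl

lemma Tm_single {R : Type*} [CommRing R] (Z : R →+* AddMonoid.End N) (β : Au N) (u : N)
    (j : ℤ) (r : R) : Tm Z β u (Finsupp.single j r) = Z r ((β ^ j) • u) := by
  rw [Tm_apply, Finsupp.sum_single_index]
  rw [map_zero]; rfl

/-- `Z a` times a sum -/
lemma Tm_smul {R : Type*} [CommRing R] (Z : R →+* AddMonoid.End N) (β : Au N) (u : N)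
    (a : R) (f : ℤ →₀ R) : Z a (Tm Z β u f) = Tm Z β u (a • f) := by
  induction f using Finsupp.induction_linear with
  | zero => simp
  | add f g hf hg => rw [map_add, map_add, hf, hg, smul_add, map_add]
  | single j r =>
    rw [Tm_single, Finsupp.smul_single, Tm_single, smul_eq_mul, map_mul]
    rfl

/-- the cyclic subgroup `L + Z(R) u` -/
def Cy {R : Type*} [CommRing R] (Z : R →+* AddMonoid.End N) (L : AddSubgroup N) (u : N) :
    AddSubgroup N :=
  L ⊔ ((AddMonoidHom.eval u : (N →+ N) →+ N).comp (Z : R →+ AddMonoid.End N)).range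

lemma mem_Cy {R : Type*} [CommRing R] {Z : R →+* AddMonoid.End N} {L : AddSubgroup N} {u : N}
    {w : N} : w ∈ Cy Z L u ↔ ∃ l ∈ L, ∃ r : R, w = l + Z r u := by
  unfold Cy
  rw [AddSubgroup.mem_sup]
  constructor
  · rintro ⟨l, hl, v, ⟨r, rfl⟩, rfl⟩
    exact ⟨l, hl, r, rfl⟩
  · rintro ⟨l, hl, r, rfl⟩
    exact ⟨l, hl, _, ⟨r, rfl⟩, rfl⟩

lemma noe_Cy {R : Type*} [CommRing R] [IsNoetherianRing R] (Z : R →+* AddMonoid.End N)
    (L : AddSubgroup N) (u : N) : Noe (Set.range Z) L (Cy Z L u) := by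
  intro f hf hst hL hU
  let I : ℕ → Ideal R := fun n =>
    { carrier := {r | Z r u ∈ f n}
      add_mem' := by
        intro a b ha hb
        simp only [Set.mem_ofPred_eq] at *
        rw [map_add]
        exact (f n).add_mem ha hb
      zero_mem' := by
        simp only [Set.mem_ofPred_eq, map_zero]
        exact (f n).zero_mem
      smul_mem' := by
        intro c x hx
        simp only [Set.mem_ofPred_eq, smul_eq_mul, map_mul] at *
        exact hst n _ ⟨c, rfl⟩ _ hx }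
  have hI : Monotone I := by
    intro m n hmn r hr
    exact hf hmn hr
  obtain ⟨n, hn⟩ := monotone_stabilizes_iff_noetherian.mpr
    (inferInstance : IsNoetherian R R) ⟨I, hI⟩
  refine ⟨n, fun m hm => le_antisymm ?_ (hf hm)⟩
  intro w hw
  obtain ⟨l, hl, r, rfl⟩ := mem_Cy.mp (hU m hw)
  have h1 : Z r u ∈ f m := by
    have := (f m).sub_mem hw (hL m hl)
    simpa using this
  have h2 : r ∈ I m := h1
  have h3 : I n = I m := hn m hm
  rw [← h3] at h2
  exact (f n).add_mem (hL n hl) h2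


/-! #### the algebra of specialisation -/

/-- evaluation of the variable `0` at `θ` -/
def evθ (s : ℕ) (θ : AlgebraicClosure (ZMod 2)) :
    MvPolynomial (Fin (s+1)) (ZMod 2) →+* MvPolynomial (Fin s) (AlgebraicClosure (ZMod 2)) :=
  MvPolynomial.eval₂Hom
    ((MvPolynomial.C).comp (algebraMap (ZMod 2) (AlgebraicClosure (ZMod 2))))
    (Fin.cons (MvPolynomial.C θ) MvPolynomial.X)

lemma evθ_rename (s : ℕ) (θ : AlgebraicClosure (ZMod 2)) (p : MvPolynomial (Fin s) (ZMod 2)) :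
    evθ s θ (MvPolynomial.rename Fin.succ p) =
      MvPolynomial.map (algebraMap (ZMod 2) (AlgebraicClosure (ZMod 2))) p := by
  have h1 : (evθ s θ).comp ((MvPolynomial.rename Fin.succ :
      MvPolynomial (Fin s) (ZMod 2) →ₐ[ZMod 2] MvPolynomial (Fin (s+1)) (ZMod 2)) :
      MvPolynomial (Fin s) (ZMod 2) →+* MvPolynomial (Fin (s+1)) (ZMod 2)) =
      MvPolynomial.map (algebraMap (ZMod 2) (AlgebraicClosure (ZMod 2))) := by
    apply MvPolynomial.ringHom_ext
    · intro r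
      simp [evθ]
    · intro i
      simp [evθ]
  exact congrArg (fun g => g p) h1

lemma evθ_aeval (s : ℕ) (θ : AlgebraicClosure (ZMod 2)) (h : Polynomial (ZMod 2)) :
    evθ s θ (Polynomial.aeval (MvPolynomial.X 0) h) =
      MvPolynomial.C (Polynomial.aeval θ h) := by
  induction h using Polynomial.induction_on' with
  | add p q hp hq => rw [map_add, map_add, hp, hq, map_add, map_add]
  | monomial n a =>
    rw [Polynomial.aeval_monomial, Polynomial.aeval_monomial, map_mul, map_mul, map_pow, map_pow]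
    congr 1
    · unfold evθ
      rw [MvPolynomial.algebraMap_eq, MvPolynomial.coe_eval₂Hom, MvPolynomial.eval₂_C]
      rfl
    · congr 1
      unfold evθ
      rw [MvPolynomial.coe_eval₂Hom, MvPolynomial.eval₂_X]
      rfl

lemma evθ_eq (s : ℕ) (θ : AlgebraicClosure (ZMod 2)) (p : MvPolynomial (Fin (s+1)) (ZMod 2)) :
    evθ s θ p = Polynomial.eval (MvPolynomial.C θ)
      (Polynomial.map (MvPolynomial.map (algebraMap (ZMod 2) (AlgebraicClosure (ZMod 2))))
        (MvPolynomial.finSuccEquiv (ZMod 2) s p)) := by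
  have : evθ s θ = (Polynomial.evalRingHom (MvPolynomial.C θ)).comp
      ((Polynomial.mapRingHom
        (MvPolynomial.map (algebraMap (ZMod 2) (AlgebraicClosure (ZMod 2))))).comp
        ((MvPolynomial.finSuccEquiv (ZMod 2) s :
          MvPolynomial (Fin (s+1)) (ZMod 2) →+* Polynomial (MvPolynomial (Fin s) (ZMod 2))))) := by
    apply MvPolynomial.ringHom_ext
    · intro r
      simp [evθ, MvPolynomial.finSuccEquiv_apply]
    · intro i
      refine Fin.cases ?_ (fun i => ?_) i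
      · simp [evθ, MvPolynomial.finSuccEquiv_apply]
      · simp [evθ, MvPolynomial.finSuccEquiv_apply]
  rw [this]
  rfl

lemma exists_h0 (s : ℕ) (lam : MvPolynomial (Fin (s+1)) (ZMod 2)) (hlam : lam ≠ 0) :
    ∃ h0 : Polynomial (ZMod 2), h0 ≠ 0 ∧
      ∀ (i : ℕ) (p : MvPolynomial (Fin s) (ZMod 2)) (q : MvPolynomial (Fin (s+1)) (ZMod 2)),
        lam ^ i * MvPolynomial.rename Fin.succ p =
          Polynomial.aeval (MvPolynomial.X 0) h0 * q → p = 0 := by
  have hinj : Function.Injective (algebraMap (ZMod 2) (AlgebraicClosure (ZMod 2))) :=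
    (algebraMap (ZMod 2) (AlgebraicClosure (ZMod 2))).injective
  obtain ⟨θ, hθ⟩ : ∃ θ : AlgebraicClosure (ZMod 2), evθ s θ lam ≠ 0 := by
    by_contra hcon
    push Not at hcon
    have h1 : Polynomial.map
        (MvPolynomial.map (algebraMap (ZMod 2) (AlgebraicClosure (ZMod 2))))
        (MvPolynomial.finSuccEquiv (ZMod 2) s lam) ≠ 0 := by
      rw [Ne, Polynomial.map_eq_zero_iff (MvPolynomial.map_injective _ hinj)]
      intro h
      exact hlam ((MvPolynomial.finSuccEquiv (ZMod 2) s).injective (by rw [h, map_zero]))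
    apply h1
    refine Polynomial.eq_zero_of_infinite_isRoot _ ?_
    refine Set.Infinite.mono (s := Set.range (MvPolynomial.C : AlgebraicClosure (ZMod 2) → _)) ?_ ?_
    · rintro _ ⟨θ, rfl⟩
      have := hcon θ
      rw [evθ_eq] at this
      exact this
    · exact Set.infinite_range_of_injective (MvPolynomial.C_injective _ _)
  have hint : IsIntegral (ZMod 2) θ := Algebra.IsIntegral.isIntegral θ
  refine ⟨minpoly (ZMod 2) θ, minpoly.ne_zero hint, ?_⟩
  intro i p q h
  have h2 := congrArg (evθ s θ) h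
  rw [map_mul, map_mul, map_pow, evθ_rename, evθ_aeval, minpoly.aeval, map_zero, zero_mul] at h2
  rcases mul_eq_zero.mp h2 with h3 | h3
  · exact absurd (pow_eq_zero_iff (by
      rintro rfl; simp at h3) |>.mp h3) hθ
  · exact MvPolynomial.map_injective _ hinj (by rw [h3, map_zero])


/-! #### the module `X0` and tameness -/

section tame

variable {R : Type*} [CommRing R]

/-- the subgroup generated by all the translates `β ^ j` of `Cy`. -/
def X0 (Z : R →+* AddMonoid.End N) (β : Au N) (L : AddSubgroup N) (u : N) : AddSubgroup N :=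
  ⨆ j : ℤ, (Cy Z L u).map ((β ^ j : Au N) : AddMonoid.End N)

lemma Lmap_zpow {β : Au N} {L : AddSubgroup N} (hLβ : L.map (β : AddMonoid.End N) = L) (j : ℤ) :
    ∀ w ∈ L, (β ^ j) • w ∈ L := by
  have h1 : ∀ w ∈ L, β • w ∈ L := by
    intro w hw
    rw [← hLβ]
    exact ⟨w, hw, rfl⟩
  have h2 : ∀ w ∈ L, β⁻¹ • w ∈ L := by
    intro w hw
    rw [← hLβ] at hw
    obtain ⟨v, hv, rfl⟩ := hw
    change β⁻¹ • (β • v) ∈ L
    rw [inv_smul_smul]
    exact hv
  induction j using Int.induction_on with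
  | zero => intro w hw; simpa using hw
  | succ i ih =>
    intro w hw
    rw [zpow_add, zpow_one, mul_smul]
    exact ih _ (h1 w hw)
  | pred i ih =>
    intro w hw
    rw [sub_eq_add_neg, zpow_add, zpow_neg_one, mul_smul]
    exact ih _ (h2 w hw)

lemma X0_le {Z : R →+* AddMonoid.End N} {β : Au N} {L : AddSubgroup N} {u : N}
    (hZβ : ∀ r, Z r * (β : AddMonoid.End N) = (β : AddMonoid.End N) * Z r)
    (hLβ : L.map (β : AddMonoid.End N) = L) :
    ∀ w ∈ X0 Z β L u, ∃ l ∈ L, ∃ f : ℤ →₀ R, w = l + Tm Z β u f := by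
  intro w hw
  have h1 : X0 Z β L u ≤ L ⊔ (Tm Z β u).range := by
    unfold X0
    refine iSup_le fun j => ?_
    rintro _ ⟨v, hv, rfl⟩
    obtain ⟨l, hl, r, rfl⟩ := mem_Cy.mp hv
    change (β ^ j) • (l + Z r u) ∈ _
    rw [smul_add]
    refine (L ⊔ (Tm Z β u).range).add_mem ?_ ?_
    · exact AddSubgroup.mem_sup_left (Lmap_zpow hLβ j l hl)
    · refine AddSubgroup.mem_sup_right ⟨Finsupp.single j r, ?_⟩
      rw [Tm_single]
      have := zpow_comm (hZβ r) j
      exact DFunLike.congr_fun this u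
  obtain ⟨l, hl, v, ⟨f, rfl⟩, rfl⟩ := AddSubgroup.mem_sup.mp (h1 hw)
  exact ⟨l, hl, f, rfl⟩

lemma le_X0 {Z : R →+* AddMonoid.End N} {β : Au N} {L : AddSubgroup N} {u : N} :
    L ≤ X0 Z β L u := by
  refine le_trans ?_ (le_iSup _ (0:ℤ))
  intro w hw
  refine ⟨w, (le_sup_left : L ≤ Cy Z L u) hw, ?_⟩
  rw [zpow_zero]
  rfl

lemma Tm_mem_X0 {Z : R →+* AddMonoid.End N} {β : Au N} {L : AddSubgroup N} {u : N}
    (hZβ : ∀ r, Z r * (β : AddMonoid.End N) = (β : AddMonoid.End N) * Z r)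
    (f : ℤ →₀ R) : Tm Z β u f ∈ X0 Z β L u := by
  induction f using Finsupp.induction_linear with
  | zero => rw [map_zero]; exact AddSubgroup.zero_mem _
  | add f g hf hg => rw [map_add]; exact AddSubgroup.add_mem _ hf hg
  | single j r =>
    rw [Tm_single]
    refine (le_iSup (fun j : ℤ => (Cy Z L u).map ((β ^ j : Au N) : AddMonoid.End N)) j) ?_
    refine ⟨Z r u, mem_Cy.mpr ⟨0, L.zero_mem, r, by simp⟩, ?_⟩
    have := zpow_comm (hZβ r) j
    exact (DFunLike.congr_fun this u).symm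

lemma tameX0 [IsNoetherianRing R] {Tg : Type*} [CommGroup Tg] [Group.FG Tg]
    (ρ : Tg →* Au N) (hNoe : Noe (opSet ρ ⊤) ⊥ ⊤)
    (b : MulAut Tg) (β : Au N) (hβ : ∀ (t : Tg) (w : N), β • (ρ t • w) = ρ (b t) • (β • w))
    (huni : ∃ n : ℕ, ∀ t : Tg, ρ ((fun s => b s * s⁻¹)^[n] t) = 1)
    (Z : R →+* AddMonoid.End N)
    (hZρ : ∀ r (t : Tg), Z r * (ρ t : AddMonoid.End N) = (ρ t : AddMonoid.End N) * Z r)
    (hZβ : ∀ r, Z r * (β : AddMonoid.End N) = (β : AddMonoid.End N) * Z r)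
    (L : AddSubgroup N) (hLρ : ∀ (t : Tg), ∀ w ∈ L, ρ t • w ∈ L)
    (hLβ : L.map (β : AddMonoid.End N) = L) (hLZ : ∀ r, ∀ w ∈ L, Z r w ∈ L)
    (u : N) (S : Submonoid (AddMonoid.End N)) (hSZ : ∀ a ∈ S, ∃ r, a = Z r) :
    Tame S (X0 Z β L u) ⊤ := by
  have hZZ : ∀ r r', Z r * Z r' = Z r' * Z r := by
    intro r r'; rw [← map_mul, ← map_mul, mul_comm]
  have hS : ∀ a ∈ S, ∀ b ∈ S, a * b = b * a := by
    intro a ha b hb
    obtain ⟨r, rfl⟩ := hSZ a ha
    obtain ⟨r', rfl⟩ := hSZ b hb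
    exact hZZ r r'
  have hSR : ∀ a ∈ S, ∀ φ ∈ Set.range Z, a * φ = φ * a := by
    rintro a ha _ ⟨r', rfl⟩
    obtain ⟨r, rfl⟩ := hSZ a ha
    exact hZZ r r'
  have hSβ : ∀ a ∈ S, a * (β : AddMonoid.End N) = (β : AddMonoid.End N) * a := by
    rintro a ha
    obtain ⟨r, rfl⟩ := hSZ a ha
    exact hZβ r
  have hSρ : ∀ a ∈ S, ∀ t : Tg, a * (ρ t : AddMonoid.End N) = (ρ t : AddMonoid.End N) * a := by
    rintro a ha t
    obtain ⟨r, rfl⟩ := hSZ a ha
    exact hZρ r t
  have hCyst : ∀ r, ∀ w ∈ Cy Z L u, Z r w ∈ Cy Z L u := by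
    intro r w hw
    obtain ⟨l, hl, r', rfl⟩ := mem_Cy.mp hw
    refine mem_Cy.mpr ⟨Z r l, hLZ r l hl, r * r', ?_⟩
    rw [map_add, map_mul]
    rfl
  -- first step
  obtain ⟨a1, a2, -, a4⟩ := step β (Set.range Z) S L (Cy Z L u) hS hSR hSβ hLβ
    (by
      intro Y hLY hY
      constructor
      · rintro _ ⟨r, rfl⟩ _ ⟨y, hy, rfl⟩
        exact ⟨Z r y, hY _ ⟨r, rfl⟩ y hy, (DFunLike.congr_fun (hZβ r) y).symm⟩
      · rintro _ ⟨r, rfl⟩ _ ⟨y, hy, rfl⟩
        exact ⟨Z r y, hY _ ⟨r, rfl⟩ y hy, (DFunLike.congr_fun (inv_comm (hZβ r)) y).symm⟩)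
    le_sup_left
    (by
      rintro _ ⟨r, rfl⟩ w hw
      exact hCyst r w hw)
    (by
      rintro a ha w hw
      obtain ⟨r, rfl⟩ := hSZ a ha
      exact hCyst r w hw)
    (noe_Cy Z L u)
  change St _ (X0 Z β L u) at a1
  change Noe _ L (X0 Z β L u) at a2
  change St _ (X0 Z β L u) at a4
  -- the chain
  have hkey : ∀ (t : Tg) (Y : AddSubgroup N),
      (∀ r, ∀ y ∈ Y, Z r y ∈ Y) → (∀ y ∈ Y, β • y ∈ Y) → (∀ y ∈ Y, β⁻¹ • y ∈ Y) →
      (∀ y ∈ Y, ρ (b t * t⁻¹) • y ∈ Y) → (∀ y ∈ Y, ρ (b t * t⁻¹)⁻¹ • y ∈ Y) →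
      St (Set.range Z ∪ {(β : AddMonoid.End N), ((β⁻¹ : Au N) : AddMonoid.End N)})
        (Y.map (ρ t : AddMonoid.End N)) := by
    rintro t Y hYZ hYβ hYβ' hYd hYd' φ (⟨r, rfl⟩ | hφ | hφ) _ ⟨y, hy, rfl⟩
    · exact ⟨Z r y, hYZ r y hy, (DFunLike.congr_fun (hZρ r t) y).symm⟩
    · subst hφ
      refine ⟨ρ (b t * t⁻¹) • (β • y), hYd _ (hYβ y hy), ?_⟩
      change ρ t • (ρ (b t * t⁻¹) • (β • y)) = β • (ρ t • y)
      rw [hβ, ← mul_smul, ← map_mul]
      congr 2
      rw [mul_comm, mul_assoc, inv_mul_cancel, mul_one]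
    · have hφ' : φ = ((β⁻¹ : Au N) : AddMonoid.End N) := hφ
      subst hφ'
      refine ⟨β⁻¹ • (ρ (b t * t⁻¹)⁻¹ • y), hYβ' _ (hYd' y hy), ?_⟩
      change ρ t • (β⁻¹ • (ρ (b t * t⁻¹)⁻¹ • y)) = β⁻¹ • (ρ t • y)
      rw [eq_inv_smul_iff, hβ, smul_inv_smul, ← mul_smul, ← map_mul]
      congr 2
      rw [mul_inv, inv_inv, mul_inv_cancel_left]
  obtain ⟨n, hn⟩ := huni
  obtain ⟨b1, b2, b3, b4⟩ := chain ρ ρ.ker ⊤ le_top
    (Set.range Z ∪ {(β : AddMonoid.End N), ((β⁻¹ : Au N) : AddMonoid.End N)}) S L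
    (X0 Z β L u) hS
    (by
      rintro a ha φ (hφ | hφ | hφ)
      · exact hSR a ha φ hφ
      · rw [hφ]; exact hSβ a ha
      · have hφ' : φ = ((β⁻¹ : Au N) : AddMonoid.End N) := hφ
        rw [hφ']; exact inv_comm (hSβ a ha))
    hSρ hLρ
    (by
      intro c hc w
      rw [MonoidHom.mem_ker] at hc
      rw [hc, one_smul, sub_self]
      exact L.zero_mem)
    (by
      intro U hCU _ hUne
      obtain ⟨t0, ht0⟩ : ∃ t0, t0 ∉ U := by
        by_contra hcon
        push Not at hcon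
        exact hUne (eq_top_iff.mpr fun t _ => hcon t)
      have hex : ∃ k, (fun s => b s * s⁻¹)^[k] t0 ∈ U := by
        refine ⟨n, hCU ?_⟩
        rw [MonoidHom.mem_ker]
        exact hn t0
      classical
      obtain ⟨k, hk⟩ : ∃ k, Nat.find hex = k + 1 := by
        cases hc : Nat.find hex with
        | zero =>
          have := Nat.find_spec hex
          rw [hc] at this
          exact absurd this ht0
        | succ k => exact ⟨k, rfl⟩
      have hk1 : (fun s => b s * s⁻¹)^[k] t0 ∉ U := Nat.find_min hex (by omega)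
      have hk2 : (fun s => b s * s⁻¹)^[k+1] t0 ∈ U := by
        rw [← hk]; exact Nat.find_spec hex
      rw [Function.iterate_succ_apply'] at hk2
      set t := (fun s => b s * s⁻¹)^[k] t0 with ht
      refine ⟨t, trivial, hk1, ?_⟩
      intro Y hLY hYO hYU
      have hk3 : b t * t⁻¹ ∈ U := hk2
      have e1 : ∀ r, ∀ y ∈ Y, Z r y ∈ Y := fun r y hy => hYO _ (Or.inl ⟨r, rfl⟩) y hy
      have e2 : ∀ y ∈ Y, β • y ∈ Y := fun y hy => hYO _ (Or.inr (Or.inl rfl)) y hy
      have e3 : ∀ y ∈ Y, β⁻¹ • y ∈ Y := fun y hy => hYO _ (Or.inr (Or.inr rfl)) y hy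
      have e4 : ∀ x ∈ U, ∀ y ∈ Y, ρ x • y ∈ Y := fun x hx y hy => hYU _ ⟨x, hx, rfl⟩ y hy
      constructor
      · exact hkey t Y e1 e2 e3 (e4 _ hk3) (e4 _ (U.inv_mem hk3))
      · have e5 : b t⁻¹ * (t⁻¹)⁻¹ = (b t * t⁻¹)⁻¹ := by
          rw [mul_inv, map_inv]
        refine hkey t⁻¹ Y e1 e2 e3 ?_ ?_
        · rw [e5]; exact e4 _ (U.inv_mem hk3)
        · rw [e5, inv_inv]; exact e4 _ hk3)
    le_X0 a1 a4 a2
  -- the end
  refine tame_trans hS a4 ?_ b3 ?_
  · refine le_trans ?_ (le_iSup₂ (1 : Tg) (Subgroup.mem_top _))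
    intro w hw
    exact ⟨w, hw, by rw [map_one]; rfl⟩
  · refine tame_of_noe (O := opSet ρ ⊤) (L := ⊥) hS ?_ ?_ ?_ b4 bot_le le_top hNoe
    · rintro a ha _ ⟨t, -, rfl⟩
      exact hSρ a ha t
    · intro φ hφ w hw
      exact b1 φ (Or.inr hφ) w hw
    · intro φ _ w _
      trivial

end tame

end specAux


/-! #### the induction on the number of variables -/

theorem spec_ind {N : Type*} [AddCommGroup N]
    {Tg : Type*} [CommGroup Tg] [Group.FG Tg]
    (ρ : Tg →* Au N) (hNoe : Noe (opSet ρ ⊤) ⊥ ⊤)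
    (b : MulAut Tg) (β : Au N) (hβ : ∀ (t : Tg) (w : N), β • (ρ t • w) = ρ (b t) • (β • w))
    (huni : ∃ n : ℕ, ∀ t : Tg, ρ ((fun s => b s * s⁻¹)^[n] t) = 1)
    (s : ℕ) : ∀ (Z : MvPolynomial (Fin s) (ZMod 2) →+* AddMonoid.End N)
    (_hZρ : ∀ r (t : Tg), Z r * (ρ t : AddMonoid.End N) = (ρ t : AddMonoid.End N) * Z r)
    (_hZβ : ∀ r, Z r * (β : AddMonoid.End N) = (β : AddMonoid.End N) * Z r)
    (L : AddSubgroup N) (_hLρ : ∀ (t : Tg), ∀ w ∈ L, ρ t • w ∈ L)
    (_hLβ : L.map (β : AddMonoid.End N) = L) (_hLZ : ∀ r, ∀ w ∈ L, Z r w ∈ L)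
    (u : N)
    (_hu : ∀ f : ℤ →₀ MvPolynomial (Fin s) (ZMod 2), Tm Z β u f ∈ L → f = 0),
    ∃ h : Fin s → Polynomial (ZMod 2), (∀ i, h i ≠ 0) ∧
      ∀ F : Finset ℤ, (∑ j ∈ F, (β ^ j) • u) ∈
        L ⊔ (⨆ i, (Z (Polynomial.aeval (MvPolynomial.X i) (h i))).range : AddSubgroup N) →
        F = ∅ := by
  induction s with
  | zero =>
    intro Z hZρ hZβ L hLρ hLβ hLZ u hu
    refine ⟨Fin.elim0, fun i => i.elim0, ?_⟩
    intro F hF
    have hF' : (∑ j ∈ F, (β ^ j) • u) ∈ L := by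
      simpa using hF
    have h1 : Tm Z β u (∑ j ∈ F, Finsupp.single j 1) = ∑ j ∈ F, (β ^ j) • u := by
      rw [map_sum]
      refine Finset.sum_congr rfl fun j _ => ?_
      rw [Tm_single, map_one]
      rfl
    have h2 := hu _ (by rw [h1]; exact hF')
    by_contra hne
    obtain ⟨j, hj⟩ := Finset.nonempty_iff_ne_empty.mpr hne
    have h3 := DFunLike.congr_fun h2 j
    rw [Finsupp.finsetSum_apply, Finsupp.zero_apply] at h3
    rw [Finset.sum_eq_single j] at h3
    · rw [Finsupp.single_eq_same] at h3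
      exact one_ne_zero h3
    · intro k _ hk
      rw [Finsupp.single_eq_of_ne (Ne.symm hk)]
    · intro h; exact absurd hj h
  | succ s ih =>
    intro Z hZρ hZβ L hLρ hLβ hLZ u hu
    have htame := tameX0 ρ hNoe b β hβ huni Z hZρ hZβ L hLρ hLβ hLZ u
      ((nonZeroDivisors (MvPolynomial (Fin (s+1)) (ZMod 2))).map Z)
      (by rintro a ⟨r, -, rfl⟩; exact ⟨r, rfl⟩)
    obtain ⟨c, ⟨lam, hlam, rfl⟩, hc⟩ := htame
    have hlam0 : lam ≠ 0 := nonZeroDivisors.ne_zero hlam
    obtain ⟨h0, hh0, hspec⟩ := exists_h0 s lam hlam0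
    set z : MvPolynomial (Fin (s+1)) (ZMod 2) := Polynomial.aeval (MvPolynomial.X 0) h0 with hz
    have hz0 : z ≠ 0 := by
      intro hz0
      apply hh0
      have h1 := MvPolynomial.transcendental_X (R := ZMod 2) (0 : Fin (s+1))
      rw [transcendental_iff] at h1
      exact h1 h0 hz0
    let Z' : MvPolynomial (Fin s) (ZMod 2) →+* AddMonoid.End N :=
      Z.comp ((MvPolynomial.rename Fin.succ :
        MvPolynomial (Fin s) (ZMod 2) →ₐ[ZMod 2] MvPolynomial (Fin (s+1)) (ZMod 2)) :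
        MvPolynomial (Fin s) (ZMod 2) →+* MvPolynomial (Fin (s+1)) (ZMod 2))
    have hZ' : ∀ r, Z' r = Z (MvPolynomial.rename Fin.succ r) := fun r => rfl
    have hTm' : ∀ f : ℤ →₀ MvPolynomial (Fin s) (ZMod 2), Tm Z' β u f =
        Tm Z β u (f.mapRange (MvPolynomial.rename Fin.succ) (map_zero _)) := by
      intro f
      induction f using Finsupp.induction_linear with
      | zero => rw [map_zero, Finsupp.mapRange_zero, map_zero]
      | add f g hf hg =>
        rw [map_add, Finsupp.mapRange_add (fun a b => map_add _ a b), map_add, hf, hg]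
      | single j r =>
        rw [Finsupp.mapRange_single, Tm_single, Tm_single, hZ']
    obtain ⟨h, hh, hF⟩ := ih Z' (fun r t => hZρ _ t) (fun r => hZβ _) (L ⊔ (Z z).range)
      (by
        intro t w hw
        obtain ⟨l, hl, _, ⟨v, rfl⟩, rfl⟩ := AddSubgroup.mem_sup.mp hw
        rw [smul_add]
        refine AddSubgroup.add_mem _ (AddSubgroup.mem_sup_left (hLρ t l hl))
          (AddSubgroup.mem_sup_right ⟨ρ t • v, ?_⟩)
        exact DFunLike.congr_fun (hZρ z t) v)
      (by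
        refine (AddSubgroup.map_sup L (Z z).range (β : AddMonoid.End N)).trans ?_
        congr 1
        ext w
        constructor
        · rintro ⟨_, ⟨v, rfl⟩, rfl⟩
          exact ⟨β • v, DFunLike.congr_fun (hZβ z) v⟩
        · rintro ⟨v, rfl⟩
          refine ⟨Z z (β⁻¹ • v), ⟨_, rfl⟩, ?_⟩
          have h1 := DFunLike.congr_fun (hZβ z) (β⁻¹ • v)
          have h2 : β • (β⁻¹ • v) = v := smul_inv_smul β v
          refine h1.symm.trans ?_
          change Z z (β • (β⁻¹ • v)) = _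
          rw [h2]
          rfl)
      (by
        intro r w hw
        obtain ⟨l, hl, _, ⟨v, rfl⟩, rfl⟩ := AddSubgroup.mem_sup.mp hw
        rw [map_add]
        refine AddSubgroup.add_mem _ (AddSubgroup.mem_sup_left (hLZ _ l hl))
          (AddSubgroup.mem_sup_right ⟨Z' r v, ?_⟩)
        rw [hZ']
        change (Z z * Z (MvPolynomial.rename Fin.succ r)) v =
          (Z (MvPolynomial.rename Fin.succ r) * Z z) v
        rw [← map_mul, ← map_mul, mul_comm])
      u
      (by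
        intro f hf
        obtain ⟨l, hl, _, ⟨v, rfl⟩, hv⟩ := AddSubgroup.mem_sup.mp hf
        rw [hTm'] at hv
        set g := f.mapRange (MvPolynomial.rename Fin.succ) (map_zero _) with hg
        have h1 : Z z v ∈ X0 Z β L u := by
          have : Z z v = Tm Z β u g - l := by
            rw [← hv]; abel
          rw [this]
          exact AddSubgroup.sub_mem _ (Tm_mem_X0 hZβ g) (le_X0 hl)
        obtain ⟨i, hi⟩ := hc v (AddSubgroup.mem_top _)
          ⟨Z z, ⟨z, mem_nonZeroDivisors_of_ne_zero hz0, rfl⟩, h1⟩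
        rw [← map_pow] at hi
        obtain ⟨l', hl', q, hq⟩ := X0_le hZβ hLβ _ hi
        have h2 : Tm Z β u (lam ^ i • g - z • q) ∈ L := by
          rw [map_sub, ← Tm_smul, ← Tm_smul, ← hv, map_add]
          change Z (lam ^ i) l + Z (lam ^ i) (Z z v) - Z z (Tm Z β u q) ∈ L
          have h3 : Z (lam ^ i) (Z z v) = Z z (Z (lam ^ i) v) := by
            change (Z (lam ^ i) * Z z) v = (Z z * Z (lam ^ i)) v
            rw [← map_mul, ← map_mul, mul_comm]
          rw [h3, hq, map_add]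
          have h4 : Z (lam ^ i) l + (Z z l' + Z z (Tm Z β u q)) - Z z (Tm Z β u q) =
              Z (lam ^ i) l + Z z l' := by abel
          rw [h4]
          exact L.add_mem (hLZ _ _ hl) (hLZ _ _ hl')
        have h3 := hu _ h2
        ext1 j
        have h4 := DFunLike.congr_fun h3 j
        rw [Finsupp.sub_apply, Finsupp.smul_apply, Finsupp.smul_apply, Finsupp.zero_apply,
          sub_eq_zero, smul_eq_mul, smul_eq_mul, hg, Finsupp.mapRange_apply] at h4
        exact hspec i _ _ h4)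
    refine ⟨Fin.cons h0 h, ?_, ?_⟩
    · intro i
      refine Fin.cases ?_ (fun i => ?_) i
      · simpa using hh0
      · simpa using hh i
    · intro F hFmem
      refine hF F ?_
      have hle : L ⊔ (⨆ i, (Z (Polynomial.aeval (MvPolynomial.X i)
          ((Fin.cons h0 h : Fin (s+1) → Polynomial (ZMod 2)) i))).range : AddSubgroup N) ≤
          (L ⊔ (Z z).range) ⊔
            (⨆ i, (Z' (Polynomial.aeval (MvPolynomial.X i) (h i))).range : AddSubgroup N) := by
        refine sup_le (le_trans le_sup_left le_sup_left) (iSup_le fun i => ?_)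
        refine Fin.cases ?_ (fun i => ?_) i
        · rw [Fin.cons_zero]
          exact le_trans le_sup_right le_sup_left
        · rw [Fin.cons_succ]
          refine le_trans ?_ le_sup_right
          refine le_trans ?_ (le_iSup _ i)
          rw [hZ']
          have : (MvPolynomial.rename Fin.succ : MvPolynomial (Fin s) (ZMod 2) →ₐ[ZMod 2] _)
              (Polynomial.aeval (MvPolynomial.X i) (h i)) =
              Polynomial.aeval (MvPolynomial.X (Fin.succ i)) (h i) := by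
            rw [← Polynomial.aeval_algHom_apply, MvPolynomial.rename_X]
          rw [this]
      exact hle hFmem

-- TARGET
/-! ### J2 specialisation -/

theorem spec {N : Type*} [AddCommGroup N] (hN2 : ∀ w : N, w + w = 0)
    {Tg : Type*} [CommGroup Tg] [Group.FG Tg]
    (ρ : Tg →* Au N) (hNoe : Noe (opSet ρ ⊤) ⊥ ⊤)
    (b : MulAut Tg) (β : Au N) (hβ : ∀ (t : Tg) (w : N), β • (ρ t • w) = ρ (b t) • (β • w))
    (huni : ∃ n : ℕ, ∀ t : Tg, ρ ((fun s => b s * s⁻¹)^[n] t) = 1)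
    (s : ℕ) (Z : MvPolynomial (Fin s) (ZMod 2) →+* AddMonoid.End N)
    (hZρ : ∀ r (t : Tg), Z r * (ρ t : AddMonoid.End N) = (ρ t : AddMonoid.End N) * Z r)
    (hZβ : ∀ r, Z r * (β : AddMonoid.End N) = (β : AddMonoid.End N) * Z r)
    (u : N)
    (hu : ∀ f : ℤ →₀ MvPolynomial (Fin s) (ZMod 2),
      (f.sum fun j r => Z r ((β ^ j) • u)) = 0 → f = 0) :
    ∃ h : Fin s → Polynomial (ZMod 2), (∀ i, h i ≠ 0) ∧
      ∀ F : Finset ℤ, (∑ j ∈ F, (β ^ j) • u) ∈
        (⨆ i, (Z (Polynomial.aeval (MvPolynomial.X i) (h i))).range : AddSubgroup N) → F = ∅ := by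
  obtain ⟨h, hh, hF⟩ := spec_ind ρ hNoe b β hβ huni s Z hZρ hZβ ⊥
    (by
      intro t w hw
      rw [AddSubgroup.mem_bot] at hw
      rw [hw, smul_zero]
      exact AddSubgroup.zero_mem _)
    (AddSubgroup.map_bot _)
    (by
      intro r w hw
      rw [AddSubgroup.mem_bot] at hw
      rw [hw, map_zero]
      exact AddSubgroup.zero_mem _)
    u
    (by
      intro f hf
      rw [AddSubgroup.mem_bot] at hf
      exact hu f hf)
  refine ⟨h, hh, fun F hFm => hF F ?_⟩
  exact AddSubgroup.mem_sup_right hFm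


end Pool.Agent.E2F

end
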