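import Pool.Agent.Lib.E2F.Defs

set_option autoImplicit false

noncomputable section

namespace Pool.Agent.E2F.J3


/-! ### elementary helpers -/


lemma A_decomp (v : A) : v = e1 ^ v.toAdd.1 * e2 ^ v.toAdd.2 := by
  apply Multiplicative.toAdd.injective
  ext <;> simp [e1, e2]

/-- in a commutative group, an endomorphism whose iterates eventually kill, applied to an
element of infinite order: some iterate has infinite order but its image has finite order. -/
lemma last_infinite {Y : Type*} [CommGroup Y] (D : Y →* Y) (n : ℕ) (t : Y)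
    (hD : (D^[n]) t = 1) (ht : ¬ IsOfFinOrder t) :
    ∃ i, ¬ IsOfFinOrder ((D^[i]) t) ∧ IsOfFinOrder (D ((D^[i]) t)) := by
  classical
  have hex : ∃ i, IsOfFinOrder ((D^[i]) t) := ⟨n, by rw [hD]; exact IsOfFinOrder.one⟩
  have h0 : Nat.find hex ≠ 0 := by
    intro h
    have := Nat.find_spec hex
    rw [h] at this
    exact ht this
  obtain ⟨m, hm⟩ := Nat.exists_eq_succ_of_ne_zero h0
  refine ⟨m, Nat.find_min hex (by omega), ?_⟩
  have := Nat.find_spec hex
  rw [hm, Function.iterate_succ_apply'] at this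
  exact this

lemma common_fixed {Y : Type*} [CommGroup Y] (D1 D2 : Y →* Y) (hc : ∀ t, D1 (D2 t) = D2 (D1 t))
    (n1 n2 : ℕ) (h1 : ∀ t, (D1^[n1]) t = 1) (h2 : ∀ t, (D2^[n2]) t = 1) (t : Y)
    (ht : ¬ IsOfFinOrder t) :
    ∃ s, ¬ IsOfFinOrder s ∧ D1 s = 1 ∧ D2 s = 1 := by
  obtain ⟨i, hi, hi'⟩ := last_infinite D1 n1 t (h1 t) ht
  set t1 := (D1^[i]) t with ht1
  obtain ⟨j, hj, hj'⟩ := last_infinite D2 n2 t1 (h2 t1) hi
  set t2 := (D2^[j]) t1 with ht2
  have hcom : ∀ (k : ℕ) (x : Y), D1 ((D2^[k]) x) = (D2^[k]) (D1 x) := by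
    intro k
    induction k with
    | zero => intro x; rfl
    | succ k ih => intro x; rw [Function.iterate_succ_apply', Function.iterate_succ_apply', hc, ih]
  have hfin : IsOfFinOrder (D1 t2) := by
    rw [ht2, hcom]
    have : ∀ (k : ℕ) (x : Y), IsOfFinOrder x → IsOfFinOrder ((D2^[k]) x) := by
      intro k
      induction k with
      | zero => intro x hx; exact hx
      | succ k ih => intro x hx; rw [Function.iterate_succ_apply']; exact (D2).isOfFinOrder (ih x hx)
    exact this j _ hi'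
  obtain ⟨m1, hm1, hm1'⟩ := isOfFinOrder_iff_pow_eq_one.1 hfin
  obtain ⟨m2, hm2, hm2'⟩ := isOfFinOrder_iff_pow_eq_one.1 hj'
  refine ⟨t2 ^ (m1 * m2), ?_, ?_, ?_⟩
  · intro h
    apply hj
    rw [isOfFinOrder_iff_pow_eq_one] at h ⊢
    obtain ⟨k, hk, hk'⟩ := h
    exact ⟨m1 * m2 * k, by positivity, by rw [pow_mul]; exact hk'⟩
  · rw [map_pow, pow_mul, hm1', one_pow]
  · rw [map_pow, mul_comm m1 m2, pow_mul, hm2', one_pow]

theorem exists_T0 {Tg : Type*} [CommGroup Tg] [Group.FG Tg] (aT : A →* MulAut Tg)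
    (huni : ∀ v : A, ∃ n : ℕ, ∀ t : Tg, (fun s => aT v s * s⁻¹)^[n] t = 1)
    (C : Subgroup Tg) (hC : ∀ v : A, ∀ t ∈ C, aT v t ∈ C) (hinf : Infinite (Tg ⧸ C))
    (n : ℕ) (hn : 1 ≤ n) :
    ∃ t : Tg, (∀ v : A, aT v t * t⁻¹ ∈ C) ∧ t ^ n ∉ C := by
  classical
  -- the endomorphism of the quotient attached to v
  let E : A → ((Tg ⧸ C) →* (Tg ⧸ C)) := fun v =>
    QuotientGroup.map C C (aT v).toMonoidHom (fun t ht => hC v t ht)
  let D : A → ((Tg ⧸ C) →* (Tg ⧸ C)) := fun v =>
    { toFun := fun y => E v y * y⁻¹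
      map_one' := by simp
      map_mul' := fun x y => by
        rw [map_mul, mul_inv]
        exact mul_mul_mul_comm _ _ _ _ }
  have hDmk : ∀ v (t : Tg), D v (QuotientGroup.mk t) = QuotientGroup.mk (aT v t * t⁻¹) := by
    intro v t; rfl
  have hDit : ∀ v (k : ℕ) (t : Tg), (D v)^[k] (QuotientGroup.mk t)
      = QuotientGroup.mk ((fun s => aT v s * s⁻¹)^[k] t) := by
    intro v k
    induction k with
    | zero => intro t; rfl
    | succ k ih =>
      intro t
      rw [Function.iterate_succ_apply', Function.iterate_succ_apply', ih, hDmk]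
  have hnil : ∀ v, ∃ k : ℕ, ∀ y, (D v)^[k] y = 1 := by
    intro v
    obtain ⟨k, hk⟩ := huni v
    refine ⟨k, fun y => ?_⟩
    obtain ⟨t, rfl⟩ := QuotientGroup.mk_surjective y
    rw [hDit, hk]; rfl
  have hcomm : ∀ t, D e1 (D e2 t) = D e2 (D e1 t) := by
    intro y
    obtain ⟨t, rfl⟩ := QuotientGroup.mk_surjective y
    rw [hDmk, hDmk, hDmk, hDmk]
    congr 1
    have h1 : aT e1 (aT e2 t) = aT e2 (aT e1 t) := by
      rw [← MulAut.mul_apply, ← MulAut.mul_apply, ← map_mul, ← map_mul, mul_comm]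
    simp only [map_mul, map_inv, mul_inv, inv_inv, h1]
    group
    ac_rfl
  obtain ⟨k1, hk1⟩ := hnil e1
  obtain ⟨k2, hk2⟩ := hnil e2
  have hex : ∃ y : Tg ⧸ C, ¬ IsOfFinOrder y := by
    by_contra hcon
    push Not at hcon
    have : IsMulTorsion (Tg ⧸ C) := hcon
    have := CommGroup.finite_of_fg_isMulTorsion (Tg ⧸ C) this
    exact not_finite (Tg ⧸ C)
  obtain ⟨y, hy⟩ := hex
  obtain ⟨s, hs, hs1, hs2⟩ := common_fixed (D e1) (D e2) hcomm k1 k2 hk1 hk2 y hy
  obtain ⟨t, rfl⟩ := QuotientGroup.mk_surjective s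
  refine ⟨t, ?_, ?_⟩
  · have hE : ∀ v, D v (QuotientGroup.mk t) = 1 → E v (QuotientGroup.mk t) = QuotientGroup.mk t := by
      intro v h
      have : E v (QuotientGroup.mk t) * (QuotientGroup.mk t)⁻¹ = 1 := h
      exact mul_inv_eq_one.1 this
    have hall : ∀ v : A, E v (QuotientGroup.mk t) = QuotientGroup.mk t := by
      have hEmul : ∀ v w (y : Tg ⧸ C), E (v * w) y = E v (E w y) := by
        intro v w y
        obtain ⟨x, rfl⟩ := QuotientGroup.mk_surjective y
        show QuotientGroup.mk (aT (v * w) x) = QuotientGroup.mk (aT v (aT w x))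
        rw [map_mul, MulAut.mul_apply]
      have hEone : ∀ (y : Tg ⧸ C), E 1 y = y := by
        intro y
        obtain ⟨x, rfl⟩ := QuotientGroup.mk_surjective y
        show QuotientGroup.mk (aT 1 x) = QuotientGroup.mk x
        rw [map_one, MulAut.one_apply]
      let S : Subgroup A :=
        { carrier := {v | E v (QuotientGroup.mk t) = QuotientGroup.mk t}
          mul_mem' := by
            intro v w hv hw
            simp only [Set.mem_ofPred_eq] at hv hw ⊢
            rw [hEmul, hw, hv]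
          one_mem' := hEone _
          inv_mem' := by
            intro v hv
            simp only [Set.mem_ofPred_eq] at hv ⊢
            conv_lhs => rw [← hv]
            rw [← hEmul, inv_mul_cancel, hEone] }
      have h1 : e1 ∈ S := hE e1 hs1
      have h2 : e2 ∈ S := hE e2 hs2
      intro v
      have : v ∈ S := by
        rw [A_decomp v]
        exact S.mul_mem (S.zpow_mem h1 _) (S.zpow_mem h2 _)
      exact this
    intro v
    have := hall v
    rw [← QuotientGroup.eq_one_iff]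
    show QuotientGroup.mk (aT v t * t⁻¹) = (1 : Tg ⧸ C)
    rw [← hDmk]
    show E v (QuotientGroup.mk t) * (QuotientGroup.mk t)⁻¹ = 1
    rw [this, mul_inv_cancel]
  · intro h
    apply hs
    rw [isOfFinOrder_iff_pow_eq_one]
    refine ⟨n, hn, ?_⟩
    rw [← QuotientGroup.mk_pow]
    exact (QuotientGroup.eq_one_iff _).2 h


/-! ### arithmetic of the hyperbolic matrix -/

/-- the pair `(F_n, F_{n+1})` with `F_0 = 0, F_1 = 1, F_{n+2} = 3F_{n+1} - F_n`. -/
def fib : ℕ → ℤ × ℤ
  | 0 => (0, 1)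
  | n + 1 => ((fib n).2, 3 * (fib n).2 - (fib n).1)

lemma fib_inv (n : ℕ) : 0 ≤ (fib n).1 ∧ (fib n).1 < (fib n).2 ∧
    (fib n).2 ^ 2 - 3 * (fib n).2 * (fib n).1 + (fib n).1 ^ 2 = 1 := by
  induction n with
  | zero => simp [fib]
  | succ n ih =>
    obtain ⟨h1, h2, h3⟩ := ih
    refine ⟨?_, ?_, ?_⟩
    · simp only [fib]; linarith
    · simp only [fib]; linarith
    · simp only [fib]; linarith [h3]

/-- `sg^(n+1) v = v^(-F_n) * (sg v)^(F_{n+1})`. -/
lemma sg_pow (n : ℕ) (v : A) : (sg ^ (n + 1)) v = (sg v) ^ (fib n).2 * v ^ (-(fib n).1) := by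
  induction n with
  | zero => simp [fib]
  | succ n ih =>
    rw [pow_succ', MulAut.mul_apply, ih, map_mul, map_zpow, map_zpow]
    have h : sg (sg v) = (sg v) ^ (3 : ℤ) * v ^ (-1 : ℤ) := by
      apply Multiplicative.toAdd.injective
      ext <;> simp [sg] <;> ring
    rw [h]
    simp only [fib]
    rw [mul_zpow, ← zpow_mul, ← zpow_mul, mul_right_comm, ← zpow_add]
    congr 2 <;> ring

/-- every `v` has a power `v^D` in the image of `sg^(n+1) - 1`. -/
lemma image_sg (n : ℕ) : ∃ D : ℕ, 1 ≤ D ∧ ∀ v : A, ∃ u : A, v ^ D = (sg ^ (n + 1)) u * u⁻¹ := by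
  obtain ⟨h1, h2, h3⟩ := fib_inv n
  set F := (fib n).2 with hF
  set G := (fib n).1 with hG
  -- norm: N = F^2 + 3 F (-(G+1)) + (G+1)^2 = 2 - (3F - 2G) < 0
  have hN : 3 * F - 2 * G - 2 ≥ 1 := by linarith
  refine ⟨(3 * F - 2 * G - 2).toNat, by omega, fun v => ?_⟩
  -- u = -( -F s + (3F - (G+1)) ) v
  refine ⟨(sg v) ^ F * v ^ (-(3 * F - (G + 1))), ?_⟩
  have h4 : v ^ (3 * F - 2 * G - 2).toNat = v ^ (3 * F - 2 * G - 2) := by
    rw [← zpow_natCast, Int.toNat_of_nonneg (by linarith)]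
  rw [h4, sg_pow, ← hF, ← hG]
  apply Multiplicative.toAdd.injective
  ext
  · simp [sg]
    linear_combination (v.toAdd.1) * h3
  · simp [sg]
    linear_combination (v.toAdd.2) * h3


/-! ### unipotency -/

lemma conj_eval {S : Type*} [Ring S] (u w : S) (h1 : u * w = 1) (h2 : w * u = 1) (f : S)
    (p : Polynomial ℤ) :
    p.eval₂ (Int.castRingHom S) (u * f * w) = u * p.eval₂ (Int.castRingHom S) f * w := by
  let g : S →+* S :=
    { toFun := fun s => u * s * w
      map_one' := by simp [h1]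
      map_zero' := by simp
      map_add' := fun a b => by rw [mul_add, add_mul]
      map_mul' := fun a b => by
        calc u * (a * b) * w = u * a * (1 : S) * b * w := by simp only [mul_one, mul_assoc]
          _ = u * a * (w * u) * b * w := by rw [h2]
          _ = u * a * w * (u * b * w) := by simp only [mul_assoc] }
  have := Polynomial.hom_eval₂ p (Int.castRingHom S) g f
  have h3 : g.comp (Int.castRingHom S) = Int.castRingHom S := RingHom.ext_int _ _
  rw [h3] at this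
  exact this.symm

/-- the purely ring theoretic part: a family of units in a domain, whose orbits under `sg` are
roots of a fixed monic polynomial, is trivial on a power. -/
lemma domain_part {Q : Type*} [CommRing Q] [IsDomain Q] (c : ℤ →+* Q) (y : A →* Q)
    (p1 p2 : Polynomial ℤ) (hp1 : p1.Monic) (hp2 : p2.Monic)
    (h1 : ∀ i : ℕ, p1.eval₂ c (y ((sg ^ i) e1)) = 0)
    (h2 : ∀ i : ℕ, p2.eval₂ c (y ((sg ^ i) e2)) = 0) :
    ∃ D : ℕ, 1 ≤ D ∧ ∀ v : A, y (v ^ D) = 1 := by
  classical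
  let yu : A →* Qˣ := y.toHomUnits
  have hroot : ∀ (p : Polynomial ℤ), p.Monic → ∀ z : Q, p.eval₂ c z = 0 →
      z ∈ (p.map c).roots.toFinset := by
    intro p hp z hz
    rw [Multiset.mem_toFinset, Polynomial.mem_roots (hp.map _).ne_zero]
    rw [Polynomial.IsRoot.def, Polynomial.eval_map]
    exact hz
  let f : ℕ → ((p1.map c).roots.toFinset × (p2.map c).roots.toFinset) :=
    fun i => (⟨y ((sg ^ i) e1), hroot p1 hp1 _ (h1 i)⟩, ⟨y ((sg ^ i) e2), hroot p2 hp2 _ (h2 i)⟩)
  obtain ⟨i, j, hij, hf⟩ := Finite.exists_ne_map_eq_of_infinite f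
  have main : ∀ i j : ℕ, i < j → f i = f j → ∃ D : ℕ, 1 ≤ D ∧ ∀ v : A, y (v ^ D) = 1 := by
    intro i j hlt hf
    have ha : y ((sg ^ i) e1) = y ((sg ^ j) e1) := congrArg (fun z => (z.1 : Q)) hf
    have hb : y ((sg ^ i) e2) = y ((sg ^ j) e2) := congrArg (fun z => (z.2 : Q)) hf
    have ha' : yu ((sg ^ i) e1) = yu ((sg ^ j) e1) := Units.ext ha
    have hb' : yu ((sg ^ i) e2) = yu ((sg ^ j) e2) := Units.ext hb
    have hall : ∀ v : A, yu ((sg ^ i) v) = yu ((sg ^ j) v) := by
      intro v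
      rw [A_decomp v]
      simp only [map_mul, map_zpow, ha', hb']
    obtain ⟨n, rfl⟩ : ∃ n, j = i + (n + 1) := ⟨j - i - 1, by omega⟩
    obtain ⟨D, hD, hD'⟩ := image_sg n
    refine ⟨D, hD, fun v => ?_⟩
    obtain ⟨u, hu⟩ := hD' v
    have h3 : yu (v ^ D) = 1 := by
      rw [hu, map_mul, map_inv, mul_inv_eq_one]
      have h4 := hall ((sg ^ i)⁻¹ u)
      rw [add_comm, pow_add, MulAut.mul_apply] at h4
      have h5 : (sg ^ i) ((sg ^ i)⁻¹ u) = u := by
        rw [← MulAut.mul_apply, mul_inv_cancel, MulAut.one_apply]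
      rw [h5] at h4
      exact h4.symm
    have h6 := congrArg (fun z : Qˣ => (z : Q)) h3
    have h7 : ((yu (v ^ D) : Qˣ) : Q) = y (v ^ D) := rfl
    rw [← h7, h3, Units.val_one]
  rcases lt_or_gt_of_ne hij with h | h
  · exact main i j h hf
  · exact main j i h hf.symm

lemma ring_part {R : Type*} [CommRing R] [IsNoetherianRing R] (x : A →* R)
    (p1 p2 : Polynomial ℤ) (hp1 : p1.Monic) (hp2 : p2.Monic)
    (h1 : ∀ i : ℕ, p1.eval₂ (Int.castRingHom R) (x ((sg ^ i) e1)) = 0)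
    (h2 : ∀ i : ℕ, p2.eval₂ (Int.castRingHom R) (x ((sg ^ i) e2)) = 0) :
    ∃ e : ℕ, 1 ≤ e ∧ ∀ v : A, ∃ n : ℕ, (x (v ^ e) - 1) ^ n = 0 := by
  classical
  have hq : ∀ q : Ideal R, q ∈ minimalPrimes R → ∃ D : ℕ, 1 ≤ D ∧ ∀ v : A, x (v ^ D) - 1 ∈ q := by
    intro q hq
    haveI : q.IsPrime := hq.1.1
    let y : A →* R ⧸ q := (Ideal.Quotient.mk q : R →* R ⧸ q).comp x
    have hy : ∀ (p : Polynomial ℤ) (v : A),
      (∀ i : ℕ, p.eval₂ (Int.castRingHom R) (x ((sg ^ i) v)) = 0) →
      ∀ i : ℕ, p.eval₂ ((Ideal.Quotient.mk q).comp (Int.castRingHom R)) (y ((sg ^ i) v)) = 0 := by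
      intro p v hv i
      have h0 := hv i
      have h1 := congrArg (Ideal.Quotient.mk q) h0
      rw [Polynomial.hom_eval₂, map_zero] at h1
      exact h1
    obtain ⟨D, hD, hD'⟩ := domain_part ((Ideal.Quotient.mk q).comp (Int.castRingHom R)) y p1 p2
      hp1 hp2 (hy p1 e1 h1) (hy p2 e2 h2)
    refine ⟨D, hD, fun v => ?_⟩
    rw [← Ideal.Quotient.eq_zero_iff_mem, map_sub, map_one, sub_eq_zero]
    exact hD' v
  choose! D hD1 hD2 using hq
  have hfin : (minimalPrimes R).Finite := minimalPrimes.finite_of_isNoetherianRing R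
  refine ⟨∏ q ∈ hfin.toFinset, D q, ?_, ?_⟩
  · apply Finset.one_le_prod'
    intro q hq
    exact hD1 q (hfin.mem_toFinset.1 hq)
  intro v
  set e := ∏ q ∈ hfin.toFinset, D q with he
  have hmem : x (v ^ e) - 1 ∈ nilradical R := by
    have : nilradical R = sInf (minimalPrimes R) := by
      rw [nilradical, ← Ideal.sInf_minimalPrimes]; rfl
    rw [this, Ideal.mem_sInf]
    intro q hq
    obtain ⟨k, hk⟩ := Finset.dvd_prod_of_mem D (hfin.mem_toFinset.2 hq)
    rw [he, hk, mul_comm, pow_mul]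
    exact hD2 q hq (v ^ k)
  exact mem_nilradical.1 hmem

theorem unip {Tg : Type*} [CommGroup Tg] [Group.FG Tg] (aT : A →* MulAut Tg) (φ : MulAut Tg)
    (h : ∀ v : A, φ * aT v * φ⁻¹ = aT (sg v)) :
    ∃ e : ℕ, 1 ≤ e ∧ ∀ v : A, ∃ n : ℕ, ∀ t : Tg, (fun s => aT (v ^ e) s * s⁻¹)^[n] t = 1 := by
  classical
  have hfinX : Module.Finite ℤ (Additive Tg) := Module.Finite.iff_addGroup_fg.mpr inferInstance
  let L : MulAut Tg →* Module.End ℤ (Additive Tg) :=
    { toFun := fun f => (MonoidHom.toAdditive f.toMonoidHom).toIntLinearMap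
      map_one' := by ext x; rfl
      map_mul' := fun f g => by ext x; rfl }
  have hL : ∀ (f : MulAut Tg) (t : Tg), L f (Additive.ofMul t) = Additive.ofMul (f t) := by
    intro f t; rfl
  let a : A →* Module.End ℤ (Additive Tg) := L.comp aT
  have ha : ∀ v, a v = L (aT v) := fun v => rfl
  -- finiteness of the endomorphism ring
  have hfinE : Module.Finite ℤ (Module.End ℤ (Additive Tg)) := by
    obtain ⟨n, f, hf⟩ := Module.Finite.exists_fin' ℤ (Additive Tg)
    apply Module.Finite.of_injective (LinearMap.lcomp ℤ (Additive Tg) f)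
    intro g g' hg
    apply LinearMap.ext
    intro x
    obtain ⟨z, rfl⟩ := hf x
    exact LinearMap.congr_fun hg z
  let Φ : MonoidAlgebra ℤ A →+* Module.End ℤ (Additive Tg) :=
    (MonoidAlgebra.lift ℤ (Module.End ℤ (Additive Tg)) A a).toRingHom
  have hΦ : ∀ v, Φ (MonoidAlgebra.of ℤ A v) = a v := by
    intro v
    exact MonoidAlgebra.lift_of _ _
  let R := MonoidAlgebra ℤ A ⧸ RingHom.ker Φ
  let κ : R →+* Module.End ℤ (Additive Tg) := RingHom.kerLift Φ
  have κinj : Function.Injective κ := RingHom.kerLift_injective _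
  let x : A →* R := (Ideal.Quotient.mk (RingHom.ker Φ) : MonoidAlgebra ℤ A →* R).comp (MonoidAlgebra.of ℤ A)
  have hκx : ∀ v, κ (x v) = a v := by
    intro v
    rw [← hΦ v]
    exact RingHom.kerLift_mk Φ _
  have hfinR : Module.Finite ℤ R :=
    Module.Finite.of_injective (κ.toAddMonoidHom.toIntLinearMap) κinj
  have : IsNoetherianRing R := IsNoetherianRing.of_finite ℤ R
  -- monic polynomials
  obtain ⟨p1, hp1, hp1'⟩ := LinearMap.exists_monic_and_aeval_eq_zero ℤ (a e1)
  obtain ⟨p2, hp2, hp2'⟩ := LinearMap.exists_monic_and_aeval_eq_zero ℤ (a e2)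
  have halg : algebraMap ℤ (Module.End ℤ (Additive Tg)) = Int.castRingHom _ := RingHom.ext_int _ _
  rw [Polynomial.aeval_def, halg] at hp1' hp2'
  have hconj : ∀ v, a (sg v) = L φ * a v * L φ⁻¹ := by
    intro v
    rw [ha, ha, ← h, map_mul, map_mul]
  have hLφ : L φ * L φ⁻¹ = 1 := by rw [← map_mul, mul_inv_cancel, map_one]
  have hLφ' : L φ⁻¹ * L φ = 1 := by rw [← map_mul, inv_mul_cancel, map_one]
  have horb : ∀ (p : Polynomial ℤ) (v : A), p.eval₂ (Int.castRingHom _) (a v) = 0 →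
      ∀ i : ℕ, p.eval₂ (Int.castRingHom _) (a ((sg ^ i) v)) = 0 := by
    intro p v hv i
    induction i with
    | zero => simpa using hv
    | succ i ih =>
      rw [pow_succ', MulAut.mul_apply, hconj, conj_eval _ _ hLφ hLφ', ih]
      simp
  have hxorb : ∀ (p : Polynomial ℤ) (v : A), p.eval₂ (Int.castRingHom _) (a v) = 0 →
      ∀ i : ℕ, p.eval₂ (Int.castRingHom R) (x ((sg ^ i) v)) = 0 := by
    intro p v hv i
    apply κinj
    rw [Polynomial.hom_eval₂, map_zero, hκx]
    have : κ.comp (Int.castRingHom R) = Int.castRingHom _ := RingHom.ext_int _ _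
    rw [this]
    exact horb p v hv i
  obtain ⟨e, he, hne⟩ := ring_part x p1 p2 hp1 hp2 (hxorb p1 e1 hp1') (hxorb p2 e2 hp2')
  refine ⟨e, he, fun v => ?_⟩
  obtain ⟨n, hn⟩ := hne v
  refine ⟨n, fun t => ?_⟩
  have h1 : (a (v ^ e) - 1) ^ n = 0 := by
    have := congrArg κ hn
    rw [map_pow, map_sub, map_one, map_zero, hκx] at this
    exact this
  have h2 : ∀ (k : ℕ) (t : Tg), Additive.ofMul ((fun s => aT (v ^ e) s * s⁻¹)^[k] t)
      = ((a (v ^ e) - 1) ^ k) (Additive.ofMul t) := by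
    intro k
    induction k with
    | zero => intro t; simp
    | succ k ih =>
      intro t
      rw [Function.iterate_succ_apply', pow_succ', Module.End.mul_apply, ← ih]
      rw [LinearMap.sub_apply, ha, hL]
      rw [ofMul_mul, ofMul_inv]
      simp [sub_eq_add_neg]
  have h3 := h2 n t
  rw [h1] at h3
  exact Additive.ofMul.injective (by rw [h3]; rfl)

end Pool.Agent.E2F.J3

end
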