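import Pool.Agent.Lib.E2F.Defs

set_option autoImplicit false

noncomputable section

namespace Pool.Agent.E2F.J4


section alg

theorem nil_infinite {R B : Type} [CommRing R] [IsNoetherianRing R] [CommGroup B] [Infinite B]
    (hb : ∀ b : B, b * b = 1) (β : B →* R) : {b | IsNilpotent (β b - 1)}.Infinite := by
  classical
  have hfin : Finite (minimalPrimes R) := (minimalPrimes.finite_of_isNoetherianRing R).to_subtype
  let f : B → Set (minimalPrimes R) := fun b => {q | β b - 1 ∈ q.1}
  obtain ⟨y, hy⟩ := Finite.exists_infinite_fiber f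
  obtain ⟨b0, hb0⟩ := (inferInstance : Nonempty (f ⁻¹' {y}))
  have hinj : Function.Injective (fun b : f ⁻¹' {y} => (b : B) * b0) := by
    intro b b' h
    exact Subtype.ext (mul_right_cancel h)
  refine Set.infinite_of_injective_forall_mem hinj ?_
  rintro ⟨b, hb'⟩
  show β (b * b0) - 1 ∈ nilradical R
  have h1 : nilradical R = sInf (minimalPrimes R) := by
    rw [nilradical, ← Ideal.sInf_minimalPrimes]
    rfl
  rw [h1, Ideal.mem_sInf]
  intro q hq
  have hqp : q.IsPrime := hq.1.1
  have hsame : β b - 1 ∈ q ↔ β b0 - 1 ∈ q := by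
    have h2 : f b = f b0 := by
      rw [show f b = y from hb', show f b0 = y from hb0]
    have h3 : (⟨q, hq⟩ : minimalPrimes R) ∈ f b ↔ (⟨q, hq⟩ : minimalPrimes R) ∈ f b0 := by rw [h2]
    exact h3
  have hor : ∀ c : B, β c - 1 ∉ q → β c + 1 ∈ q := by
    intro c hc
    have h2 : (β c - 1) * (β c + 1) = 0 := by
      have h3 : β c * β c = 1 := by rw [← map_mul, hb, map_one]
      linear_combination h3
    have h4 : (β c - 1) * (β c + 1) ∈ q := by rw [h2]; exact q.zero_mem
    exact (hqp.mem_or_mem h4).resolve_left hc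
  rw [map_mul]
  by_cases hc : β b - 1 ∈ q
  · have h2 := hsame.1 hc
    have h3 : β b * β b0 - 1 = (β b - 1) * β b0 + (β b0 - 1) := by ring
    rw [h3]
    exact q.add_mem (q.mul_mem_right _ hc) h2
  · have h2 : β b0 - 1 ∉ q := fun h => hc (hsame.2 h)
    have h3 : β b * β b0 - 1 = (β b + 1) * β b0 - (β b0 + 1) := by ring
    rw [h3]
    exact q.sub_mem (q.mul_mem_right _ (hor b hc)) (hor b0 h2)

theorem nil_prod (R : Type) [CommRing R] [IsNoetherianRing R] :
    ∃ l : ℕ, ∀ L : List R, L.length = l → (∀ x ∈ L, IsNilpotent x) → L.prod = 0 := by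
  obtain ⟨l, hl⟩ := IsNoetherianRing.isNilpotent_nilradical R
  have h : ∀ L : List R, (∀ x ∈ L, IsNilpotent x) → L.prod ∈ (nilradical R) ^ L.length := by
    intro L
    induction L with
    | nil => intro _; simp
    | cons a L ih =>
      intro hL
      rw [List.prod_cons, List.length_cons, pow_succ']
      exact Ideal.mul_mem_mul (hL a (by simp)) (ih (fun x hx => hL x (by simp [hx])))
  refine ⟨l, fun L hL hx => ?_⟩
  have h1 := h L hx
  rw [hL, hl] at h1
  simpa using h1

variable {S V : Type} [CommRing S] [AddCommGroup V] [Module S V] [IsNoetherian S V]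

theorem end_noeth : IsNoetherian S (Module.End S V) := by
  obtain ⟨n, s, hs⟩ := Module.Finite.exists_fin (R := S) (M := V)
  let F : Module.End S V →ₗ[S] (Fin n → V) := LinearMap.pi (fun i => LinearMap.applyₗ (s i))
  refine isNoetherian_of_injective F ?_
  intro φ ψ h
  apply LinearMap.ext_on_range hs
  intro i
  exact congrFun h i

theorem V_nil {B : Type} [CommGroup B] [Infinite B] (hb : ∀ b : B, b * b = 1)
    (β : B →* Module.End S V) :
    {b | IsNilpotent (β b - 1)}.Infinite ∧
    ∃ l : ℕ, ∀ L : List (Module.End S V), L.length = l →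
      (∀ x ∈ L, ∃ b, IsNilpotent (β b - 1) ∧ x = β b - 1) → L.prod = 0 := by
  let s : Set (Module.End S V) := Set.range β
  have hcomm : ∀ a ∈ s, ∀ b ∈ s, a * b = b * a := by
    rintro _ ⟨a, rfl⟩ _ ⟨b, rfl⟩
    rw [← map_mul, mul_comm, map_mul]
  let R := Algebra.adjoin S s
  have hmc : IsMulCommutative R := Algebra.isMulCommutative_adjoin S hcomm
  let _ : CommRing R := { (inferInstance : Ring R) with
    mul_comm := fun a b => hmc.is_comm.comm a b }
  have hE : IsNoetherian S (Module.End S V) := end_noeth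
  have hR : IsNoetherian S R := by
    refine isNoetherian_of_injective (Subalgebra.toSubmodule R).subtype ?_
    exact Subtype.val_injective
  have hRR : IsNoetherianRing R := isNoetherian_of_tower S hR
  let β' : B →* R :=
    { toFun := fun b => ⟨β b, Algebra.subset_adjoin ⟨b, rfl⟩⟩
      map_one' := Subtype.ext (map_one β)
      map_mul' := fun a b => Subtype.ext (map_mul β a b) }
  have hnil : ∀ x : R, IsNilpotent x ↔ IsNilpotent (x : Module.End S V) := by
    intro x
    constructor
    · rintro ⟨n, hn⟩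
      exact ⟨n, by simpa using congrArg Subtype.val hn⟩
    · rintro ⟨n, hn⟩
      exact ⟨n, Subtype.ext (by simpa using hn)⟩
  constructor
  · have h1 := nil_infinite hb β'
    have h2 : {b | IsNilpotent (β b - 1)} = {b | IsNilpotent (β' b - 1)} := by
      ext b
      exact (hnil (β' b - 1)).symm
    rw [h2]
    exact h1
  · obtain ⟨l, hl⟩ := nil_prod R
    refine ⟨l, fun L hL hx => ?_⟩
    have h3 : ∃ L' : List R, L'.length = L.length ∧ L'.map (fun x : R => (x : Module.End S V)) = L ∧
        ∀ x ∈ L', IsNilpotent x := by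
      clear hL
      induction L with
      | nil => exact ⟨[], rfl, rfl, by simp⟩
      | cons a L ih =>
        obtain ⟨L', h1, h2, h4⟩ := ih (fun x hx' => hx x (by simp [hx']))
        obtain ⟨b, hb1, hb2⟩ := hx a (by simp)
        refine ⟨(β' b - 1) :: L', by simp [h1], ?_, ?_⟩
        · rw [List.map_cons, h2]
          congr 1
          rw [hb2]
          rfl
        · intro x hx'
          rcases List.mem_cons.1 hx' with rfl | h
          · exact (hnil _).2 hb1
          · exact h4 x h
    obtain ⟨L', h1, h2, h4⟩ := h3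
    have h5 := hl L' (by rw [h1, hL]) h4
    have h6 : ((L'.prod : R) : Module.End S V) = L.prod := by
      rw [← h2]
      exact map_list_prod (Subalgebra.val (Algebra.adjoin S s)) L'
    rw [← h6, h5]
    rfl

end alg

section abel

variable {M : Type} [Group M]

/-- The action of an endomorphism on the abelianization, additively. -/
def abEnd (φ : M →* M) : Module.End ℤ (Additive (Abelianization M)) :=
  (MonoidHom.toAdditive (Abelianization.map φ)).toIntLinearMap

theorem abEnd_of (φ : M →* M) (m : M) :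
    abEnd φ (Additive.ofMul (Abelianization.of m)) = Additive.ofMul (Abelianization.of (φ m)) :=
  rfl

theorem ab_ext {φ ψ : Module.End ℤ (Additive (Abelianization M))}
    (h : ∀ m : M, φ (Additive.ofMul (Abelianization.of m)) =
      ψ (Additive.ofMul (Abelianization.of m))) : φ = ψ := by
  apply LinearMap.ext
  intro x
  obtain ⟨m, hm⟩ := QuotientGroup.mk_surjective (s := commutator M) (Additive.toMul x)
  have h1 : x = Additive.ofMul (Abelianization.of m) := hm.symm
  rw [h1]
  exact h m

theorem B2_infinite [Group.FG M] {B : Type} [CommGroup B] [Infinite B]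
    (hb : ∀ b : B, b * b = 1) (f : B →* MulAut M) :
    {b : B | ∀ m, m⁻¹ * f b m ∈ commutator M}.Infinite := by
  classical
  let Q := Additive (Abelianization M)
  have : Group.FG (Abelianization M) :=
    Group.fg_of_surjective (f := Abelianization.of) QuotientGroup.mk_surjective
  have : Module.Finite ℤ Q := Module.Finite.iff_addGroup_fg.2 inferInstance
  have : IsNoetherian ℤ Q := isNoetherian_of_isNoetherianRing_of_finite ℤ Q
  let β : B →* Module.End ℤ Q :=
    { toFun := fun b => abEnd (f b).toMonoidHom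
      map_one' := by
        apply ab_ext
        intro m
        rw [abEnd_of, map_one]
        rfl
      map_mul' := by
        intro a b
        apply ab_ext
        intro m
        rw [abEnd_of, map_mul]
        rfl }
  obtain ⟨h1, -⟩ := V_nil (S := ℤ) (V := Q) hb β
  -- torsion
  have htor : ∀ b : B, IsNilpotent (β b - 1) → ∀ x : Q, (β b - 1) x ∈ Submodule.torsion ℤ Q := by
    intro b ⟨n, hn⟩ x
    have h2 : β b * β b = 1 := by rw [← map_mul, hb, map_one]
    have h3 : ∀ k : ℕ, (β b - 1) ^ (k + 1) = ((-2 : ℤ) ^ k) • (β b - 1) := by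
      intro k
      induction k with
      | zero => simp
      | succ k ih =>
        rw [pow_succ, ih, smul_mul_assoc]
        have h4 : (β b - 1) * (β b - 1) = (-2 : ℤ) • (β b - 1) := by
          have : (β b - 1) * (β b - 1) = β b * β b - β b - β b + 1 := by noncomm_ring
          rw [this, h2]
          module
        rw [h4, smul_smul, ← pow_succ]
    have h5 : ((-2 : ℤ) ^ n) • (β b - 1) = 0 := by
      rw [← h3, pow_succ, hn, zero_mul]
    rw [Submodule.mem_torsion_iff]
    refine ⟨⟨(-2 : ℤ) ^ n, mem_nonZeroDivisors_of_ne_zero (pow_ne_zero _ (by norm_num))⟩, ?_⟩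
    show ((-2 : ℤ) ^ n) • ((β b - 1) x) = 0
    rw [← LinearMap.smul_apply, h5]
    rfl
  have hft : Finite (Submodule.torsion ℤ Q) :=
    Module.finite_of_fg_torsion _ Submodule.torsion_isTorsion
  obtain ⟨n, s, hs⟩ := Module.Finite.exists_fin (R := ℤ) (M := Q)
  let C := {b : B | IsNilpotent (β b - 1)}
  have : Infinite C := h1.to_subtype
  let g : C → (Fin n → Submodule.torsion ℤ Q) := fun b i => ⟨(β b - 1) (s i), htor b.1 b.2 _⟩
  obtain ⟨y, hy⟩ := Finite.exists_infinite_fiber g
  obtain ⟨b0, hb0⟩ := (inferInstance : Nonempty (g ⁻¹' {y}))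
  have hinj : Function.Injective (fun b : g ⁻¹' {y} => (b.1 : B) * b0) := by
    intro b b' h
    exact Subtype.ext (Subtype.ext (mul_right_cancel h))
  refine Set.infinite_of_injective_forall_mem hinj ?_
  rintro ⟨b, hb'⟩
  have h6 : β b = β b0 := by
    apply LinearMap.ext_on_range hs
    intro i
    have h7 : g b = g b0 := by rw [show g b = y from hb', show g b0 = y from hb0]
    have h8 : (β b - 1) (s i) = (β b0 - 1) (s i) := congrArg Subtype.val (congrFun h7 i)
    simpa using h8
  have h9 : β (b * b0) = 1 := by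
    rw [map_mul, h6, ← map_mul, hb, map_one]
  intro m
  have h10 : β (b * b0) (Additive.ofMul (Abelianization.of m)) =
      Additive.ofMul (Abelianization.of m) := by rw [h9]; rfl
  have h11 : Abelianization.of (f (b * b0) m) = Abelianization.of m := h10
  rw [← Abelianization.ker_of, MonoidHom.mem_ker, map_mul, map_inv]
  show (Abelianization.of m)⁻¹ * Abelianization.of (f (b * b0) m) = 1
  rw [h11, inv_mul_cancel]

end abel

/-! ### modules over the integral group ring -/

section grpring

variable {T : Type} [CommGroup T] {A A' : Type} [AddCommGroup A] [Module (MonoidAlgebra ℤ T) A]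
  [AddCommGroup A'] [Module (MonoidAlgebra ℤ T) A']

theorem lin_of (φ : A →+ A')
    (h : ∀ t a, φ (MonoidAlgebra.of ℤ T t • a) = MonoidAlgebra.of ℤ T t • φ a)
    (s : MonoidAlgebra ℤ T) (a : A) : φ (s • a) = s • φ a := by
  induction s using MonoidAlgebra.induction_on with
  | of t => exact h t a
  | add x y hx hy => rw [add_smul, add_smul, map_add, hx, hy]
  | smul r x hx =>
    rw [← Int.cast_smul_eq_zsmul (MonoidAlgebra ℤ T) r x, smul_eq_mul, mul_smul, mul_smul,
      Int.cast_smul_eq_zsmul, Int.cast_smul_eq_zsmul, map_zsmul, hx]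

/-- The linear map attached to an equivariant additive map. -/
def mkLin (φ : A →+ A')
    (h : ∀ t a, φ (MonoidAlgebra.of ℤ T t • a) = MonoidAlgebra.of ℤ T t • φ a) :
    A →ₗ[MonoidAlgebra ℤ T] A' :=
  { φ with map_smul' := lin_of φ h }

theorem stab_of (W : AddSubgroup A) (h : ∀ t : T, ∀ a ∈ W, MonoidAlgebra.of ℤ T t • a ∈ W)
    (s : MonoidAlgebra ℤ T) (a : A) (ha : a ∈ W) : s • a ∈ W := by
  induction s using MonoidAlgebra.induction_on with
  | of t => exact h t a ha
  | add x y hx hy => rw [add_smul]; exact W.add_mem hx hy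
  | smul r x hx =>
    rw [← Int.cast_smul_eq_zsmul (MonoidAlgebra ℤ T) r x, smul_eq_mul, mul_smul,
      Int.cast_smul_eq_zsmul]
    exact W.zsmul_mem hx r

/-- The submodule attached to a stable subgroup. -/
def mkSub (W : AddSubgroup A) (h : ∀ t : T, ∀ a ∈ W, MonoidAlgebra.of ℤ T t • a ∈ W) :
    Submodule (MonoidAlgebra ℤ T) A :=
  { W with smul_mem' := fun s _ ha => stab_of W h s _ ha }

/-- The group acting on a module over its group ring. -/
def rho (T A : Type) [CommGroup T] [AddCommGroup A] [Module (MonoidAlgebra ℤ T) A] :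
    T →* Au A :=
  ((Module.toAddMonoidEnd (MonoidAlgebra ℤ T) A : MonoidAlgebra ℤ T →* AddMonoid.End A).comp
    (MonoidAlgebra.of ℤ T)).toHomUnits

theorem rho_apply (t : T) (a : A) : rho T A t • a = MonoidAlgebra.of ℤ T t • a := rfl

theorem noe_of_noetherian [IsNoetherian (MonoidAlgebra ℤ T) A] :
    Noe (opSet (rho T A) ⊤) ⊥ ⊤ := by
  intro g hg hst _ _
  have hst' : ∀ n, ∀ t : T, ∀ a ∈ g n, MonoidAlgebra.of ℤ T t • a ∈ g n := by
    intro n t a ha
    exact hst n _ ⟨t, trivial, rfl⟩ a ha
  let G : ℕ →o Submodule (MonoidAlgebra ℤ T) A :=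
    ⟨fun n => mkSub (g n) (hst' n), fun m n hmn => hg hmn⟩
  obtain ⟨n, hn⟩ := monotone_stabilizes_iff_noetherian.2 (inferInstance :
    IsNoetherian (MonoidAlgebra ℤ T) A) G
  refine ⟨n, fun m hm => ?_⟩
  have h1 := hn m hm
  ext a
  have h2 : a ∈ G n ↔ a ∈ G m := by rw [h1]
  exact h2.symm

end grpring

/-! ### the derived subgroup as a module -/

open scoped IsMulCommutative commutatorElement

section der

variable (M : Type) [Group M] [IsMulCommutative ↥(commutator M)]

/-- The derived subgroup, additively. -/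
abbrev AA := Additive ↥(commutator M)

omit [IsMulCommutative ↥(commutator M)] in
theorem aut_mem (α : MulAut M) {x : M} (hx : x ∈ commutator M) : α x ∈ commutator M := by
  have h := Subgroup.characteristic_iff_map_le.1 (inferInstance : (commutator M).Characteristic) α
  exact h ⟨x, hx, rfl⟩

/-- Restriction of automorphisms to the derived subgroup. -/
def res0 : MulAut M →* AddMonoid.End (AA M) where
  toFun α := AddMonoidHom.mk' (fun a => Additive.ofMul ⟨α (Additive.toMul a : ↥(commutator M)),
    aut_mem M α (Additive.toMul a).2⟩) (by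
      intro a b
      apply congrArg Additive.ofMul
      apply Subtype.ext
      exact map_mul α _ _)
  map_one' := by
    ext a
    rfl
  map_mul' α β := by
    ext a
    rfl

/-- The element of `M` underlying an element of the module. -/
def un {M : Type} [Group M] (a : AA M) : M := ((Additive.toMul a : ↥(commutator M)) : M)

/-- An element of the derived subgroup as an element of the module. -/
def mk {M : Type} [Group M] (x : M) (hx : x ∈ commutator M) : AA M := Additive.ofMul ⟨x, hx⟩

omit [IsMulCommutative ↥(commutator M)] in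
variable {M} in
theorem un_ext {a b : AA M} (h : un a = un b) : a = b :=
  Additive.toMul.injective (Subtype.ext h)

variable {M}

omit [IsMulCommutative ↥(commutator M)] in
@[simp] theorem un_mk (x : M) (hx : x ∈ commutator M) : un (mk x hx) = x := rfl

omit [IsMulCommutative ↥(commutator M)] in
@[simp] theorem un_add (a b : AA M) : un (a + b) = un a * un b := rfl

omit [IsMulCommutative ↥(commutator M)] in
@[simp] theorem un_sub (a b : AA M) : un (a - b) = un a * (un b)⁻¹ := by
  rw [sub_eq_add_neg]; rfl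

omit [IsMulCommutative ↥(commutator M)] in
@[simp] theorem un_zero : un (0 : AA M) = 1 := rfl

@[simp] theorem un_res (α : MulAut M) (a : AA M) : un (res0 M α a) = α (un a) := rfl

omit [IsMulCommutative ↥(commutator M)] in
theorem un_mem (a : AA M) : un a ∈ commutator M := (Additive.toMul a).2

theorem un_comm (a b : AA M) : un a * un b = un b * un a := by
  rw [← un_add, add_comm, un_add]

theorem D_comm {x y : M} (hx : x ∈ commutator M) (hy : y ∈ commutator M) : x * y = y * x :=
  un_comm (mk x hx) (mk y hy)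

variable (M)

/-- The conjugation action of the abelianization. -/
def rA : Abelianization M →* AddMonoid.End (AA M) :=
  QuotientGroup.lift (commutator M) ((res0 M).comp MulAut.conj) (by
    intro x hx
    refine AddMonoidHom.ext (fun a => ?_)
    apply un_ext
    show x * un a * x⁻¹ = un a
    rw [D_comm hx (un_mem a), mul_inv_cancel_right])

theorem un_rA (m : M) (a : AA M) : un (rA M (Abelianization.of m) a) = m * un a * m⁻¹ := rfl

/-- The integral group ring of the abelianization. -/
abbrev SS := MonoidAlgebra ℤ (Abelianization M)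

instance modAA : Module (SS M) (AA M) :=
  Module.compHom (AA M) ((MonoidAlgebra.lift ℤ (AddMonoid.End (AA M)) (Abelianization M)) (rA M) :
    SS M →ₐ[ℤ] AddMonoid.End (AA M)).toRingHom

theorem of_smul (t : Abelianization M) (a : AA M) :
    MonoidAlgebra.of ℤ (Abelianization M) t • a = rA M t a := by
  show ((MonoidAlgebra.lift ℤ (AddMonoid.End (AA M)) (Abelianization M)) (rA M)
    (MonoidAlgebra.of ℤ (Abelianization M) t)) a = _
  rw [MonoidAlgebra.lift_of]

theorem un_of_smul (m : M) (a : AA M) :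
    un (MonoidAlgebra.of ℤ (Abelianization M) (Abelianization.of m) • a) = m * un a * m⁻¹ := by
  rw [of_smul, un_rA]

end der

section noeth

variable {M : Type} [Group M]

theorem comm_le_of_gens (s : Set M) (hs : Subgroup.closure s = ⊤) (U : Subgroup M) (hU : U.Normal)
    (h : ∀ x ∈ s, ∀ y ∈ s, ⁅x, y⁆ ∈ U) : commutator M ≤ U := by
  have h1 : ∀ y ∈ s, ∀ x : M, ⁅x, y⁆ ∈ U := by
    intro y hy x
    have hx : x ∈ Subgroup.closure s := by rw [hs]; trivial
    induction hx using Subgroup.closure_induction with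
    | mem x hx => exact h x hx y hy
    | one => rw [commutatorElement_one_left]; exact U.one_mem
    | mul a b _ _ ha hb =>
      have e : ⁅a * b, y⁆ = (a * ⁅b, y⁆ * a⁻¹) * ⁅a, y⁆ := by
        simp only [commutatorElement_def]; group
      rw [e]
      exact U.mul_mem (hU.conj_mem _ hb a) ha
    | inv a _ ha =>
      have e : ⁅a⁻¹, y⁆ = a⁻¹ * ⁅a, y⁆⁻¹ * (a⁻¹)⁻¹ := by
        simp only [commutatorElement_def]; group
      rw [e]
      exact hU.conj_mem _ (U.inv_mem ha) a⁻¹
  have h2 : ∀ x y : M, ⁅x, y⁆ ∈ U := by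
    intro x y
    have hy : y ∈ Subgroup.closure s := by rw [hs]; trivial
    induction hy using Subgroup.closure_induction with
    | mem y hy => exact h1 y hy x
    | one => rw [commutatorElement_one_right]; exact U.one_mem
    | mul a b _ _ ha hb =>
      have e : ⁅x, a * b⁆ = ⁅x, a⁆ * (a * ⁅x, b⁆ * a⁻¹) := by
        simp only [commutatorElement_def]; group
      rw [e]
      exact U.mul_mem ha (hU.conj_mem _ hb a)
    | inv a _ ha =>
      have e : ⁅x, a⁻¹⁆ = a⁻¹ * ⁅x, a⁆⁻¹ * (a⁻¹)⁻¹ := by
        simp only [commutatorElement_def]; group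
      rw [e]
      exact hU.conj_mem _ (U.inv_mem ha) a⁻¹
  rw [commutator_def, Subgroup.commutator_le]
  intro x _ y _
  exact h2 x y

variable (M) in
theorem SS_noeth [Group.FG M] : IsNoetherianRing (SS M) := by
  have : Group.FG (Abelianization M) :=
    Group.fg_of_surjective (f := Abelianization.of) QuotientGroup.mk_surjective
  exact Algebra.FiniteType.isNoetherianRing ℤ _

variable (M) in
theorem AA_noeth [Group.FG M] [IsMulCommutative ↥(commutator M)] :
    IsNoetherian (SS M) (AA M) := by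
  classical
  have := SS_noeth M
  obtain ⟨s, hs⟩ := (Group.fg_def.1 inferInstance : (⊤ : Subgroup M).FG)
  have hcm : ∀ x y : M, ⁅x, y⁆ ∈ commutator M := fun x y =>
    Subgroup.commutator_mem_commutator trivial trivial
  let G : Set (AA M) := (fun p : M × M => mk ⁅p.1, p.2⁆ (hcm p.1 p.2)) ''
    ((s ×ˢ s : Finset (M × M)) : Set (M × M))
  have hGf : G.Finite := (Finset.finite_toSet _).image _
  let U := Submodule.span (SS M) G
  let U' : Subgroup M :=
    { carrier := {x | ∃ h : x ∈ commutator M, mk x h ∈ U}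
      one_mem' := ⟨(commutator M).one_mem, U.zero_mem⟩
      mul_mem' := by
        rintro a b ⟨ha, ha'⟩ ⟨hb, hb'⟩
        exact ⟨(commutator M).mul_mem ha hb, U.add_mem ha' hb'⟩
      inv_mem' := by
        rintro a ⟨ha, ha'⟩
        exact ⟨(commutator M).inv_mem ha, U.neg_mem ha'⟩ }
  have hU' : U'.Normal := by
    refine ⟨fun x hx m => ?_⟩
    obtain ⟨hx1, hx2⟩ := hx
    have h1 : m * x * m⁻¹ ∈ commutator M :=
      (inferInstance : (commutator M).Normal).conj_mem x hx1 m
    refine ⟨h1, ?_⟩
    have h2 := U.smul_mem (MonoidAlgebra.of ℤ (Abelianization M) (Abelianization.of m)) hx2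
    have h3 : mk (m * x * m⁻¹) h1 =
        MonoidAlgebra.of ℤ (Abelianization M) (Abelianization.of m) • mk x hx1 := by
      apply un_ext
      rw [un_of_smul, un_mk, un_mk]
    rw [h3]
    exact h2
  have hle := comm_le_of_gens (s : Set M) hs U' hU' (fun x hx y hy =>
    ⟨hcm x y, Submodule.subset_span ⟨(x, y), by simpa using ⟨hx, hy⟩, rfl⟩⟩)
  have hUt : U = ⊤ := by
    rw [eq_top_iff]
    intro a _
    obtain ⟨h, h'⟩ := hle (un_mem a)
    exact h'
  have : Module.Finite (SS M) (AA M) := ⟨⟨hGf.toFinset, by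
    rw [Set.Finite.coe_toFinset]; exact hUt⟩⟩
  exact isNoetherian_of_isNoetherianRing_of_finite _ _

variable (M)

/-- Derivations with values in the 2-torsion of a module. -/
def Der (X : Type) [AddCommGroup X] [Module (SS M) X] : Submodule (SS M) (M → X) where
  carrier := {δ | (∀ m m', δ (m * m') =
    MonoidAlgebra.of ℤ (Abelianization M) (Abelianization.of m')⁻¹ • δ m + δ m') ∧
    ∀ m, δ m + δ m = 0}
  zero_mem' := by
    refine ⟨fun m m' => ?_, fun m => ?_⟩ <;> simp
  add_mem' := by
    rintro a b ⟨ha, ha'⟩ ⟨hb, hb'⟩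
    refine ⟨fun m m' => ?_, fun m => ?_⟩
    · simp only [Pi.add_apply, ha m m', hb m m', smul_add]
      abel
    · simp only [Pi.add_apply]
      calc a m + b m + (a m + b m) = (a m + a m) + (b m + b m) := by abel
        _ = 0 := by rw [ha', hb', add_zero]
  smul_mem' := by
    rintro c a ⟨ha, ha'⟩
    refine ⟨fun m m' => ?_, fun m => ?_⟩
    · simp only [Pi.smul_apply, ha m m', smul_add]
      rw [smul_comm]
    · simp only [Pi.smul_apply]
      rw [← smul_add, ha', smul_zero]

theorem Der_noeth [Group.FG M] (X : Type) [AddCommGroup X] [Module (SS M) X]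
    [IsNoetherian (SS M) X] : IsNoetherian (SS M) (Der M X) := by
  classical
  obtain ⟨s, hs⟩ := (Group.fg_def.1 inferInstance : (⊤ : Subgroup M).FG)
  let F : Der M X →ₗ[SS M] (s → X) :=
    { toFun := fun δ i => δ.1 i.1
      map_add' := fun _ _ => rfl
      map_smul' := fun _ _ => rfl }
  refine isNoetherian_of_injective F ?_
  rw [injective_iff_map_eq_zero]
  intro δ hδ
  have hone : δ.1 1 = 0 := by
    have h1 := δ.2.1 1 1
    rw [map_one, inv_one, map_one, one_smul, mul_one] at h1
    have h2 := δ.2.2 1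
    rw [h2] at h1
    exact h1
  apply Subtype.ext
  funext x
  show δ.1 x = 0
  have hx : x ∈ Subgroup.closure (s : Set M) := by rw [hs]; trivial
  induction hx using Subgroup.closure_induction with
  | mem y hy => exact congrFun hδ ⟨y, hy⟩
  | one => exact hone
  | mul a b _ _ ha hb => rw [δ.2.1, ha, hb, smul_zero, add_zero]
  | inv a _ ha =>
    have h1 := δ.2.1 a a⁻¹
    rw [mul_inv_cancel, hone, ha, smul_zero, zero_add] at h1
    exact h1.symm

end noeth

section chain

variable {M : Type} [Group M] [IsMulCommutative ↥(commutator M)] {B : Type} [CommGroup B]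

/-- Elements acting trivially on the abelianization. -/
def B2 (f : B →* MulAut M) (hb : ∀ b : B, b * b = 1) : Subgroup B where
  carrier := {b | ∀ m, m⁻¹ * f b m ∈ commutator M}
  one_mem' := by
    intro m
    rw [map_one, MulAut.one_apply, inv_mul_cancel]
    exact (commutator M).one_mem
  mul_mem' := by
    intro a b ha hb' m
    have e : m⁻¹ * f (a * b) m = (m⁻¹ * f a m) * f a (m⁻¹ * f b m) := by
      rw [map_mul, MulAut.mul_apply, map_mul, map_inv]; group
    rw [e]
    exact (commutator M).mul_mem (ha m) (aut_mem M _ (hb' m))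
  inv_mem' := by
    intro b hb'
    have e : b⁻¹ = b := (eq_inv_of_mul_eq_one_left (hb b)).symm
    rw [e]
    exact hb'

theorem lin_aux (f : B →* MulAut M) (hb : ∀ b : B, b * b = 1) (b : B) (hb' : b ∈ B2 f hb)
    (t : Abelianization M) (a : AA M) :
    res0 M (f b) (MonoidAlgebra.of ℤ (Abelianization M) t • a) =
      MonoidAlgebra.of ℤ (Abelianization M) t • res0 M (f b) a := by
  obtain ⟨m, hm⟩ := QuotientGroup.mk_surjective (s := commutator M) t
  have hm' : t = Abelianization.of m := hm.symm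
  rw [hm']
  apply un_ext
  rw [un_res, un_of_smul, un_of_smul, un_res, map_mul, map_mul, map_inv]
  have h1 := hb' m
  have h2 : f b m = m * (m⁻¹ * f b m) := by group
  have h3 := D_comm h1 (aut_mem M (f b) (un_mem a))
  rw [h2, mul_inv_rev]
  calc m * (m⁻¹ * f b m) * f b (un a) * ((m⁻¹ * f b m)⁻¹ * m⁻¹)
      = m * ((m⁻¹ * f b m) * f b (un a)) * (m⁻¹ * f b m)⁻¹ * m⁻¹ := by group
    _ = m * (f b (un a) * (m⁻¹ * f b m)) * (m⁻¹ * f b m)⁻¹ * m⁻¹ := by rw [h3]
    _ = m * f b (un a) * m⁻¹ := by group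

/-- The action of `B2` by linear maps. -/
def be (f : B →* MulAut M) (hb : ∀ b : B, b * b = 1) :
    ↥(B2 f hb) →* Module.End (SS M) (AA M) where
  toFun b := mkLin (res0 M (f b)) (lin_aux f hb b b.2)
  map_one' := by
    apply LinearMap.ext
    intro a
    show res0 M (f 1) a = a
    rw [map_one, map_one]
    rfl
  map_mul' b c := by
    apply LinearMap.ext
    intro a
    show res0 M (f (b * c)) a = res0 M (f b) (res0 M (f c) a)
    rw [map_mul, map_mul]
    rfl

theorem be_apply (f : B →* MulAut M) (hb : ∀ b : B, b * b = 1) (b : ↥(B2 f hb)) (a : AA M) :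
    be f hb b a = res0 M (f b) a := rfl

/-- Elements acting unipotently on the derived subgroup. -/
def NB (f : B →* MulAut M) (hb : ∀ b : B, b * b = 1) : Subgroup B where
  carrier := {b | ∃ h : b ∈ B2 f hb, IsNilpotent (be f hb ⟨b, h⟩ - 1)}
  one_mem' := ⟨(B2 f hb).one_mem, by
    have : be f hb ⟨1, (B2 f hb).one_mem⟩ = 1 := map_one (be f hb)
    rw [this, sub_self]
    exact IsNilpotent.zero⟩
  mul_mem' := by
    rintro a b ⟨ha, ha'⟩ ⟨hb1, hb'⟩
    refine ⟨(B2 f hb).mul_mem ha hb1, ?_⟩
    have h1 : be f hb ⟨a * b, (B2 f hb).mul_mem ha hb1⟩ = be f hb ⟨a, ha⟩ * be f hb ⟨b, hb1⟩ :=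
      map_mul (be f hb) ⟨a, ha⟩ ⟨b, hb1⟩
    have hc : be f hb ⟨a, ha⟩ * be f hb ⟨b, hb1⟩ = be f hb ⟨b, hb1⟩ * be f hb ⟨a, ha⟩ := by
      rw [← map_mul, ← map_mul, mul_comm]
    rw [h1]
    generalize be f hb ⟨a, ha⟩ = x at *
    generalize be f hb ⟨b, hb1⟩ = y at *
    have h2 : x * y - 1 = (x - 1) * y + (y - 1) := by rw [sub_mul, one_mul]; abel
    rw [h2]
    have hc1 : Commute x y := hc
    have hc2 : Commute (x - 1) y := hc1.sub_left (Commute.one_left y)
    have hc3 : Commute ((x - 1) * y) (y - 1) := by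
      apply Commute.sub_right
      · exact hc2.mul_left (Commute.refl y)
      · exact Commute.one_right _
    exact hc3.isNilpotent_add (hc2.isNilpotent_mul_right ha') hb'
  inv_mem' := by
    rintro b ⟨h, h'⟩
    have e : b⁻¹ = b := (eq_inv_of_mul_eq_one_left (hb b)).symm
    refine ⟨(B2 f hb).inv_mem h, ?_⟩
    have h2 : (⟨b⁻¹, (B2 f hb).inv_mem h⟩ : ↥(B2 f hb)) = ⟨b, h⟩ := Subtype.ext e
    rw [h2]
    exact h'

/-- The chain. -/
def EE (f : B →* MulAut M) (hb : ∀ b : B, b * b = 1) : ℕ → AddSubgroup (AA M)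
  | 0 => ⊤
  | i + 1 => AddSubgroup.closure {x | ∃ b ∈ NB f hb, ∃ y ∈ EE f hb i, x = res0 M (f b) y - y}

theorem EE_res (f : B →* MulAut M) (hb : ∀ b : B, b * b = 1) (φ : AddMonoid.End (AA M))
    (h : ∀ b ∈ NB f hb, ∃ b' ∈ NB f hb, ∀ a, φ (res0 M (f b) a) = res0 M (f b') (φ a)) (i : ℕ) :
    ∀ a ∈ EE f hb i, φ a ∈ EE f hb i := by
  induction i with
  | zero => intro a _; trivial
  | succ i ih =>
    intro a ha
    have ha' : a ∈ AddSubgroup.closure
      {x | ∃ b ∈ NB f hb, ∃ y ∈ EE f hb i, x = res0 M (f b) y - y} := ha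
    show φ a ∈ AddSubgroup.closure
      {x | ∃ b ∈ NB f hb, ∃ y ∈ EE f hb i, x = res0 M (f b) y - y}
    induction ha' using AddSubgroup.closure_induction with
    | mem x hx =>
      obtain ⟨b, hb1, y, hy, rfl⟩ := hx
      obtain ⟨b', hb2, hb3⟩ := h b hb1
      refine AddSubgroup.subset_closure ⟨b', hb2, φ y, ih y hy, ?_⟩
      rw [map_sub, hb3]
    | zero => rw [map_zero]; exact AddSubgroup.zero_mem _
    | add x y _ _ hx hy => rw [map_add]; exact AddSubgroup.add_mem _ (hx ‹_›) (hy ‹_›)
    | neg x _ hx => rw [map_neg]; exact AddSubgroup.neg_mem _ (hx ‹_›)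

theorem EE_of (f : B →* MulAut M) (hb : ∀ b : B, b * b = 1) (i : ℕ) (t : Abelianization M) :
    ∀ a ∈ EE f hb i, MonoidAlgebra.of ℤ (Abelianization M) t • a ∈ EE f hb i := by
  intro a ha
  have h := EE_res f hb (rA M t) (fun b hb1 => ⟨b, hb1, fun a => by
    obtain ⟨h1, -⟩ := hb1
    rw [← of_smul, ← of_smul, lin_aux f hb b h1]⟩) i a ha
  rw [of_smul]
  exact h

theorem EE_B (f : B →* MulAut M) (hb : ∀ b : B, b * b = 1) (i : ℕ) (c : B) :
    ∀ a ∈ EE f hb i, res0 M (f c) a ∈ EE f hb i := by
  refine EE_res f hb (res0 M (f c)) (fun b hb1 => ⟨b, hb1, fun a => ?_⟩) i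
  have h1 : res0 M (f c) * res0 M (f b) = res0 M (f b) * res0 M (f c) := by
    rw [← map_mul, ← map_mul, ← map_mul, ← map_mul, mul_comm]
  exact DFunLike.congr_fun h1 a

theorem EE_bot (f : B →* MulAut M) (hb : ∀ b : B, b * b = 1) (l : ℕ)
    (hl : ∀ L : List (Module.End (SS M) (AA M)), L.length = l →
      (∀ x ∈ L, ∃ b, IsNilpotent (be f hb b - 1) ∧ x = be f hb b - 1) → L.prod = 0) :
    EE f hb l = ⊥ := by
  have key : ∀ i j : ℕ, i + j = l → ∀ x ∈ EE f hb i, ∀ L : List (Module.End (SS M) (AA M)),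
      L.length = j → (∀ x ∈ L, ∃ b, IsNilpotent (be f hb b - 1) ∧ x = be f hb b - 1) →
      L.prod x = 0 := by
    intro i
    induction i with
    | zero =>
      intro j hj x _ L hL hx
      rw [hl L (by omega) hx]
      rfl
    | succ i ih =>
      intro j hj x hx L hL hLx
      have hx' : x ∈ AddSubgroup.closure
        {x | ∃ b ∈ NB f hb, ∃ y ∈ EE f hb i, x = res0 M (f b) y - y} := hx
      clear hx
      induction hx' using AddSubgroup.closure_induction with
      | mem x hx =>
        obtain ⟨b, ⟨hb1, hb2⟩, y, hy, rfl⟩ := hx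
        have h1 := ih (j + 1) (by omega) y hy (L ++ [be f hb ⟨b, hb1⟩ - 1]) (by simp [hL]) (by
          intro x hx
          rcases List.mem_append.1 hx with h | h
          · exact hLx x h
          · rw [List.mem_singleton] at h
            exact ⟨⟨b, hb1⟩, hb2, h⟩)
        rw [List.prod_append, List.prod_singleton] at h1
        exact h1
      | zero => rw [map_zero]
      | add x y _ _ hx hy => rw [map_add, hx, hy, add_zero]
      | neg x _ hx => rw [map_neg, hx, neg_zero]
  rw [eq_bot_iff]
  intro x hx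
  have h1 := key l 0 (by omega) x hx [] rfl (by simp)
  exact h1

open Classical in
/-- The displacement of `m` under `b`. -/
def dl (f : B →* MulAut M) (b : B) (m : M) : AA M :=
  if h : m⁻¹ * f b m ∈ commutator M then mk (m⁻¹ * f b m) h else 0

omit [IsMulCommutative ↥(commutator M)] in
theorem un_dl (f : B →* MulAut M) (b : B) (m : M) (h : m⁻¹ * f b m ∈ commutator M) :
    un (dl f b m) = m⁻¹ * f b m := by
  unfold dl
  rw [dif_pos h, un_mk]

theorem dl_mul (f : B →* MulAut M) (hb : ∀ b : B, b * b = 1) (b c : B) (hb1 : b ∈ B2 f hb)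
    (hc : c ∈ B2 f hb) (m : M) : dl f (b * c) m = dl f b m + res0 M (f b) (dl f c m) := by
  apply un_ext
  rw [un_dl f _ _ ((B2 f hb).mul_mem hb1 hc m), un_add, un_res, un_dl f _ _ (hb1 m),
    un_dl f _ _ (hc m), map_mul, MulAut.mul_apply, map_mul, map_inv]
  group

omit [IsMulCommutative ↥(commutator M)] in
theorem dl_one (f : B →* MulAut M) (m : M) : dl f 1 m = 0 := by
  apply un_ext
  rw [un_dl f 1 m (by rw [map_one, MulAut.one_apply, inv_mul_cancel]; exact Subgroup.one_mem _),
    map_one, MulAut.one_apply, inv_mul_cancel]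
  rfl

theorem dl_der (f : B →* MulAut M) (hb : ∀ b : B, b * b = 1) (b : B) (hb1 : b ∈ B2 f hb)
    (m m' : M) : dl f b (m * m') =
      MonoidAlgebra.of ℤ (Abelianization M) (Abelianization.of m')⁻¹ • dl f b m + dl f b m' := by
  apply un_ext
  rw [← map_inv, un_dl f _ _ (hb1 _), un_add, un_of_smul, un_dl f _ _ (hb1 _),
    un_dl f _ _ (hb1 _), map_mul]
  group

/-- The subgroups from which the good one is chosen. -/
def KK (f : B →* MulAut M) (hb : ∀ b : B, b * b = 1) (i : ℕ) : Subgroup B where
  carrier := {b | b ∈ NB f hb ∧ ∀ m, dl f b m ∈ EE f hb i}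
  one_mem' := ⟨(NB f hb).one_mem, fun m => by rw [dl_one]; exact AddSubgroup.zero_mem _⟩
  mul_mem' := by
    rintro a b ⟨ha, ha'⟩ ⟨hb1, hb'⟩
    refine ⟨(NB f hb).mul_mem ha hb1, fun m => ?_⟩
    rw [dl_mul f hb a b ha.1 hb1.1]
    exact AddSubgroup.add_mem _ (ha' m) (EE_B f hb i a _ (hb' m))
  inv_mem' := by
    rintro b ⟨h, h'⟩
    have e : b⁻¹ = b := (eq_inv_of_mul_eq_one_left (hb b)).symm
    rw [e]
    exact ⟨h, h'⟩

theorem KK_zero (f : B →* MulAut M) (hb : ∀ b : B, b * b = 1) : KK f hb 0 = NB f hb := by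
  ext b
  exact ⟨fun h => h.1, fun h => ⟨h, fun _ => trivial⟩⟩

theorem KK_bot (f : B →* MulAut M) (hf : Function.Injective f) (hb : ∀ b : B, b * b = 1) (l : ℕ)
    (hl : EE f hb l = ⊥) : KK f hb l = ⊥ := by
  rw [eq_bot_iff]
  rintro b ⟨h1, h2⟩
  have h3 : f b = 1 := by
    ext m
    have h4 := h2 m
    rw [hl, AddSubgroup.mem_bot] at h4
    have h5 := congrArg un h4
    rw [un_dl f _ _ (h1.1 m), un_zero] at h5
    rw [MulAut.one_apply]
    exact (inv_mul_eq_one.1 h5).symm
  rw [← map_one f] at h3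
  exact hf h3

theorem exists_level [Group.FG M] [Infinite B] (f : B →* MulAut M) (hf : Function.Injective f)
    (hb : ∀ b : B, b * b = 1) : ∃ i, KK f hb i ≠ ⊥ ∧ KK f hb (i + 1) = ⊥ := by
  classical
  have := AA_noeth M
  have hinf : Infinite ↥(B2 f hb) := (B2_infinite hb f).to_subtype
  have hb' : ∀ b : ↥(B2 f hb), b * b = 1 := fun b => Subtype.ext (hb b)
  obtain ⟨h1, l, hl⟩ := V_nil hb' (be f hb)
  have hbot := KK_bot f hf hb l (EE_bot f hb l hl)
  have hN : NB f hb ≠ ⊥ := by
    intro h
    apply h1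
    refine (Set.finite_singleton (1 : ↥(B2 f hb))).subset ?_
    intro b hbn
    have h2 : (b : B) ∈ NB f hb := ⟨b.2, hbn⟩
    rw [h, Subgroup.mem_bot] at h2
    exact Subtype.ext h2
  have hex : ∃ n, KK f hb n = ⊥ := ⟨l, hbot⟩
  have h3 := Nat.find_spec hex
  have h4 : Nat.find hex ≠ 0 := by
    intro h0
    rw [h0, KK_zero] at h3
    exact hN h3
  obtain ⟨i, hi⟩ := Nat.exists_eq_succ_of_ne_zero h4
  refine ⟨i, ?_, ?_⟩
  · exact Nat.find_min hex (by omega)
  · rw [hi] at h3
    exact h3

end chain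

section fin

variable {M : Type} [Group M] [IsMulCommutative ↥(commutator M)] {B : Type} [CommGroup B]

omit [IsMulCommutative ↥(commutator M)] in
theorem B2_conj (f : B →* MulAut M) (hb : ∀ b : B, b * b = 1) (b b' : B) (α : MulAut M)
    (h : α * f b * α⁻¹ = f b') (hb1 : b ∈ B2 f hb) : b' ∈ B2 f hb := by
  intro m
  have e : m⁻¹ * f b' m = α ((α⁻¹ m)⁻¹ * f b (α⁻¹ m)) := by
    rw [← h, MulAut.mul_apply, MulAut.mul_apply, map_mul, map_inv, MulAut.apply_inv_self]
  rw [e]
  exact aut_mem M α (hb1 _)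

theorem res_conj (f : B →* MulAut M) (b b' : B) (α : MulAut M)
    (h : α * f b * α⁻¹ = f b') (a : AA M) :
    res0 M α (res0 M (f b) a) = res0 M (f b') (res0 M α a) := by
  have h1 : α * f b = f b' * α := by rw [← h, inv_mul_cancel_right]
  have h2 : res0 M α * res0 M (f b) = res0 M (f b') * res0 M α := by
    rw [← map_mul, ← map_mul, h1]
  exact DFunLike.congr_fun h2 a

theorem NB_conj (f : B →* MulAut M) (hb : ∀ b : B, b * b = 1) (b b' : B) (α : MulAut M)
    (h : α * f b * α⁻¹ = f b') (hb1 : b ∈ NB f hb) : b' ∈ NB f hb := by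
  obtain ⟨h1, n, hn⟩ := hb1
  have h2 := B2_conj f hb b b' α h h1
  refine ⟨h2, n, ?_⟩
  have key : ∀ k : ℕ, ∀ a : AA M, ((be f hb ⟨b', h2⟩ - 1) ^ k) (res0 M α a) =
      res0 M α (((be f hb ⟨b, h1⟩ - 1) ^ k) a) := by
    intro k
    induction k with
    | zero => intro a; rfl
    | succ k ih =>
      intro a
      rw [pow_succ, pow_succ, Module.End.mul_apply, Module.End.mul_apply, ← ih]
      congr 1
      show res0 M (f b') (res0 M α a) - res0 M α a = res0 M α (res0 M (f b) a - a)
      rw [map_sub, res_conj f b b' α h]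
  apply LinearMap.ext
  intro a
  have h3 : res0 M α (res0 M α⁻¹ a) = a := by
    have h4 : res0 M α * res0 M α⁻¹ = 1 := by rw [← map_mul, mul_inv_cancel, map_one]
    exact DFunLike.congr_fun h4 a
  rw [← h3, key, hn]
  show res0 M α 0 = 0
  rw [map_zero]

theorem dl_conj (f : B →* MulAut M) (hb : ∀ b : B, b * b = 1) (b b' : B) (α : MulAut M)
    (h : α * f b * α⁻¹ = f b') (hb1 : b ∈ B2 f hb) (m : M) :
    dl f b' m = res0 M α (dl f b (α⁻¹ m)) := by
  apply un_ext
  rw [un_dl f _ _ (B2_conj f hb b b' α h hb1 m), un_res, un_dl f _ _ (hb1 _), ← h,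
    MulAut.mul_apply, MulAut.mul_apply, map_mul, map_inv, MulAut.apply_inv_self]

/-- Additive map on the quotient. -/
def qmap (W : Submodule (SS M) (AA M)) (φ : AddMonoid.End (AA M)) (h : ∀ a ∈ W, φ a ∈ W) :
    AddMonoid.End (AA M ⧸ W) :=
  QuotientAddGroup.map W.toAddSubgroup W.toAddSubgroup φ h

theorem qmap_mk (W : Submodule (SS M) (AA M)) (φ : AddMonoid.End (AA M)) (h : ∀ a ∈ W, φ a ∈ W)
    (a : AA M) : qmap W φ h (Submodule.Quotient.mk a) = Submodule.Quotient.mk (φ a) := rfl

variable {P : Type} [Group P]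

/-- Action on the quotient module. -/
def pX (fP : P →* MulAut M) (W : Submodule (SS M) (AA M))
    (hW : ∀ g, ∀ a ∈ W, res0 M (fP g) a ∈ W) : P →* AddMonoid.End (AA M ⧸ W) where
  toFun g := qmap W (res0 M (fP g)) (hW g)
  map_one' := by
    apply AddMonoidHom.ext
    intro x
    obtain ⟨a, rfl⟩ := Submodule.Quotient.mk_surjective W x
    show (Submodule.Quotient.mk (res0 M (fP 1) a) : AA M ⧸ W) = Submodule.Quotient.mk a
    rw [map_one, map_one]
    rfl
  map_mul' g h := by
    apply AddMonoidHom.ext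
    intro x
    obtain ⟨a, rfl⟩ := Submodule.Quotient.mk_surjective W x
    show (Submodule.Quotient.mk (res0 M (fP (g * h)) a) : AA M ⧸ W) =
      Submodule.Quotient.mk (res0 M (fP g) (res0 M (fP h) a))
    rw [map_mul, map_mul]
    rfl

theorem pX_mk (fP : P →* MulAut M) (W : Submodule (SS M) (AA M))
    (hW : ∀ g, ∀ a ∈ W, res0 M (fP g) a ∈ W) (g : P) (a : AA M) :
    pX fP W hW g (Submodule.Quotient.mk a) = Submodule.Quotient.mk (res0 M (fP g) a) := rfl

omit [IsMulCommutative ↥(commutator M)] in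
/-- Action on the abelianization. -/
def pT (fP : P →* MulAut M) : P →* MulAut (Abelianization M) where
  toFun g := (fP g).abelianizationCongr
  map_one' := by
    apply MulEquiv.ext
    intro x
    obtain ⟨m, rfl⟩ := QuotientGroup.mk_surjective (s := commutator M) x
    show Abelianization.of (fP 1 m) = Abelianization.of m
    rw [map_one]
    rfl
  map_mul' g h := by
    apply MulEquiv.ext
    intro x
    obtain ⟨m, rfl⟩ := QuotientGroup.mk_surjective (s := commutator M) x
    show Abelianization.of (fP (g * h) m) = Abelianization.of (fP g (fP h m))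
    rw [map_mul]
    rfl

omit [IsMulCommutative ↥(commutator M)] in
theorem pT_of (fP : P →* MulAut M) (g : P) (m : M) :
    pT fP g (Abelianization.of m) = Abelianization.of (fP g m) := rfl

theorem pX_of (fP : P →* MulAut M) (W : Submodule (SS M) (AA M))
    (hW : ∀ g, ∀ a ∈ W, res0 M (fP g) a ∈ W) (g : P) (t : Abelianization M) (x : AA M ⧸ W) :
    pX fP W hW g (MonoidAlgebra.of ℤ (Abelianization M) t • x) =
      MonoidAlgebra.of ℤ (Abelianization M) (pT fP g t) • pX fP W hW g x := by
  obtain ⟨a, rfl⟩ := Submodule.Quotient.mk_surjective W x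
  obtain ⟨m, hm⟩ := QuotientGroup.mk_surjective (s := commutator M) t
  have hm' : t = Abelianization.of m := hm.symm
  rw [hm', pT_of, ← Submodule.Quotient.mk_smul, pX_mk, pX_mk, ← Submodule.Quotient.mk_smul]
  congr 1
  apply un_ext
  rw [un_res, un_of_smul, un_of_smul, un_res, map_mul, map_mul, map_inv]

/-- Action on derivations. -/
def pN (fP : P →* MulAut M) (W : Submodule (SS M) (AA M))
    (hW : ∀ g, ∀ a ∈ W, res0 M (fP g) a ∈ W) : P →* AddMonoid.End (Der M (AA M ⧸ W)) where
  toFun g :=
    { toFun := fun δ => ⟨fun m => pX fP W hW g (δ.1 ((fP g)⁻¹ m)), by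
        refine ⟨fun m m' => ?_, fun m => ?_⟩
        · simp only
          rw [map_mul, δ.2.1, map_add, pX_of, map_inv, pT_of, MulAut.apply_inv_self]
        · simp only
          rw [← map_add, δ.2.2, map_zero]⟩
      map_zero' := by
        apply Subtype.ext
        funext m
        exact map_zero (pX fP W hW g)
      map_add' := fun a b => by
        apply Subtype.ext
        funext m
        exact map_add (pX fP W hW g) _ _ }
  map_one' := by
    apply AddMonoidHom.ext
    intro δ
    apply Subtype.ext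
    funext m
    show pX fP W hW 1 (δ.1 ((fP 1)⁻¹ m)) = δ.1 m
    rw [map_one, map_one, inv_one]
    rfl
  map_mul' g h := by
    apply AddMonoidHom.ext
    intro δ
    apply Subtype.ext
    funext m
    show pX fP W hW (g * h) (δ.1 ((fP (g * h))⁻¹ m)) =
      pX fP W hW g (pX fP W hW h (δ.1 ((fP h)⁻¹ ((fP g)⁻¹ m))))
    rw [map_mul, map_mul, mul_inv_rev]
    rfl

end fin

-- TARGET
/-! ### J4 group reduction -/

theorem group_reduction {M : Type} [Group M] [Group.FG M] (hM : derivedSeries M 2 = ⊥)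
    {Bg : Type} [AddCommGroup Bg] [Infinite Bg] (h2 : ∀ b : Bg, b + b = 0)
    {P : Type} [Group P] (act : P →* Au Bg)
    (fB : Multiplicative Bg →* MulAut M) (hfB : Function.Injective fB)
    (fP : P →* MulAut M)
    (hcomp : ∀ (g : P) (b : Bg),
      fP g * fB (Multiplicative.ofAdd b) * (fP g)⁻¹ = fB (Multiplicative.ofAdd (act g • b))) :
    ∃ (Tg : Type) (_ : CommGroup Tg) (_ : Group.FG Tg) (N : Type) (_ : AddCommGroup N)
      (ρ : Tg →* Au N) (pT : P →* MulAut Tg) (pN : P →* Au N) (B' : AddSubgroup Bg)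
      (hst : ∀ (g : P) (b : Bg), b ∈ B' → act g • b ∈ B') (j : B' →+ N),
      (∀ w : N, w + w = 0) ∧ Noe (opSet ρ ⊤) ⊥ ⊤ ∧
      (∀ (g : P) (t : Tg) (w : N), pN g • (ρ t • w) = ρ (pT g t) • (pN g • w)) ∧
      B' ≠ ⊥ ∧ Function.Injective j ∧
      ∀ (g : P) (b : B'), j ⟨act g • (b : Bg), hst g b b.2⟩ = pN g • j b := by
  have hmc : IsMulCommutative ↥(commutator M) := by
    refine ⟨⟨fun a b => Subtype.ext ?_⟩⟩
    have h1 : ⁅commutator M, commutator M⁆ = ⊥ := by
      rw [← hM, derivedSeries_succ, derivedSeries_one]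
    rw [Subgroup.commutator_eq_bot_iff_le_centralizer] at h1
    exact ((Subgroup.mem_centralizer_iff.1 (h1 b.2)) a a.2)
  have hb : ∀ b : Multiplicative Bg, b * b = 1 := fun b => h2 (Multiplicative.toAdd b)
  obtain ⟨i, hi1, hi2⟩ := exists_level fB hfB hb
  have hEE : ∀ g : P, ∀ k, ∀ a ∈ EE fB hb k, res0 M (fP g) a ∈ EE fB hb k := fun g k =>
    EE_res fB hb (res0 M (fP g)) (fun b hb1 =>
      ⟨Multiplicative.ofAdd (act g • Multiplicative.toAdd b),
        NB_conj fB hb b _ (fP g) (hcomp g (Multiplicative.toAdd b)) hb1,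
        fun a => res_conj fB b _ (fP g) (hcomp g (Multiplicative.toAdd b)) a⟩) k
  let W : Submodule (SS M) (AA M) := mkSub (EE fB hb (i + 1)) (EE_of fB hb (i + 1))
  have hW : ∀ g, ∀ a ∈ W, res0 M (fP g) a ∈ W := fun g => hEE g (i + 1)
  have := AA_noeth M
  have : IsNoetherian (SS M) (Der M (AA M ⧸ W)) := Der_noeth M _
  have hFG : Group.FG (Abelianization M) :=
    Group.fg_of_surjective (f := Abelianization.of) QuotientGroup.mk_surjective
  let B' : AddSubgroup Bg :=
    { carrier := {b | Multiplicative.ofAdd b ∈ KK fB hb i}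
      zero_mem' := (KK fB hb i).one_mem
      add_mem' := fun ha hb' => (KK fB hb i).mul_mem ha hb'
      neg_mem' := fun ha => (KK fB hb i).inv_mem ha }
  have hst : ∀ (g : P) (b : Bg), b ∈ B' → act g • b ∈ B' := by
    intro g b hb1
    obtain ⟨h3, h4⟩ := hb1
    refine ⟨NB_conj fB hb _ _ (fP g) (hcomp g b) h3, fun m => ?_⟩
    have h5 := dl_conj fB hb _ _ (fP g) (hcomp g b) h3.1 m
    have h6 := hEE g i _ (h4 ((fP g)⁻¹ m))
    rw [← h5] at h6
    exact h6
  have hsmall : ∀ b ∈ NB fB hb, ∀ y ∈ EE fB hb i,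
      (Submodule.Quotient.mk (res0 M (fB b) y) : AA M ⧸ W) = Submodule.Quotient.mk y := by
    intro b hb1 y hy
    rw [Submodule.Quotient.eq]
    exact AddSubgroup.subset_closure ⟨b, hb1, y, hy, rfl⟩
  let j0 : B' → Der M (AA M ⧸ W) := fun b =>
    ⟨fun m => Submodule.Quotient.mk (dl fB (Multiplicative.ofAdd (b : Bg)) m), by
      obtain ⟨b, h3, h4⟩ := b
      refine ⟨fun m m' => ?_, fun m => ?_⟩
      · simp only
        rw [dl_der fB hb _ h3.1, Submodule.Quotient.mk_add, Submodule.Quotient.mk_smul]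
      · have h5 := dl_mul fB hb _ _ h3.1 h3.1 m
        rw [hb, dl_one] at h5
        have h6 := hsmall _ h3 _ (h4 m)
        simp only
        nth_rewrite 2 [← h6]
        rw [← Submodule.Quotient.mk_add]
        show (Submodule.Quotient.mk (dl fB (Multiplicative.ofAdd b) m +
          res0 M (fB (Multiplicative.ofAdd b)) (dl fB (Multiplicative.ofAdd b) m)) : AA M ⧸ W) = 0
        rw [← h5, Submodule.Quotient.mk_zero]⟩
  let j : B' →+ Der M (AA M ⧸ W) := AddMonoidHom.mk' j0 (by
    rintro ⟨b, h3, h4⟩ ⟨c, h5, h6⟩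
    apply Subtype.ext
    funext m
    show (Submodule.Quotient.mk (dl fB (Multiplicative.ofAdd (b + c)) m) : AA M ⧸ W) =
      Submodule.Quotient.mk (dl fB (Multiplicative.ofAdd b) m) +
      Submodule.Quotient.mk (dl fB (Multiplicative.ofAdd c) m)
    have h7 := dl_mul fB hb _ _ h3.1 h5.1 m
    rw [ofAdd_add, h7, Submodule.Quotient.mk_add, hsmall _ h3 _ (h6 m)])
  refine ⟨Abelianization M, inferInstance, hFG, Der M (AA M ⧸ W), inferInstance,
    rho (Abelianization M) (Der M (AA M ⧸ W)), pT fP,
    (pN fP W hW).toHomUnits, B', hst, j, ?_, noe_of_noetherian, ?_, ?_, ?_, ?_⟩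
  · intro w
    apply Subtype.ext
    funext m
    exact w.2.2 m
  · intro g t w
    apply Subtype.ext
    funext m
    exact pX_of fP W hW g t (w.1 ((fP g)⁻¹ m))
  · intro h3
    apply hi1
    rw [eq_bot_iff]
    intro b hb1
    have h4 : Multiplicative.toAdd b ∈ B' := hb1
    rw [h3] at h4
    exact h4
  · rw [injective_iff_map_eq_zero]
    rintro ⟨b, h3, h4⟩ h5
    apply Subtype.ext
    have h6 : Multiplicative.ofAdd b ∈ KK fB hb (i + 1) := by
      refine ⟨h3, fun m => ?_⟩
      have h7 : (Submodule.Quotient.mk (dl fB (Multiplicative.ofAdd b) m) : AA M ⧸ W) = 0 :=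
        congrFun (congrArg Subtype.val h5) m
      rw [Submodule.Quotient.mk_eq_zero] at h7
      exact h7
    rw [hi2, Subgroup.mem_bot] at h6
    exact h6
  · rintro g ⟨b, h3, h4⟩
    apply Subtype.ext
    funext m
    show (Submodule.Quotient.mk (dl fB (Multiplicative.ofAdd (act g • b)) m) : AA M ⧸ W) =
      Submodule.Quotient.mk (res0 M (fP g) (dl fB (Multiplicative.ofAdd b) ((fP g)⁻¹ m)))
    rw [dl_conj fB hb _ _ (fP g) (hcomp g b) h3.1 m]

end Pool.Agent.E2F.J4

end
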