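import Pool.Agent.Lib.E2F.Defs

set_option autoImplicit false

noncomputable section

namespace Pool.Agent.E2F


-- TARGETS
/-! ### J6 invariant ideals and primes of `F_2[ℤ²]` -/

/-- determinant -/
def dt (v w : A) : ℤ := v.toAdd.1 * w.toAdd.2 - v.toAdd.2 * w.toAdd.1

/-- scalar product -/
def ip (v w : A) : ℤ := v.toAdd.1 * w.toAdd.1 + v.toAdd.2 * w.toAdd.2

theorem golden {a b : ℤ} (h : a * a - a * b - b * b = 0) : a = 0 ∧ b = 0 := by
  by_contra hne
  have hb : b ≠ 0 := by
    rintro rfl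
    apply hne
    simpa using h
  have h5 : Irrational (Real.sqrt (5 : ℕ)) := Nat.Prime.irrational_sqrt (by norm_num)
  apply h5
  refine ⟨|(((2 * a - b : ℤ) : ℚ) / (b : ℚ))|, ?_⟩
  have hbR : (b : ℝ) ≠ 0 := by exact_mod_cast hb
  have hR : (a : ℝ) * a - a * b - b * b = 0 := by exact_mod_cast h
  rw [eq_comm, Real.sqrt_eq_iff_mul_self_eq (by norm_num) (by positivity)]
  push_cast
  rw [abs_mul_abs_self]
  field_simp
  nlinarith [hR]

theorem sg_toAdd (v : A) : (sg v).toAdd = (2 * v.toAdd.1 + v.toAdd.2, v.toAdd.1 + v.toAdd.2) := rfl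

theorem sg_pow_form (k : ℕ) : ∃ α β : ℤ, 0 ≤ α ∧ α < β ∧ ∀ v : A,
    ((sg ^ (k + 1)) v).toAdd = (β * (sg v).toAdd.1 - α * v.toAdd.1,
      β * (sg v).toAdd.2 - α * v.toAdd.2) := by
  induction k with
  | zero => exact ⟨0, 1, le_refl _, by norm_num, fun v => by simp⟩
  | succ k ih =>
    obtain ⟨α, β, h0, h1, h2⟩ := ih
    refine ⟨β, 3 * β - α, by omega, by omega, fun v => ?_⟩
    rw [pow_succ, MulAut.mul_apply, h2]
    simp only [sg_toAdd]
    ext <;> simp <;> ring

theorem dt_ne {v : A} (hv : v ≠ 1) {k : ℕ} (hk : 1 ≤ k) : dt v ((sg ^ k) v) ≠ 0 := by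
  obtain ⟨k, rfl⟩ : ∃ l, k = l + 1 := ⟨k - 1, by omega⟩
  obtain ⟨α, β, h0, h1, h2⟩ := sg_pow_form k
  intro h
  unfold dt at h
  rw [h2 v, sg_toAdd] at h
  simp only at h
  have h' : β * (v.toAdd.1 * v.toAdd.1 - v.toAdd.1 * v.toAdd.2 - v.toAdd.2 * v.toAdd.2) = 0 := by
    rw [← h]; ring
  rcases mul_eq_zero.1 h' with h' | h'
  · omega
  · obtain ⟨h3, h4⟩ := golden h'
    apply hv
    apply Multiplicative.toAdd.injective
    ext
    · simpa using h3
    · simpa using h4

theorem coord_ne {d : A} (hd : d ≠ 1) : d.toAdd.1 ≠ 0 ∨ d.toAdd.2 ≠ 0 := by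
  by_contra h
  push Not at h
  apply hd
  apply Multiplicative.toAdd.injective
  ext
  · simpa using h.1
  · simpa using h.2

theorem dt_trans {d v w : A} (hd : d ≠ 1) (h1 : dt d v = 0) (h2 : dt d w = 0) : dt v w = 0 := by
  unfold dt at *
  rcases coord_ne hd with h | h
  · apply (mul_eq_zero.1 (_ : d.toAdd.1 * _ = 0)).resolve_left h
    linear_combination v.toAdd.1 * h2 - w.toAdd.1 * h1
  · apply (mul_eq_zero.1 (_ : d.toAdd.2 * _ = 0)).resolve_left h
    linear_combination v.toAdd.2 * h2 - w.toAdd.2 * h1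

theorem dt_subs_lt {d v : A} (hd : d ≠ 1) (hv : v ≠ 1) {i j : ℤ} (hij : i < j)
    (h1 : dt d ((sg ^ i) v) = 0) (h2 : dt d ((sg ^ j) v) = 0) : False := by
  obtain ⟨k, hk⟩ : ∃ k : ℕ, j = k + i := ⟨(j - i).toNat, by omega⟩
  have hk1 : 1 ≤ k := by omega
  have hv' : (sg ^ i) v ≠ 1 := by
    intro h
    apply hv
    exact (MulEquiv.map_eq_one_iff _).1 h
  apply dt_ne hv' hk1
  apply dt_trans hd h1
  rw [hk, zpow_add, zpow_natCast] at h2
  exact h2

theorem dt_subs {d v : A} (hd : d ≠ 1) (hv : v ≠ 1) {i j : ℤ}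
    (h1 : dt d ((sg ^ i) v) = 0) (h2 : dt d ((sg ^ j) v) = 0) : i = j := by
  rcases lt_trichotomy i j with h | h | h
  · exact (dt_subs_lt hd hv h h1 h2).elim
  · exact h
  · exact (dt_subs_lt hd hv h h2 h1).elim

/-- the homomorphism `dt v`. -/
def dtHom (v : A) : A →* Multiplicative ℤ where
  toFun w := Multiplicative.ofAdd (dt v w)
  map_one' := by
    apply Multiplicative.toAdd.injective
    simp [dt]
  map_mul' w w' := by
    apply Multiplicative.toAdd.injective
    simp [dt]
    ring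

/-- `π_j = sg^j(aa)` -/
def pj (j : ℤ) : RA := autR (sg ^ j) aa

theorem pj_eq (j : ℤ) : pj j = mono ((sg ^ j) e1) + 1 := by
  rw [pj, aa, map_add, map_one, autR_mono]


theorem one_add_one_zero (R : Type*) [Ring R] [Algebra (ZMod 2) R] : (1 : R) + 1 = 0 := by
  rw [← map_one (algebraMap (ZMod 2) R), ← map_add, show (1 : ZMod 2) + 1 = 0 from rfl, map_zero]

theorem prime_aa : Prime aa := by
  classical
  let π : A →* Multiplicative ℤ :=
    { toFun := fun v => Multiplicative.ofAdd v.toAdd.2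
      map_one' := rfl
      map_mul' := fun v w => rfl }
  let ι : Multiplicative ℤ →* A :=
    { toFun := fun n => Multiplicative.ofAdd (0, n.toAdd)
      map_one' := rfl
      map_mul' := fun v w => by
        apply Multiplicative.toAdd.injective
        simp }
  let φ : RA →+* MonoidAlgebra (ZMod 2) (Multiplicative ℤ) :=
    MonoidAlgebra.mapDomainRingHom (ZMod 2) π
  let ψ : MonoidAlgebra (ZMod 2) (Multiplicative ℤ) →+* RA :=
    MonoidAlgebra.mapDomainRingHom (ZMod 2) ι
  have hφ : φ aa = 0 := by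
    simp only [aa, map_add, map_one, φ, mono, MonoidAlgebra.of_apply,
      MonoidAlgebra.mapDomainRingHom_apply, MonoidAlgebra.mapDomain_single]
    have : π e1 = 1 := rfl
    rw [this, ← MonoidAlgebra.one_def]
    exact one_add_one_zero (MonoidAlgebra (ZMod 2) (Multiplicative ℤ))
  have hker : RingHom.ker φ = Ideal.span {aa} := by
    apply le_antisymm
    · intro f hf
      set q := Ideal.Quotient.mk (Ideal.span {aa}) with hq
      have he1 : (q : RA →* RA ⧸ Ideal.span {aa}).comp mono e1 = 1 := by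
        show q (mono e1) = 1
        have : q aa = 0 := by
          rw [hq, Ideal.Quotient.eq_zero_iff_mem]
          exact Ideal.mem_span_singleton_self aa
        have h2 : mono e1 = aa - 1 := by simp [aa]
        rw [h2, map_sub, this, map_one, zero_sub]
        have h3 : (1 : RA ⧸ Ideal.span {aa}) + 1 = 0 := by
          rw [← map_one q, ← map_add]
          rw [one_add_one_zero RA, map_zero]
        exact (eq_neg_of_add_eq_zero_left h3).symm
      have key : q = q.comp (ψ.comp φ) := by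
        apply MonoidAlgebra.ringHom_ext
        · intro r
          simp [φ, ψ]
        · intro v
          have hv : v = e1 ^ (v.toAdd.1) * ι (π v) := by
            apply Multiplicative.toAdd.injective
            ext
            · simp [e1, ι, π]
            · simp [e1, ι, π]
          have h1 : q (mono (e1 ^ v.toAdd.1)) = 1 := by
            have : e1 ^ v.toAdd.1 ∈ ((q : RA →* RA ⧸ Ideal.span {aa}).comp mono).ker :=
              Subgroup.zpow_mem _ he1 _
            exact this
          have h2 : (ψ.comp φ) (MonoidAlgebra.single v 1) = mono (ι (π v)) := by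
            simp [φ, ψ]
          rw [RingHom.comp_apply, h2]
          show q (mono v) = _
          conv_lhs => rw [hv]
          rw [map_mul, map_mul, h1, one_mul]
      rw [← Ideal.Quotient.eq_zero_iff_mem]
      have := congrArg (fun g : RA →+* _ => g f) key
      simp only [RingHom.comp_apply] at this
      rw [RingHom.mem_ker] at hf
      rw [← hq, this, hf, map_zero, map_zero]
    · rw [Ideal.span_singleton_le_iff_mem]
      exact hφ
  have := RingHom.ker_isPrime φ
  rw [hker] at this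
  exact (Ideal.span_singleton_prime aa_ne_zero).1 this

theorem prime_pj (j : ℤ) : Prime (pj j) := by
  rw [pj, MulEquiv.prime_iff]
  exact prime_aa

theorem det_of_dvd {f : RA} (hf : f ≠ 0) {j : ℤ} (h : pj j ∣ f) :
    ∃ w ∈ f.coeff.support, ∃ w' ∈ f.coeff.support, w ≠ w' ∧
      dt ((sg ^ j) e1) w = dt ((sg ^ j) e1) w' := by
  classical
  by_contra hcon
  push Not at hcon
  obtain ⟨g, rfl⟩ := h
  set v := (sg ^ j) e1 with hv
  let φ : RA →+* MonoidAlgebra (ZMod 2) (Multiplicative ℤ) :=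
    MonoidAlgebra.mapDomainRingHom (ZMod 2) (dtHom v)
  have hφ : φ (pj j) = 0 := by
    rw [pj_eq, ← hv]
    simp only [map_add, map_one, φ, mono, MonoidAlgebra.of_apply,
      MonoidAlgebra.mapDomainRingHom_apply, MonoidAlgebra.mapDomain_single]
    have : dtHom v v = 1 := by
      apply Multiplicative.toAdd.injective
      simp [dtHom, dt]
      ring
    rw [this, ← MonoidAlgebra.one_def]
    exact one_add_one_zero (MonoidAlgebra (ZMod 2) (Multiplicative ℤ))
  have h0 : φ (pj j * g) = 0 := by rw [map_mul, hφ, zero_mul]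
  apply hf
  have h1 : Finsupp.mapDomain (dtHom v) (pj j * g).coeff = 0 := by
    have := congrArg MonoidAlgebra.coeff h0
    simpa [φ, MonoidAlgebra.mapDomain] using this
  have h2 : Set.InjOn (dtHom v) ((pj j * g).coeff.support : Set A) := by
    intro w hw w' hw' hww
    by_contra hne
    exact hcon w hw w' hw' hne (Multiplicative.ofAdd.injective hww)
  have h3 : (pj j * g).coeff = 0 := by
    apply Finsupp.mapDomain_injOn _ h2 (Set.Subset.refl _) (by simp)
    rw [h1, Finsupp.mapDomain_zero]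
  exact MonoidAlgebra.coeff_eq_zero.1 h3

theorem e1_ne : e1 ≠ 1 := by
  intro h
  have := congrArg (fun v : A => v.toAdd.1) h
  simp [e1] at this

theorem dt_anti (v w : A) : dt v w = - dt w v := by
  unfold dt
  ring

theorem dt_div (v w w' : A) : dt v (w / w') = dt v w - dt v w' := by
  unfold dt
  simp
  ring

theorem finite_dvd (f : RA) (hf : f ≠ 0) : {j : ℤ | pj j ∣ f}.Finite := by
  classical
  have hfin : (⋃ p ∈ ((f.coeff.support ×ˢ f.coeff.support).filter (fun p => p.1 ≠ p.2) :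
      Finset (A × A)), {j : ℤ | dt ((sg ^ j) e1) (p.1 / p.2) = 0}).Finite := by
    apply Set.Finite.biUnion (Finset.finite_toSet _)
    intro p hp
    rw [Finset.mem_coe, Finset.mem_filter] at hp
    apply Set.Subsingleton.finite
    intro i hi j hj
    have hd : p.1 / p.2 ≠ 1 := by
      rw [Ne, div_eq_one]; exact hp.2
    simp only [Set.mem_ofPred_eq] at hi hj
    rw [dt_anti, neg_eq_zero] at hi hj
    exact dt_subs hd e1_ne hi hj
  apply hfin.subset
  intro j hj
  obtain ⟨w, hw, w', hw', hne, he⟩ := det_of_dvd hf hj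
  simp only [Set.mem_iUnion]
  refine ⟨(w, w'), ?_, ?_⟩
  · rw [Finset.mem_filter, Finset.mem_product]
    exact ⟨⟨hw, hw'⟩, hne⟩
  · simp only [Set.mem_ofPred_eq]
    rw [dt_div, he, sub_self]


/-- sup norm -/
def mx (v : A) : ℤ := max |v.toAdd.1| |v.toAdd.2|

theorem mx_bound {v d d' : A} {D K : ℤ} (hK : 0 ≤ K) (h : dt d d' ≠ 0)
    (hd : mx d ≤ D) (hd' : mx d' ≤ D) (h1 : |ip v d| ≤ K) (h2 : |ip v d'| ≤ K) :
    mx v ≤ 2 * D * K := by
  have hdt : 1 ≤ |dt d d'| := Int.one_le_abs h
  have hd1 := (max_le_iff.1 hd).1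
  have hd2 := (max_le_iff.1 hd).2
  have hd1' := (max_le_iff.1 hd').1
  have hd2' := (max_le_iff.1 hd').2
  have key : ∀ x a b c e : ℤ, x * dt d d' = a * b - c * e → |a| ≤ K → |b| ≤ D → |c| ≤ K →
      |e| ≤ D → |x| ≤ 2 * D * K := by
    intro x a b c e he ha hb hc he'
    have h3 : |x| ≤ |x * dt d d'| := by
      rw [abs_mul]
      nlinarith [abs_nonneg x]
    have h4 : |a * b| ≤ K * D := by
      rw [abs_mul]
      exact mul_le_mul ha hb (abs_nonneg _) hK
    have h5 : |c * e| ≤ K * D := by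
      rw [abs_mul]
      exact mul_le_mul hc he' (abs_nonneg _) hK
    have h6 : |a * b - c * e| ≤ |a * b| + |c * e| := abs_sub _ _
    rw [he] at h3
    nlinarith
  apply max_le
  · apply key _ (ip v d) d'.toAdd.2 (ip v d') d.toAdd.2 _ h1 hd2' h2 hd2
    unfold ip dt
    ring
  · apply key _ (ip v d') d.toAdd.1 (ip v d) d'.toAdd.1 _ h2 hd1 h1 hd1'
    unfold ip dt
    ring

theorem ip_self_le {d : A} {D : ℤ} (hd : mx d ≤ D) : ip d d ≤ 2 * D ^ 2 := by
  have hd1 := (max_le_iff.1 hd).1
  have hd2 := (max_le_iff.1 hd).2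
  have h1 : d.toAdd.1 * d.toAdd.1 ≤ D ^ 2 := by
    rw [← sq, ← sq_abs]
    exact pow_le_pow_left₀ (abs_nonneg _) hd1 2
  have h2 : d.toAdd.2 * d.toAdd.2 ≤ D ^ 2 := by
    rw [← sq, ← sq_abs]
    exact pow_le_pow_left₀ (abs_nonneg _) hd2 2
  unfold ip
  linarith

theorem ip_div (v w w' : A) : ip v (w / w') = ip v w - ip v w' := by
  unfold ip
  simp
  ring

theorem ip_mul_self (v d : A) : ip (v * d) (v * d) = ip v v + 2 * ip v d + ip d d := by
  unfold ip
  simp
  ring

theorem ip_nonneg (v : A) : 0 ≤ ip v v := by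
  unfold ip
  nlinarith [mul_self_nonneg v.toAdd.1, mul_self_nonneg v.toAdd.2]

theorem finite_box (C : ℤ) : {v : A | mx v ≤ C}.Finite := by
  apply Set.Finite.subset (Set.Finite.image (Multiplicative.ofAdd)
    (Set.finite_Icc ((-C, -C) : ℤ × ℤ) (C, C)))
  intro v hv
  refine ⟨v.toAdd, ?_, rfl⟩
  simp only [Set.mem_ofPred_eq, mx] at hv
  have h1 := (max_le_iff.1 hv).1
  have h2 := (max_le_iff.1 hv).2
  rw [abs_le] at h1 h2
  exact ⟨⟨h1.1, h2.1⟩, ⟨h1.2, h2.2⟩⟩

theorem finite_of_pair (I : Ideal RA) {f g : RA} (hfI : f ∈ I) (hgI : g ∈ I) (hf : f ≠ 0)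
    (hg : g ≠ 0)
    (h : ∀ w ∈ f.coeff.support, ∀ w' ∈ f.coeff.support, w ≠ w' →
      ∀ u ∈ g.coeff.support, ∀ u' ∈ g.coeff.support, u ≠ u' → dt (w / w') (u / u') ≠ 0) :
    Finite (RA ⧸ I) := by
  classical
  obtain ⟨D, hD⟩ : ∃ D : ℤ, ∀ x ∈ ((((f.coeff.support ×ˢ f.coeff.support) ∪
      (g.coeff.support ×ˢ g.coeff.support)).image (fun p : A × A => mx (p.1 / p.2)))), x ≤ D :=
    Finset.exists_le _
  have hDf : ∀ w ∈ f.coeff.support, ∀ w' ∈ f.coeff.support, mx (w / w') ≤ D := by
    intro w hw w' hw'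
    apply hD
    rw [Finset.mem_image]
    exact ⟨(w, w'), Finset.mem_union_left _ (Finset.mem_product.2 ⟨hw, hw'⟩), rfl⟩
  have hDg : ∀ w ∈ g.coeff.support, ∀ w' ∈ g.coeff.support, mx (w / w') ≤ D := by
    intro w hw w' hw'
    apply hD
    rw [Finset.mem_image]
    exact ⟨(w, w'), Finset.mem_union_right _ (Finset.mem_product.2 ⟨hw, hw'⟩), rfl⟩
  set C : ℤ := 2 * D * D ^ 2 with hC
  let S : Submodule (ZMod 2) RA := (I.restrictScalars (ZMod 2)) ⊔
    Submodule.span (ZMod 2) (mono '' {v : A | mx v ≤ C})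
  have hIS : ∀ x ∈ I, x ∈ S := fun x hx => Submodule.mem_sup_left hx
  have key : ∀ n : ℕ, ∀ v : A, (ip v v).toNat = n → mono v ∈ S := by
    intro n
    induction n using Nat.strong_induction_on with
    | _ n ih =>
    intro v hv
    by_cases hvC : mx v ≤ C
    · exact Submodule.mem_sup_right (Submodule.subset_span ⟨v, hvC, rfl⟩)
    have hex : ∃ k : RA, k ∈ I ∧ k ≠ 0 ∧ (∀ w ∈ k.coeff.support, ∀ w' ∈ k.coeff.support,
        mx (w / w') ≤ D) ∧ (∀ w ∈ k.coeff.support, ∀ w' ∈ k.coeff.support, w ≠ w' →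
        D ^ 2 < |ip v (w / w')|) := by
      by_cases hfv : ∀ w ∈ f.coeff.support, ∀ w' ∈ f.coeff.support, w ≠ w' →
        D ^ 2 < |ip v (w / w')|
      · exact ⟨f, hfI, hf, hDf, hfv⟩
      · refine ⟨g, hgI, hg, hDg, ?_⟩
        push Not at hfv
        obtain ⟨w, hw, w', hw', hne, hle⟩ := hfv
        intro u hu u' hu' hne'
        by_contra hcon
        push Not at hcon
        exact hvC (mx_bound (by positivity) (h w hw w' hw' hne u hu u' hu' hne')
          (hDf w hw w' hw') (hDg u hu u' hu') hle hcon)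
    obtain ⟨k, hkI, hk0, hkD, hkv⟩ := hex
    have hne : k.coeff.support.Nonempty := by
      rw [Finsupp.support_nonempty_iff]
      intro h0
      exact hk0 (MonoidAlgebra.coeff_eq_zero.1 h0)
    obtain ⟨w0, hw0, hmax⟩ := Finset.exists_max_image k.coeff.support (fun w => ip v w) hne
    have hsum : mono (v / w0) * k = ∑ w ∈ k.coeff.support, k.coeff w • mono ((v / w0) * w) := by
      conv_lhs => rw [← MonoidAlgebra.sum_coeff_single k]
      rw [Finsupp.sum, Finset.mul_sum]
      apply Finset.sum_congr rfl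
      intro w _
      simp [MonoidAlgebra.single_mul_single, MonoidAlgebra.smul_single]
    have hmem : ∑ w ∈ k.coeff.support, k.coeff w • mono ((v / w0) * w) ∈ S := by
      rw [← hsum]
      exact hIS _ (I.mul_mem_left _ hkI)
    rw [← Finset.add_sum_erase _ _ hw0] at hmem
    have hrest : ∑ w ∈ k.coeff.support.erase w0, k.coeff w • mono ((v / w0) * w) ∈ S := by
      apply Submodule.sum_mem
      intro w hw
      apply Submodule.smul_mem
      rw [Finset.mem_erase] at hw
      have h1 : v / w0 * w = v * (w / w0) := by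
        rw [div_mul_eq_mul_div, mul_div_assoc]
      rw [h1]
      have h2 : ip v (w / w0) < - D ^ 2 := by
        have h3 := hkv w hw.2 w0 hw0 hw.1
        have h4 := hmax w hw.2
        rw [ip_div] at h3 ⊢
        rcases abs_cases (ip v w - ip v w0) with h5 | h5
        · nlinarith [sq_nonneg D]
        · linarith
      have h3 := ip_self_le (hkD w hw.2 w0 hw0)
      have h4 := ip_mul_self v (w / w0)
      have h5 : ip (v * (w / w0)) (v * (w / w0)) < ip v v := by linarith
      apply ih _ _ _ rfl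
      rw [← hv]
      exact (Int.toNat_lt_toNat (lt_of_le_of_lt (ip_nonneg _) h5)).2 h5
    have h6 := (Submodule.add_mem_iff_left S hrest).1 hmem
    have h7 : k.coeff w0 ≠ 0 := Finsupp.mem_support_iff.1 hw0
    have h8 := (S.smul_mem_iff h7).1 h6
    rwa [div_mul_cancel] at h8
  have hS : S = ⊤ := by
    rw [eq_top_iff]
    intro x _
    rw [← MonoidAlgebra.sum_coeff_single x]
    apply Submodule.sum_mem
    intro w _
    have : MonoidAlgebra.single w (x.coeff w) = x.coeff w • mono w := by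
      simp [MonoidAlgebra.smul_single]
    rw [this]
    exact S.smul_mem _ (key _ _ rfl)
  have hfg : Module.Finite (ZMod 2) (RA ⧸ I) := by
    let q : RA →ₗ[ZMod 2] RA ⧸ I := (Ideal.Quotient.mkₐ (ZMod 2) I).toLinearMap
    have hq : Function.Surjective q := Ideal.Quotient.mk_surjective
    refine ⟨?_⟩
    have h1 : (⊤ : Submodule (ZMod 2) (RA ⧸ I)) =
        Submodule.span (ZMod 2) (q '' (mono '' {v : A | mx v ≤ C})) := by
      rw [← Submodule.map_span, ← LinearMap.range_eq_top.2 hq, LinearMap.range_eq_map, ← hS]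
      rw [Submodule.map_sup]
      have : Submodule.map q (I.restrictScalars (ZMod 2)) = ⊥ := by
        rw [eq_bot_iff]
        rintro _ ⟨x, hx, rfl⟩
        rw [Submodule.mem_bot]
        exact Ideal.Quotient.eq_zero_iff_mem.2 hx
      rw [this, bot_sup_eq]
    rw [h1]
    exact Submodule.fg_span (((finite_box C).image _).image _)
  exact Module.finite_of_finite (ZMod 2)

theorem mem_supp_autR {τ : MulAut A} {f : RA} {u : A} (hu : u ∈ (autR τ f).coeff.support) :
    ∃ w ∈ f.coeff.support, u = τ w := by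
  refine ⟨τ.symm u, ?_, ?_⟩
  · rw [Finsupp.mem_support_iff] at hu ⊢
    have : (autR τ f).coeff u = f.coeff (τ.symm u) :=
      MonoidAlgebra.coeff_domCongr (R := ZMod 2) (A := ZMod 2) τ f u
    rwa [this] at hu
  · exact (MulEquiv.apply_symm_apply τ u).symm

theorem finite_quot (I : Ideal RA) (hI : I ≠ ⊥) (m : ℕ) (hm : 1 ≤ m)
    (h : ∀ f ∈ I, autR (sg ^ m) f ∈ I) : Finite (RA ⧸ I) := by
  classical
  obtain ⟨f, hfI, hf⟩ := Submodule.exists_mem_ne_zero_of_ne_bot hI
  have hpow : ∀ n : ℕ, autR (sg ^ (m * n)) f ∈ I := by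
    intro n
    induction n with
    | zero => rw [mul_zero, pow_zero, autR_one_apply]; exact hfI
    | succ n ih =>
      have : sg ^ (m * (n + 1)) = sg ^ m * sg ^ (m * n) := by
        rw [← pow_add]; congr 1; ring
      rw [this, autR_mul_apply]
      exact h _ ih
  set P := (f.coeff.support ×ˢ f.coeff.support).filter (fun p => p.1 ≠ p.2) with hP
  have hfin : (⋃ p ∈ (P ×ˢ P : Finset ((A × A) × (A × A))),
      {n : ℕ | dt (p.1.1 / p.1.2) ((sg ^ (m * n)) (p.2.1 / p.2.2)) = 0}).Finite := by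
    apply Set.Finite.biUnion (Finset.finite_toSet _)
    intro p hp
    rw [Finset.mem_coe, Finset.mem_product, hP, Finset.mem_filter, Finset.mem_filter] at hp
    apply Set.Subsingleton.finite
    intro i hi j hj
    have hd : p.1.1 / p.1.2 ≠ 1 := by
      rw [Ne, div_eq_one]; exact hp.1.2
    have hd' : p.2.1 / p.2.2 ≠ 1 := by
      rw [Ne, div_eq_one]; exact hp.2.2
    simp only [Set.mem_ofPred_eq] at hi hj
    have h1 : ((m * i : ℕ) : ℤ) = ((m * j : ℕ) : ℤ) := by
      apply dt_subs hd hd'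
      · rw [zpow_natCast]; exact hi
      · rw [zpow_natCast]; exact hj
    exact Nat.eq_of_mul_eq_mul_left hm (by exact_mod_cast h1)
  obtain ⟨n, hn⟩ := hfin.exists_notMem
  have hg : autR (sg ^ (m * n)) f ≠ 0 := by
    intro h0
    exact hf ((map_eq_zero_iff _ (autR (sg ^ (m * n))).injective).1 h0)
  apply finite_of_pair I hfI (hpow n) hf hg
  intro w hw w' hw' hne u hu u' hu' hne' h0
  obtain ⟨x, hx, rfl⟩ := mem_supp_autR hu
  obtain ⟨x', hx', rfl⟩ := mem_supp_autR hu'
  apply hn
  simp only [Set.mem_iUnion]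
  refine ⟨((w, w'), (x, x')), ?_, ?_⟩
  · rw [Finset.mem_product, hP, Finset.mem_filter, Finset.mem_filter, Finset.mem_product,
      Finset.mem_product]
    refine ⟨⟨⟨hw, hw'⟩, hne⟩, ⟨⟨hx, hx'⟩, ?_⟩⟩
    rintro h2
    simp only at h2
    exact hne' (by rw [h2])
  · simp only [Set.mem_ofPred_eq]
    rw [map_div]
    exact h0

end Pool.Agent.E2F

end
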