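import Pool.Agent.Lib.E2F.J6

set_option autoImplicit false

noncomputable section

namespace Pool.Agent.E2F


-- TARGET
/-! ### J7 the packages -/

/-! #### powers of `xK` -/

theorem j7_ss_ne_zero (n : ℕ) : ss n ≠ 0 := by
  unfold ss
  rw [Finset.prod_ne_zero_iff]
  intro j _ h
  exact aa_ne_zero ((map_eq_zero_iff (autR (sg ^ j)) (autR (sg ^ j)).injective).mp h)

theorem j7_iK_ss_ne_zero (n : ℕ) : iK (ss n) ≠ 0 := by
  simpa using j7_ss_ne_zero n

theorem j7_ss_succ (n : ℕ) : ss (n + 1) = autR sg (ss n) * aa := by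
  unfold ss
  rw [Finset.prod_range_succ', map_prod]
  simp only [pow_zero, autR_one_apply]
  congr 1
  refine Finset.prod_congr rfl fun j _ => ?_
  rw [pow_succ', autR_mul_apply]

theorem j7_xK_pow_iK (n : ℕ) (g : RA) :
    (xK ^ n) • iK g = iK (autR (sg ^ n) g) * (iK (ss n))⁻¹ := by
  induction n with
  | zero => simp [ss, autR_one_apply]
  | succ n ih =>
    rw [pow_succ', mul_smul, ih, xK_smul, map_mul, map_inv₀, sgK_iK, sgK_iK, j7_ss_succ,
      pow_succ', autR_mul_apply, map_mul, mul_inv, mul_assoc]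

theorem j7_xK_mul (r : RA) (q : K) : xK • (iK r * q) = iK (autR sg r) * (xK • q) := by
  rw [xK_smul, xK_smul, map_mul, sgK_iK, mul_assoc]

theorem j7_xK_pow_mul (n : ℕ) (r : RA) (q : K) :
    (xK ^ n) • (iK r * q) = iK (autR (sg ^ n) r) * ((xK ^ n) • q) := by
  induction n with
  | zero => simp [autR_one_apply]
  | succ n ih =>
    rw [pow_succ', mul_smul, ih, j7_xK_mul, pow_succ', autR_mul_apply, mul_smul]

theorem j7_autR_inv (τ : MulAut A) (r : RA) : autR τ (autR τ⁻¹ r) = r := by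
  rw [← autR_mul_apply, mul_inv_cancel, autR_one_apply]

theorem j7_autR_inv' (τ : MulAut A) (r : RA) : autR τ⁻¹ (autR τ r) = r := by
  rw [← autR_mul_apply, inv_mul_cancel, autR_one_apply]

theorem j7_xK_pow_inv_mul (n : ℕ) (r : RA) (q : K) :
    (xK ^ n)⁻¹ • (iK r * q) = iK (autR (sg ^ n)⁻¹ r) * ((xK ^ n)⁻¹ • q) := by
  rw [inv_smul_eq_iff, j7_xK_pow_mul, j7_autR_inv, smul_inv_smul]

/-- elements of `RA` inside `K` -/
def j7_Rg : AddSubgroup K := (iK : RA →+* K).toAddMonoidHom.range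

theorem j7_mem_Rg {q : K} : q ∈ j7_Rg ↔ ∃ f : RA, iK f = q := Iff.rfl

theorem j7_inv_mem_Rg {q : K} (hq : q ∈ j7_Rg) (n : ℕ) : (xK ^ n)⁻¹ • q ∈ j7_Rg := by
  obtain ⟨f, rfl⟩ := j7_mem_Rg.mp hq
  refine j7_mem_Rg.mpr ⟨autR (sg ^ n)⁻¹ (f * ss n), ?_⟩
  symm
  rw [inv_smul_eq_iff, j7_xK_pow_iK, j7_autR_inv, map_mul,
    mul_inv_cancel_right₀ (j7_iK_ss_ne_zero n)]

theorem j7_exh {q : K} (hq : q ∈ Bsub) : ∃ N : ℕ, ∀ n, N ≤ n → (xK ^ n)⁻¹ • q ∈ j7_Rg := by
  obtain ⟨N, f, hf⟩ := hq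
  have h0 : (xK ^ N)⁻¹ • q ∈ j7_Rg := by
    refine j7_mem_Rg.mpr ⟨autR (sg ^ N)⁻¹ f, ?_⟩
    symm
    rw [inv_smul_eq_iff, j7_xK_pow_iK, j7_autR_inv, ← hf, mul_comm (iK (ss N)),
      mul_inv_cancel_right₀ (j7_iK_ss_ne_zero N)]
  refine ⟨N, fun n hn => ?_⟩
  obtain ⟨m, rfl⟩ := Nat.exists_eq_add_of_le hn
  have := j7_inv_mem_Rg h0 m
  rwa [← mul_smul, ← mul_inv_rev, ← pow_add] at this

theorem j7_psi_aut (e : ℕ) (τ : MulAut A) (r : RA) : psi e (autR τ r) = autR τ (psi e r) := by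
  have h : (psi e).comp ((autR τ : RA ≃+* RA) : RA →+* RA) =
      ((autR τ : RA ≃+* RA) : RA →+* RA).comp (psi e) := by
    apply MonoidAlgebra.ringHom_ext
    · intro r
      simp [autR, psi]
    · intro v
      simp [autR, psi]
  exact congrArg (fun f : RA →+* RA => f r) h

theorem j7_noeth_RA : IsNoetherianRing RA := by
  have h1 : Algebra.FiniteType (ZMod 2) RA := by
    have : Monoid.FG A := by infer_instance
    infer_instance
  exact Algebra.FiniteType.isNoetherianRing (ZMod 2) RA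

/-- the elements of `RA`, inside `KE e` -/
def j7_Lf (e : ℕ) : Submodule RA (KE e) where
  carrier := {q | toK e q ∈ j7_Rg}
  zero_mem' := j7_Rg.zero_mem
  add_mem' := by
    intro a b ha hb
    exact j7_Rg.add_mem ha hb
  smul_mem' := by
    intro c x hx
    have hx' : toK e x ∈ j7_Rg := hx
    obtain ⟨f, hf⟩ := j7_mem_Rg.mp hx'
    change toK e (c • x) ∈ j7_Rg
    refine j7_mem_Rg.mpr ⟨psi e c * f, ?_⟩
    rw [toK_smul, ← hf, map_mul]

theorem j7_mem_Lf {e : ℕ} {q : KE e} : q ∈ j7_Lf e ↔ toK e q ∈ j7_Rg := Iff.rfl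

theorem j7_Lf_fg (e : ℕ) (he : 1 ≤ e) : (j7_Lf e).FG := by
  classical
  let box : Finset (ℤ × ℤ) := (Finset.Ico (0 : ℤ) e) ×ˢ (Finset.Ico (0 : ℤ) e)
  let gen : ℤ × ℤ → KE e := fun v => (toK e).symm (iK (mono (Multiplicative.ofAdd v)))
  refine ⟨box.image gen, ?_⟩
  apply le_antisymm
  · rw [Submodule.span_le]
    intro q hq
    simp only [Finset.coe_image, Set.mem_image] at hq
    obtain ⟨v, _, rfl⟩ := hq
    exact j7_mem_Rg.mpr ⟨_, rfl⟩
  · intro q hq
    have hq' : toK e q ∈ j7_Rg := hq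
    obtain ⟨f, hf⟩ := j7_mem_Rg.mp hq'
    have key : ∀ f : RA, (toK e).symm (iK f) ∈ Submodule.span RA ((box.image gen : Finset (KE e)) : Set (KE e)) := by
      intro f
      induction f using MonoidAlgebra.induction_on with
      | of v =>
        let w : ℤ × ℤ := (v.toAdd.1 / e, v.toAdd.2 / e)
        let r : ℤ × ℤ := (v.toAdd.1 % e, v.toAdd.2 % e)
        have he' : (0 : ℤ) < e := by exact_mod_cast he
        have hr : r ∈ box := by
          simp only [box, r, Finset.mem_product, Finset.mem_Ico]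
          exact ⟨⟨Int.emod_nonneg _ he'.ne', Int.emod_lt_of_pos _ he'⟩,
            ⟨Int.emod_nonneg _ he'.ne', Int.emod_lt_of_pos _ he'⟩⟩
        have hv : v = (Multiplicative.ofAdd w) ^ e * Multiplicative.ofAdd r := by
          apply Multiplicative.toAdd.injective
          rw [toAdd_mul, toAdd_pow]
          ext
          · simp [w, r, Int.mul_ediv_add_emod]
          · simp [w, r, Int.mul_ediv_add_emod]
        have : (toK e).symm (iK (mono v)) = (mono (Multiplicative.ofAdd w) : RA) • gen r := by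
          apply (toK e).injective
          rw [toK_smul, psi_mono]
          simp only [gen, AddEquiv.apply_symm_apply]
          rw [← map_mul, ← map_mul, ← hv]
        rw [show (MonoidAlgebra.of (ZMod 2) A) v = mono v from rfl, this]
        apply Submodule.smul_mem
        apply Submodule.subset_span
        exact Finset.mem_coe.mpr (Finset.mem_image_of_mem gen hr)
      | add f g hf hg =>
        rw [map_add, map_add]
        exact Submodule.add_mem _ hf hg
      | smul c f hf =>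
        have hc : c = 0 ∨ c = 1 := by
          revert c
          decide
        rcases hc with rfl | rfl
        · simp
        · simpa using hf
    have h2 := key f
    rw [hf, AddEquiv.symm_apply_apply] at h2
    exact h2

theorem j7_Lf_noeth (e : ℕ) (he : 1 ≤ e) : IsNoetherian RA (j7_Lf e) := by
  have := j7_noeth_RA
  exact isNoetherian_of_fg_of_noetherian _ (j7_Lf_fg e he)

theorem j7_psi_inj (e : ℕ) (he : 1 ≤ e) : Function.Injective (psi e) := by
  apply MonoidAlgebra.mapDomain_injective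
  intro v w h
  have h1 : v ^ e = w ^ e := h
  exact pow_left_injective (by omega) h1

theorem j7_dvd (e : ℕ) (he : 1 ≤ e) (s : RA) (hs : s ≠ 0) : ∃ h : RA, h ≠ 0 ∧ s ∣ psi e h := by
  classical
  have := j7_Lf_noeth e he
  let v : ℕ → j7_Lf e := fun i => ⟨(toK e).symm (iK (s ^ i)), j7_mem_Rg.mpr ⟨_, rfl⟩⟩
  have hli : ¬ LinearIndependent RA v := by
    intro h
    have h2 := h.finite_of_isNoetherian
    exact not_finite ℕ
  rw [not_linearIndependent_iff] at hli
  obtain ⟨S, g, hsum, i, hi, hgi⟩ := hli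
  let p : Polynomial RA := ∑ i ∈ S, Polynomial.monomial i (g i)
  have hp : p ≠ 0 := by
    intro h0
    apply hgi
    have := congrArg (fun q => Polynomial.coeff q i) h0
    simpa [p, Polynomial.finsetSum_coeff, Polynomial.coeff_monomial, hi] using this
  have hev : p.eval₂ (psi e) s = 0 := by
    apply IsFractionRing.injective RA K
    rw [map_zero]
    have h3 := congrArg (fun q : j7_Lf e => toK e (q : KE e)) hsum
    simp only [p, Polynomial.eval₂_finsetSum, Polynomial.eval₂_monomial]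
    simpa [v, toK_smul] using h3
  have h4 := Ideal.comap_ne_bot_of_root_mem (f := psi e) (I := Ideal.span {s}) hs
    (Ideal.mem_span_singleton_self s) hp hev
  obtain ⟨h, hh, hh0⟩ := Submodule.exists_mem_ne_zero_of_ne_bot h4
  exact ⟨h, hh0, Ideal.mem_span_singleton.mp hh⟩

/-- the action of an additive automorphism of `K` on `KE e` -/
def j7_act (e : ℕ) (u : Au K) (q : KE e) : KE e := (toK e).symm (u • toK e q)

theorem j7_toK_act (e : ℕ) (u : Au K) (q : KE e) : toK e (j7_act e u q) = u • toK e q := rfl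

theorem j7_act_add (e : ℕ) (u : Au K) (p q : KE e) :
    j7_act e u (p + q) = j7_act e u p + j7_act e u q := by
  apply (toK e).injective
  rw [map_add, j7_toK_act, j7_toK_act, j7_toK_act, map_add, smul_add]

theorem j7_act_sub (e : ℕ) (u : Au K) (p q : KE e) :
    j7_act e u (p - q) = j7_act e u p - j7_act e u q := by
  apply (toK e).injective
  rw [map_sub, j7_toK_act, j7_toK_act, j7_toK_act, map_sub, smul_sub]

theorem j7_act_zero (e : ℕ) (u : Au K) : j7_act e u 0 = 0 := by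
  apply (toK e).injective
  rw [j7_toK_act, map_zero, smul_zero]

theorem j7_act_mul (e : ℕ) (u v : Au K) (q : KE e) :
    j7_act e (u * v) q = j7_act e u (j7_act e v q) := by
  apply (toK e).injective
  rw [j7_toK_act, j7_toK_act, j7_toK_act, mul_smul]

theorem j7_act_one (e : ℕ) (q : KE e) : j7_act e 1 q = q := by
  apply (toK e).injective
  rw [j7_toK_act, one_smul]

theorem j7_act_inv (e : ℕ) (u : Au K) (q : KE e) : j7_act e u (j7_act e u⁻¹ q) = q := by
  rw [← j7_act_mul, mul_inv_cancel, j7_act_one]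

theorem j7_act_inv' (e : ℕ) (u : Au K) (q : KE e) : j7_act e u⁻¹ (j7_act e u q) = q := by
  rw [← j7_act_mul, inv_mul_cancel, j7_act_one]

theorem j7_act_smul (e n : ℕ) (r : RA) (q : KE e) :
    j7_act e (xK ^ n) (r • q) = autR (sg ^ n) r • j7_act e (xK ^ n) q := by
  apply (toK e).injective
  rw [j7_toK_act, toK_smul, toK_smul, j7_toK_act, j7_xK_pow_mul, j7_psi_aut]

theorem j7_act_inv_smul (e n : ℕ) (r : RA) (q : KE e) :
    j7_act e (xK ^ n)⁻¹ (r • q) = autR (sg ^ n)⁻¹ r • j7_act e (xK ^ n)⁻¹ q := by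
  apply (toK e).injective
  rw [j7_toK_act, toK_smul, toK_smul, j7_toK_act, j7_xK_pow_inv_mul, j7_psi_aut]

theorem j7_act_inv_Lf (e n : ℕ) (q : KE e) (hq : q ∈ j7_Lf e) :
    j7_act e (xK ^ n)⁻¹ q ∈ j7_Lf e := by
  rw [j7_mem_Lf, j7_toK_act]
  exact j7_inv_mem_Rg hq n

/-- the submodules used in the construction -/
structure j7_Good (e : ℕ) (B' : AddSubgroup K) (m : ℕ) (D : Submodule RA (KE e)) : Prop where
  hm : 1 ≤ m
  ne : D ≠ ⊥
  le : ∀ d ∈ D, toK e d ∈ B'
  st : ∀ d ∈ D, j7_act e (xK ^ m) d ∈ D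
  st' : ∀ d ∈ D, j7_act e (xK ^ m)⁻¹ d ∈ D

theorem j7_choice (e : ℕ) (he : 1 ≤ e) (B' : AddSubgroup K) (m0 : ℕ)
    (D0 : Submodule RA (KE e)) (h0 : j7_Good e B' m0 D0) :
    ∃ m D, j7_Good e B' m D ∧ ∀ m' D', 1 ≤ m' → j7_Good e B' (m * m') D' → D' ≤ D →
      ∀ w ∈ D, w ∈ j7_Lf e → ∃ h : RA, h ≠ 0 ∧ h • w ∈ D' := by
  classical
  by_contra hcon
  push Not at hcon
  let State := {p : ℕ × Submodule RA (KE e) // j7_Good e B' p.1 p.2}
  have hstep : ∀ s : State, ∃ t : State, ∃ w : KE e, t.1.2 ≤ s.1.2 ∧ w ∈ s.1.2 ∧ w ∈ j7_Lf e ∧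
      ∀ h : RA, h ≠ 0 → h • w ∉ t.1.2 := by
    rintro ⟨⟨m, D⟩, hs⟩
    obtain ⟨m', D', _, hg, hle, w, hw, hwL, hh⟩ := hcon m D hs
    exact ⟨⟨(m * m', D'), hg⟩, w, hle, hw, hwL, hh⟩
  choose nxt w hle hwD hwL hh using hstep
  let sq : ℕ → State := fun n => Nat.rec ⟨(m0, D0), h0⟩ (fun _ s => nxt s) n
  have hsq : ∀ n, sq (n + 1) = nxt (sq n) := fun n => rfl
  have hanti : ∀ i j, i ≤ j → (sq j).1.2 ≤ (sq i).1.2 := by
    intro i j hij
    induction j, hij using Nat.le_induction with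
    | base => exact le_rfl
    | succ j _ ih =>
      rw [hsq]
      exact (hle (sq j)).trans ih
  have := j7_Lf_noeth e he
  let v : ℕ → j7_Lf e := fun i => ⟨w (sq i), hwL (sq i)⟩
  have hli : LinearIndependent RA v := by
    rw [linearIndependent_iff']
    intro S g hsum
    by_contra hne
    push Not at hne
    obtain ⟨i₁, hi₁, hgi₁⟩ := hne
    let T := S.filter (fun i => g i ≠ 0)
    have hT : T.Nonempty := ⟨i₁, Finset.mem_filter.mpr ⟨hi₁, hgi₁⟩⟩
    let i := T.min' hT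
    have hi : i ∈ T := Finset.min'_mem T hT
    obtain ⟨hiS, hgi⟩ := Finset.mem_filter.mp hi
    have hsum' : ∑ j ∈ S, g j • w (sq j) = 0 := by
      have h3 := congrArg (fun q : j7_Lf e => (q : KE e)) hsum
      simpa [v] using h3
    rw [← Finset.add_sum_erase S _ hiS] at hsum'
    apply hh (sq i) (g i) hgi
    rw [← hsq]
    have h4 : g i • w (sq i) = - ∑ j ∈ S.erase i, g j • w (sq j) :=
      eq_neg_of_add_eq_zero_left hsum'
    rw [h4]
    apply Submodule.neg_mem
    apply Submodule.sum_mem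
    intro j hj
    by_cases hgj : g j = 0
    · rw [hgj, zero_smul]
      exact Submodule.zero_mem _
    · apply Submodule.smul_mem
      have hj2 : j ∈ T := Finset.mem_filter.mpr ⟨(Finset.mem_erase.mp hj).2, hgj⟩
      have hij : i ≤ j := Finset.min'_le T j hj2
      have hij2 : i + 1 ≤ j := by
        have := (Finset.mem_erase.mp hj).1
        omega
      exact hanti (i + 1) j hij2 (hwD (sq j))
  have := hli.finite_of_isNoetherian
  exact not_finite ℕ

theorem j7_act_pow_mem {e : ℕ} {D : Submodule RA (KE e)} {u : Au K}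
    (h : ∀ d ∈ D, j7_act e u d ∈ D) (n : ℕ) : ∀ d ∈ D, j7_act e (u ^ n) d ∈ D := by
  induction n with
  | zero =>
    intro d hd
    rwa [pow_zero, j7_act_one]
  | succ n ih =>
    intro d hd
    rw [pow_succ', j7_act_mul]
    exact h _ (ih d hd)

/-- every element is moved into `RA` by a power of the inverse -/
theorem j7_exh_pow {e : ℕ} {B' : AddSubgroup K} (hB : B' ≤ Bsub) {M : ℕ}
    {D : Submodule RA (KE e)} (h : j7_Good e B' M D) (d : KE e) (hd : d ∈ D) :
    ∃ n : ℕ, j7_act e (((xK ^ M)⁻¹) ^ n) d ∈ j7_Lf e := by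
  obtain ⟨N, hN⟩ := j7_exh (hB (h.le d hd))
  refine ⟨N, ?_⟩
  rw [j7_mem_Lf, j7_toK_act, inv_pow, ← pow_mul]
  apply hN
  have := h.hm
  nlinarith

theorem j7_torsion_free {e : ℕ} (he : 1 ≤ e) {r : RA} {q : KE e} (h : r • q = 0) :
    r = 0 ∨ q = 0 := by
  have h1 : iK (psi e r) * toK e q = 0 := by
    rw [← toK_smul, h, map_zero]
  rcases mul_eq_zero.mp h1 with h2 | h2
  · left
    have h3 : psi e r = 0 := by
      apply IsFractionRing.injective RA K
      rw [h2, map_zero]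
    apply j7_psi_inj e he
    rw [h3, map_zero]
  · right
    apply (toK e).injective
    rw [h2, map_zero]

theorem j7_act_pow_inv_Lf (e M n : ℕ) (q : KE e) (hq : q ∈ j7_Lf e) :
    j7_act e (((xK ^ M)⁻¹) ^ n) q ∈ j7_Lf e := by
  rw [inv_pow, ← pow_mul]
  exact j7_act_inv_Lf e _ q hq

theorem j7_fq (e : ℕ) (he : 1 ≤ e) {B' : AddSubgroup K} (hB : B' ≤ Bsub) {M : ℕ}
    {D0 D' : Submodule RA (KE e)} (h0 : j7_Good e B' M D0) (h1 : j7_Good e B' M D')
    (htor : ∀ w ∈ D0, w ∈ j7_Lf e → ∃ h : RA, h ≠ 0 ∧ h • w ∈ D') :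
    ∃ F : Set (KE e), F.Finite ∧ (∀ f ∈ F, f ∈ D0) ∧ ∀ b ∈ D0, ∃ f ∈ F, b - f ∈ D' := by
  classical
  set Ls : Submodule RA (KE e) := D0 ⊓ j7_Lf e with hLs
  have hfg : Ls.FG := isNoetherian_submodule.mp (j7_Lf_noeth e he) Ls inf_le_right
  obtain ⟨G, hG⟩ := hfg
  have hGL : ∀ g ∈ G, g ∈ Ls := by
    intro g hg
    rw [← hG]
    exact Submodule.subset_span hg
  -- the annihilator of `Ls` modulo `D'`
  let I : Ideal RA :=
    { carrier := {r | ∀ w ∈ Ls, r • w ∈ D'}
      zero_mem' := by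
        intro w _
        rw [zero_smul]
        exact Submodule.zero_mem _
      add_mem' := by
        intro a b ha hb w hw
        rw [add_smul]
        exact Submodule.add_mem _ (ha w hw) (hb w hw)
      smul_mem' := by
        intro c x hx w hw
        rw [smul_eq_mul, mul_smul]
        exact Submodule.smul_mem _ _ (hx w hw) }
  have hImem : ∀ r : RA, r ∈ I ↔ ∀ w ∈ Ls, r • w ∈ D' := fun r => Iff.rfl
  have hI : I ≠ ⊥ := by
    have hch : ∀ g : KE e, ∃ h : RA, g ∈ G → (h ≠ 0 ∧ h • g ∈ D') := by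
      intro g
      by_cases hg : g ∈ G
      · obtain ⟨h, hh⟩ := htor g (hGL g hg).1 (hGL g hg).2
        exact ⟨h, fun _ => hh⟩
      · exact ⟨0, fun h => absurd h hg⟩
    choose h hh using hch
    intro hbot
    have hmem : (∏ g ∈ G, h g) ∈ I := by
      rw [hImem]
      intro w hw
      rw [← hG] at hw
      induction hw using Submodule.span_induction with
      | mem x hx =>
        have hx' : x ∈ G := hx
        rw [← Finset.mul_prod_erase G h hx', mul_comm, mul_smul]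
        exact Submodule.smul_mem _ _ (hh x hx').2
      | zero => rw [smul_zero]; exact Submodule.zero_mem _
      | add x y _ _ hx hy => rw [smul_add]; exact Submodule.add_mem _ hx hy
      | smul a x _ hx => rw [smul_comm]; exact Submodule.smul_mem _ _ hx
    rw [hbot, Ideal.mem_bot, Finset.prod_eq_zero_iff] at hmem
    obtain ⟨g, hg, hg0⟩ := hmem
    exact (hh g hg).1 hg0
  have hinv : ∀ f ∈ I, autR (sg ^ M) f ∈ I := by
    intro f hf
    rw [hImem]
    intro w hw
    have hw' : j7_act e (xK ^ M)⁻¹ w ∈ Ls := ⟨h0.st' w hw.1, j7_act_inv_Lf e M w hw.2⟩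
    have h3 := h1.st _ (hf _ hw')
    rwa [j7_act_smul, j7_act_inv] at h3
  have hfin : Finite (RA ⧸ I) := finite_quot I hI M h1.hm hinv
  -- representatives
  let ev : (G → RA ⧸ I) → KE e := fun c => ∑ g : G, (Quotient.out (c g) : RA) • (g : KE e)
  have hevL : ∀ c, ev c ∈ Ls := fun c =>
    Submodule.sum_mem _ fun g _ => Submodule.smul_mem _ _ (hGL g g.2)
  have hrep : ∀ w ∈ Ls, ∃ c, w - ev c ∈ D' := by
    intro w hw
    rw [← hG, Submodule.mem_span_finset'] at hw
    obtain ⟨a, rfl⟩ := hw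
    refine ⟨fun g => Ideal.Quotient.mk I (a g), ?_⟩
    rw [← Finset.sum_sub_distrib]
    apply Submodule.sum_mem
    intro g _
    rw [← sub_smul]
    have : a g - (Quotient.out (Ideal.Quotient.mk I (a g)) : RA) ∈ I := by
      rw [← Ideal.Quotient.eq]
      exact (Quotient.out_eq _).symm
    exact this _ (hGL g g.2)
  refine ⟨Set.range ev, Set.finite_range ev, ?_, ?_⟩
  · rintro f ⟨c, rfl⟩
    exact (hevL c).1
  · intro b hb
    obtain ⟨n, hn⟩ := j7_exh_pow hB h0 b hb
    set u : Au K := xK ^ M with hu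
    have hbn : ∀ k, n ≤ k → j7_act e (u⁻¹ ^ k) b ∈ Ls := by
      intro k hk
      obtain ⟨l, rfl⟩ := Nat.exists_eq_add_of_le hk
      refine ⟨j7_act_pow_mem h0.st' _ b hb, ?_⟩
      rw [add_comm, pow_add, j7_act_mul]
      exact j7_act_pow_inv_Lf e M l _ hn
    choose! cc hcc using hrep
    obtain ⟨i, j, hij, hEq⟩ := Finite.exists_ne_map_eq_of_infinite
      (fun i : ℕ => cc (j7_act e (u⁻¹ ^ (n + i)) b))
    -- one of the two is bigger
    have key : ∀ i j : ℕ, i < j → cc (j7_act e (u⁻¹ ^ (n + i)) b) =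
        cc (j7_act e (u⁻¹ ^ (n + j)) b) → ∃ k, 1 ≤ k ∧ b - j7_act e (u⁻¹ ^ k) b ∈ D' := by
      intro i j hij hEq
      have h3 := hcc _ (hbn (n + i) (by omega))
      have h4 := hcc _ (hbn (n + j) (by omega))
      rw [hEq] at h3
      have h5 := Submodule.sub_mem _ h3 h4
      rw [sub_sub_sub_cancel_right] at h5
      refine ⟨j - i, by omega, ?_⟩
      have h6 := j7_act_pow_mem h1.st (n + i) _ h5
      rw [j7_act_sub, ← j7_act_mul, ← j7_act_mul, inv_pow, mul_inv_cancel, j7_act_one] at h6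
      have h7 : u ^ (n + i) * u⁻¹ ^ (n + j) = u⁻¹ ^ (j - i) := by
        have h8 : n + j = (n + i) + (j - i) := by omega
        rw [h8, pow_add u⁻¹, ← mul_assoc, inv_pow u (n + i), mul_inv_cancel, one_mul]
      rwa [h7] at h6
    obtain ⟨k, hk, hkb⟩ : ∃ k, 1 ≤ k ∧ b - j7_act e (u⁻¹ ^ k) b ∈ D' := by
      rcases lt_or_gt_of_ne hij with h | h
      · exact key i j h hEq
      · exact key j i h hEq.symm
    have hkn : ∀ t : ℕ, b - j7_act e (u⁻¹ ^ (k * t)) b ∈ D' := by
      intro t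
      induction t with
      | zero =>
        rw [mul_zero, pow_zero, j7_act_one, sub_self]
        exact Submodule.zero_mem _
      | succ t ih =>
        have h3 := j7_act_pow_mem h1.st' k _ ih
        rw [j7_act_sub, ← j7_act_mul, ← pow_add] at h3
        have h4 := Submodule.add_mem _ hkb h3
        rw [sub_add_sub_cancel] at h4
        have h5 : k * (t + 1) = k + k * t := by ring
        rwa [h5]
    have h6 : j7_act e (u⁻¹ ^ (k * n)) b ∈ Ls := hbn _ (by nlinarith)
    refine ⟨_, ⟨cc (j7_act e (u⁻¹ ^ (k * n)) b), rfl⟩, ?_⟩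
    have h7 := hcc _ h6
    have h8 := Submodule.add_mem _ (hkn n) h7
    rwa [sub_add_sub_cancel] at h8

theorem j7_pr (e : ℕ) (he : 1 ≤ e) {B' : AddSubgroup K} (hB : B' ≤ Bsub) {M : ℕ}
    {D' : Submodule RA (KE e)} (h1 : j7_Good e B' M D') :
    ¬ ∃ c : RA, c ≠ 0 ∧ ∀ b ∈ D', ∃ q : ℕ, c ^ q • b ∈ j7_Lf e := by
  rintro ⟨c, hc, hq⟩
  have hpc : psi e c ≠ 0 := by
    intro h
    apply hc
    apply j7_psi_inj e he
    rw [h, map_zero]
  -- a nonzero element of `RA` in `D'`
  obtain ⟨b, hb, hb0⟩ := Submodule.exists_mem_ne_zero_of_ne_bot h1.ne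
  obtain ⟨n₀, hn₀⟩ := j7_exh_pow hB h1 b hb
  obtain ⟨f, hf⟩ : ∃ f : RA, iK f = toK e (j7_act e ((xK ^ M)⁻¹ ^ n₀) b) := hn₀
  have hf0 : f ≠ 0 := by
    rintro rfl
    apply hb0
    have h2 : j7_act e ((xK ^ M)⁻¹ ^ n₀) b = 0 := by
      apply (toK e).injective
      rw [← hf, map_zero, map_zero]
    have h3 := congrArg (j7_act e ((xK ^ M) ^ n₀)) h2
    rw [← j7_act_mul, inv_pow, mul_inv_cancel, j7_act_one, j7_act_zero] at h3
    exact h3
  have hfD : j7_act e ((xK ^ M)⁻¹ ^ n₀) b ∈ D' := j7_act_pow_mem h1.st' _ b hb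
  -- a prime not dividing `c`
  obtain ⟨j, hj⟩ : ∃ j : ℕ, ¬ pj j ∣ psi e c := by
    by_contra hcon
    push Not at hcon
    have hfin := finite_dvd (psi e c) hpc
    have : (Set.range (fun j : ℕ => (j : ℤ))).Finite := by
      refine hfin.subset ?_
      rintro _ ⟨j, rfl⟩
      exact hcon j
    exact Set.infinite_range_of_injective Nat.cast_injective this
  have hdiv : ∀ n : ℕ, j < M * n → pj ((j : ℤ) - (M * n : ℕ)) ∣ f := by
    intro n hn
    have hy := j7_act_pow_mem h1.st n _ hfD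
    obtain ⟨q, hqq⟩ := hq _ hy
    obtain ⟨g, hg⟩ : ∃ g : RA, iK g = toK e (c ^ q •
      j7_act e ((xK ^ M) ^ n) (j7_act e ((xK ^ M)⁻¹ ^ n₀) b)) := hqq
    rw [toK_smul, j7_toK_act, ← hf, ← pow_mul, j7_xK_pow_iK, map_pow] at hg
    have h2 : ss (M * n) * g = (psi e c) ^ q * autR (sg ^ (M * n)) f := by
      apply IsFractionRing.injective RA K
      rw [map_mul, map_mul]
      change iK (ss (M * n)) * iK g = iK _ * iK _
      rw [hg]
      field_simp [j7_iK_ss_ne_zero (M * n)]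
    have h3 : pj j ∣ ss (M * n) := by
      unfold ss pj
      rw [zpow_natCast]
      exact Finset.dvd_prod_of_mem (fun j => autR (sg ^ j) aa) (Finset.mem_range.mpr hn)
    have h4 : pj j ∣ (psi e c) ^ q * autR (sg ^ (M * n)) f := by
      rw [← h2]
      exact h3.mul_right g
    have h5 : pj j ∣ autR (sg ^ (M * n)) f := by
      rcases (prime_pj j).dvd_or_dvd h4 with h | h
      · exact absurd ((prime_pj j).dvd_of_dvd_pow h) hj
      · exact h
    have h6 := map_dvd (autR (sg ^ (M * n))⁻¹) h5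
    rw [j7_autR_inv'] at h6
    have h7 : autR (sg ^ (M * n))⁻¹ (pj j) = pj ((j : ℤ) - (M * n : ℕ)) := by
      unfold pj
      rw [← autR_mul_apply, ← zpow_natCast, ← zpow_neg, ← zpow_add]
      congr 2
      ring_nf
    rwa [h7] at h6
  have hfin := finite_dvd f hf0
  have hM := h1.hm
  have hinf : (Set.range (fun n : ℕ => (j : ℤ) - (M * (n + j + 1) : ℕ))).Infinite := by
    apply Set.infinite_range_of_injective
    intro a b hab
    have h8 : (M * (a + j + 1) : ℕ) = (M * (b + j + 1) : ℕ) := by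
      have : (j : ℤ) - (M * (a + j + 1) : ℕ) = (j : ℤ) - (M * (b + j + 1) : ℕ) := hab
      omega
    have h9 := Nat.eq_of_mul_eq_mul_left (by omega) h8
    omega
  apply hinf
  refine hfin.subset ?_
  rintro _ ⟨n, rfl⟩
  exact hdiv (n + j + 1) (by nlinarith)

/-- restriction of an automorphism to a stable submodule -/
def j7_res (e : ℕ) (D : Submodule RA (KE e)) (u : Au K) (h : ∀ d ∈ D, j7_act e u d ∈ D)
    (h' : ∀ d ∈ D, j7_act e u⁻¹ d ∈ D) : Au D where
  val :=
    { toFun := fun d => ⟨j7_act e u d, h d d.2⟩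
      map_zero' := Subtype.ext (j7_act_zero e u)
      map_add' := fun a b => Subtype.ext (j7_act_add e u a b) }
  inv :=
    { toFun := fun d => ⟨j7_act e u⁻¹ d, h' d d.2⟩
      map_zero' := Subtype.ext (j7_act_zero e u⁻¹)
      map_add' := fun a b => Subtype.ext (j7_act_add e u⁻¹ a b) }
  val_inv := by
    ext d
    exact congrArg (toK e) (j7_act_inv e u d)
  inv_val := by
    ext d
    exact congrArg (toK e) (j7_act_inv' e u d)

section res

variable {e : ℕ} {D : Submodule RA (KE e)} {u : Au K} (h : ∀ d ∈ D, j7_act e u d ∈ D)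
    (h' : ∀ d ∈ D, j7_act e u⁻¹ d ∈ D)

theorem j7_res_coe (d : D) : ((j7_res e D u h h' • d : D) : KE e) = j7_act e u d := rfl

theorem j7_res_inv_coe (d : D) : (((j7_res e D u h h')⁻¹ • d : D) : KE e) = j7_act e u⁻¹ d :=
  rfl

theorem j7_res_pow_coe (n : ℕ) (d : D) :
    (((j7_res e D u h h') ^ n • d : D) : KE e) = j7_act e (u ^ n) d := by
  induction n with
  | zero => rw [pow_zero, one_smul, pow_zero, j7_act_one]
  | succ n ih => rw [pow_succ', mul_smul, j7_res_coe, ih, pow_succ', j7_act_mul]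

theorem j7_res_pow_inv_coe (n : ℕ) (d : D) :
    ((((j7_res e D u h h') ^ n)⁻¹ • d : D) : KE e) = j7_act e (u ^ n)⁻¹ d := by
  have h1 := j7_res_pow_coe h h' n (((j7_res e D u h h') ^ n)⁻¹ • d)
  rw [smul_inv_smul] at h1
  rw [h1, j7_act_inv']

end res

theorem j7_B_mul {B' : AddSubgroup K} (hy : ∀ v : A, ∀ q ∈ B', yK v • q ∈ B') (r : RA) :
    ∀ q ∈ B', iK r * q ∈ B' := by
  induction r using MonoidAlgebra.induction_on with
  | of v =>
    intro q hq
    exact hy v q hq
  | add f g hf hg =>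
    intro q hq
    rw [map_add, add_mul]
    exact B'.add_mem (hf q hq) (hg q hq)
  | smul c f hf =>
    have hc : c = 0 ∨ c = 1 := by
      revert c
      decide
    intro q hq
    rcases hc with rfl | rfl
    · simp
    · rw [one_smul]
      exact hf q hq

theorem exists_BPack (e : ℕ) (he : 1 ≤ e) (B' : AddSubgroup K) (hB : B' ≤ Bsub) (hne : B' ≠ ⊥)
    (hy : ∀ v : A, ∀ q ∈ B', yK v • q ∈ B') (hx : ∀ q ∈ B', xK • q ∈ B')
    (hx' : ∀ q ∈ B', xK⁻¹ • q ∈ B') :
    ∃ (m : ℕ) (_ : 1 ≤ m) (D : Submodule RA (KE e)) (_ : ∀ d ∈ D, toK e d ∈ B')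
      (X : Au D) (_ : ∀ d : D, toK e ((X • d : D) : KE e) = xK ^ m • toK e (d : KE e))
      (L : Submodule RA D), BPack D (sg ^ m) X L := by
  classical
  let Di : Submodule RA (KE e) :=
    { carrier := {q | toK e q ∈ B'}
      zero_mem' := B'.zero_mem
      add_mem' := fun ha hb => B'.add_mem ha hb
      smul_mem' := fun c x hx => j7_B_mul hy (psi e c) _ hx }
  have hDi : j7_Good e B' 1 Di := by
    refine ⟨le_rfl, ?_, fun d hd => hd, ?_, ?_⟩
    · intro hbot
      apply hne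
      rw [eq_bot_iff]
      intro q hq
      have : (toK e).symm q ∈ Di := hq
      rw [hbot, Submodule.mem_bot] at this
      have h2 := congrArg (toK e) this
      rw [AddEquiv.apply_symm_apply, map_zero] at h2
      exact h2
    · intro d hd
      change toK e (j7_act e (xK ^ 1) d) ∈ B'
      rw [pow_one]
      exact hx _ hd
    · intro d hd
      change toK e (j7_act e (xK ^ 1)⁻¹ d) ∈ B'
      rw [pow_one]
      exact hx' _ hd
  obtain ⟨m, D0, hg, htor⟩ := j7_choice e he B' 1 Di hDi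
  refine ⟨m, hg.hm, D0, hg.le, j7_res e D0 (xK ^ m) hg.st hg.st', fun d => rfl,
    (j7_Lf e).comap D0.subtype, ?_⟩
  -- translation of submodules of `D0`
  have tr : ∀ m' : ℕ, 1 ≤ m' → ∀ D : Submodule RA D0, D ≠ ⊥ →
      (∀ b ∈ D, (j7_res e D0 (xK ^ m) hg.st hg.st') ^ m' • b ∈ D) →
      (∀ b ∈ D, ((j7_res e D0 (xK ^ m) hg.st hg.st') ^ m')⁻¹ • b ∈ D) →
      j7_Good e B' (m * m') (D.map D0.subtype) := by
    intro m' hm' D hD h1 h2
    refine ⟨Nat.mul_pos hg.hm hm', ?_, ?_, ?_, ?_⟩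
    · intro hbot
      apply hD
      apply Submodule.map_injective_of_injective D0.injective_subtype
      rw [hbot, Submodule.map_bot]
    · rintro _ ⟨d, _, rfl⟩
      exact hg.le _ d.2
    · rintro _ ⟨d, hd, rfl⟩
      refine ⟨_, h1 d hd, ?_⟩
      rw [Submodule.subtype_apply, j7_res_pow_coe, ← pow_mul, Submodule.subtype_apply]
    · rintro _ ⟨d, hd, rfl⟩
      refine ⟨_, h2 d hd, ?_⟩
      rw [Submodule.subtype_apply, j7_res_pow_inv_coe, ← pow_mul, Submodule.subtype_apply]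
  have hgM : ∀ m' : ℕ, 1 ≤ m' → j7_Good e B' (m * m') D0 := by
    intro m' hm'
    refine ⟨Nat.mul_pos hg.hm hm', hg.ne, hg.le, ?_, ?_⟩
    · intro d hd
      rw [pow_mul]
      exact j7_act_pow_mem hg.st _ d hd
    · intro d hd
      rw [pow_mul, ← inv_pow]
      exact j7_act_pow_mem hg.st' _ d hd
  obtain ⟨b₀, hb₀, hb₀0⟩ := Submodule.exists_mem_ne_zero_of_ne_bot hg.ne
  constructor
  · -- infinite
    have hRA : Infinite RA := by
      have : Function.Injective (fun v : A => mono v) := MonoidAlgebra.of_injective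
      exact Infinite.of_injective _ this
    refine Infinite.of_injective (fun r : RA => (⟨r • b₀, D0.smul_mem r hb₀⟩ : D0)) ?_
    intro r s hrs
    have h1 : r • b₀ = s • b₀ := congrArg Subtype.val hrs
    have h2 : (r - s) • b₀ = 0 := by rw [sub_smul, h1, sub_self]
    rcases j7_torsion_free he h2 with h3 | h3
    · exact sub_eq_zero.mp h3
    · exact absurd h3 hb₀0
  · intro v b
    apply Subtype.ext
    rw [j7_res_coe, Submodule.coe_smul, j7_act_smul, autR_mono, Submodule.coe_smul, j7_res_coe]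
  · apply Submodule.fg_of_fg_map_injective D0.subtype D0.injective_subtype
    apply isNoetherian_submodule.mp (j7_Lf_noeth e he)
    rintro _ ⟨d, hd, rfl⟩
    exact hd
  · intro b hb
    change ((((j7_res e D0 (xK ^ m) hg.st hg.st')⁻¹ • b : D0)) : KE e) ∈ j7_Lf e
    rw [j7_res_inv_coe]
    exact j7_act_inv_Lf e m _ hb
  · intro b
    obtain ⟨n, hn⟩ := j7_exh_pow hB hg b b.2
    refine ⟨n, ?_⟩
    change (((((j7_res e D0 (xK ^ m) hg.st hg.st') ^ n)⁻¹ • b : D0)) : KE e) ∈ j7_Lf e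
    rw [j7_res_pow_inv_coe, ← inv_pow]
    exact hn
  · intro b
    obtain ⟨n, f, hf⟩ := hB (hg.le b b.2)
    obtain ⟨h, hh, s, hs⟩ := j7_dvd e he (ss n) (j7_ss_ne_zero n)
    refine ⟨h, hh, ?_⟩
    change ((h • b : D0) : KE e) ∈ j7_Lf e
    rw [Submodule.coe_smul, j7_mem_Lf, toK_smul, hs]
    refine j7_mem_Rg.mpr ⟨s * f, ?_⟩
    rw [map_mul, ← hf, map_mul]
    ring
  · intro m' hm' D hD h1 h2
    obtain ⟨F, hF, hFD, hFb⟩ := j7_fq e he hB (hgM m' hm') (tr m' hm' D hD h1 h2)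
      (htor m' _ hm' (tr m' hm' D hD h1 h2) (by
        rintro _ ⟨d, _, rfl⟩
        exact d.2))
    have hFf : Finite F := hF
    refine Finite.of_surjective
      (fun f : F => (Submodule.Quotient.mk (⟨f.1, hFD f.1 f.2⟩ : D0) : D0 ⧸ D)) ?_
    intro z
    obtain ⟨b, rfl⟩ := Submodule.Quotient.mk_surjective D z
    obtain ⟨f, hf, hbf⟩ := hFb b b.2
    refine ⟨⟨f, hf⟩, ?_⟩
    symm
    rw [Submodule.Quotient.eq]
    obtain ⟨d, hd, hdb⟩ := hbf
    have : (b - ⟨f, hFD f hf⟩ : D0) = d := Subtype.ext hdb.symm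
    rwa [this]
  · intro m' hm' D hD h1 h2
    rintro ⟨c, hc, hcq⟩
    apply j7_pr e he hB (tr m' hm' D hD h1 h2)
    refine ⟨c, hc, ?_⟩
    rintro _ ⟨d, hd, rfl⟩
    obtain ⟨q, hq⟩ := hcq d hd
    exact ⟨q, hq⟩


end Pool.Agent.E2F

end
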