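import Pool.Agent.Lib.E2F.CaseIMain

set_option autoImplicit false

noncomputable section

namespace Pool.Agent.E2F

section aut

/-- ring automorphism of `F_2[G]` induced by an automorphism of `G` -/
def autG {G : Type*} [Group G] (τ : MulAut G) :
    MonoidAlgebra (ZMod 2) G ≃+* MonoidAlgebra (ZMod 2) G :=
  (MonoidAlgebra.domCongr (ZMod 2) (ZMod 2) τ).toRingEquiv

theorem autG_of {G : Type*} [Group G] (τ : MulAut G) (v : G) :
    autG τ (MonoidAlgebra.of (ZMod 2) G v) = MonoidAlgebra.of (ZMod 2) G (τ v) := by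
  simp [autG]

/-- restriction of an automorphism to a subgroup -/
def resMulAut {G : Type*} [Group G] (φ : MulAut G) (T : Subgroup G) (h : ∀ t ∈ T, φ t ∈ T)
    (h' : ∀ t ∈ T, φ⁻¹ t ∈ T) : MulAut T where
  toFun t := ⟨φ t, h t t.2⟩
  invFun t := ⟨φ⁻¹ t, h' t t.2⟩
  left_inv t := Subtype.ext (MulAut.inv_apply_self _ φ t)
  right_inv t := Subtype.ext (MulAut.apply_inv_self _ φ t)
  map_mul' s t := Subtype.ext (map_mul φ _ _)

end aut

section mid

variable {Tg : Type} [CommGroup Tg] {aT : A →* MulAut Tg} {N : Type} [AddCommGroup N]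
    {ρ : Tg →* Au N} {α : A →* Au N} {φ : MulAut Tg} {ξ : Au N}
    {Bt : Type} [AddCommGroup Bt] [Module RA Bt] {τ : MulAut A} {X : Au Bt} {L : Submodule RA Bt}
    {j : Bt →+ N}

theorem mem_pow_stab {N : Type*} [AddCommGroup N] {Y : AddSubgroup N} {g : Au N} (h : g ∈ stabAu Y)
    (n : ℕ) : g ^ n ∈ stabAu Y := (stabAu Y).pow_mem h n

/-- The induction hypothesis -/
def IHyp {Tg : Type} [CommGroup Tg] (aT : A →* MulAut Tg) (C : Subgroup Tg) : Prop :=
    ∀ C' : Subgroup Tg, C < C' → ∀ (N' : Type) (_ : AddCommGroup N') (ρ' : Tg →* Au N')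
      (α' : A →* Au N') (φ' : MulAut Tg) (ξ' : Au N') (Bt' : Type) (_ : AddCommGroup Bt')
      (_ : Module RA Bt') (τ' : MulAut A) (X' : Au Bt') (L' : Submodule RA Bt') (j' : Bt' →+ N'),
      Dat aT ρ' α' φ' ξ' τ' X' L' j' → C' = ρ'.ker → False

theorem Dat.main (d : Dat aT ρ α φ ξ τ X L j) (C : Subgroup Tg) (hC : C ≤ ρ.ker)
    [Group.FG Tg] (hinf : Infinite (Tg ⧸ C))
    (huni : ∀ v : A, ∃ n : ℕ, ∀ t : Tg, (fun s => aT v s * s⁻¹)^[n] t = 1)
    (hCa : ∀ v : A, ∀ t ∈ C, aT v t ∈ C)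
    (hT : ∀ t ∈ TT aT C, φ t ∈ TT aT C) (hT' : ∀ t ∈ TT aT C, φ⁻¹ t ∈ TT aT C)
    (hmax : ∀ N'' : AddSubgroup N, (∀ t, ∀ w ∈ N'', ρ t • w ∈ N'') →
      (∀ v, ∀ w ∈ N'', α v • w ∈ N'') → (∃ k, 1 ≤ k ∧ ξ ^ k ∈ stabAu N'') →
      (∀ b, j b ∈ N'' → b = 0) → N'' = ⊥)
    (IH : IHyp aT C) : False := by
  set T0 := TT aT C with hT0
  let θ0 : MonoidAlgebra (ZMod 2) T0 →+* AddMonoid.End N := liftEnd d.two (ρ.comp T0.subtype)
  have hθ0 : ∀ t : T0, θ0 (MonoidAlgebra.of (ZMod 2) _ t) = (ρ t : AddMonoid.End N) :=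
    fun t => liftEnd_of d.two (ρ.comp T0.subtype) t
  have hθ0ρ : ∀ r (t : Tg), θ0 r * (ρ t : AddMonoid.End N) = (ρ t : AddMonoid.End N) * θ0 r := by
    intro r t
    induction r using MA_ind with
    | h0 => rw [map_zero, zero_mul, mul_zero]
    | hof v => rw [hθ0, ← Units.val_mul, rho_comm, Units.val_mul]
    | hadd a b ha hb => rw [map_add, add_mul, mul_add, ha, hb]
  have hθ0α : ∀ r (v : A), θ0 r * (α v : AddMonoid.End N) = (α v : AddMonoid.End N) * θ0 r := by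
    intro r v
    induction r using MA_ind with
    | h0 => rw [map_zero, zero_mul, mul_zero]
    | hof t => rw [hθ0, ← Units.val_mul, ← d.alpha_rho C hC v t t.2, Units.val_mul]
    | hadd a b ha hb => rw [map_add, add_mul, mul_add, ha, hb]
  let Φ : MonoidAlgebra (ZMod 2) T0 ≃+* MonoidAlgebra (ZMod 2) T0 := autG (resMulAut φ T0 hT hT')
  have hΦ : ∀ r w, ξ • (θ0 r w) = θ0 (Φ r) (ξ • w) := by
    intro r w
    induction r using MA_ind with
    | h0 => rw [map_zero, map_zero, map_zero]; exact smul_zero _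
    | hof t =>
      have h1 : Φ (MonoidAlgebra.of (ZMod 2) _ t) = MonoidAlgebra.of (ZMod 2) _ (resMulAut φ T0 hT hT' t) :=
        autG_of _ _
      rw [h1, hθ0, hθ0]
      exact d.hξ t w
    | hadd a b ha hb =>
      rw [map_add, map_add, map_add]
      show ξ • (θ0 a w + θ0 b w) = _
      rw [smul_add, ha, hb]
      rfl
  have hne : ∃ w : N, w ≠ 0 := by
    have := d.pack.inf
    obtain ⟨b, hb⟩ := exists_ne (0 : Bt)
    exact ⟨j b, fun h => hb (d.inj (by rw [h, map_zero]))⟩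
  have hfg : Group.FG T0 := fg_subgroup _
  have hft : Algebra.FiniteType (ZMod 2) (MonoidAlgebra (ZMod 2) T0) := inferInstance
  have hnoeR : IsNoetherianRing (MonoidAlgebra (ZMod 2) T0) :=
    Algebra.FiniteType.isNoetherianRing (ZMod 2) _
  obtain ⟨p0, hp0⟩ := exists_maxAnn θ0 hne
  obtain ⟨m, hm, hmp⟩ := hp0.exists_pow θ0 ξ Φ hΦ (opSet ρ ⊤)
    (by rintro _ ⟨t, _, rfl⟩ r; exact hθ0ρ r t) d.noe
  have hΦm : ∀ r w, ξ ^ m • (θ0 r w) = θ0 ((Φ ^ m) r) (ξ ^ m • w) := by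
    clear hm hmp
    induction m with
    | zero => intro r w; simp
    | succ n ih =>
      intro r w
      rw [pow_succ', mul_smul, ih, hΦ, pow_succ', mul_smul]
      rfl
  have hprime := hp0.prime
  set N0 := killed θ0 p0 with hN0
  have h1 : ∀ t, ∀ w ∈ N0, ρ t • w ∈ N0 := by
    intro t w hw r hr
    show (θ0 r * (ρ t : AddMonoid.End N)) w = 0
    rw [hθ0ρ]
    show ρ t • (θ0 r w) = 0
    rw [hw r hr, smul_zero]
  have h2 : ∀ v, ∀ w ∈ N0, α v • w ∈ N0 := by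
    intro t w hw r hr
    show (θ0 r * (α t : AddMonoid.End N)) w = 0
    rw [hθ0α]
    show α t • (θ0 r w) = 0
    rw [hw r hr, smul_zero]
  have h3 : ξ ^ m ∈ stabAu N0 := by
    constructor
    · intro w hw r hr
      have h4 := hΦm ((Φ ^ m).symm r) w
      rw [RingEquiv.apply_symm_apply] at h4
      rw [← h4, hw, smul_zero]
      rw [hmp, RingEquiv.apply_symm_apply]
      exact hr
    · intro w hw r hr
      have h4 := hΦm r ((ξ ^ m)⁻¹ • w)
      rw [smul_inv_smul, hw _ ((hmp r).mp hr)] at h4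
      exact (smul_eq_zero_iff_eq _).mp h4
  have h4 : d.pre N0 h2 ≠ ⊥ := by
    intro h0
    have h5 := hmax N0 h1 h2 ⟨m, hm, h3⟩ (by
      intro b hb
      have : b ∈ d.pre N0 h2 := hb
      rw [h0] at this
      exact this)
    obtain ⟨w, hw, hwp⟩ := hp0.ex
    apply hw
    have : w ∈ N0 := by
      intro r hr
      rw [← hwp] at hr
      exact hr
    rw [h5] at this
    exact this
  obtain ⟨X', L', d2⟩ := (d.pow m hm).sub N0 h1 h2 h3 h4
  set ρ2 := (subA N0).comp (ρ.codRestrict (stabAu N0) (mem_stab_of ρ N0 h1)) with hρ2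
  set α2 := (subA N0).comp (α.codRestrict (stabAu N0) (mem_stab_of α N0 h2)) with hα2
  set ξ2 := subA N0 ⟨ξ ^ m, h3⟩ with hξ2
  have hC2 : C ≤ ρ2.ker := by
    intro t ht
    rw [MonoidHom.mem_ker]
    refine Units.ext (AddMonoidHom.ext fun w => Subtype.ext ?_)
    show ρ t • (w : N) = w
    rw [MonoidHom.mem_ker.mp (hC ht), one_smul]
  let θ2 : MonoidAlgebra (ZMod 2) T0 →+* AddMonoid.End N0 := liftEnd d2.two (ρ2.comp T0.subtype)
  have hθ2 : ∀ t : T0, θ2 (MonoidAlgebra.of (ZMod 2) _ t) = (ρ2 t : AddMonoid.End N0) :=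
    fun t => liftEnd_of d2.two (ρ2.comp T0.subtype) t
  have hθ20 : ∀ r (w : N0), ((θ2 r w : N0) : N) = θ0 r w := by
    intro r w
    induction r using MA_ind with
    | h0 => rw [map_zero, map_zero]; rfl
    | hof t => rw [hθ2, hθ0]; rfl
    | hadd a b ha hb =>
      rw [map_add, map_add]
      show ((θ2 a w : N0) : N) + ((θ2 b w : N0) : N) = θ0 a w + θ0 b w
      rw [ha, hb]
  have hθ2ρ : ∀ r (t : Tg), θ2 r * (ρ2 t : AddMonoid.End N0) = (ρ2 t : AddMonoid.End N0) * θ2 r := by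
    intro r t
    induction r using MA_ind with
    | h0 => rw [map_zero, zero_mul, mul_zero]
    | hof v => rw [hθ2, ← Units.val_mul, rho_comm, Units.val_mul]
    | hadd a b ha hb => rw [map_add, add_mul, mul_add, ha, hb]
  have hθ2α : ∀ r (v : A), θ2 r * (α2 v : AddMonoid.End N0) = (α2 v : AddMonoid.End N0) * θ2 r := by
    intro r v
    induction r using MA_ind with
    | h0 => rw [map_zero, zero_mul, mul_zero]
    | hof t => rw [hθ2, ← Units.val_mul, ← d2.alpha_rho C hC2 v t t.2, Units.val_mul]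
    | hadd a b ha hb => rw [map_add, add_mul, mul_add, ha, hb]
  have hker : ∀ r ∈ p0, θ2 r = 0 := by
    intro r hr
    refine DFunLike.ext (θ2 r) 0 fun w => Subtype.ext ?_
    rw [hθ20]
    exact w.2 r hr
  let θ : (MonoidAlgebra (ZMod 2) T0 ⧸ p0) →+* AddMonoid.End N0 := Ideal.Quotient.lift p0 θ2 hker
  have hθmk : ∀ r, θ (Ideal.Quotient.mk p0 r) = θ2 r := fun r => Ideal.Quotient.lift_mk _ _ _
  have hθρ : ∀ r (t : Tg), θ r * (ρ2 t : AddMonoid.End N0) = (ρ2 t : AddMonoid.End N0) * θ r := by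
    intro r t
    obtain ⟨r, rfl⟩ := Ideal.Quotient.mk_surjective r
    rw [hθmk]; exact hθ2ρ r t
  have hθα : ∀ r (v : A), θ r * (α2 v : AddMonoid.End N0) = (α2 v : AddMonoid.End N0) * θ r := by
    intro r t
    obtain ⟨r, rfl⟩ := Ideal.Quotient.mk_surjective r
    rw [hθmk]; exact hθ2α r t
  have htf : ∀ s, s ≠ 0 → ∀ w, θ s w = 0 → w = 0 := by
    intro s hs w hw
    obtain ⟨r, rfl⟩ := Ideal.Quotient.mk_surjective s
    rw [hθmk] at hw
    by_contra hw0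
    apply hs
    rw [Ideal.Quotient.eq_zero_iff_mem]
    have h5 : annI θ0 (w : N) = p0 := hp0.max _ (fun h => hw0 (Subtype.ext h)) w.2
    rw [← h5, mem_annI, ← hθ20, hw]
    rfl
  have hmap : p0 = p0.map ((Φ ^ m : MonoidAlgebra (ZMod 2) T0 ≃+* MonoidAlgebra (ZMod 2) T0) :
      MonoidAlgebra (ZMod 2) T0 →+* MonoidAlgebra (ZMod 2) T0) := by
    ext r
    constructor
    · intro hr
      have h5 : (Φ ^ m).symm r ∈ p0 := by
        rw [hmp, RingEquiv.apply_symm_apply]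
        exact hr
      have h6 := Ideal.mem_map_of_mem ((Φ ^ m : MonoidAlgebra (ZMod 2) T0 ≃+* MonoidAlgebra (ZMod 2) T0) :
        MonoidAlgebra (ZMod 2) T0 →+* MonoidAlgebra (ZMod 2) T0) h5
      have h7 : ((Φ ^ m : MonoidAlgebra (ZMod 2) T0 ≃+* MonoidAlgebra (ZMod 2) T0) :
        MonoidAlgebra (ZMod 2) T0 →+* MonoidAlgebra (ZMod 2) T0) ((Φ ^ m).symm r) = r :=
        (Φ ^ m).apply_symm_apply r
      rwa [h7] at h6
    · intro hr
      obtain ⟨x, hx, rfl⟩ := (Ideal.mem_map_iff_of_surjective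
        ((Φ ^ m : MonoidAlgebra (ZMod 2) T0 ≃+* MonoidAlgebra (ZMod 2) T0) :
        MonoidAlgebra (ZMod 2) T0 →+* MonoidAlgebra (ZMod 2) T0) (Φ ^ m).surjective).mp hr
      exact (hmp x).mp hx
  let Φb : (MonoidAlgebra (ZMod 2) T0 ⧸ p0) ≃+* (MonoidAlgebra (ZMod 2) T0 ⧸ p0) :=
    Ideal.quotientEquiv p0 p0 (Φ ^ m) hmap
  have hΦb : ∀ s w, ξ2 • (θ s w) = θ (Φb s) (ξ2 • w) := by
    intro s w
    obtain ⟨r, rfl⟩ := Ideal.Quotient.mk_surjective s
    have h5 : Φb (Ideal.Quotient.mk p0 r) = Ideal.Quotient.mk p0 ((Φ ^ m) r) :=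
      Ideal.quotientEquiv_mk _ _ _ _ _
    rw [h5, hθmk, hθmk]
    refine Subtype.ext ?_
    rw [hθ20]
    show ξ ^ m • ((θ2 r w : N0) : N) = θ0 ((Φ ^ m) r) (ξ ^ m • (w : N))
    rw [hθ20]
    exact hΦm r w
  have hdom : IsDomain (MonoidAlgebra (ZMod 2) T0 ⧸ p0) := inferInstance
  have hTm : ∀ n : ℕ, (∀ t ∈ T0, (φ ^ n) t ∈ T0) ∧ (∀ t ∈ T0, (φ ^ n)⁻¹ t ∈ T0) := by
    intro n
    induction n with
    | zero => exact ⟨fun t ht => by simpa using ht, fun t ht => by simpa using ht⟩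
    | succ n ih =>
      constructor
      · intro t ht
        rw [pow_succ]
        exact ih.1 _ (hT t ht)
      · intro t ht
        rw [pow_succ, mul_inv_rev]
        exact hT' _ (ih.2 t ht)
  by_cases hcase : ∃ (u : (d.pow m hm).pre N0 h2) (v : A),
      ∀ f : ℤ →₀ (MonoidAlgebra (ZMod 2) T0 ⧸ p0),
        (f.sum fun i s => θ s ((α2 v ^ i) • (AddMonoidHom.mk' (fun b : (d.pow m hm).pre N0 h2 =>
          (⟨j b, b.2⟩ : N0)) (fun a b => Subtype.ext (map_add j (a : Bt) b))) u)) = 0 → f = 0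
  · obtain ⟨u, v, huv⟩ := hcase
    obtain ⟨n, hn, hj⟩ := d2.caseII C hC2 (hTm m).1 (hTm m).2 (MonoidAlgebra (ZMod 2) T0 ⧸ p0)
      ((Ideal.Quotient.mk p0 : _ →* _).comp (MonoidAlgebra.of (ZMod 2) T0)) θ
      (fun t => by
        show θ (Ideal.Quotient.mk p0 _) = _
        rw [hθmk]; exact hθ2 t) hθρ hθα u v huv (huni v)
    obtain ⟨t, ht, htn⟩ := exists_T0 aT huni C hCa hinf n hn
    exact d2.caseII_concl C hC2 (hTm m).1 (hTm m).2 n hj t ht htn IH
  · push Not at hcase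
    refine d2.caseI C hC2 (MonoidAlgebra (ZMod 2) T0 ⧸ p0) (Ideal.Quotient.mk p0)
      Ideal.Quotient.mk_surjective θ (fun t => by rw [hθmk]; exact hθ2 t) hθρ hθα Φb hΦb htf ?_
    intro u _ v
    obtain ⟨f, hf, hf0⟩ := hcase u v
    exact ⟨f, hf0, hf⟩

theorem nside_aux {Tg : Type} [CommGroup Tg] [Group.FG Tg] (aT : A →* MulAut Tg)
    (huni : ∀ v : A, ∃ n : ℕ, ∀ t : Tg, (fun s => aT v s * s⁻¹)^[n] t = 1) (C : Subgroup Tg) :
    ∀ (N : Type) (_ : AddCommGroup N) (ρ : Tg →* Au N)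
      (α : A →* Au N) (φ : MulAut Tg) (ξ : Au N) (Bt : Type) (_ : AddCommGroup Bt)
      (_ : Module RA Bt) (τ : MulAut A) (X : Au Bt) (L : Submodule RA Bt) (j : Bt →+ N),
      Dat aT ρ α φ ξ τ X L j → C = ρ.ker → False := by
  have hwf : WellFoundedGT (Subgroup Tg) := wf_subgroup Tg
  induction C using WellFoundedGT.induction with
  | ind C IH =>
  intro N _ ρ α φ ξ Bt _ _ τ X L j d hCk
  obtain ⟨N', ⟨h1, h2, ⟨m, hm, h3⟩, h4⟩, hmax⟩ := d.noe.exists_max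
    (fun N' => (∀ t, ∀ w ∈ N', ρ t • w ∈ N') ∧ (∀ v, ∀ w ∈ N', α v • w ∈ N') ∧
      (∃ m, 1 ≤ m ∧ ξ ^ m ∈ stabAu N') ∧ ∀ b, j b ∈ N' → b = 0)
    (by
      rintro Y ⟨hY, -⟩
      refine ⟨?_, bot_le, le_top⟩
      rintro _ ⟨t, _, rfl⟩ w hw
      exact hY t w hw)
    ⊥ ⟨by
        intro t w hw
        rw [AddSubgroup.mem_bot] at hw ⊢
        rw [hw, smul_zero], by
        intro t w hw
        rw [AddSubgroup.mem_bot] at hw ⊢
        rw [hw, smul_zero], ⟨1, le_rfl, by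
          constructor <;>
          · intro w hw
            rw [AddSubgroup.mem_bot] at hw ⊢
            rw [hw, smul_zero]⟩, by
        intro b hb
        rw [AddSubgroup.mem_bot] at hb
        exact d.inj (by rw [hb, map_zero])⟩
  have d1 := (d.pow m hm).quot N' h1 h2 h3 h4
  have hst := TT_stable aT C φ τ d.hφ (by rw [hCk]; exact d.ker_stable_φ)
    (by rw [hCk]; exact d.ker_stable_φ')
  have hTm : ∀ n : ℕ, (∀ t ∈ TT aT C, (φ ^ n) t ∈ TT aT C) ∧ (∀ t ∈ TT aT C, (φ ^ n)⁻¹ t ∈ TT aT C) := by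
    intro n
    induction n with
    | zero => exact ⟨fun t ht => by simpa using ht, fun t ht => by simpa using ht⟩
    | succ n ih =>
      constructor
      · intro t ht
        rw [pow_succ]
        exact ih.1 _ (hst.1 t ht)
      · intro t ht
        rw [pow_succ, mul_inv_rev]
        exact hst.2 _ (ih.2 t ht)
  refine d1.main C ?_ (by rw [hCk]; exact d.step0) huni (by rw [hCk]; exact d.ker_stable)
    (hTm m).1 (hTm m).2 ?_ ?_
  · intro t ht
    rw [MonoidHom.mem_ker]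
    refine Units.ext (AddMonoidHom.ext fun w => ?_)
    obtain ⟨w, rfl⟩ := QuotientAddGroup.mk_surjective w
    show ((ρ t • w : N) : N ⧸ N') = (w : N ⧸ N')
    rw [hCk] at ht
    rw [MonoidHom.mem_ker.mp ht, one_smul]
  · intro N'' g1 g2 ⟨k, hk, g3⟩ g4
    have hle : N' ≤ N''.comap (QuotientAddGroup.mk' N') := by
      intro w hw
      show (w : N ⧸ N') ∈ N''
      rw [(QuotientAddGroup.eq_zero_iff w).mpr hw]
      exact N''.zero_mem
    have hpow : ∀ (k : ℕ) (w : N), ((quotA N' ⟨ξ ^ m, h3⟩) ^ k • (w : N ⧸ N')) =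
        (((ξ ^ m) ^ k • w : N) : N ⧸ N') := by
      intro k w
      rw [← map_pow]
      rfl
    have hpow' : ∀ (k : ℕ) (w : N), (((quotA N' ⟨ξ ^ m, h3⟩) ^ k)⁻¹ • (w : N ⧸ N')) =
        ((((ξ ^ m) ^ k)⁻¹ • w : N) : N ⧸ N') := by
      intro k w
      rw [← map_pow, ← map_inv]
      rfl
    have heq := hmax (N''.comap (QuotientAddGroup.mk' N')) ⟨fun t w hw => g1 t _ hw,
      fun v w hw => g2 v _ hw, ⟨m * k, Nat.mul_pos hm hk, by
        rw [pow_mul]
        constructor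
        · intro w hw
          show (((ξ ^ m) ^ k • w : N) : N ⧸ N') ∈ N''
          rw [← hpow]
          exact g3.1 _ hw
        · intro w hw
          show ((((ξ ^ m) ^ k)⁻¹ • w : N) : N ⧸ N') ∈ N''
          rw [← hpow']
          exact g3.2 _ hw⟩, fun b hb => g4 b hb⟩ hle
    rw [eq_bot_iff]
    intro w hw
    obtain ⟨w, rfl⟩ := QuotientAddGroup.mk_surjective w
    have : w ∈ N''.comap (QuotientAddGroup.mk' N') := hw
    rw [heq] at this
    rw [AddSubgroup.mem_bot]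
    exact (QuotientAddGroup.eq_zero_iff w).mpr this
  · intro C' hC' N1 i1 ρ1 α1 φ1 ξ1 Bt1 i2 i3 τ1 X1 L1 j1 d1 hk
    exact IH C' hC' N1 i1 ρ1 α1 φ1 ξ1 Bt1 i2 i3 τ1 X1 L1 j1 d1 hk

end mid

theorem nside {Tg : Type} [CommGroup Tg] [Group.FG Tg] (aT : A →* MulAut Tg)
    (huni : ∀ v : A, ∃ n : ℕ, ∀ t : Tg, (fun s => aT v s * s⁻¹)^[n] t = 1)
    {N : Type} [AddCommGroup N] (hN2 : ∀ w : N, w + w = 0)
    (ρ : Tg →* Au N) (hNoe : Noe (opSet ρ ⊤) ⊥ ⊤)
    (α : A →* Au N) (hα : ∀ (v : A) (t : Tg) (w : N), α v • (ρ t • w) = ρ (aT v t) • (α v • w))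
    (φ : MulAut Tg) (ξ : Au N) (hξ : ∀ (t : Tg) (w : N), ξ • (ρ t • w) = ρ (φ t) • (ξ • w))
    {Bt : Type} [AddCommGroup Bt] [Module RA Bt] (τ : MulAut A) (X : Au Bt) (L : Submodule RA Bt)
    (hB : BPack Bt τ X L)
    (hξα : ∀ (v : A), ξ * α v = α (τ v) * ξ)
    (hφ : ∀ v : A, φ * aT v * φ⁻¹ = aT (τ v))
    (j : Bt →+ N) (hj : Function.Injective j)
    (hjα : ∀ (v : A) (b : Bt), j (mono v • b) = α v • j b)
    (hjξ : ∀ b : Bt, j (X • b) = ξ • j b) : False :=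
  nside_aux aT huni ρ.ker N _ ρ α φ ξ Bt _ _ τ X L j
    ⟨hN2, hNoe, hα, hξ, hB, hξα, hφ, hj, hjα, hjξ⟩ rfl

end Pool.Agent.E2F

end
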