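import Pool.Agent.Lib.E2F.J1
import Pool.Agent.Lib.E2F.J2
import Pool.Agent.Lib.E2F.J3
import Pool.Agent.Lib.E2F.J4
import Pool.Agent.Lib.E2F.J6
import Pool.Agent.Lib.E2F.J7

set_option autoImplicit false

noncomputable section

namespace Pool.Agent.E2F

/-! ### J3 unipotency -/

theorem unip {Tg : Type*} [CommGroup Tg] [Group.FG Tg] (aT : A →* MulAut Tg) (φ : MulAut Tg)
    (h : ∀ v : A, φ * aT v * φ⁻¹ = aT (sg v)) :
    ∃ e : ℕ, 1 ≤ e ∧ ∀ v : A, ∃ n : ℕ, ∀ t : Tg, (fun s => aT (v ^ e) s * s⁻¹)^[n] t = 1 :=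
  J3.unip aT φ h

theorem exists_T0 {Tg : Type*} [CommGroup Tg] [Group.FG Tg] (aT : A →* MulAut Tg)
    (huni : ∀ v : A, ∃ n : ℕ, ∀ t : Tg, (fun s => aT v s * s⁻¹)^[n] t = 1)
    (C : Subgroup Tg) (hC : ∀ v : A, ∀ t ∈ C, aT v t ∈ C) (hinf : Infinite (Tg ⧸ C))
    (n : ℕ) (hn : 1 ≤ n) :
    ∃ t : Tg, (∀ v : A, aT v t * t⁻¹ ∈ C) ∧ t ^ n ∉ C :=
  J3.exists_T0 aT huni C hC hinf n hn

/-! ### J4 group reduction -/

theorem group_reduction {M : Type} [Group M] [Group.FG M] (hM : derivedSeries M 2 = ⊥)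
    {Bg : Type} [AddCommGroup Bg] [Infinite Bg] (h2 : ∀ b : Bg, b + b = 0)
    {P : Type} [Group P] (act : P →* Au Bg)
    (fB : Multiplicative Bg →* MulAut M) (hfB : Function.Injective fB)
    (fP : P →* MulAut M)
    (hcomp : ∀ (g : P) (b : Bg),
      fP g * fB (Multiplicative.ofAdd b) * (fP g)⁻¹ = fB (Multiplicative.ofAdd (act g • b))) :
    ∃ (Tg : Type) (_ : CommGroup Tg) (_ : Group.FG Tg) (N : Type) (_ : AddCommGroup N)
      (ρ : Tg →* Au N) (pT : P →* MulAut Tg) (pN : P →* Au N) (B' : AddSubgroup Bg)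
      (hst : ∀ (g : P) (b : Bg), b ∈ B' → act g • b ∈ B') (j : B' →+ N),
      (∀ w : N, w + w = 0) ∧ Noe (opSet ρ ⊤) ⊥ ⊤ ∧
      (∀ (g : P) (t : Tg) (w : N), pN g • (ρ t • w) = ρ (pT g t) • (pN g • w)) ∧
      B' ≠ ⊥ ∧ Function.Injective j ∧
      ∀ (g : P) (b : B'), j ⟨act g • (b : Bg), hst g b b.2⟩ = pN g • j b :=
  J4.group_reduction hM h2 act fB hfB fP hcomp


end Pool.Agent.E2F

end
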